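import Pool.Agent.Lib_MP_0c5939_al.Stmts

/-!
# MP_0c5939_al, piece AMem: A consists exactly of the elements satisfying inA

Proof:
F.A is the closure of {g | inA g}. Show inA is closed under 1, mul, inv (Subgroup.closure_induction).
mul: disp (g h) c w = disp h c w + disp g c (w + disp h c w).toNat for w < N c (F.ev_mul; w + disp h c w =
ev h c w); the shifted function is local by LOCSHIFT (range: F.ev_lt), the sum by LOCCOMB. (Values at
w >= N c are irrelevant: LocAt only looks at w < N c; you can use congruence on w < N c or the fact that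
disp vanishes for w >= N c.)
inv: let disp g be LocAt k, R a bound of |disp g| (LOCBDD), m >= k with R <= 16^m. Claim disp g^-1 is LocAt
(m+1). Let KeyEq (m+1) c c' w w', u = ev g^-1 c w, v = u - w (integer), |v| = |disp g c u| <= R. By KSHIFT
w' + v is in range and KeyEq m c c' u u' where u' = w' + v. So disp g c' u' = disp g c u = w - u = -v,
i.e. ev g c' u' = u' - v = w', so ev g^-1 c' w' = u' and disp g^-1 c' w' = v. Signs: map_mul, map_inv.
-/

namespace OutRF
open Equiv

theorem AMem.disp_one (F : Fam) : F.disp 1 = fun _ _ => 0 := by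
  funext c w
  simp [Fam.disp, Fam.ev_one]

theorem AMem.inA_one (F : Fam) : F.inA 1 := by
  refine ⟨fun c => by simp, 0, ?_⟩
  rw [AMem.disp_one]
  intro c c' w w' _ _ _ _ _
  rfl

theorem AMem.inA_mul (hLOCCOMB : LOCCOMB_stmt) (hLOCSHIFT : LOCSHIFT_stmt) (F : Fam) (g h : F.P)
    (hg : F.inA g) (hh : F.inA h) : F.inA (g * h) := by
  refine ⟨fun c => ?_, ?_⟩
  · have : (g * h) c = g c * h c := rfl
    rw [this, map_mul, hg.1 c, hh.1 c, one_mul]
  · have key : ∀ (c : F.C) (w : ℕ), (w : ℤ) + F.disp h c w = F.ev h c w := by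
      intro c w
      simp [Fam.disp]
    have h1 : F.Loc (fun c w => F.disp g c ((w : ℤ) + F.disp h c w).toNat) := by
      apply hLOCSHIFT F ℤ (F.disp g) (F.disp h) hg.2 hh.2
      intro c w hw
      rw [key c w]
      exact ⟨by positivity, by exact_mod_cast Fam.ev_lt F h c w hw⟩
    have h2 := hLOCCOMB F ℤ ℤ ℤ _ _ (fun a b => a + b) hh.2 h1
    have h3 : F.disp (g * h) = (fun c w => F.disp h c w + F.disp g c ((w : ℤ) + F.disp h c w).toNat) := by
      funext c w
      rw [key c w, Int.toNat_natCast]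
      simp only [Fam.disp, Fam.ev_mul]
      ring
    rw [h3]
    exact h2

theorem AMem.inA_inv (hKSHIFT : KSHIFT_stmt) (hLOCMONO : LOCMONO_stmt) (hLOCBDD : LOCBDD_stmt)
    (F : Fam) (g : F.P) (hg : F.inA g) : F.inA g⁻¹ := by
  refine ⟨fun c => ?_, ?_⟩
  · have : g⁻¹ c = (g c)⁻¹ := rfl
    rw [this, map_inv, hg.1 c, inv_one]
  · obtain ⟨k, hk⟩ := hg.2
    obtain ⟨R, hR⟩ := hLOCBDD F (F.disp g) hg.2
    -- choose m
    obtain ⟨m, hkm, hRm⟩ : ∃ m, k ≤ m ∧ R ≤ 16 ^ m := by
      refine ⟨max k R, le_max_left _ _, ?_⟩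
      calc R ≤ 2 ^ R := Nat.lt_two_pow_self.le
        _ ≤ 16 ^ R := Nat.pow_le_pow_left (by norm_num) _
        _ ≤ 16 ^ (max k R) := Nat.pow_le_pow_right (by norm_num) (le_max_right _ _)
    have hm := hLOCMONO F ℤ k m (F.disp g) hkm hk
    refine ⟨m + 1, ?_⟩
    intro c c' w w' hc hc' hw hw' hkey
    -- u = ev g⁻¹ c w
    have hu : F.ev g⁻¹ c w < F.N c := Fam.ev_lt F _ c w hw
    have hgu : F.ev g c (F.ev g⁻¹ c w) = w := Fam.ev_ev_inv F g c w
    obtain ⟨u, hu'⟩ : ∃ u, u = F.ev g⁻¹ c w := ⟨_, rfl⟩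
    rw [← hu'] at hu hgu
    have hd : F.disp g c u = (w : ℤ) - u := by simp [Fam.disp, hgu]
    have hv : |(u : ℤ) - w| ≤ (16 : ℤ) ^ m := by
      have h1 := hR c u hu
      rw [hd, abs_sub_comm] at h1
      have h2 : (R : ℤ) ≤ (16 : ℤ) ^ m := by exact_mod_cast hRm
      exact h1.trans h2
    have h3 := hKSHIFT F m c c' w w' ((u : ℤ) - w) (by omega) (by omega) hw hw' hkey hv
      (by omega) (by omega)
    obtain ⟨h4, h5, h6⟩ := h3
    obtain ⟨u', hu''⟩ : ∃ u' : ℕ, u' = ((w' : ℤ) + ((u : ℤ) - w)).toNat := ⟨_, rfl⟩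
    rw [← hu''] at h6
    have h7 : ((w : ℤ) + ((u : ℤ) - w)).toNat = u := by omega
    rw [h7] at h6
    have hu2 : u' < F.N c' := by omega
    have h8 := hm c c' u u' (by omega) (by omega) hu hu2 h6
    rw [hd] at h8
    have h9 : F.ev g c' u' = w' := by
      have : F.disp g c' u' = (F.ev g c' u' : ℤ) - u' := rfl
      omega
    have h10 : F.ev g⁻¹ c' w' = u' := by
      rw [← h9]; exact Fam.ev_inv_ev F g c' u'
    simp only [Fam.disp]
    rw [← hu', h10]
    omega

theorem AMEM (hKSHIFT : KSHIFT_stmt) (hLOCMONO : LOCMONO_stmt) (hLOCBDD : LOCBDD_stmt) (hLOCCOMB : LOCCOMB_stmt) (hLOCSHIFT : LOCSHIFT_stmt) (hLOCFINITE : LOCFINITE_stmt) : AMEM_stmt := by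
  intro F g
  constructor
  · intro hg
    refine Subgroup.closure_induction (p := fun g _ => F.inA g) ?_ ?_ ?_ ?_ hg
    · intro x hx
      exact hx
    · exact AMem.inA_one F
    · intro x y _ _ hx hy
      exact AMem.inA_mul hLOCCOMB hLOCSHIFT F x y hx hy
    · intro x _ hx
      exact AMem.inA_inv hKSHIFT hLOCMONO hLOCBDD F x hx
  · intro hg
    exact Subgroup.subset_closure hg

end OutRF
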