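import Pool.Agent.Lib_MP_0c5939_al.Stmts

/-!
# MP_0c5939_al, piece AltGen: consecutive 3-cycles generate the alternating group

Proof:
Mathlib: Equiv.Perm.closure_three_cycles_eq_alternating (closure of 3-cycles = alternating group). So show
every 3-cycle is in S. One way: induction on L: let S contain all c3 L x. Show that for distinct a < b < c
the 3-cycle (a b c) is in S, using conjugation: it suffices that S acts so that ... e.g. first (a, a+1, c) by
induction on c: (a, a+1, c+1) is a conjugate of (a,a+1,c)^(+-1) by a 3-cycle (.., c, c+1); then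
(a, b, c) by induction on b. Alternatively: alternatingGroup is generated by products of two adjacent
transpositions: Perm (Fin L) is generated by adjacent swaps s_i = swap i (i+1) (Mathlib:
Equiv.Perm.mclosure_swap_castSucc_succ), so an even perm is a product of pairs s_i s_j; and
s_i s_j = (s_i s_{i+1}) (s_{i+1} s_{i+2}) ... (s_{j-1} s_j) telescopes with s_i s_{i+1} = c3 or its inverse.
The second way is short: show by induction on words that every product of adjacent swaps of even length lies
in S and odd length lies in s_0 S.
-/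

namespace OutRF
open Equiv

namespace AltGenAux

/-- A subgroup consisting of even permutations such that every permutation lies in it after
multiplication with a fixed odd permutation, if not before, is the alternating group. -/
theorem alt_le {n : ℕ} (S : Subgroup (Perm (Fin n))) (e : Perm (Fin n)) (he : Perm.sign e = -1)
    (hS : ∀ g ∈ S, Perm.sign g = 1) (h : ∀ g, g ∈ S ∨ e * g ∈ S) :
    alternatingGroup (Fin n) ≤ S := by
  intro g hg
  rw [Perm.mem_alternatingGroup] at hg
  rcases h g with h1 | h1
  · exact h1
  · exfalso
    have h2 := hS _ h1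
    rw [Perm.sign_mul, he, hg] at h2
    exact absurd h2 (by decide)

end AltGenAux

open AltGenAux

theorem ALTGEN : ALTGEN_stmt := by
  intro L S hS
  rcases Nat.lt_or_ge L 2 with hL | hL
  · intro g _
    have : Subsingleton (Fin L) := by
      constructor
      intro x y
      apply Fin.ext
      have := x.2
      have := y.2
      omega
    have : g = 1 := Subsingleton.elim _ _
    rw [this]
    exact S.one_mem
  obtain ⟨m, rfl⟩ : ∃ m, L = m + 2 := ⟨L - 2, by omega⟩
  set H : Subgroup (Perm (Fin (m + 2))) :=
    Subgroup.closure {g | ∃ (x : ℕ) (h : x + 2 < m + 2), g = c3 (m + 2) x h} with hH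
  have hHS : H ≤ S := by
    rw [hH, Subgroup.closure_le]
    rintro g ⟨x, hx, rfl⟩
    exact hS x hx
  refine le_trans ?_ hHS
  have hmem : ∀ (x : ℕ) (h : x + 2 < m + 2), c3 (m + 2) x h ∈ H := fun x h =>
    Subgroup.subset_closure ⟨x, h, rfl⟩
  set e : Perm (Fin (m + 2)) := swap ⟨0, by omega⟩ ⟨1, by omega⟩ with he
  refine alt_le H e (Perm.sign_swap (by simp [Fin.ext_iff])) ?_ ?_
  · intro g hg
    have hle : H ≤ alternatingGroup (Fin (m + 2)) := by
      rw [hH, Subgroup.closure_le]
      rintro g ⟨x, hx, rfl⟩
      change c3 (m + 2) x hx ∈ alternatingGroup (Fin (m + 2))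
      unfold c3
      rw [Perm.mem_alternatingGroup, Perm.sign_mul, Perm.sign_swap (by simp [Fin.ext_iff]),
        Perm.sign_swap (by simp [Fin.ext_iff])]
      decide
    exact Perm.mem_alternatingGroup.1 (hle hg)
  · have htel : ∀ (i : ℕ) (hi : i + 1 < m + 2),
        e * swap (⟨i, by omega⟩ : Fin (m + 2)) ⟨i + 1, hi⟩ ∈ H := by
      intro i
      induction i with
      | zero =>
        intro hi
        have : e * swap (⟨0, by omega⟩ : Fin (m + 2)) ⟨0 + 1, hi⟩ = 1 := by
          rw [he]
          exact swap_mul_self _ _
        rw [this]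
        exact H.one_mem
      | succ i ih =>
        intro hi
        have h1 := H.mul_mem (ih (by omega)) (hmem i (by omega))
        have h2 : e * swap (⟨i, by omega⟩ : Fin (m + 2)) ⟨i + 1, by omega⟩ * c3 (m + 2) i (by omega) =
            e * swap (⟨i + 1, by omega⟩ : Fin (m + 2)) ⟨i + 1 + 1, hi⟩ := by
          unfold c3
          rw [mul_assoc, ← mul_assoc (swap (⟨i, by omega⟩ : Fin (m + 2)) ⟨i + 1, by omega⟩),
            swap_mul_self, one_mul]
        rw [h2] at h1
        exact h1
    have hadj : ∀ (i : ℕ) (hi : i + 1 < m + 2), ∀ g, (g ∈ H ∨ e * g ∈ H) →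
        (swap (⟨i, by omega⟩ : Fin (m + 2)) ⟨i + 1, hi⟩ * g ∈ H ∨
          e * (swap (⟨i, by omega⟩ : Fin (m + 2)) ⟨i + 1, hi⟩ * g) ∈ H) := by
      intro i hi g hg
      rcases hg with hg | hg
      · right
        rw [← mul_assoc]
        exact H.mul_mem (htel i hi) hg
      · left
        have h1 : swap (⟨i, by omega⟩ : Fin (m + 2)) ⟨i + 1, hi⟩ * g =
            (e * swap (⟨i, by omega⟩ : Fin (m + 2)) ⟨i + 1, hi⟩)⁻¹ * (e * g) := by
          rw [mul_inv_rev, swap_inv, mul_assoc, ← mul_assoc e⁻¹, inv_mul_cancel, one_mul]
        rw [h1]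
        exact H.mul_mem (H.inv_mem (htel i hi)) hg
    intro g
    have hg : g ∈ Submonoid.closure
        (Set.range fun i : Fin (m + 1) => swap i.castSucc i.succ) := by
      rw [Perm.mclosure_swap_castSucc_succ]
      trivial
    induction hg using Submonoid.closure_induction_left with
    | one => exact Or.inl H.one_mem
    | mul_left x hx y hy ih =>
      obtain ⟨i, rfl⟩ := hx
      exact hadj i (by omega) y ih

end OutRF
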