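import Pool.Agent.Lib_MP_0c5939_al.Stmts2

/-!
# MP_0c5939_al, piece AltStar: star 3-cycles generate

Proof:
s_j = (a b j) = swap a b * swap b j (a -> b -> j -> a). By Equiv.Perm.closure_three_cycles_eq_alternating it is
enough that all 3-cycles are in S. For distinct i, j, k outside {a,b}:
s_j s_i s_j^-1 = (s_j a, s_j b, s_j i) = (b j i). s_i^-1 s_j s_i = (s_i^-1 a, s_i^-1 b, s_i^-1 j) = (i a j).
s_k (b j i) s_k^-1 = (k j i). So all 3-cycles with support {a,b,j} (s_j, s_j^-1), {b,i,j}, {a,i,j}, {i,j,k}.
-/

namespace OutRF
open Equiv

namespace AltStarAux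

/-- A subgroup consisting of even permutations such that every permutation lies in it after
multiplication with a fixed odd permutation, if not before, is the alternating group. -/
theorem alt_le {n : ℕ} (S : Subgroup (Perm (Fin n))) (e : Perm (Fin n)) (he : Perm.sign e = -1)
    (hS : ∀ g ∈ S, Perm.sign g = 1) (h : ∀ g, g ∈ S ∨ e * g ∈ S) :
    alternatingGroup (Fin n) ≤ S := by
  intro g hg
  rw [Perm.mem_alternatingGroup] at hg
  rcases h g with h1 | h1
  · exact h1
  · exfalso
    have h2 := hS _ h1
    rw [Perm.sign_mul, he, hg] at h2
    exact absurd h2 (by decide)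

end AltStarAux

open AltStarAux

theorem ALTSTAR : ALTSTAR_stmt := by
  intro n a b S hab hS
  set H : Subgroup (Perm (Fin n)) :=
    Subgroup.closure {g | ∃ j, j ≠ a ∧ j ≠ b ∧ g = swap a b * swap b j} with hH
  have hHS : H ≤ S := by
    rw [hH, Subgroup.closure_le]
    rintro g ⟨j, hja, hjb, rfl⟩
    exact hS j hja hjb
  refine le_trans ?_ hHS
  have hmem : ∀ j, j ≠ a → j ≠ b → swap a b * swap b j ∈ H := fun j hja hjb =>
    Subgroup.subset_closure ⟨j, hja, hjb, rfl⟩
  refine alt_le H (swap a b) (Perm.sign_swap hab) ?_ ?_
  · intro g hg
    have hle : H ≤ alternatingGroup (Fin n) := by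
      rw [hH, Subgroup.closure_le]
      rintro g ⟨j, hja, hjb, rfl⟩
      change swap a b * swap b j ∈ alternatingGroup (Fin n)
      rw [Perm.mem_alternatingGroup, Perm.sign_mul, Perm.sign_swap hab, Perm.sign_swap hjb.symm]
      decide
    exact Perm.mem_alternatingGroup.1 (hle hg)
  · -- closed under multiplication with the star transpositions
    have hstar : ∀ j, j ≠ b → ∀ g, (g ∈ H ∨ swap a b * g ∈ H) →
        (swap b j * g ∈ H ∨ swap a b * (swap b j * g) ∈ H) := by
      intro j hjb g hg
      by_cases hja : j = a
      · subst hja
        rw [swap_comm b j]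
        rcases hg with hg | hg
        · right
          rwa [← mul_assoc, swap_mul_self, one_mul]
        · left
          exact hg
      · rcases hg with hg | hg
        · right
          rw [← mul_assoc]
          exact H.mul_mem (hmem j hja hjb) hg
        · left
          have h1 : swap b j * g = (swap a b * swap b j)⁻¹ * (swap a b * g) := by
            rw [mul_inv_rev, swap_inv, swap_inv, mul_assoc, ← mul_assoc (swap a b), swap_mul_self, one_mul]
          rw [h1]
          exact H.mul_mem (H.inv_mem (hmem j hja hjb)) hg
    intro g
    induction g using Perm.swap_induction_on with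
    | one => exact Or.inl H.one_mem
    | swap_mul g x y hxy ih =>
      by_cases hx : x = b
      · subst hx
        exact hstar y hxy.symm g ih
      · by_cases hy : y = b
        · subst hy
          rw [swap_comm x y]
          exact hstar x hxy g ih
        · have h1 : swap x y = swap b x * (swap b y * swap b x) := by
            rw [swap_comm b y, ← mul_assoc, swap_mul_swap_mul_swap hy hxy.symm]
          rw [h1, mul_assoc, mul_assoc]
          exact hstar x hx _ (hstar y hy _ (hstar x hx g ih))

end OutRF
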