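import Pool.Agent.Lib_MP_0c5939_al.Stmts

/-!
# MP_0c5939_al, piece App: existence of the uniform application

Proof:
Fix L, S, h with Valid L S. For a component c define f : Nat -> Nat: if there is p with (c,p) in S and
p <= w < p+L (it is unique by Valid) then p + h (w-p) else w. f maps [0, N c) to itself (p + L <= N c), maps
each window to itself and is inverse to the same construction for h^-1. So it gives a Perm (Fin (N c)).
Then app is the chosen element (F.app unfolds by dif_pos).
-/

namespace OutRF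
open Equiv

open Classical in
/-- the map of the uniform application -/
noncomputable def appFn (F : Fam) (L : ℕ) (S : Set (F.C × ℕ)) (h : Perm (Fin L)) (c : F.C) (w : ℕ) : ℕ :=
  if H : ∃ p, (c, p) ∈ S ∧ p ≤ w ∧ w < p + L then
    H.choose + (h ⟨w - H.choose, by have := H.choose_spec; omega⟩ : ℕ) else w

theorem appFn_in (F : Fam) (L : ℕ) (S : Set (F.C × ℕ)) (h : Perm (Fin L)) (hV : F.Valid L S) (c : F.C)
    (p : ℕ) (hp : (c, p) ∈ S) (r : Fin L) : appFn F L S h c (p + r) = p + (h r : ℕ) := by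
  have hr := r.2
  have H : ∃ q, (c, q) ∈ S ∧ q ≤ p + (r : ℕ) ∧ p + (r : ℕ) < q + L := ⟨p, hp, by omega, by omega⟩
  have hc : H.choose = p := by
    obtain ⟨h1, h2, h3⟩ := H.choose_spec
    rcases lt_trichotomy H.choose p with hlt | heq | hgt
    · have := hV.2 c _ _ h1 hp hlt
      omega
    · exact heq
    · have := hV.2 c _ _ hp h1 hgt
      omega
  unfold appFn
  rw [dif_pos H]
  have he : (⟨p + (r : ℕ) - H.choose, by have := H.choose_spec; omega⟩ : Fin L) = r := by
    apply Fin.ext
    simp only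
    omega
  rw [he, hc]

theorem appFn_out (F : Fam) (L : ℕ) (S : Set (F.C × ℕ)) (h : Perm (Fin L)) (c : F.C)
    (w : ℕ) (hw : ∀ p, (c, p) ∈ S → ¬ (p ≤ w ∧ w < p + L)) : appFn F L S h c w = w := by
  unfold appFn
  rw [dif_neg]
  rintro ⟨p, h1, h2⟩
  exact hw p h1 h2

theorem appFn_lt (F : Fam) (L : ℕ) (S : Set (F.C × ℕ)) (h : Perm (Fin L)) (hV : F.Valid L S) (c : F.C)
    (w : ℕ) (hw : w < F.N c) : appFn F L S h c w < F.N c := by
  by_cases H : ∃ p, (c, p) ∈ S ∧ p ≤ w ∧ w < p + L
  · obtain ⟨p, hp, h1, h2⟩ := H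
    have h3 := appFn_in F L S h hV c p hp ⟨w - p, by omega⟩
    simp only [show p + (w - p) = w by omega] at h3
    rw [h3]
    have h4 := hV.1 c p hp
    have h5 := (h ⟨w - p, by omega⟩).2
    omega
  · push Not at H
    rw [appFn_out F L S h c w (fun p hp hh => absurd hh.2 (not_lt.2 (H p hp hh.1)))]
    exact hw

theorem appFn_inv (F : Fam) (L : ℕ) (S : Set (F.C × ℕ)) (h h' : Perm (Fin L)) (hh : ∀ r, h' (h r) = r)
    (hV : F.Valid L S) (c : F.C)
    (w : ℕ) : appFn F L S h' c (appFn F L S h c w) = w := by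
  by_cases H : ∃ p, (c, p) ∈ S ∧ p ≤ w ∧ w < p + L
  · obtain ⟨p, hp, h1, h2⟩ := H
    have h3 := appFn_in F L S h hV c p hp ⟨w - p, by omega⟩
    simp only [show p + (w - p) = w by omega] at h3
    rw [h3, appFn_in F L S h' hV c p hp, hh]
    simp only
    omega
  · push Not at H
    have hw : ∀ p, (c, p) ∈ S → ¬ (p ≤ w ∧ w < p + L) :=
      fun p hp hh => absurd hh.2 (not_lt.2 (H p hp hh.1))
    rw [appFn_out F L S h c w hw, appFn_out F L S h' c w hw]

theorem APP : APP_stmt := by
  intro F L S h hV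
  have hex : ∃ g, F.IsApp L S h g := by
    refine ⟨fun c => ⟨fun x => ⟨appFn F L S h c x, appFn_lt F L S h hV c x x.2⟩,
      fun x => ⟨appFn F L S h⁻¹ c x, appFn_lt F L S h⁻¹ hV c x x.2⟩, ?_, ?_⟩, ?_, ?_⟩
    · intro x
      apply Fin.ext
      exact appFn_inv F L S h h⁻¹ (fun r => by simp) hV c x
    · intro x
      apply Fin.ext
      exact appFn_inv F L S h⁻¹ h (fun r => by simp) hV c x
    · intro c p hp r
      have h4 := hV.1 c p hp
      have h5 := r.2
      rw [F.ev_of_lt _ c _ (by omega)]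
      exact appFn_in F L S h hV c p hp r
    · intro c w hw
      by_cases hlt : w < F.N c
      · rw [F.ev_of_lt _ c _ hlt]
        exact appFn_out F L S h c w hw
      · rw [F.ev_of_ge _ c _ hlt]
  unfold Fam.app
  rw [dif_pos hex]
  exact hex.choose_spec

end OutRF
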