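import Pool.Agent.Lib_MP_0c5939_al.Stmts

/-!
# MP_0c5939_al, piece AppF: application of a local assignment of even permutations

Proof:
Induction over a Finset D of Perm (Fin L): there is gamma_D in Gam acting as H c p on the windows
(c,p) in S with H c p in D and trivially elsewhere. Step D -> insert h D: if h is not even no window has
H c p = h; otherwise multiply by app L {(c,p) in S | H c p = h} h in Gam (APPG; the set is local by LOCCOMB
since H and S are local; Valid passes to subsets). Windows are disjoint. Take D = univ.
-/

namespace OutRF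
open Equiv

theorem Fam.Valid.eq_of_mem {F : Fam} {L : ℕ} {S : Set (F.C × ℕ)} (hV : F.Valid L S) {c : F.C}
    {p q w : ℕ} (hp : (c, p) ∈ S) (hq : (c, q) ∈ S) (h1 : p ≤ w ∧ w < p + L)
    (h2 : q ≤ w ∧ w < q + L) : p = q := by
  rcases lt_trichotomy p q with h | h | h
  · have := hV.2 c p q hp hq h
    omega
  · exact h
  · have := hV.2 c q p hq hp h
    omega

theorem APPF (hAPP : APP_stmt) (hAPPG : APPG_stmt) (hLOCCOMB : LOCCOMB_stmt) : APPF_stmt := by
  classical
  intro F L S H y hS hH hres hV heven
  have main : ∀ D : Finset (Perm (Fin L)), ∃ γ ∈ F.Gam,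
      (∀ c p, (c, p) ∈ S → H c p ∈ D → ∀ r : Fin L, F.ev γ c (p + r) = p + (H c p r : ℕ)) ∧
      (∀ c w, (∀ p, (c, p) ∈ S → H c p ∈ D → ¬ (p ≤ w ∧ w < p + L)) → F.ev γ c w = w) := by
    intro D
    induction D using Finset.induction with
    | empty =>
      refine ⟨1, F.Gam.one_mem, ?_, ?_⟩
      · intro c p _ h
        simp at h
      · intro c w _
        exact F.ev_one c w
    | insert h D hD ih =>
      obtain ⟨γ, hγ, h1, h2⟩ := ih
      by_cases he : h ∈ alternatingGroup (Fin L)
      · set S' : Set (F.C × ℕ) := {q | q ∈ S ∧ H q.1 q.2 = h} with hS'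
        have hV' : F.Valid L S' :=
          ⟨fun c p hp => hV.1 c p hp.1, fun c p q hp hq => hV.2 c p q hp.1 hq.1⟩
        have hloc : F.Loc (fun c w => (c, w) ∈ S') :=
          hLOCCOMB F Prop (Perm (Fin L)) Prop _ _ (fun a b => a ∧ b = h) hS hH
        have hg : F.app L S' h ∈ F.Gam :=
          hAPPG F L S' h y hloc (fun q hq => hres q hq.1) hV' he
        have hA := hAPP F L S' h hV'
        refine ⟨F.app L S' h * γ, F.Gam.mul_mem hg hγ, ?_, ?_⟩
        · intro c p hp hHp r
          rw [F.ev_mul]
          rcases Finset.mem_insert.1 hHp with e | e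
          · have hfix : F.ev γ c (p + r) = p + r := by
              apply h2
              intro p' hp' hD' hw
              have : p = p' := hV.eq_of_mem hp hp' ⟨by omega, by omega⟩ hw
              subst this
              rw [e] at hD'
              exact hD hD'
            rw [hfix, hA.1 c p ⟨hp, e⟩ r, e]
          · rw [h1 c p hp e r]
            apply hA.2
            intro p' hp' hw
            have : p = p' := hV.eq_of_mem hp hp'.1 ⟨by omega, by omega⟩ hw
            subst this
            have h3 : H c p = h := hp'.2
            rw [h3] at e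
            exact hD e
        · intro c w hw
          rw [F.ev_mul, h2 c w (fun p hp hd => hw p hp (Finset.mem_insert_of_mem hd))]
          apply hA.2
          intro p hp
          exact hw p hp.1 (by rw [show H c p = h from hp.2]; exact Finset.mem_insert_self _ _)
      · refine ⟨γ, hγ, ?_, ?_⟩
        · intro c p hp hHp
          apply h1 c p hp
          rcases Finset.mem_insert.1 hHp with e | e
          · exact absurd (e ▸ heven c p hp) he
          · exact e
        · intro c w hw
          exact h2 c w (fun p hp hd => hw p hp (Finset.mem_insert_of_mem hd))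
  obtain ⟨γ, hγ, h1, h2⟩ := main Finset.univ
  exact ⟨γ, hγ, fun c p hp => h1 c p hp (Finset.mem_univ _),
    fun c w hw => h2 c w (fun p hp _ => hw p hp)⟩

end OutRF
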