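import Pool.Agent.Lib_MP_0c5939_al.Stmts

/-!
# MP_0c5939_al, piece AppG: uniform even permutations over local sets are in Gam

Proof:
{h | app L S h in Gam} is a subgroup of Perm (Fin L) (app multiplicative under Valid, IsApp.unique). By
ALTGEN it is enough that app L S (c3 L x) in Gam for x + 2 < L. Let x' = (y + x) % 16 and
theta' = {(c, p + x - x') | (c,p) in S} : 16 | p + x - x' (p % 16 = y), p+x-x' >= 0 since (p + x) % 16 = x',
p + x < N. theta' in blk, and theta' is local (LOCSH with v = x' - x, as a Prop valued function; F.Loc of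
(c,w) in theta' iff (c, w + x' - x) in S and range conditions; elements of S satisfy p + L <= N). By REC and BR
Rm theta', so T theta' x' in Gam. pos theta' x' = {(c,p+x)} (p+x+3 <= p+L <= N) and
T theta' x' = app 3 {(c,p+x)} (finRotate 3) = app L S (c3 L x) by IsApp.unique.
If S has the residue condition with y arbitrary (y >= 16 means S empty) all is fine.
-/

namespace OutRF
open Equiv

theorem appg_isApp_one (F : Fam) (L : ℕ) (S : Set (F.C × ℕ)) : F.IsApp L S 1 1 :=
  ⟨fun c _ _ _ => by rw [F.ev_one]; rfl, fun c w _ => F.ev_one c w⟩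

theorem appg_isApp_mul {F : Fam} {L : ℕ} {S : Set (F.C × ℕ)} {h h' : Perm (Fin L)} {g g' : F.P}
    (hg : F.IsApp L S h g) (hg' : F.IsApp L S h' g') : F.IsApp L S (h * h') (g * g') := by
  refine ⟨fun c p hp r => ?_, fun c w hw => ?_⟩
  · rw [F.ev_mul, hg'.1 c p hp r, hg.1 c p hp (h' r)]
    rfl
  · rw [F.ev_mul, hg'.2 c w hw, hg.2 c w hw]

theorem appg_c3_0 (L x : ℕ) (h : x + 2 < L) : c3 L x h ⟨x, by omega⟩ = ⟨x + 1, by omega⟩ := by
  have e1 : swap (⟨x + 1, by omega⟩ : Fin L) ⟨x + 2, h⟩ ⟨x, by omega⟩ = ⟨x, by omega⟩ := by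
    apply swap_apply_of_ne_of_ne
    · intro e
      have := congrArg Fin.val e
      simp only at this
      omega
    · intro e
      have := congrArg Fin.val e
      simp only at this
      omega
  unfold c3
  rw [Perm.mul_apply, e1, swap_apply_left]

theorem appg_c3_1 (L x : ℕ) (h : x + 2 < L) : c3 L x h ⟨x + 1, by omega⟩ = ⟨x + 2, h⟩ := by
  unfold c3
  rw [Perm.mul_apply, swap_apply_left]
  apply swap_apply_of_ne_of_ne
  · intro e
    have := congrArg Fin.val e
    simp only at this
    omega
  · intro e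
    have := congrArg Fin.val e
    simp only at this
    omega

theorem appg_c3_2 (L x : ℕ) (h : x + 2 < L) : c3 L x h ⟨x + 2, h⟩ = ⟨x, by omega⟩ := by
  unfold c3
  rw [Perm.mul_apply, swap_apply_right, swap_apply_right]

theorem appg_c3_ne (L x : ℕ) (h : x + 2 < L) (r : Fin L) (h0 : (r : ℕ) ≠ x) (h1 : (r : ℕ) ≠ x + 1)
    (h2 : (r : ℕ) ≠ x + 2) : c3 L x h r = r := by
  have n0 : r ≠ ⟨x, by omega⟩ := fun e => h0 (congrArg Fin.val e)
  have n1 : r ≠ ⟨x + 1, by omega⟩ := fun e => h1 (congrArg Fin.val e)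
  have n2 : r ≠ ⟨x + 2, h⟩ := fun e => h2 (congrArg Fin.val e)
  unfold c3
  rw [Perm.mul_apply, swap_apply_of_ne_of_ne n1 n2, swap_apply_of_ne_of_ne n0 n1]

theorem appg_eq {F : Fam} {L : ℕ} {S : Set (F.C × ℕ)} (hV : F.Valid L S) {c : F.C}
    {p q w : ℕ} (hp : (c, p) ∈ S) (hq : (c, q) ∈ S) (h1 : p ≤ w ∧ w < p + L)
    (h2 : q ≤ w ∧ w < q + L) : p = q := by
  rcases lt_trichotomy p q with h | h | h
  · have := hV.2 c p q hp hq h
    omega
  · exact h
  · have := hV.2 c q p hq hp h
    omega

theorem APPG (hAPP : APP_stmt) (hREC : REC_stmt) (hBR : BR_stmt) (hALTGEN : ALTGEN_stmt) (hLOCSH : LOCSH_stmt) : APPG_stmt := by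
  intro F L S h y hS hres hV heven
  -- the subgroup
  let K : Subgroup (Perm (Fin L)) :=
    { carrier := {h | F.app L S h ∈ F.Gam}
      mul_mem' := by
        intro a b ha hb
        have e : F.app L S (a * b) = F.app L S a * F.app L S b :=
          (hAPP F L S (a * b) hV).unique (appg_isApp_mul (hAPP F L S a hV) (hAPP F L S b hV))
        show F.app L S (a * b) ∈ F.Gam
        rw [e]
        exact F.Gam.mul_mem ha hb
      one_mem' := by
        have e : F.app L S 1 = 1 := (hAPP F L S 1 hV).unique (appg_isApp_one F L S)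
        show F.app L S 1 ∈ F.Gam
        rw [e]
        exact F.Gam.one_mem
      inv_mem' := by
        intro a ha
        have e : F.app L S a * F.app L S a⁻¹ = 1 := by
          have h1 := appg_isApp_mul (hAPP F L S a hV) (hAPP F L S a⁻¹ hV)
          rw [mul_inv_cancel] at h1
          exact h1.unique (appg_isApp_one F L S)
        have e2 : F.app L S a⁻¹ = (F.app L S a)⁻¹ := (inv_eq_of_mul_eq_one_right e).symm
        show F.app L S a⁻¹ ∈ F.Gam
        rw [e2]
        exact F.Gam.inv_mem ha }
  have hK : alternatingGroup (Fin L) ≤ K := by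
    apply hALTGEN
    intro x hx
    show F.app L S (c3 L x hx) ∈ F.Gam
    set x' := (y + x) % 16 with hx'
    have hx'16 : x' < 16 := Nat.mod_lt _ (by norm_num)
    set θ : Set (F.C × ℕ) := {q | x ≤ q.2 + x' ∧ (q.1, q.2 + x' - x) ∈ S} with hθ
    have hθblk : θ ⊆ F.blk := by
      rintro ⟨c, w⟩ ⟨h1, h2⟩
      have h3 := hres _ h2
      have h4 := hV.1 c _ h2
      simp only at h1 h3 h4
      refine ⟨?_, ?_⟩
      · show 16 ∣ w
        omega
      · show w < F.N c
        omega
    have hθloc : F.Loc (fun c w => (c, w) ∈ θ) := by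
      have h1 := hLOCSH F (fun c w => (c, w) ∈ S) ((x' : ℤ) - x) hS
      have e : (fun (c : F.C) (w : ℕ) => (c, w) ∈ θ) = (fun (c : F.C) (w : ℕ) => 0 ≤ (w : ℤ) + ((x' : ℤ) - x) ∧
          (w : ℤ) + ((x' : ℤ) - x) < F.N c ∧ (c, ((w : ℤ) + ((x' : ℤ) - x)).toNat) ∈ S) := by
        funext c w
        apply propext
        have e1 : ((w : ℤ) + ((x' : ℤ) - x)).toNat = w + x' - x := by omega
        rw [e1]
        constructor
        · rintro ⟨h2, h3⟩
          have h4 := hV.1 c _ h3
          simp only at h2 h3 h4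
          exact ⟨by omega, by omega, h3⟩
        · rintro ⟨h2, _, h3⟩
          exact ⟨by simp only; omega, h3⟩
      rw [e]
      exact h1
    have hT : F.T θ x' ∈ F.Gam := (hBR F θ (hREC F θ hθblk hθloc)).2 x' hx'16
    have hpos : ∀ c q, (c, q) ∈ F.pos θ x' ↔ ∃ p, (c, p) ∈ S ∧ q = p + x := by
      intro c q
      constructor
      · rintro ⟨p, ⟨h1, h2⟩, h3, h4⟩
        simp only at h1 h2 h3 h4
        exact ⟨p + x' - x, h2, by omega⟩
      · rintro ⟨p, h1, h2⟩
        have h3 := hres _ h1
        have h4 := hV.1 c p h1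
        simp only at h3
        refine ⟨p + x - x', ⟨?_, ?_⟩, ?_, ?_⟩
        · simp only
          omega
        · simp only
          rw [show p + x - x' + x' - x = p by omega]
          exact h1
        · simp only
          omega
        · simp only
          omega
    have hVp : F.Valid 3 (F.pos θ x') := by
      refine ⟨fun c q hq => ?_, fun c q q' hq hq' hlt => ?_⟩
      · obtain ⟨p, h1, h2⟩ := (hpos c q).1 hq
        have := hV.1 c p h1
        omega
      · obtain ⟨p, h1, h2⟩ := (hpos c q).1 hq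
        obtain ⟨p', h1', h2'⟩ := (hpos c q').1 hq'
        have := hV.2 c p p' h1 h1' (by omega)
        omega
    have hA : F.IsApp 3 (F.pos θ x') (finRotate 3) (F.T θ x') := hAPP F 3 _ _ hVp
    have hB : F.IsApp L S (c3 L x hx) (F.T θ x') := by
      refine ⟨fun c p hp r => ?_, fun c w hw => ?_⟩
      · have hpx : (c, p + x) ∈ F.pos θ x' := (hpos c _).2 ⟨p, hp, rfl⟩
        by_cases r0 : (r : ℕ) = x
        · have e : r = ⟨x, by omega⟩ := Fin.ext r0
          rw [e, appg_c3_0]
          have h1 := hA.1 c (p + x) hpx 0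
          have e2 : ((finRotate 3 (0 : Fin 3) : Fin 3) : ℕ) = 1 := by decide
          rw [e2] at h1
          simpa [add_assoc] using h1
        by_cases r1 : (r : ℕ) = x + 1
        · have e : r = ⟨x + 1, by omega⟩ := Fin.ext r1
          rw [e, appg_c3_1]
          have h1 := hA.1 c (p + x) hpx 1
          have e2 : ((finRotate 3 (1 : Fin 3) : Fin 3) : ℕ) = 2 := by decide
          rw [e2] at h1
          simpa [add_assoc] using h1
        by_cases r2 : (r : ℕ) = x + 2
        · have e : r = ⟨x + 2, hx⟩ := Fin.ext r2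
          rw [e, appg_c3_2]
          have h1 := hA.1 c (p + x) hpx 2
          have e2 : ((finRotate 3 (2 : Fin 3) : Fin 3) : ℕ) = 0 := by decide
          rw [e2] at h1
          simpa [add_assoc] using h1
        rw [appg_c3_ne L x hx r r0 r1 r2]
        apply hA.2
        intro q hq hw
        obtain ⟨p', h1, h2⟩ := (hpos c q).1 hq
        have : p = p' := appg_eq hV hp h1 (w := p + r) ⟨by omega, by omega⟩ ⟨by omega, by omega⟩
        omega
      · apply hA.2
        intro q hq hw'
        obtain ⟨p', h1, h2⟩ := (hpos c q).1 hq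
        exact hw p' h1 ⟨by omega, by omega⟩
    rw [(hAPP F L S (c3 L x hx) hV).unique hB]
    exact hT
  exact hK heven

end OutRF
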