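import Pool.Agent.Lib_MP_0c5939_al.Stmts

/-!
# MP_0c5939_al, lemmas on uniform 3-cycles and local actions on 5-windows (helper37)
-/

namespace OutRF
open Equiv

theorem c3_zero_val (j : ℕ) (hj : j + 2 < 5) (r : Fin 5) (h : (r : ℕ) = j) :
    ((c3 5 j hj r : Fin 5) : ℕ) = j + 1 := by
  obtain ⟨r, hr⟩ := r
  simp only at h
  subst h
  have : r = 0 ∨ r = 1 ∨ r = 2 := by omega
  rcases this with rfl | rfl | rfl <;> decide +revert

theorem c3_one_val (j : ℕ) (hj : j + 2 < 5) (r : Fin 5) (h : (r : ℕ) = j + 1) :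
    ((c3 5 j hj r : Fin 5) : ℕ) = j + 2 := by
  obtain ⟨r, hr⟩ := r
  simp only at h
  subst h
  have : j = 0 ∨ j = 1 ∨ j = 2 := by omega
  rcases this with rfl | rfl | rfl <;> decide +revert

theorem c3_two_val (j : ℕ) (hj : j + 2 < 5) (r : Fin 5) (h : (r : ℕ) = j + 2) :
    ((c3 5 j hj r : Fin 5) : ℕ) = j := by
  obtain ⟨r, hr⟩ := r
  simp only at h
  subst h
  have : j = 0 ∨ j = 1 ∨ j = 2 := by omega
  rcases this with rfl | rfl | rfl <;> decide +revert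

theorem c3_other_val (j : ℕ) (hj : j + 2 < 5) (r : Fin 5) (h : (r : ℕ) < j ∨ j + 2 < (r : ℕ)) :
    ((c3 5 j hj r : Fin 5) : ℕ) = r := by
  obtain ⟨r, hr⟩ := r
  simp only at h
  have h1 : j = 0 ∨ j = 1 ∨ j = 2 := by omega
  have h2 : r = 0 ∨ r = 1 ∨ r = 2 ∨ r = 3 ∨ r = 4 := by omega
  rcases h1 with rfl | rfl | rfl <;> rcases h2 with rfl | rfl | rfl | rfl | rfl <;>
    first
    | (exfalso; omega)
    | decide +revert

theorem c3_ne_one (j : ℕ) (hj : j + 2 < 5) : c3 5 j hj ≠ 1 := by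
  intro h
  have h1 := c3_zero_val j hj ⟨j, by omega⟩ rfl
  rw [h] at h1
  simp at h1

theorem c3_mem_alt (L j : ℕ) (hj : j + 2 < L) : c3 L j hj ∈ alternatingGroup (Fin L) := by
  rw [Perm.mem_alternatingGroup]
  unfold c3
  rw [map_mul, Perm.sign_swap (by simp [Fin.ext_iff]), Perm.sign_swap (by simp [Fin.ext_iff])]
  norm_num

namespace Fam
variable {F : Fam}

theorem blk_add {c : F.C} {p : ℕ} (h : (c, p) ∈ F.blk) : p + 16 ≤ F.N c := by
  obtain ⟨h1, h2⟩ := h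
  have h3 := F.sixteen_dvd_N c
  simp only at h1 h2
  omega

theorem valid_of_mod {L y : ℕ} (hL : L ≤ 16) {S : Set (F.C × ℕ)} (h : ∀ q ∈ S, q.2 % 16 = y)
    (h2 : ∀ q ∈ S, q.2 + L ≤ F.N q.1) : F.Valid L S := by
  constructor
  · intro c p hp
    exact h2 _ hp
  · intro c p q hp hq hpq
    have h3 := h _ hp
    have h4 := h _ hq
    simp only at h3 h4
    omega

theorem pos_valid {θ : Set (F.C × ℕ)} (hθ : θ ⊆ F.blk) (x : ℕ) : F.Valid 3 (F.pos θ x) := by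
  apply valid_of_mod (y := x % 16) (by norm_num)
  · rintro q ⟨p, h1, h2, _⟩
    have h3 := (hθ h1).1
    simp only at h3
    omega
  · rintro q ⟨p, h1, h2, h3⟩
    omega

theorem T_isApp (hAPP : APP_stmt) {θ : Set (F.C × ℕ)} (hθ : θ ⊆ F.blk) (x : ℕ) :
    F.IsApp 3 (F.pos θ x) (finRotate 3) (F.T θ x) :=
  hAPP F 3 _ _ (pos_valid hθ x)

theorem T_act (hAPP : APP_stmt) {θ : Set (F.C × ℕ)} (hθ : θ ⊆ F.blk) {x : ℕ} {c : F.C} {p : ℕ}
    (hp : (c, p) ∈ θ) (hN : p + x + 3 ≤ F.N c) :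
    F.ev (F.T θ x) c (p + x) = p + x + 1 ∧ F.ev (F.T θ x) c (p + x + 1) = p + x + 2 ∧
      F.ev (F.T θ x) c (p + x + 2) = p + x := by
  have h := (T_isApp hAPP hθ x).1 c (p + x) ⟨p, hp, rfl, hN⟩
  refine ⟨?_, ?_, ?_⟩
  · have h1 := h 0
    simpa using h1
  · have h1 := h 1
    simpa using h1
  · have h1 := h 2
    simpa using h1

theorem T_fix (hAPP : APP_stmt) {θ : Set (F.C × ℕ)} (hθ : θ ⊆ F.blk) {x : ℕ} {c : F.C} {w : ℕ}
    (h : ∀ p, (c, p) ∈ θ → p + x + 3 ≤ F.N c → ¬ (p + x ≤ w ∧ w < p + x + 3)) :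
    F.ev (F.T θ x) c w = w := by
  apply (T_isApp hAPP hθ x).2 c w
  rintro q ⟨p, h1, h2, h3⟩
  simp only at h1 h2 h3
  subst h2
  exact h p h1 h3

/-- local action on the 5-window at `z` -/
def LA (F : Fam) (g : F.P) (c : F.C) (z : ℕ) (h : Perm (Fin 5)) : Prop :=
  ∀ r : Fin 5, F.ev g c (z + r) = z + (h r : ℕ)

theorem LA.mul {g g' : F.P} {c : F.C} {z : ℕ} {h h' : Perm (Fin 5)} (H : F.LA g c z h)
    (H' : F.LA g' c z h') : F.LA (g * g') c z (h * h') := by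
  intro r
  rw [ev_mul, H' r, H (h' r)]
  rfl

theorem LA_one (c : F.C) (z : ℕ) : F.LA 1 c z 1 := by
  intro r
  rw [ev_one]
  rfl

theorem LA.inv {g : F.P} {c : F.C} {z : ℕ} {h : Perm (Fin 5)} (H : F.LA g c z h) :
    F.LA g⁻¹ c z h⁻¹ := by
  intro r
  have h1 := H (h⁻¹ r)
  have h2 : h (h⁻¹ r) = r := by simp
  rw [h2] at h1
  rw [← h1, ev_inv_ev]

open Classical in
theorem LA_T (hAPP : APP_stmt) {θ : Set (F.C × ℕ)} (hθ : θ ⊆ F.blk) {x j : ℕ}
    (hj : j + 2 < 5) {c : F.C} {p z : ℕ} (hp : 16 ∣ p) (hz : z + j = p + x) :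
    F.LA (F.T θ x) c z (if (c, p) ∈ θ ∧ p + x + 3 ≤ F.N c then c3 5 j hj else 1) := by
  intro r
  have hr := r.2
  have hfar : ∀ p', (c, p') ∈ θ → p' ≠ p → ¬ (p' + x ≤ z + r ∧ z + r < p' + x + 3) := by
    intro p' h1 h2 h3
    have h4 := (hθ h1).1
    simp only at h4
    omega
  split_ifs with hA
  · obtain ⟨h0, h1, h2⟩ := T_act hAPP hθ hA.1 hA.2
    by_cases e0 : (r : ℕ) = j
    · rw [c3_zero_val j hj r e0, e0, hz, h0]
      omega
    by_cases e1 : (r : ℕ) = j + 1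
    · rw [c3_one_val j hj r e1, e1, show z + (j + 1) = p + x + 1 by omega, h1]
      omega
    by_cases e2 : (r : ℕ) = j + 2
    · rw [c3_two_val j hj r e2, e2, show z + (j + 2) = p + x + 2 by omega, h2]
      omega
    · rw [c3_other_val j hj r (by omega)]
      apply T_fix hAPP hθ
      intro p' h3 _
      by_cases hpp : p' = p
      · subst hpp
        omega
      · exact hfar p' h3 hpp
  · have : F.ev (F.T θ x) c (z + r) = z + r := by
      apply T_fix hAPP hθ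
      intro p' h3 h4
      by_cases hpp : p' = p
      · subst hpp
        exact absurd ⟨h3, h4⟩ hA
      · exact hfar p' h3 hpp
    rw [this]
    rfl

open Classical in
theorem LA_app5 (hAPP : APP_stmt) {Z : Set (F.C × ℕ)} {y : ℕ} (hZ : ∀ q ∈ Z, q.2 % 16 = y)
    (hZ2 : ∀ q ∈ Z, q.2 + 5 ≤ F.N q.1) (h : Perm (Fin 5)) {c : F.C} {z : ℕ} (hz : z % 16 = y) :
    F.LA (F.app 5 Z h) c z (if (c, z) ∈ Z then h else 1) := by
  have hA := hAPP F 5 Z h (valid_of_mod (by norm_num) hZ hZ2)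
  intro r
  have hr := r.2
  split_ifs with hm
  · exact hA.1 c z hm r
  · rw [hA.2 c (z + r) ?_]
    · rfl
    · intro q hq h3
      have h4 := hZ _ hq
      simp only at h4
      have h5 : q = z := by omega
      subst h5
      exact hm hq

theorem app5_fix (hAPP : APP_stmt) {Z : Set (F.C × ℕ)} {y : ℕ} (hZ : ∀ q ∈ Z, q.2 % 16 = y)
    (hZ2 : ∀ q ∈ Z, q.2 + 5 ≤ F.N q.1) (h : Perm (Fin 5)) {c : F.C} {w : ℕ}
    (hw : ∀ z, z % 16 = y → ¬ (z ≤ w ∧ w < z + 5)) : F.ev (F.app 5 Z h) c w = w := by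
  have hA := hAPP F 5 Z h (valid_of_mod (by norm_num) hZ hZ2)
  apply hA.2
  intro q hq
  exact hw q (hZ _ hq)

/-- a uniform 3-cycle as a uniform application of a 3-cycle in 5-windows -/
theorem T_eq_app5 (hAPP : APP_stmt) {θ Z : Set (F.C × ℕ)} (hθ : θ ⊆ F.blk) {x j : ℕ}
    (hj : j + 2 < 5)
    (h1 : ∀ c p, (c, p) ∈ θ → p + x + 3 ≤ F.N c → j ≤ p + x ∧ (c, p + x - j) ∈ Z)
    (h2 : ∀ c z, (c, z) ∈ Z → z + 5 ≤ F.N c ∧ ∃ p, (c, p) ∈ θ ∧ p + x = z + j) :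
    F.T θ x = F.app 5 Z (c3 5 j hj) := by
  have hV : F.Valid 5 Z := by
    constructor
    · intro c p hp
      exact (h2 c p hp).1
    · intro c p q hp hq hpq
      obtain ⟨_, p', hp', e1⟩ := h2 c p hp
      obtain ⟨_, q', hq', e2⟩ := h2 c q hq
      have h3 := (hθ hp').1
      have h4 := (hθ hq').1
      simp only at h3 h4
      omega
  refine IsApp.unique ⟨?_, ?_⟩ (hAPP F 5 Z (c3 5 j hj) hV)
  · intro c z hz
    obtain ⟨h3, p, hp, e⟩ := h2 c z hz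
    have h4 := LA_T hAPP hθ hj (c := c) (p := p) (z := z) (hθ hp).1 e.symm
    rw [if_pos ⟨hp, by omega⟩] at h4
    exact h4
  · intro c w hw
    apply T_fix hAPP hθ
    intro p hp hN hh
    obtain ⟨h3, h4⟩ := h1 c p hp hN
    exact hw _ h4 ⟨by omega, by omega⟩

/-- additivity of uniform 3-cycles -/
theorem T_union (hAPP : APP_stmt) {α β : Set (F.C × ℕ)} (hα : α ⊆ F.blk) (hβ : β ⊆ F.blk)
    (hd : Disjoint α β) (x : ℕ) : F.T (α ∪ β) x = F.T α x * F.T β x := by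
  have hαβ : α ∪ β ⊆ F.blk := Set.union_subset hα hβ
  have hdd : ∀ q, q ∈ α → q ∈ β → False := fun q h1 h2 => Set.disjoint_left.1 hd h1 h2
  refine IsApp.unique (T_isApp hAPP hαβ x) ⟨?_, ?_⟩
  · rintro c q ⟨p, hp, hq, hN⟩ r
    have hr := r.2
    simp only at hp hq hN
    subst hq
    have hfar : ∀ p', (c, p') ∈ F.blk → p' ≠ p → ¬ (p' + x ≤ p + x + r ∧ p + x + r < p' + x + 3) := by
      intro p' h1 h2 h3
      have h4 := h1.1
      have h5 := (hαβ hp).1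
      simp only at h4 h5
      omega
    have hr2 := (finRotate 3 r).2
    have hfar2 : ∀ p', (c, p') ∈ F.blk → p' ≠ p →
        ¬ (p' + x ≤ p + x + (finRotate 3 r : ℕ) ∧ p + x + (finRotate 3 r : ℕ) < p' + x + 3) := by
      intro p' h1 h2 h3
      have h4 := h1.1
      have h5 := (hαβ hp).1
      simp only at h4 h5
      omega
    rw [ev_mul]
    rcases hp with hp | hp
    · rw [T_fix hAPP hβ, (T_isApp hAPP hα x).1 c (p + x) ⟨p, hp, rfl, hN⟩ r]
      intro p' h3 _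
      by_cases hpp : p' = p
      · subst hpp
        exact absurd h3 (fun h => hdd _ hp h)
      · exact hfar p' (hβ h3) hpp
    · rw [(T_isApp hAPP hβ x).1 c (p + x) ⟨p, hp, rfl, hN⟩ r, T_fix hAPP hα]
      intro p' h3 _
      by_cases hpp : p' = p
      · subst hpp
        exact absurd hp (fun h => hdd _ h3 h)
      · exact hfar2 p' (hα h3) hpp
  · intro c w hw
    rw [ev_mul, T_fix hAPP hβ, T_fix hAPP hα]
    · intro p hp hN
      exact hw (p + x) ⟨p, Or.inl hp, rfl, hN⟩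
    · intro p hp hN
      exact hw (p + x) ⟨p, Or.inr hp, rfl, hN⟩

end Fam
end OutRF
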