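import Pool.Agent.Lib_MP_0c5939_al.Stmts

/-!
# MP_0c5939_al, piece AppLoc: displacement of a uniform application is local

Proof:
Let S be LocAt k (as a Prop valued function), choose m >= k with L <= 16^m; claim disp (app L S h) is
LocAt (m+1). Let KeyEq (m+1) c c' w w'. For r < L: if r <= w and (c, w-r) in S then by KSHIFT (v = -r)
r <= w' and KeyEq m c c' (w-r) (w'-r), so (c', w'-r) in S; and conversely. If w is in the window at
p = w - r then disp = h r - r for both (IsApp.1); if no window contains w then none contains w' and both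
displacements are 0 (IsApp.2).
-/

namespace OutRF
open Equiv

theorem APPLOC (hAPP : APP_stmt) (hKSHIFT : KSHIFT_stmt) (hLOCMONO : LOCMONO_stmt) : APPLOC_stmt := by
  intro F L S h hV hloc
  obtain ⟨k, hk⟩ := hloc
  have hL : L ≤ 16 ^ (max k L) := by
    calc L ≤ 16 ^ L := (Nat.lt_pow_self (by norm_num)).le
      _ ≤ 16 ^ (max k L) := Nat.pow_le_pow_right (by norm_num) (le_max_right _ _)
  generalize hm : max k L = m at hL
  have hkm : F.LocAt m (fun c w => (c, w) ∈ S) := hLOCMONO F _ k m _ (by omega) hk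
  have hg := hAPP F L S h hV
  refine ⟨m + 1, ?_⟩
  have key : ∀ (c c' : F.C) (w w' r : ℕ), m + 1 < F.n c → m + 1 < F.n c' → w < F.N c → w' < F.N c' →
      F.KeyEq (m + 1) c c' w w' → r < L → r ≤ w → (c, w - r) ∈ S → r ≤ w' ∧ (c', w' - r) ∈ S := by
    intro c c' w w' r hc hc' hw hw' hkey hr hrw hmem
    have hr2 : (r : ℤ) ≤ (16 : ℤ) ^ m := by exact_mod_cast (by omega : r ≤ 16 ^ m)
    have h1 := hKSHIFT F m c c' w w' (-(r : ℤ)) (by omega) (by omega) hw hw' hkey
      (by rw [abs_neg, abs_of_nonneg (by positivity)]; exact hr2) (by omega) (by omega)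
    obtain ⟨h2, h3, h4⟩ := h1
    have hrw' : r ≤ w' := by omega
    have e1 : ((w : ℤ) + -(r : ℤ)).toNat = w - r := by omega
    have e2 : ((w' : ℤ) + -(r : ℤ)).toNat = w' - r := by omega
    rw [e1, e2] at h4
    have h5 := hkm c c' (w - r) (w' - r) (by omega) (by omega) (by omega) (by omega) h4
    refine ⟨hrw', ?_⟩
    have h6 : ((c, w - r) ∈ S) = ((c', w' - r) ∈ S) := h5
    rw [← h6]
    exact hmem
  intro c c' w w' hc hc' hw hw' hkey
  by_cases H : ∃ p, (c, p) ∈ S ∧ p ≤ w ∧ w < p + L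
  · obtain ⟨p, hp, h1, h2⟩ := H
    have hp' : (c, w - (w - p)) ∈ S := by
      rw [show w - (w - p) = p by omega]
      exact hp
    obtain ⟨h3, h4⟩ := key c c' w w' (w - p) hc hc' hw hw' hkey (by omega) (by omega) hp'
    have e1 := hg.1 c p hp ⟨w - p, by omega⟩
    have e2 := hg.1 c' (w' - (w - p)) h4 ⟨w - p, by omega⟩
    simp only [show p + (w - p) = w by omega] at e1
    simp only [show w' - (w - p) + (w - p) = w' by omega] at e2
    unfold Fam.disp
    rw [e1, e2]
    push_cast
    omega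
  · have hno : ∀ p, (c, p) ∈ S → ¬ (p ≤ w ∧ w < p + L) := fun p hp hh => H ⟨p, hp, hh⟩
    have hno' : ∀ p, (c', p) ∈ S → ¬ (p ≤ w' ∧ w' < p + L) := by
      intro p hp hh
      have hp' : (c', w' - (w' - p)) ∈ S := by
        rw [show w' - (w' - p) = p by omega]
        exact hp
      obtain ⟨h3, h4⟩ := key c' c w' w (w' - p) hc' hc hw' hw hkey.symm (by omega) (by omega) hp'
      exact hno _ h4 ⟨by omega, by omega⟩
    unfold Fam.disp
    rw [hg.2 c w hno, hg.2 c' w' hno']
    simp

end OutRF
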