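import Pool.Agent.Lib_MP_0c5939_al.Defs

namespace OutRF
open Equiv

/-! ### words -/
theorem W_sym (s : Bool × Bool) (t a : ℕ) (ha : a ≤ 15) : W s t (15 - a) = W s t a := by
  have : min (15 - a) (15 - (15 - a)) = min a (15 - a) := by omega
  unfold W
  rw [this]

theorem W_eq_zero_iff (s : Bool × Bool) (t a : ℕ) (ha : a ≤ 15) : W s t a = 0 ↔ a = 0 ∨ a = 15 := by
  by_cases h : min a (15 - a) = 0
  · have h1 : W s t a = 0 := by unfold W; rw [if_pos h]
    constructor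
    · intro _; omega
    · intro _; exact h1
  · have h1 : W s t a ≠ 0 := by
      unfold W
      rw [if_neg h]
      split_ifs <;> simp
    constructor
    · intro h2; exact absurd h2 h1
    · intro h2; omega

theorem W_zero (s : Bool × Bool) (t : ℕ) : W s t 0 = 0 := by simp [W]
theorem W_fifteen (s : Bool × Bool) (t : ℕ) : W s t 15 = 0 := by simp [W]
theorem W_one (s : Bool × Bool) (t : ℕ) : W s t 1 = if t = 1 then 2 else 1 := by simp [W]
theorem W_two (s : Bool × Bool) (t : ℕ) : W s t 2 = if t = 2 then 2 else 1 := by simp [W]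
theorem W_three (s : Bool × Bool) (t : ℕ) : W s t 3 = if s.1 then 2 else 1 := by simp [W]
theorem W_four (s : Bool × Bool) (t : ℕ) : W s t 4 = if s.2 then 2 else 1 := by simp [W]
theorem W_le (s : Bool × Bool) (t a : ℕ) : W s t a ≤ 2 := by
  unfold W
  split_ifs <;> simp

namespace Fam
variable (F : Fam)

/-! ### types -/
theorem typ_top (c : F.C) (k w : ℕ) (h : F.n c ≤ k) : F.typ c k w = 1 := by
  unfold typ
  rw [Nat.sub_eq_zero_of_le h]
  rfl

theorem typ_lt (c : F.C) (k w : ℕ) (h : k < F.n c) :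
    F.typ c k w = W (F.s c k) (F.typ c (k + 1) w) (w / 16 ^ k % 16) := by
  unfold typ
  obtain ⟨m, hm⟩ : ∃ m, F.n c - k = m + 1 := ⟨F.n c - k - 1, by omega⟩
  have h2 : F.n c - (k + 1) = m := by omega
  rw [hm, h2]
  rfl

theorem typ_le (c : F.C) (k w : ℕ) : F.typ c k w ≤ 2 := by
  by_cases h : k < F.n c
  · rw [typ_lt F c k w h]; exact W_le _ _ _
  · rw [typ_top F c k w (not_lt.1 h)]; omega

theorem typ_block (c : F.C) (k w w' : ℕ) (h : w / 16 ^ k = w' / 16 ^ k) :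
    F.typ c k w = F.typ c k w' := by
  obtain ⟨m, hm⟩ : ∃ m, F.n c - k = m := ⟨_, rfl⟩
  induction m generalizing k with
  | zero => rw [typ_top F c k w (by omega), typ_top F c k w' (by omega)]
  | succ m ih =>
    rw [typ_lt F c k w (by omega), typ_lt F c k w' (by omega), h]
    rw [ih (k + 1) _ (by omega)]
    rw [pow_succ, ← Nat.div_div_eq_div_mul, ← Nat.div_div_eq_div_mul, h]

/-! ### lengths -/
theorem pow_le_N (c : F.C) (k : ℕ) (h : k ≤ F.n c) : 16 ^ k ≤ F.N c := by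
  unfold N
  calc 16 ^ k ≤ 16 ^ F.n c := Nat.pow_le_pow_right (by norm_num) h
    _ ≤ 16 ^ F.n c * F.M c := Nat.le_mul_of_pos_right _ (F.M_pos c)

theorem pow_dvd_N (c : F.C) (k : ℕ) (h : k ≤ F.n c) : 16 ^ k ∣ F.N c :=
  Dvd.dvd.mul_right (pow_dvd_pow 16 h) _

theorem pow_lt_N (c : F.C) (k : ℕ) (h : k < F.n c) : 16 ^ k < F.N c := by
  have h1 := pow_le_N F c (k + 1) h
  have h2 : 0 < 16 ^ k := Nat.pow_pos (by norm_num)
  rw [pow_succ] at h1
  omega

theorem sixteen_le_N (c : F.C) : 16 ≤ F.N c := by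
  have := pow_le_N F c 1 (F.n_pos c)
  simpa using this

theorem sixteen_dvd_N (c : F.C) : 16 ∣ F.N c := by
  have := pow_dvd_N F c 1 (F.n_pos c)
  simpa using this

/-! ### evaluation -/
theorem ev_of_lt (g : F.P) (c : F.C) (w : ℕ) (h : w < F.N c) : F.ev g c w = (g c ⟨w, h⟩ : ℕ) := by
  unfold ev
  rw [dif_pos h]

theorem ev_of_ge (g : F.P) (c : F.C) (w : ℕ) (h : ¬ w < F.N c) : F.ev g c w = w := by
  unfold ev
  rw [dif_neg h]

theorem ev_lt (g : F.P) (c : F.C) (w : ℕ) (h : w < F.N c) : F.ev g c w < F.N c := by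
  rw [ev_of_lt F g c w h]
  exact (g c ⟨w, h⟩).2

theorem ev_lt_iff (g : F.P) (c : F.C) (w : ℕ) : F.ev g c w < F.N c ↔ w < F.N c := by
  constructor
  · intro h
    by_contra h2
    rw [ev_of_ge F g c w h2] at h
    exact h2 h
  · exact ev_lt F g c w

theorem ev_mul (g h : F.P) (c : F.C) (w : ℕ) : F.ev (g * h) c w = F.ev g c (F.ev h c w) := by
  by_cases hw : w < F.N c
  · rw [ev_of_lt F _ c w hw, ev_of_lt F g c _ (ev_lt F h c w hw)]
    simp [ev_of_lt F h c w hw]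
  · rw [ev_of_ge F _ c w hw, ev_of_ge F h c w hw, ev_of_ge F g c w hw]

theorem ev_one (c : F.C) (w : ℕ) : F.ev 1 c w = w := by
  by_cases hw : w < F.N c
  · rw [ev_of_lt F _ c w hw]; rfl
  · rw [ev_of_ge F _ c w hw]

theorem ev_inv_ev (g : F.P) (c : F.C) (w : ℕ) : F.ev g⁻¹ c (F.ev g c w) = w := by
  rw [← ev_mul, inv_mul_cancel, ev_one]

theorem ev_ev_inv (g : F.P) (c : F.C) (w : ℕ) : F.ev g c (F.ev g⁻¹ c w) = w := by
  rw [← ev_mul, mul_inv_cancel, ev_one]

theorem ev_inj (g : F.P) (c : F.C) (w w' : ℕ) (h : F.ev g c w = F.ev g c w') : w = w' := by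
  rw [← ev_inv_ev F g c w, h, ev_inv_ev]

theorem ev_ext (g h : F.P) (H : ∀ c w, w < F.N c → F.ev g c w = F.ev h c w) : g = h := by
  funext c
  ext x
  have := H c x.1 x.2
  rw [ev_of_lt F g c _ x.2, ev_of_lt F h c _ x.2] at this
  exact this

/-! ### keys -/
theorem KeyEq.symm {F : Fam} {k : ℕ} {c c' : F.C} {w w' : ℕ} (h : F.KeyEq k c c' w w') :
    F.KeyEq k c' c w' w :=
  ⟨fun j hj => (h.1 j hj).symm, h.2.1.symm, h.2.2.1.symm, h.2.2.2.1.symm, h.2.2.2.2.symm⟩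

theorem KeyEq.refl {F : Fam} (k : ℕ) (c : F.C) (w : ℕ) : F.KeyEq k c c w w :=
  ⟨fun _ _ => rfl, rfl, rfl, Iff.rfl, Iff.rfl⟩

theorem KeyEq.trans {F : Fam} {k : ℕ} {c c' c'' : F.C} {w w' w'' : ℕ} (h : F.KeyEq k c c' w w')
    (h' : F.KeyEq k c' c'' w' w'') : F.KeyEq k c c'' w w'' :=
  ⟨fun j hj => (h.1 j hj).trans (h'.1 j hj), h.2.1.trans h'.2.1, h.2.2.1.trans h'.2.2.1,
    h.2.2.2.1.trans h'.2.2.2.1, h.2.2.2.2.trans h'.2.2.2.2⟩

/-! ### the action on the disjoint union -/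
theorem act_apply (g : F.P) (c : F.C) (x : Fin (F.N c)) : F.act g ⟨c, x⟩ = ⟨c, g c x⟩ := rfl

theorem act_mul (g h : F.P) : F.act (g * h) = F.act g * F.act h := by
  unfold act; exact map_mul _ _ _

theorem act_one : F.act 1 = 1 := by
  unfold act; exact map_one _

theorem act_inv (g : F.P) : F.act g⁻¹ = (F.act g)⁻¹ := by
  unfold act; exact map_inv _ _

theorem act_inj {g h : F.P} (H : F.act g = F.act h) : g = h :=
  Perm.sigmaCongrRightHom_injective H

/-! ### unique application -/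
theorem IsApp.unique {F : Fam} {L : ℕ} {S : Set (F.C × ℕ)} {h : Perm (Fin L)} {g g' : F.P}
    (hg : F.IsApp L S h g) (hg' : F.IsApp L S h g') : g = g' := by
  apply F.ev_ext
  intro c w _
  by_cases H : ∃ p, (c, p) ∈ S ∧ p ≤ w ∧ w < p + L
  · obtain ⟨p, hp, h1, h2⟩ := H
    have e1 := hg.1 c p hp ⟨w - p, by omega⟩
    have e2 := hg'.1 c p hp ⟨w - p, by omega⟩
    simp only [show p + (w - p) = w by omega] at e1 e2
    rw [e1, e2]
  · push Not at H
    rw [hg.2 c w (fun p hp hh => absurd hh.2 (not_lt.2 (H p hp hh.1))),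
      hg'.2 c w (fun p hp hh => absurd hh.2 (not_lt.2 (H p hp hh.1)))]

end Fam
end OutRF
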