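import Pool.Agent.Lib_MP_0c5939_al.Stmts2

/-!
# MP_0c5939_al, piece Bilip: bi-Lipschitz bijections of intervals (pure combinatorics)

Proof (`C' = C * C`).  `|x - y| ≤ C |f x - f y|` since `f'` is `C`-Lipschitz, so a pair with
`y - x > C * C` has `|f y - f x| > C`.  One step of `x` or `y` changes `f y - f x` by at most `C`, hence the
sign of `f y - f x` is the same for all pairs with `y - x > C * C` (move `x` to `0` and `y` to `N - 1`).
If it is positive, then `f` maps `{z < x - C * C}` into `{v < f x}` and `{z > x + C * C}` into
`{v > f x}`, so `|f x - x| ≤ C * C`; if it is negative, apply this to `N - 1 - f`.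
-/

namespace OutRF
open Equiv

/-- Lipschitz bound from the bound for neighbours. -/
theorem bilip_lip {C N : ℕ} {f : ℕ → ℕ} (h : ∀ x, x + 1 < N → |(f (x + 1) : ℤ) - f x| ≤ C)
    (x k : ℕ) (hk : x + k < N) : |(f (x + k) : ℤ) - f x| ≤ C * k := by
  induction k with
  | zero => simp
  | succ k ih =>
    have h1 := ih (by omega)
    have h2 := h (x + k) (by omega)
    rw [abs_le] at h1 h2 ⊢
    have e : x + (k + 1) = x + k + 1 := by ring
    rw [e]
    push_cast
    constructor
    · nlinarith [h1.1, h2.1]
    · nlinarith [h1.2, h2.2]

/-- Far pairs are mapped to pairs at distance larger than `C`. -/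
theorem bilip_far {C N : ℕ} {f f' : ℕ → ℕ} (h1 : ∀ x < N, f x < N ∧ f' (f x) = x)
    (h' : ∀ x, x + 1 < N → |(f' (x + 1) : ℤ) - f' x| ≤ C) {x y : ℕ} (hy : y < N)
    (hxy : x + C * C < y) : (C : ℤ) < |(f y : ℤ) - f x| := by
  by_contra hc
  push Not at hc
  obtain ⟨a1, a2⟩ := h1 x (by omega)
  obtain ⟨b1, b2⟩ := h1 y hy
  have key : |(f' (f y) : ℤ) - f' (f x)| ≤ C * C := by
    rcases le_total (f x) (f y) with hle | hle
    · obtain ⟨k, hk⟩ := Nat.exists_eq_add_of_le hle
      have := bilip_lip h' (f x) k (by omega)
      rw [← hk] at this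
      refine this.trans ?_
      have hk2 : (k : ℤ) ≤ C := by
        rw [hk] at hc
        push_cast at hc
        rw [abs_le] at hc
        linarith [hc.2]
      exact mul_le_mul_of_nonneg_left hk2 (by positivity)
    · obtain ⟨k, hk⟩ := Nat.exists_eq_add_of_le hle
      have := bilip_lip h' (f y) k (by omega)
      rw [← hk, abs_sub_comm] at this
      refine this.trans ?_
      have hk2 : (k : ℤ) ≤ C := by
        rw [hk] at hc
        push_cast at hc
        rw [abs_le] at hc
        linarith [hc.1]
      exact mul_le_mul_of_nonneg_left hk2 (by positivity)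
  rw [a2, b2, abs_le] at key
  have : ((x : ℤ) + C * C) < y := by exact_mod_cast hxy
  linarith [key.2]

/-- The sign of far pairs is constant. -/
theorem bilip_sign {C D N : ℕ} {g : ℕ → ℤ} (h : ∀ x, x + 1 < N → |g (x + 1) - g x| ≤ C)
    (hfar : ∀ x y, y < N → x + D < y → (C : ℤ) < |g y - g x|) (h0 : g 0 < g (N - 1))
    {x y : ℕ} (hy : y < N) (hxy : x + D < y) : g x < g y := by
  have s1 : ∀ k, D < N - 1 - k → g 0 < g (N - 1 - k) := by
    intro k
    induction k with
    | zero => intro _; exact h0
    | succ k ih =>
      intro hk
      have h1 := ih (by omega)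
      have h2 := h (N - 1 - (k + 1)) (by omega)
      have e : N - 1 - (k + 1) + 1 = N - 1 - k := by omega
      rw [e] at h2
      have h3 := hfar 0 (N - 1 - k) (by omega) (by omega)
      rw [abs_of_pos (by linarith)] at h3
      rw [abs_le] at h2
      linarith [h2.1, h2.2]
  have s2 : ∀ z, z + D < y → g z < g y := by
    intro z
    induction z with
    | zero =>
      intro hz
      have := s1 (N - 1 - y) (by omega)
      rwa [show N - 1 - (N - 1 - y) = y by omega] at this
    | succ z ih =>
      intro hz
      have h1 := ih (by omega)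
      have h2 := h z (by omega)
      have h3 := hfar z y hy (by omega)
      rw [abs_of_pos (by linarith)] at h3
      rw [abs_le] at h2
      linarith [h2.1, h2.2]
  exact s2 x hxy

/-- Counting. -/
theorem bilip_count {D N : ℕ} {f : ℕ → ℕ} (h1 : ∀ x < N, f x < N)
    (hinj : ∀ x < N, ∀ y < N, f x = f y → x = y)
    (hinc : ∀ x y, y < N → x + D < y → f x < f y) (x : ℕ) (hx : x < N) :
    |(f x : ℤ) - x| ≤ D := by
  have c1 : x - D ≤ f x := by
    have := Finset.card_le_card_of_injOn (s := Finset.range (x - D)) (t := Finset.range (f x)) f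
      (fun z hz => by
        simp only [Finset.coe_range, Set.mem_Iio] at hz ⊢
        exact hinc z x hx (by omega))
      (fun z hz w hw hzw => by
        simp only [Finset.coe_range, Set.mem_Iio] at hz hw
        exact hinj z (by omega) w (by omega) hzw)
    simpa using this
  have c2 : N - (x + D + 1) ≤ N - (f x + 1) := by
    have := Finset.card_le_card_of_injOn (s := Finset.Ico (x + D + 1) N)
      (t := Finset.Ico (f x + 1) N) f
      (fun z hz => by
        simp only [Finset.coe_Ico, Set.mem_Ico] at hz ⊢
        exact ⟨hinc x z (by omega) (by omega), h1 z (by omega)⟩)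
      (fun z hz w hw hzw => by
        simp only [Finset.coe_Ico, Set.mem_Ico] at hz hw
        exact hinj z (by omega) w (by omega) hzw)
    simpa using this
  have := h1 x hx
  rw [abs_le]
  constructor <;> omega

theorem BILIP : BILIP_stmt := by
  intro C
  refine ⟨C * C, fun N f f' h1 h2 hl hl' => ?_⟩
  rcases Nat.lt_or_ge (C * C) (N - 1) with hN | hN
  swap
  · left
    intro x hx
    have := (h1 x hx).1
    rw [abs_le]
    constructor <;> omega
  have hinj : ∀ x < N, ∀ y < N, f x = f y → x = y := by
    intro x hx y hy hxy
    rw [← (h1 x hx).2, ← (h1 y hy).2, hxy]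
  have hfar : ∀ x y, y < N → x + C * C < y → (C : ℤ) < |(f y : ℤ) - f x| :=
    fun x y hy hxy => bilip_far h1 hl' hy hxy
  have hne : (f 0 : ℤ) ≠ f (N - 1) := by
    intro h
    have := hinj 0 (by omega) (N - 1) (by omega) (by exact_mod_cast h)
    omega
  rcases lt_or_gt_of_ne hne with h0 | h0
  · left
    refine bilip_count (fun x hx => (h1 x hx).1) hinj fun x y hy hxy => ?_
    have := bilip_sign (g := fun x => (f x : ℤ)) hl hfar h0 hy hxy
    exact_mod_cast this
  · right
    have hcast : ∀ x < N, ((N - 1 - f x : ℕ) : ℤ) = (N : ℤ) - 1 - f x := by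
      intro x hx
      have := (h1 x hx).1
      omega
    have hg := fun x hx => bilip_count (D := C * C) (N := N) (f := fun x => N - 1 - f x)
      (fun x hx => by omega)
      (fun x hx y hy hxy => by
        have a := (h1 x hx).1
        have b := (h1 y hy).1
        exact hinj x hx y hy (by omega))
      (fun x y hy hxy => by
        have := bilip_sign (C := C) (D := C * C) (N := N) (g := fun x => -(f x : ℤ))
          (fun x hx => by
            have := hl x hx
            rw [abs_le] at this ⊢
            constructor <;> linarith [this.1, this.2])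
          (fun x y hy hxy => by
            have := hfar x y hy hxy
            rw [← abs_neg] at this
            refine lt_of_lt_of_eq this ?_
            congr 1
            ring)
          (by linarith) hy hxy
        have a := (h1 x (by omega)).1
        have b := (h1 y hy).1
        omega) x hx
    intro x hx
    have := hg x hx
    rw [hcast x hx] at this
    rw [abs_le] at this ⊢
    constructor <;> linarith [this.1, this.2]

end OutRF
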