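import Pool.Agent.Lib_MP_0c5939_al.Stmts

namespace OutRF
open Equiv

theorem BR (hRBASE : RBASE_stmt) (hRINT : RINT_stmt) (hRDIFF : RDIFF_stmt) (hRUNION : RUNION_stmt)
    (hRSHF : RSHF_stmt) (hRSHB : RSHB_stmt) : BR_stmt := by
  intro F θ h
  induction h with
  | base σ t f l => exact hRBASE F σ t f l
  | inter _ _ h1 h2 => exact hRINT F _ _ h1 h2
  | diff _ _ h1 h2 => exact hRDIFF F _ _ h1 h2
  | union _ _ h1 h2 => exact hRUNION F _ _ h1 h2
  | shf _ h1 => exact hRSHF F _ h1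
  | shb _ h1 => exact hRSHB F _ h1

end OutRF
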