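import Pool.Agent.Lib_MP_0c5939_al.Stmts2

/-!
# MP_0c5939_al, piece CentAlt: centralizer of the alternating group

Proof:
If u x = y != x choose z, w distinct from x, y (n >= 4) and the even permutation h = swap y z * swap z w, which
fixes x and moves y: u (h x) = y, h (u x) = h y != y.
-/

namespace OutRF
open Equiv

theorem CENTALT : CENTALT_stmt := by
  intro n u hn hu
  by_contra hne
  obtain ⟨x, hx⟩ : ∃ x, u x ≠ x := by
    by_contra hcon
    push Not at hcon
    exact hne (Perm.ext hcon)
  obtain ⟨z, hz⟩ : ∃ z : Fin n, z ∉ ({x, u x} : Finset (Fin n)) := by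
    by_contra hcon
    push Not at hcon
    have h1 : (Finset.univ : Finset (Fin n)).card ≤ ({x, u x} : Finset (Fin n)).card :=
      Finset.card_le_card fun a _ => hcon a
    rw [Finset.card_univ, Fintype.card_fin] at h1
    have h2 := Finset.card_le_two (a := x) (b := u x)
    omega
  obtain ⟨w, hw⟩ : ∃ w : Fin n, w ∉ ({x, u x, z} : Finset (Fin n)) := by
    by_contra hcon
    push Not at hcon
    have h1 : (Finset.univ : Finset (Fin n)).card ≤ ({x, u x, z} : Finset (Fin n)).card :=
      Finset.card_le_card fun a _ => hcon a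
    rw [Finset.card_univ, Fintype.card_fin] at h1
    have h2 := Finset.card_le_three (a := x) (b := u x) (c := z)
    omega
  simp only [Finset.mem_insert, Finset.mem_singleton, not_or] at hz hw
  have hmem : swap (u x) z * swap z w ∈ alternatingGroup (Fin n) := by
    rw [Perm.mem_alternatingGroup, Perm.sign_mul, Perm.sign_swap (Ne.symm hz.2),
      Perm.sign_swap (Ne.symm hw.2.2)]
    decide
  have h1 := congrArg (fun g : Perm (Fin n) => g x) (hu _ hmem)
  simp only [Perm.mul_apply] at h1
  rw [swap_apply_of_ne_of_ne (a := z) (b := w) (x := x) (Ne.symm hz.1) (Ne.symm hw.1),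
    swap_apply_of_ne_of_ne (a := u x) (b := z) (x := x) (Ne.symm hx) (Ne.symm hz.1),
    swap_apply_of_ne_of_ne (a := z) (b := w) (x := u x) (Ne.symm hz.2) (Ne.symm hw.2.1),
    swap_apply_left] at h1
  exact hz.2 h1.symm

end OutRF
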