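import Pool.Agent.Lib_MP_0c5939_al.Stmts2

/-!
# MP_0c5939_al, piece Close: normalising permutations are close to id or flip

Proof:
CLOSE: C = max of the LIP constants of pi and pi^-1 (NZ pi^-1 by NZN); BILIP with N = N c, f = fn pi c,
f' = fn pi^-1 (cm pi c) (NZN: N (cm pi c) = N c, and cm pi^-1 (cm pi c) = c; for f (f' y) = y apply the inverse
statement to pi^-1 at the component cm pi c). ORIGOOD: C' from CLOSE, K with 16^K > 4 C' + 4: N c > 16^K. If ori
(2 * fn 0 < N) and the second alternative: fn 0 >= N - 1 - C' so 2(N-1-C') < N, contradiction. If not ori and the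
first alternative: fn 0 <= C', 2 C' >= N, contradiction.
-/

namespace OutRF
open Equiv

theorem CLOSE (hNZN : NZN_stmt) (hLIP : LIP_stmt) (hBILIP : BILIP_stmt) : CLOSE_stmt := by
  intro F π hπ
  obtain ⟨n1, n2, n3, n4, n5⟩ := hNZN F π hπ
  obtain ⟨m1, m2, m3, m4, -⟩ := hNZN F π⁻¹ n5
  obtain ⟨C₁, hC₁⟩ := hLIP F π hπ
  obtain ⟨C₂, hC₂⟩ := hLIP F π⁻¹ n5
  obtain ⟨C', hC'⟩ := hBILIP (max C₁ C₂)
  refine ⟨C', fun c => ?_⟩
  have hb : F.cm π⁻¹ (F.cm π c) = c := (n4 c 0 (F.N_pos c)).1
  have hN : F.N (F.cm π c) = F.N c := n1 c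
  refine hC' (F.N c) (F.fn π c) (F.fn π⁻¹ (F.cm π c)) ?_ ?_ ?_ ?_
  · intro x hx
    have := n3 c x hx
    rw [hN] at this
    exact ⟨this, (n4 c x hx).2⟩
  · intro x hx
    have hx' : x < F.N (F.cm π c) := by rw [hN]; exact hx
    have h1 := m3 (F.cm π c) x hx'
    rw [hb] at h1
    have h2 := (m4 (F.cm π c) x hx').2
    rw [hb, inv_inv] at h2
    exact ⟨h1, h2⟩
  · intro x hx
    exact (hC₁ c x hx).trans (by exact_mod_cast le_max_left C₁ C₂)
  · intro x hx
    exact (hC₂ (F.cm π c) x (by rw [hN]; exact hx)).trans (by exact_mod_cast le_max_right C₁ C₂)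

theorem ORIGOOD (hCLOSE : CLOSE_stmt) : ORIGOOD_stmt := by
  intro F π hπ
  obtain ⟨C', hC'⟩ := hCLOSE F π hπ
  refine ⟨C', 4 * C' + 4, fun c hc => ?_⟩
  have hN : 4 * C' + 4 < F.N c := by
    have h1 := F.pow_lt_N c (4 * C' + 4) hc
    have h2 : 4 * C' + 4 < 16 ^ (4 * C' + 4) := Nat.lt_pow_self (by norm_num)
    omega
  have h0 := hC' c
  have hp := F.N_pos c
  constructor
  · intro ho w hw
    rcases h0 with h | h
    · exact h w hw
    · exfalso
      have := h 0 hp
      unfold Fam.ori at ho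
      rw [abs_le] at this
      have h3 := this.1
      push_cast at h3
      omega
  · intro ho w hw
    rcases h0 with h | h
    · exfalso
      have := h 0 hp
      unfold Fam.ori at ho
      rw [abs_le] at this
      have h3 := this.2
      push_cast at h3
      omega
    · exact h w hw

end OutRF
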