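import Pool.Agent.Lib_MP_0c5939_al.AppLem

/-!
# MP_0c5939_al, piece Comm: commutators of uniform 3-cycles

Proof:
Let W = {(c,p+x) | (c,p) in theta inter theta', p+x+5 <= N c}. u = T theta x, v = T theta' (x+2).
u is a product of 3-cycles on windows [p+x, p+x+3), p in theta, p+x+3 <= N; v on [p+x+2, p+x+5), p in theta',
p+x+5 <= N. Windows for different multiples of 16 are disjoint and far apart. Claim
u v u^-1 v^-1 = app 5 W kappa with kappa = a b a^-1 b^-1, a = c3 5 0, b = c3 5 2. Check pointwise on the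
16-periodic pieces: for a given p (16 | p) the points p+x .. p+x+4 are moved only by the windows of p.
If p in theta and p in theta' and p+x+5 <= N: u, v act on the 5-window as a, b. If only one of the two
windows is present at p, the commutator is trivial on these points. (Every point moved by u or v lies in
exactly one such 5-block [p+x, p+x+5); the commutator preserves each of them.)
kappa != 1 and kappa in alternatingGroup (Fin 5) by decide. Residues: q.2 % 16 = x for q in W
(x + 2 < 16, 16 | p). So CONJ5 with y = x gives the claim.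
-/

namespace OutRF
open Equiv

open Classical in
theorem COMM (hAPP : APP_stmt) (hCONJ5 : CONJ5_stmt) : COMM_stmt := by
  intro F θ θ' x hθ hθ' hx hu hv c' hc'
  let Wn : Set (F.C × ℕ) := {q | ∃ p, (q.1, p) ∈ θ ∩ θ' ∧ q.2 = p + x ∧ p + x + 5 ≤ F.N q.1}
  have hW1 : ∀ q ∈ Wn, q.2 % 16 = x := by
    rintro q ⟨p, h1, h2, _⟩
    have h3 := (hθ h1.1).1
    simp only at h3
    omega
  have hW2 : ∀ q ∈ Wn, q.2 + 5 ≤ F.N q.1 := by
    rintro q ⟨p, h1, h2, h3⟩
    omega
  let a : Perm (Fin 5) := c3 5 0 (by norm_num)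
  let b : Perm (Fin 5) := c3 5 2 (by norm_num)
  let κ : Perm (Fin 5) := a * b * a⁻¹ * b⁻¹
  have hκ1 : κ ≠ 1 := by
    intro h
    have h1 : (κ 0 : Fin 5) = 0 := by rw [h]; rfl
    revert h1
    simp only [κ, a, b]
    decide
  have hκ2 : κ ∈ alternatingGroup (Fin 5) :=
    mul_mem (mul_mem (mul_mem (c3_mem_alt _ _ _) (c3_mem_alt _ _ _)) (inv_mem (c3_mem_alt _ _ _)))
      (inv_mem (c3_mem_alt _ _ _))
  refine hCONJ5 F Wn x (fun q hq => ⟨hW1 q hq, hW2 q hq⟩) κ hκ2 hκ1 ?_ c' hc'
  have key : F.app 5 Wn κ * (F.T θ' (x + 2) * F.T θ x) = F.T θ x * F.T θ' (x + 2) := by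
    apply F.ev_ext
    intro c w _
    by_cases hw : ∃ p, 16 ∣ p ∧ p + x ≤ w ∧ w < p + x + 5
    · obtain ⟨p, hp, h1, h2⟩ := hw
      have hLu := Fam.LA_T hAPP hθ (x := x) (j := 0) (by norm_num) (c := c) (p := p) (z := p + x)
        hp rfl
      have hLv := Fam.LA_T hAPP hθ' (x := x + 2) (j := 2) (by norm_num) (c := c) (p := p)
        (z := p + x) hp rfl
      have hLK := Fam.LA_app5 hAPP hW1 hW2 κ (c := c) (z := p + x) (by omega)
      have hL1 := hLK.mul (hLv.mul hLu) ⟨w - (p + x), by omega⟩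
      have hL2 := hLu.mul hLv ⟨w - (p + x), by omega⟩
      simp only [show p + x + (w - (p + x)) = w by omega] at hL1 hL2
      rw [hL1, hL2]
      have hmem : (c, p + x) ∈ Wn ↔ ((c, p) ∈ θ ∧ p + x + 3 ≤ F.N c) ∧
          ((c, p) ∈ θ' ∧ p + (x + 2) + 3 ≤ F.N c) := by
        constructor
        · rintro ⟨p', h3, h4, h5⟩
          simp only at h3 h4 h5
          have h6 : p = p' := by omega
          subst h6
          exact ⟨⟨h3.1, by omega⟩, ⟨h3.2, by omega⟩⟩
        · rintro ⟨⟨h3, _⟩, h4, h5⟩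
          exact ⟨p, ⟨h3, h4⟩, rfl, by simp only; omega⟩
      by_cases hA : (c, p) ∈ θ ∧ p + x + 3 ≤ F.N c
      · by_cases hB : (c, p) ∈ θ' ∧ p + (x + 2) + 3 ≤ F.N c
        · rw [if_pos (hmem.2 ⟨hA, hB⟩), if_pos hA, if_pos hB]
          have : κ * (b * a) = a * b := by
            simp only [κ]
            group
          rw [this]
        · rw [if_neg (fun h => hB (hmem.1 h).2), if_pos hA, if_neg hB]
          simp
      · by_cases hB : (c, p) ∈ θ' ∧ p + (x + 2) + 3 ≤ F.N c
        · rw [if_neg (fun h => hA (hmem.1 h).1), if_neg hA, if_pos hB]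
          simp
        · rw [if_neg (fun h => hA (hmem.1 h).1), if_neg hA, if_neg hB]
          simp
    · have hu0 : F.ev (F.T θ x) c w = w := by
        apply Fam.T_fix hAPP hθ
        intro p hp _ h3
        exact hw ⟨p, (hθ hp).1, h3.1, by omega⟩
      have hv0 : F.ev (F.T θ' (x + 2)) c w = w := by
        apply Fam.T_fix hAPP hθ'
        intro p hp _ h3
        exact hw ⟨p, (hθ' hp).1, by omega, by omega⟩
      have hK0 : F.ev (F.app 5 Wn κ) c w = w := by
        apply Fam.app5_fix hAPP hW1 hW2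
        intro z hz h3
        by_cases hzx : x ≤ z
        · exact hw ⟨z - x, by omega, by omega, by omega⟩
        · omega
      rw [F.ev_mul, F.ev_mul, F.ev_mul, hu0, hv0, hK0, hu0]
  have key2 : F.app 5 Wn κ = F.T θ x * F.T θ' (x + 2) * (F.T θ' (x + 2) * F.T θ x)⁻¹ := by
    rw [← key, mul_inv_cancel_right]
  rw [key2]
  exact mul_mem (mul_mem hu hv) (inv_mem (mul_mem hv hu))

end OutRF
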