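import Pool.Agent.Lib_MP_0c5939_al.Stmts

/-!
# MP_0c5939_al, piece Conj5: conjugation in 5-windows

Proof:
Elements of Z have the same residue y mod 16 and z + 5 <= N, so F.Valid 5 Z. Let SZ = {c | app 5 Z c in
Gam}: a subgroup of Perm (Fin 5) (app is multiplicative in c: IsApp.unique). For j = 0,1,2 let
U_j = T blk ((y+j) % 16) in Gam (UNIV) and c_j = c3 5 j (j, j+1, j+2). For (c,z) in Z: z + j = 16 a + x' with
x' = (y+j) % 16, (c,16 a) in blk, 16 a + x' + 3 = z + j + 3 <= N, so U_j acts on [z, z+5) as c_j: the window of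
U_j at z+j gives the 3-cycle, all other windows of U_j start at distance a nonzero multiple of 16 from z + j,
so they do not meet [z, z+5) (other windows [q, q+3), |q - (z+j)| >= 16, j <= 2). Hence
U_j * app 5 Z c * U_j^-1 = app 5 Z (c_j * c * c_j^-1) (check IsApp: inside a window; outside the windows of Z
both are trivial). So SZ is normalised by c_0, c_1, c_2 (and, by finiteness/inverse, also
by the subgroup generated, use U_j^-1 too). By ALTGEN (L = 5) alternatingGroup (Fin 5) <= normalizer of SZ. So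
SZ intersected with alternatingGroup (Fin 5) (Subgroup.subgroupOf) is a normal subgroup of the simple group
alternatingGroup (Fin 5) (alternatingGroup.isSimpleGroup), it contains c != 1, so it is everything.
finRotate 3 maps 0 -> 1 -> 2 -> 0.
-/

namespace OutRF
open Equiv

namespace Conj5Aux

theorem isApp_mul {F : Fam} {L : ℕ} {S : Set (F.C × ℕ)} {h h' : Perm (Fin L)} {g g' : F.P}
    (hg : F.IsApp L S h g) (hg' : F.IsApp L S h' g') : F.IsApp L S (h * h') (g * g') := by
  refine ⟨?_, ?_⟩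
  · intro c p hp r
    rw [F.ev_mul, hg'.1 c p hp r, hg.1 c p hp (h' r)]
    rfl
  · intro c w hw
    rw [F.ev_mul, hg'.2 c w hw, hg.2 c w hw]

theorem isApp_one {F : Fam} {L : ℕ} {S : Set (F.C × ℕ)} : F.IsApp L S 1 1 := by
  refine ⟨?_, ?_⟩
  · intro c p hp r
    rw [F.ev_one]; rfl
  · intro c w hw
    rw [F.ev_one]

theorem isApp_inv {F : Fam} {L : ℕ} {S : Set (F.C × ℕ)} {h : Perm (Fin L)} {g : F.P}
    (hg : F.IsApp L S h g) : F.IsApp L S h⁻¹ g⁻¹ := by
  refine ⟨?_, ?_⟩
  · intro c p hp r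
    have h1 := hg.1 c p hp (h⁻¹ r)
    rw [show h (h⁻¹ r) = r from Equiv.apply_symm_apply h r] at h1
    rw [← h1, F.ev_inv_ev]
  · intro c w hw
    have h1 := hg.2 c w hw
    have h2 := F.ev_inv_ev g c w
    rw [h1] at h2
    exact h2

theorem c3_in (j : ℕ) (hj : j + 2 < 5) (r : Fin 5) (h1 : j ≤ r) (h2 : (r : ℕ) < j + 3) :
    ((c3 5 j hj r : Fin 5) : ℕ) = j + (finRotate 3 ⟨(r : ℕ) - j, by omega⟩ : ℕ) := by
  have hj' : j = 0 ∨ j = 1 ∨ j = 2 := by omega
  revert hj r
  rcases hj' with rfl | rfl | rfl <;> decide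

theorem c3_out (j : ℕ) (hj : j + 2 < 5) (r : Fin 5) (h1 : (r : ℕ) < j ∨ j + 3 ≤ r) :
    ((c3 5 j hj r : Fin 5) : ℕ) = r := by
  have hj' : j = 0 ∨ j = 1 ∨ j = 2 := by omega
  revert hj r
  rcases hj' with rfl | rfl | rfl <;> decide

end Conj5Aux

open Conj5Aux in
theorem CONJ5 (hAPP : APP_stmt) (hUNIV : UNIV_stmt) (hALTGEN : ALTGEN_stmt) : CONJ5_stmt := by
  intro F Z y hZ c hc hc1 hcG
  have hvalid : F.Valid 5 Z := by
    refine ⟨fun c p h => (hZ _ h).2, ?_⟩
    intro c p q hp hq hpq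
    have h1 : p % 16 = y := (hZ _ hp).1
    have h2 : q % 16 = y := (hZ _ hq).1
    omega
  have happ : ∀ h : Perm (Fin 5), F.IsApp 5 Z h (F.app 5 Z h) := fun h => hAPP F 5 Z h hvalid
  -- the universal elements
  have hU : ∀ (j : ℕ) (hj : j + 2 < 5), ∃ U ∈ F.Gam, ∀ c z, (c, z) ∈ Z → ∀ r : Fin 5,
      F.ev U c (z + r) = z + (c3 5 j hj r : ℕ) := by
    intro j hj
    refine ⟨F.T F.blk ((y + j) % 16), hUNIV F _ (Nat.mod_lt _ (by norm_num)), ?_⟩
    have hv : F.Valid 3 (F.pos F.blk ((y + j) % 16)) := by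
      refine ⟨?_, ?_⟩
      · rintro c p ⟨p0, h1, h2, h3⟩
        have h2' : p = p0 + (y + j) % 16 := h2
        have h3' : p0 + (y + j) % 16 + 3 ≤ F.N c := h3
        omega
      · rintro c p q ⟨p0, h1, h2, h3⟩ ⟨q0, k1, k2, k3⟩ hpq
        have h2' : p = p0 + (y + j) % 16 := h2
        have k2' : q = q0 + (y + j) % 16 := k2
        have h1' : 16 ∣ p0 := h1.1
        have k1' : 16 ∣ q0 := k1.1
        omega
    have hI := hAPP F 3 (F.pos F.blk ((y + j) % 16)) (finRotate 3) hv
    intro c z hz r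
    have hz1 : z % 16 = y := (hZ _ hz).1
    have hz2 : z + 5 ≤ F.N c := (hZ _ hz).2
    by_cases hr : j ≤ r ∧ (r : ℕ) < j + 3
    · have hmem : (c, z + j) ∈ F.pos F.blk ((y + j) % 16) := by
        refine ⟨16 * ((z + j) / 16), ⟨?_, ?_⟩, ?_, ?_⟩
        · exact Nat.dvd_mul_right _ _
        · show 16 * ((z + j) / 16) < F.N c
          omega
        · show z + j = 16 * ((z + j) / 16) + (y + j) % 16
          omega
        · show 16 * ((z + j) / 16) + (y + j) % 16 + 3 ≤ F.N c
          omega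
      have h1 := hI.1 c (z + j) hmem ⟨(r : ℕ) - j, by omega⟩
      rw [c3_in j hj r hr.1 hr.2]
      have e1 : z + j + ((⟨(r : ℕ) - j, by omega⟩ : Fin 3) : ℕ) = z + r := by
        show z + j + ((r : ℕ) - j) = z + r
        omega
      rw [e1] at h1
      rw [show F.T F.blk ((y + j) % 16) = F.app 3 (F.pos F.blk ((y + j) % 16)) (finRotate 3) from rfl, h1]
      omega
    · have hout : ∀ p, (c, p) ∈ F.pos F.blk ((y + j) % 16) → ¬ (p ≤ z + r ∧ z + r < p + 3) := by
        rintro p ⟨p0, h1, h2, h3⟩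
        have h2' : p = p0 + (y + j) % 16 := h2
        have h1' : 16 ∣ p0 := h1.1
        have := r.2
        omega
      have h1 := hI.2 c (z + r) hout
      rw [c3_out j hj r (by omega)]
      exact h1
  -- conjugation
  have hconj : ∀ (j : ℕ) (hj : j + 2 < 5), ∃ U ∈ F.Gam, ∀ h : Perm (Fin 5),
      F.app 5 Z (c3 5 j hj * h * (c3 5 j hj)⁻¹) = U * F.app 5 Z h * U⁻¹ := by
    intro j hj
    obtain ⟨U, hUG, hUw⟩ := hU j hj
    refine ⟨U, hUG, fun h => ?_⟩
    apply Fam.IsApp.unique (happ _)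
    have hUinv : ∀ c z, (c, z) ∈ Z → ∀ r : Fin 5,
        F.ev U⁻¹ c (z + r) = z + (((c3 5 j hj)⁻¹ r : Fin 5) : ℕ) := by
      intro c z hz r
      have h1 := hUw c z hz ((c3 5 j hj)⁻¹ r)
      rw [show c3 5 j hj ((c3 5 j hj)⁻¹ r) = r from Equiv.apply_symm_apply (c3 5 j hj) r] at h1
      rw [← h1, F.ev_inv_ev]
    refine ⟨?_, ?_⟩
    · intro c z hz r
      rw [F.ev_mul, F.ev_mul, hUinv c z hz r, (happ h).1 c z hz, hUw c z hz]
      rfl
    · intro c w hw
      rw [F.ev_mul, F.ev_mul]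
      have hout : ∀ p, (c, p) ∈ Z → ¬ (p ≤ F.ev U⁻¹ c w ∧ F.ev U⁻¹ c w < p + 5) := by
        intro p hp hh
        have h1 := hUw c p hp ⟨F.ev U⁻¹ c w - p, by omega⟩
        have e1 : p + ((⟨F.ev U⁻¹ c w - p, by omega⟩ : Fin 5) : ℕ) = F.ev U⁻¹ c w := by
          show p + (F.ev U⁻¹ c w - p) = _
          omega
        rw [e1, F.ev_ev_inv] at h1
        apply hw p hp
        have := (c3 5 j hj ⟨F.ev U⁻¹ c w - p, by omega⟩).2
        omega
      rw [(happ h).2 c _ hout, F.ev_ev_inv]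
  -- the subgroup
  let S : Subgroup (Perm (Fin 5)) :=
    { carrier := {h | F.app 5 Z h ∈ F.Gam}
      mul_mem' := by
        intro a b ha hb
        have : F.app 5 Z (a * b) = F.app 5 Z a * F.app 5 Z b :=
          Fam.IsApp.unique (happ _) (isApp_mul (happ a) (happ b))
        show F.app 5 Z (a * b) ∈ F.Gam
        rw [this]
        exact mul_mem ha hb
      one_mem' := by
        have : F.app 5 Z 1 = 1 := Fam.IsApp.unique (happ _) isApp_one
        show F.app 5 Z 1 ∈ F.Gam
        rw [this]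
        exact one_mem _
      inv_mem' := by
        intro a ha
        have : F.app 5 Z a⁻¹ = (F.app 5 Z a)⁻¹ := Fam.IsApp.unique (happ _) (isApp_inv (happ a))
        show F.app 5 Z a⁻¹ ∈ F.Gam
        rw [this]
        exact inv_mem ha }
  have hS : ∀ h, h ∈ S ↔ F.app 5 Z h ∈ F.Gam := fun h => Iff.rfl
  let Nm : Subgroup (Perm (Fin 5)) :=
    { carrier := {a | ∀ h, h ∈ S ↔ a * h * a⁻¹ ∈ S}
      mul_mem' := by
        intro a b ha hb h
        rw [hb h, ha (b * h * b⁻¹)]
        simp only [mul_assoc, mul_inv_rev]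
      one_mem' := by
        intro h
        simp
      inv_mem' := by
        intro a ha h
        rw [ha (a⁻¹ * h * a⁻¹⁻¹)]
        simp [mul_assoc] }
  have hNm : alternatingGroup (Fin 5) ≤ Nm := by
    apply hALTGEN 5 Nm
    intro j hj
    obtain ⟨U, hUG, hUc⟩ := hconj j hj
    intro h
    rw [hS, hS, hUc h]
    constructor
    · intro h1
      exact mul_mem (mul_mem hUG h1) (inv_mem hUG)
    · intro h1
      have := mul_mem (mul_mem (inv_mem hUG) h1) hUG
      have e : U⁻¹ * (U * F.app 5 Z h * U⁻¹) * U = F.app 5 Z h := by group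
      rwa [e] at this
  have hnormal : (S.subgroupOf (alternatingGroup (Fin 5))).Normal := by
    constructor
    intro a ha b
    rw [Subgroup.mem_subgroupOf] at ha ⊢
    have := (hNm b.2 (a : Perm (Fin 5))).1 ha
    simpa using this
  rcases IsSimpleGroup.eq_bot_or_eq_top_of_normal _ hnormal with h1 | h1
  · exfalso
    have h2 : (⟨c, hc⟩ : alternatingGroup (Fin 5)) ∈ S.subgroupOf (alternatingGroup (Fin 5)) := by
      rw [Subgroup.mem_subgroupOf]
      exact hcG
    rw [h1, Subgroup.mem_bot] at h2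
    exact hc1 (congrArg Subtype.val h2)
  · intro c' hc'
    have h2 : (⟨c', hc'⟩ : alternatingGroup (Fin 5)) ∈ S.subgroupOf (alternatingGroup (Fin 5)) := by
      rw [h1]; trivial
    rw [Subgroup.mem_subgroupOf] at h2
    exact h2

end OutRF
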