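import Pool.Agent.Lib_MP_0c5939_al.Stmts

/-!
# MP_0c5939_al, piece Count: parity count
-/

namespace OutRF
open Equiv

namespace CountPiece
open Classical

variable (F : Fam) (θ : Set (F.C × ℕ))

/-- number of elements of `θ` in `[q₀, q₀ + B)` -/
noncomputable def cnt (B : ℕ) (c : F.C) (q0 : ℕ) : ℕ :=
  ∑ r ∈ Finset.range B, if (c, q0 + r) ∈ θ then 1 else 0

theorem ncard_eq (K : ℕ) (c : F.C) (p : ℕ) :
    Set.ncard {q | (c, q) ∈ θ ∧ p ≤ q ∧ q < p + K} = cnt F θ K c p := by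
  unfold cnt
  rw [← Finset.card_filter]
  have h : {q | (c, q) ∈ θ ∧ p ≤ q ∧ q < p + K} =
      (((Finset.range K).filter (fun r => (c, p + r) ∈ θ)).image (fun r => p + r) : Finset ℕ) := by
    ext q
    simp only [Set.mem_ofPred_eq, Finset.coe_image, Finset.coe_filter, Finset.mem_range,
      Set.mem_image]
    constructor
    · rintro ⟨h1, h2, h3⟩
      refine ⟨q - p, ⟨by omega, ?_⟩, by omega⟩
      rw [Nat.add_sub_cancel' h2]; exact h1
    · rintro ⟨r, ⟨h1, h2⟩, rfl⟩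
      exact ⟨h2, by omega, by omega⟩
  rw [h, Set.ncard_coe_finset, Finset.card_image_of_injective]
  intro a b hab
  simpa using hab

theorem sum_range_mul_block (f : ℕ → ℕ) (B : ℕ) (m : ℕ) :
    ∑ x ∈ Finset.range (m * B), f x = ∑ a ∈ Finset.range m, ∑ r ∈ Finset.range B, f (a * B + r) := by
  induction m with
  | zero => simp
  | succ m ih =>
    rw [Finset.sum_range_succ, ← ih, Nat.succ_mul, Finset.sum_range_add]

theorem cnt_mul (B m : ℕ) (c : F.C) (p : ℕ) :
    cnt F θ (m * B) c p = ∑ a ∈ Finset.range m, cnt F θ B c (p + a * B) := by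
  unfold cnt
  rw [sum_range_mul_block]
  apply Finset.sum_congr rfl
  intro a _
  apply Finset.sum_congr rfl
  intro r _
  rw [Nat.add_assoc]

theorem keyEq_block (k : ℕ) (c c' : F.C) (q q' r : ℕ) (hk : k < F.n c) (hk' : k < F.n c')
    (hq : 16 ^ k ∣ q) (hq' : 16 ^ k ∣ q') (hr : r < 16 ^ k) (h : F.KeyEq k c c' q q') :
    F.KeyEq k c c' (q + r) (q' + r) := by
  obtain ⟨h1, h2, h3, h4, h5⟩ := h
  obtain ⟨m, rfl⟩ := hq
  obtain ⟨m', rfl⟩ := hq'
  have hN := F.pow_dvd_N c k hk.le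
  have hN' := F.pow_dvd_N c' k hk'.le
  obtain ⟨M, hM⟩ := hN
  obtain ⟨M', hM'⟩ := hN'
  have hB : 0 < 16 ^ k := Nat.pow_pos (by norm_num)
  refine ⟨h1, ?_, ?_, ?_, ?_⟩
  · rw [Nat.mul_add_mod, Nat.mul_add_mod]
  · rw [F.typ_block c k (16 ^ k * m + r) (16 ^ k * m), F.typ_block c' k (16 ^ k * m' + r) (16 ^ k * m')]
    · exact h3
    · rw [Nat.mul_add_div hB, Nat.div_eq_of_lt hr, Nat.mul_div_cancel_left _ hB, Nat.add_zero]
    · rw [Nat.mul_add_div hB, Nat.div_eq_of_lt hr, Nat.mul_div_cancel_left _ hB, Nat.add_zero]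
  · have e : ∀ m : ℕ, (16 ^ k * m + r < 16 ^ k ↔ 16 ^ k * m < 16 ^ k) := by
      intro m
      rcases Nat.eq_zero_or_pos m with rfl | hm
      · simp [hr]
      · have : 16 ^ k ≤ 16 ^ k * m := Nat.le_mul_of_pos_right _ hm
        constructor <;> intro _ <;> omega
    rw [e, e]; exact h4
  · rw [hM, hM'] at h5 ⊢
    have e : ∀ m M : ℕ, (16 ^ k * M ≤ 16 ^ k * m + r + 16 ^ k ↔ 16 ^ k * M ≤ 16 ^ k * m + 16 ^ k) := by
      intro m M
      constructor
      · intro hh
        by_contra hc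
        push Not at hc
        have h6 : 16 ^ k * (m + 1) < 16 ^ k * M := by rw [Nat.mul_succ]; exact hc
        have h7 : m + 1 < M := Nat.lt_of_mul_lt_mul_left h6
        have h8 : 16 ^ k * (m + 2) ≤ 16 ^ k * M := Nat.mul_le_mul_left _ h7
        rw [Nat.mul_succ, Nat.mul_succ] at h8
        omega
      · intro hh; omega
    rw [e, e]; exact h5

theorem cnt_congr (k : ℕ) (hθ : F.LocAt k (fun c w => (c, w) ∈ θ)) (c c' : F.C) (q q' : ℕ)
    (hk : k < F.n c) (hk' : k < F.n c') (hq : 16 ^ k ∣ q) (hq' : 16 ^ k ∣ q')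
    (hqN : q < F.N c) (hqN' : q' < F.N c') (h : F.KeyEq k c c' q q') :
    cnt F θ (16 ^ k) c q = cnt F θ (16 ^ k) c' q' := by
  unfold cnt
  apply Finset.sum_congr rfl
  intro r hr
  rw [Finset.mem_range] at hr
  have lt : ∀ (c : F.C) (q : ℕ), k < F.n c → 16 ^ k ∣ q → q < F.N c → q + r < F.N c := by
    intro c q hk hq hqN
    obtain ⟨M, hM⟩ := F.pow_dvd_N c k hk.le
    obtain ⟨m, rfl⟩ := hq
    rw [hM] at hqN ⊢
    have h7 : m < M := Nat.lt_of_mul_lt_mul_left hqN
    have h8 : 16 ^ k * (m + 1) ≤ 16 ^ k * M := Nat.mul_le_mul_left _ h7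
    rw [Nat.mul_succ] at h8
    omega
  have e := hθ c c' (q + r) (q' + r) hk hk' (lt c q hk hq hqN) (lt c' q' hk' hq' hqN')
    (keyEq_block F k c c' q q' r hk hk' hq hq' hr h)
  simp only at e
  simp only [e]

/-- the count as a function of the key of the block -/
noncomputable def cv (k : ℕ) (σ : Fin k → Bool × Bool) (t : ℕ) (f l : Prop) : ℕ :=
  if H : ∃ cq : F.C × ℕ, k < F.n cq.1 ∧ 16 ^ k ∣ cq.2 ∧ cq.2 < F.N cq.1 ∧
      (∀ j : Fin k, F.s cq.1 j = σ j) ∧ F.typ cq.1 k cq.2 = t ∧ (cq.2 < 16 ^ k ↔ f) ∧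
      (F.N cq.1 ≤ cq.2 + 16 ^ k ↔ l)
  then cnt F θ (16 ^ k) H.choose.1 H.choose.2 else 0

theorem cnt_eq_cv (k : ℕ) (hθ : F.LocAt k (fun c w => (c, w) ∈ θ)) (c : F.C) (q : ℕ)
    (hk : k < F.n c) (hq : 16 ^ k ∣ q) (hqN : q < F.N c) (t : ℕ) (f l : Prop)
    (ht : F.typ c k q = t) (hf : q < 16 ^ k ↔ f) (hl : F.N c ≤ q + 16 ^ k ↔ l) :
    cnt F θ (16 ^ k) c q = cv F θ k (fun j => F.s c j) t f l := by
  have H : ∃ cq : F.C × ℕ, k < F.n cq.1 ∧ 16 ^ k ∣ cq.2 ∧ cq.2 < F.N cq.1 ∧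
      (∀ j : Fin k, F.s cq.1 j = F.s c j) ∧ F.typ cq.1 k cq.2 = t ∧ (cq.2 < 16 ^ k ↔ f) ∧
      (F.N cq.1 ≤ cq.2 + 16 ^ k ↔ l) := ⟨(c, q), hk, hq, hqN, fun _ => rfl, ht, hf, hl⟩
  unfold cv
  rw [dif_pos H]
  obtain ⟨h1, h2, h3, h4, h5, h6, h7⟩ := H.choose_spec
  apply cnt_congr F θ k hθ c H.choose.1 q H.choose.2 hk h1 hq h2 hqN h3
  refine ⟨fun j hj => (h4 ⟨j, hj⟩).symm, ?_, ?_, ?_, ?_⟩
  · rw [Nat.mod_eq_zero_of_dvd hq, Nat.mod_eq_zero_of_dvd h2]
  · rw [ht, h5]
  · rw [hf, h6]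
  · rw [hl, h7]

end CountPiece

open CountPiece in
theorem COUNT : COUNT_stmt := by
  classical
  intro F θ k hθ
  refine ⟨fun σ => cv F θ k σ 0 True False + cv F θ k σ 0 False False,
    fun σ => cv F θ k σ 0 False False + cv F θ k σ 0 False True, ?_⟩
  intro c p hk hp hpN
  obtain ⟨B, hB⟩ : ∃ B, B = 16 ^ k := ⟨_, rfl⟩
  have hBpos : 0 < B := by rw [hB]; exact Nat.pow_pos (by norm_num)
  have hK : 16 ^ (k + 1) = 16 * B := by rw [hB, pow_succ, mul_comm]
  rw [ncard_eq, hK, cnt_mul]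
  rw [hK] at hp
  have hBp : B ∣ p := Dvd.dvd.trans (Dvd.intro_left 16 rfl) hp
  obtain ⟨M, hM⟩ := F.pow_dvd_N c (k + 1) hk
  rw [hK] at hM
  obtain ⟨m, hm⟩ := hp
  have hlt : p + 16 * B ≤ F.N c := by
    have h7 : m < M := Nat.lt_of_mul_lt_mul_left (a := 16 * B) (by rw [← hM, ← hm]; exact hpN)
    have h8 : 16 * B * (m + 1) ≤ 16 * B * M := Nat.mul_le_mul_left _ h7
    rw [Nat.mul_succ, ← hM, ← hm] at h8
    exact h8
  -- types of the sub-blocks
  set T := F.typ c (k + 1) p with hT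
  have htyp : ∀ a, a < 16 → F.typ c k (p + a * B) = W (F.s c k) T a := by
    intro a ha
    rw [F.typ_lt c k _ hk]
    have e1 : (p + a * B) / 16 ^ k % 16 = a := by
      rw [← hB, Nat.add_mul_div_right _ _ hBpos, hm]
      have : 16 * B * m / B = 16 * m := by
        rw [show 16 * B * m = 16 * m * B by ring, Nat.mul_div_cancel _ hBpos]
      rw [this]; omega
    have e2 : F.typ c (k + 1) (p + a * B) = T := by
      rw [hT]
      apply F.typ_block
      rw [hK, hm, Nat.mul_add_div (by omega), Nat.mul_div_cancel_left _ (by omega)]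
      rw [Nat.div_eq_of_lt, Nat.add_zero]
      have : a * B < 16 * B := Nat.mul_lt_mul_of_pos_right ha hBpos
      exact this
    rw [e1, e2]
  have hval : ∀ a, a < 16 → cnt F θ B c (p + a * B) =
      cv F θ k (fun j => F.s c j) (W (F.s c k) T a) (p + a * B < B) (F.N c ≤ p + a * B + B) := by
    intro a ha
    have h9 : (a + 1) * B ≤ 16 * B := Nat.mul_le_mul_right _ ha
    rw [Nat.succ_mul] at h9
    have hd : 16 ^ k ∣ p + a * B := by
      rw [← hB]; exact Dvd.dvd.add hBp (Dvd.intro_left a rfl)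
    have key := cnt_eq_cv F θ k hθ c (p + a * B) hk hd (by omega) (W (F.s c k) T a) _ _
      (htyp a ha) Iff.rfl Iff.rfl
    rw [← hB] at key
    exact key
  have hmid : ∀ a, 1 ≤ a → a ≤ 14 → cnt F θ B c (p + a * B) =
      cv F θ k (fun j => F.s c j) (W (F.s c k) T a) False False := by
    intro a h1 h2
    rw [hval a (by omega)]
    have h9 : (a + 1) * B ≤ 15 * B := Nat.mul_le_mul_right _ (by omega)
    rw [Nat.succ_mul] at h9
    have h10 : 1 * B ≤ a * B := Nat.mul_le_mul_right _ h1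
    have e1 : (p + a * B < B) = False := propext (iff_of_false (by omega) id)
    have e2 : (F.N c ≤ p + a * B + B) = False := propext (iff_of_false (by omega) id)
    rw [e1, e2]
  have h0 : cnt F θ B c (p + 0 * B) = cv F θ k (fun j => F.s c j) 0 (p = 0) False := by
    rw [hval 0 (by norm_num), W_zero]
    have e1 : (p + 0 * B < B) = (p = 0) := by
      apply propext
      constructor
      · intro h
        rw [hm] at h ⊢
        rcases Nat.eq_zero_or_pos m with rfl | hm0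
        · simp
        · have : 16 * B * 1 ≤ 16 * B * m := Nat.mul_le_mul_left _ hm0
          omega
      · intro h; rw [h]; omega
    have e2 : (F.N c ≤ p + 0 * B + B) = False := propext (iff_of_false (by omega) id)
    rw [e1, e2]
  have h15 : cnt F θ B c (p + 15 * B) = cv F θ k (fun j => F.s c j) 0 False (p + 16 * B = F.N c) := by
    rw [hval 15 (by norm_num), W_fifteen]
    have e1 : (p + 15 * B < B) = False := propext (iff_of_false (by omega) id)
    have e2 : (F.N c ≤ p + 15 * B + B) = (p + 16 * B = F.N c) := by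
      apply propext; constructor <;> intro _ <;> omega
    rw [e1, e2]
  have hsym : ∀ a, a ≤ 15 → W (F.s c k) T (15 - a) = W (F.s c k) T a := fun a ha => W_sym _ _ _ ha
  have hsum : ∃ E : ℕ, ∑ a ∈ Finset.range 16, cnt F θ B c (p + a * B) =
      cv F θ k (fun j => F.s c j) 0 (p = 0) False +
      cv F θ k (fun j => F.s c j) 0 False (p + 16 * B = F.N c) + 2 * E := by
    refine ⟨∑ a ∈ Finset.range 7, cnt F θ B c (p + (a + 1) * B), ?_⟩
    have pair : ∀ a, 1 ≤ a → a ≤ 7 → cnt F θ B c (p + (15 - a) * B) = cnt F θ B c (p + a * B) := by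
      intro a h1 h2
      rw [hmid a h1 (by omega), hmid (15 - a) (by omega) (by omega), hsym a (by omega)]
    have p1 := pair 1 (by norm_num) (by norm_num)
    have p2 := pair 2 (by norm_num) (by norm_num)
    have p3 := pair 3 (by norm_num) (by norm_num)
    have p4 := pair 4 (by norm_num) (by norm_num)
    have p5 := pair 5 (by norm_num) (by norm_num)
    have p6 := pair 6 (by norm_num) (by norm_num)
    have p7 := pair 7 (by norm_num) (by norm_num)
    norm_num at p1 p2 p3 p4 p5 p6 p7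
    simp only [Finset.sum_range_succ, Finset.sum_range_zero]
    rw [h0, h15]
    norm_num
    omega
  obtain ⟨E, hE⟩ := hsum
  rw [hE]
  refine ⟨?_, ?_, ?_, ?_⟩
  · intro h1 h2
    rw [show (p = 0) = False from propext ⟨fun h => h1 h, fun h => h.elim⟩,
      show (p + 16 * B = F.N c) = False from propext ⟨fun h => h2 h, fun h => h.elim⟩]
    exact ⟨cv F θ k (fun j => F.s c j) 0 False False + E, by ring⟩
  · intro h1 h2
    rw [show (p = 0) = True from propext ⟨fun _ => trivial, fun _ => h1⟩,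
      show (p + 16 * B = F.N c) = False from propext ⟨fun h => h2 h, fun h => h.elim⟩]
    beta_reduce
    omega
  · intro h1 h2
    rw [show (p = 0) = False from propext ⟨fun h => h1 h, fun h => h.elim⟩,
      show (p + 16 * B = F.N c) = True from propext ⟨fun _ => trivial, fun _ => h2⟩]
    beta_reduce
    omega
  · intro h1 h2
    rw [show (p = 0) = True from propext ⟨fun _ => trivial, fun _ => h1⟩,
      show (p + 16 * B = F.N c) = True from propext ⟨fun _ => trivial, fun _ => h2⟩]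
    beta_reduce
    omega

end OutRF
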