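import Pool.Agent.Lib_MP_0c5939_al.Stmts

/-!
# MP_0c5939_al, piece Cut: cutting an element along junctions

Proof:
inA g: disp g LocAt k0, |disp g| <= R (LOCBDD). Choose k >= max k0 1 with R <= m := 16^k; K = k+1.
For c with K < n c and a junction b (16^(k+1) | b, 0 < b < N c; then b + 16^(k+1) <= N c) let the window be
[b - m, b + m) and Pat(c,b) : Finset (Fin (2m)) = {x | ev g c (b - m + x) < b}.
(1) card Pat = m: g is a bijection of [0,N) with displacement <= m; points < b - m stay < b, points >= b + m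
stay >= b; the number of w with ev g c w < b is b (bijection; image of [0,N) is [0,N)), those outside the
window are exactly the b - m points below b - m.
(2) Pat only depends on the symbols below k: JUNC + LocAt k of disp g (LOCMONO): for c, c' with equal symbols
below k and junctions b, b' the displacements at b - m + x and b' - m + x agree.
H c p := the kappa of PERMHALF (m >= 16) for Pat(c, p+m), as a function of the finset (choose once for every
finset of card m), for (c,p) in S := {(c,p) | K < n c, 16^(k+1) | p + m, p + m < N c}; H c p = 1 outside S.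
S is local (LOCBASIC, LOCSH, LOCCOMB, LOCFINITE), H is local: level max of a level of S and k+1: equal keys give
equal symbols below k and simultaneous membership in S. Valid (2m) S: p + 2m <= N since b + 16 m <= N;
different junctions differ by >= 16 m >= 2m. p % 16 = 0 (k >= 1). APPF gives gamma in Gam.
(3) g * gamma preserves the side of every junction b (K < n c): for w in [b-m,b+m), w = p + x:
ev gamma w = p + kappa x, ev g of it is < b iff kappa x in Pat iff x < m iff w < b. For w outside the window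
of b: gamma w = w or gamma w is in the same window of another junction as w (distance >= 14 m from b), so
gamma w is on the same side of b as w and at distance >= m from the junction b (strictly: gamma w < b - m or
gamma w >= b + m), and g moves by at most R <= m. So on the same side.
(4) Hence ev (g gamma) c w / 16^K = w / 16^K: w in [b, b+16^K) with b = 16^K (w / 16^K): if b > 0 junction b
gives the lower bound, if b + 16^K < N junction b + 16^K gives the upper bound, else value < N = b + 16^K
(16^K divides N c). 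
-/

namespace OutRF
open Equiv

theorem cut_disp (F : Fam) (g : F.P) (c : F.C) (w : ℕ) :
    ((F.ev g c w : ℕ) : ℤ) = (w : ℤ) + F.disp g c w := by
  unfold Fam.disp
  ring

/-- the number of points sent below a junction from its window -/
theorem cut_card (F : Fam) (g : F.P) (c : F.C) (b m R : ℕ)
    (hR : ∀ w, w < F.N c → |F.disp g c w| ≤ R) (hRm : R ≤ m) (hmb : m ≤ b) (hbN : b + m ≤ F.N c) :
    ((Finset.univ : Finset (Fin (2 * m))).filter
      (fun x : Fin (2 * m) => F.ev g c (b - m + (x : ℕ)) < b)).card = m := by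
  classical
  set Pt : Finset (Fin (2 * m)) := (Finset.univ : Finset (Fin (2 * m))).filter
    (fun x : Fin (2 * m) => F.ev g c (b - m + (x : ℕ)) < b) with hPt
  set S := (Finset.range (F.N c)).filter (fun w => F.ev g c w < b) with hS
  have hcS : S.card = b := by
    rw [← Finset.card_range b]
    refine Finset.card_bij (fun w _ => F.ev g c w) ?_ ?_ ?_
    · intro w hw
      rw [hS, Finset.mem_filter] at hw
      exact Finset.mem_range.mpr hw.2
    · intro a _ a' _ h
      exact F.ev_inj g c a a' h
    · intro y hy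
      rw [Finset.mem_range] at hy
      refine ⟨F.ev g⁻¹ c y, ?_, F.ev_ev_inv g c y⟩
      rw [hS, Finset.mem_filter, Finset.mem_range, F.ev_ev_inv]
      exact ⟨(F.ev_lt_iff g⁻¹ c y).mpr (by omega), hy⟩
  have hdec : S = Finset.range (b - m) ∪ Pt.image (fun x : Fin (2 * m) => b - m + (x : ℕ)) := by
    ext w
    rw [hS, Finset.mem_filter, Finset.mem_range, Finset.mem_union, Finset.mem_range,
      Finset.mem_image]
    constructor
    · rintro ⟨hw, hb⟩
      by_cases h1 : w < b - m
      · exact Or.inl h1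
      · right
        have h2 : w < b + m := by
          by_contra h3
          have h4 := cut_disp F g c w
          have h5 := (abs_le.mp (hR w hw)).1
          have h6 : (b : ℤ) ≤ (F.ev g c w : ℕ) := by rw [h4]; omega
          omega
        refine ⟨⟨w - (b - m), by omega⟩, ?_, by simp only; omega⟩
        rw [hPt, Finset.mem_filter]
        refine ⟨Finset.mem_univ _, ?_⟩
        have : b - m + (w - (b - m)) = w := by omega
        simp only [this]
        exact hb
    · rintro (h | ⟨x, hx, rfl⟩)
      · have hw : w < F.N c := by omega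
        refine ⟨hw, ?_⟩
        have h4 := cut_disp F g c w
        have h5 := (abs_le.mp (hR w hw)).2
        omega
      · rw [hPt, Finset.mem_filter] at hx
        have := x.2
        exact ⟨by omega, hx.2⟩
  have hdisj : Disjoint (Finset.range (b - m))
      (Pt.image (fun x : Fin (2 * m) => b - m + (x : ℕ))) := by
    rw [Finset.disjoint_left]
    intro w h1 h2
    rw [Finset.mem_range] at h1
    rw [Finset.mem_image] at h2
    obtain ⟨x, _, hx⟩ := h2
    omega
  rw [hdec, Finset.card_union_of_disjoint hdisj, Finset.card_range,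
    Finset.card_image_of_injective] at hcS
  · omega
  · intro x y hxy
    have : b - m + (x : ℕ) = b - m + (y : ℕ) := hxy
    exact Fin.ext (by omega)

theorem CUT (hAPP : APP_stmt) (hLOCMONO : LOCMONO_stmt) (hLOCBDD : LOCBDD_stmt) (hLOCFINITE : LOCFINITE_stmt) (hLOCCOMB : LOCCOMB_stmt) (hLOCSH : LOCSH_stmt) (hLOCBASIC : LOCBASIC_stmt) (hJUNC : JUNC_stmt) (hAPPF : APPF_stmt) (hPERMHALF : PERMHALF_stmt) : CUT_stmt := by
  classical
  intro F g hg
  obtain ⟨-, k0, hk0⟩ := hg
  obtain ⟨R, hR⟩ := hLOCBDD F (F.disp g) ⟨k0, hk0⟩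
  obtain ⟨k, hk⟩ : ∃ k, k = max k0 (R + 1) := ⟨_, rfl⟩
  obtain ⟨m, hm⟩ : ∃ m, m = 16 ^ k := ⟨_, rfl⟩
  have hkR : R + 1 ≤ k := by rw [hk]; exact le_max_right _ _
  have hRm : R ≤ m := by
    have h1 : k < 16 ^ k := Nat.lt_pow_self (by norm_num)
    omega
  have hmk : 16 ^ (k + 1) = 16 * m := by rw [hm, pow_succ]; ring
  have hm16 : 16 ∣ m := by
    rw [hm]
    exact dvd_pow_self 16 (by omega)
  have hmpos : 0 < m := by rw [hm]; exact Nat.pow_pos (by norm_num)
  have hmz : (m : ℤ) = (16 : ℤ) ^ k := by rw [hm]; push_cast; rfl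
  have hm2 : 16 ≤ m := Nat.le_of_dvd hmpos hm16
  have hloc : F.LocAt k (F.disp g) := hLOCMONO F ℤ k0 k _ (by rw [hk]; exact le_max_left _ _) hk0
  -- the pattern
  let Pat : F.C → ℕ → Finset (Fin (2 * m)) := fun c b =>
    Finset.univ.filter (fun x : Fin (2 * m) => F.ev g c (b - m + x) < b)
  have hkap : ∀ S : Finset (Fin (2 * m)), ∃ κ : Perm (Fin (2 * m)), κ ∈ alternatingGroup (Fin (2 * m)) ∧
      (S.card = m → ∀ x, κ x ∈ S ↔ (x : ℕ) < m) := by
    intro S
    by_cases hS : S.card = m
    · obtain ⟨κ, h1, h2⟩ := hPERMHALF m S (by omega) hS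
      exact ⟨κ, h1, fun _ => h2⟩
    · exact ⟨1, one_mem _, fun h => absurd h hS⟩
  choose kap hkap1 hkap2 using hkap
  let S : Set (F.C × ℕ) := {q | k + 1 < F.n q.1 ∧ 16 ^ (k + 1) ∣ q.2 + m ∧ q.2 + m < F.N q.1}
  let H : F.C → ℕ → Perm (Fin (2 * m)) := fun c p => if (c, p) ∈ S then kap (Pat c (p + m)) else 1
  -- facts on junctions
  have hjN : ∀ (c : F.C) (b : ℕ), k + 1 < F.n c → 16 ^ (k + 1) ∣ b → b < F.N c → b + 16 * m ≤ F.N c := by
    intro c b hc hb hbN
    have h1 := F.pow_dvd_N c (k + 1) (by omega)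
    rw [hmk] at h1 hb
    obtain ⟨u, hu⟩ := hb
    obtain ⟨v, hv⟩ := h1
    have h2 : u < v := by
      by_contra h3
      have : 16 * m * v ≤ 16 * m * u := Nat.mul_le_mul le_rfl (by omega)
      omega
    have h3 : 16 * m * (u + 1) ≤ 16 * m * v := Nat.mul_le_mul le_rfl h2
    rw [hu, hv]
    linarith
  have hjd : ∀ b b' : ℕ, 16 ^ (k + 1) ∣ b → 16 ^ (k + 1) ∣ b' → b < b' → b + 16 * m ≤ b' := by
    intro b b' hb hb' hlt
    rw [hmk] at hb hb'
    obtain ⟨u, hu⟩ := hb
    obtain ⟨v, hv⟩ := hb'
    have h2 : u < v := by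
      by_contra h3
      have : 16 * m * v ≤ 16 * m * u := Nat.mul_le_mul le_rfl (by omega)
      omega
    have h3 : 16 * m * (u + 1) ≤ 16 * m * v := Nat.mul_le_mul le_rfl h2
    rw [hu, hv]
    linarith
  have hj0 : ∀ b : ℕ, 16 ^ (k + 1) ∣ b → 0 < b → 16 * m ≤ b := by
    intro b hb hb0
    have := hjd 0 b (dvd_zero _) hb hb0
    omega
  have hcard : ∀ (c : F.C) (b : ℕ), k + 1 < F.n c → 16 ^ (k + 1) ∣ b → 0 < b → b < F.N c →
      (Pat c b).card = m := by
    intro c b hc hb hb0 hbN
    have h1 := hjN c b hc hb hbN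
    have h2 := hj0 b hb hb0
    exact cut_card F g c b m R (fun w hw => hR c w hw) hRm (by omega) (by omega)
  -- locality of S
  have hSloc : F.Loc (fun c w => (c, w) ∈ S) := by
    have h1 := (hLOCBASIC F).1 (k + 1)
    have h2 := (hLOCBASIC F).2.2.1 (m + 1)
    have h3 := hLOCCOMB F ℕ ℕ Prop _ _ (fun a b => 16 ^ (k + 1) ∣ a + m ∧ m < b) h1 h2
    refine hLOCFINITE F Prop _ _ (k + 1) ?_ h3
    intro c w hc hw
    simp only [S, Set.mem_ofPred_eq, eq_iff_iff]
    have e1 : 16 ^ (k + 1) ∣ w % 16 ^ (k + 1) + m ↔ 16 ^ (k + 1) ∣ w + m := by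
      have : w + m = w % 16 ^ (k + 1) + m + 16 ^ (k + 1) * (w / 16 ^ (k + 1)) := by
        have := Nat.mod_add_div w (16 ^ (k + 1))
        omega
      rw [this]
      exact (Nat.dvd_add_left (Dvd.intro _ rfl)).symm
    rw [e1]
    constructor
    · rintro ⟨a1, a2⟩
      exact ⟨hc, a1, by omega⟩
    · rintro ⟨_, a1, a2⟩
      exact ⟨a1, by omega⟩
  -- the pattern only depends on the symbols
  have hPat : ∀ (c c' : F.C) (b b' : ℕ), k + 1 < F.n c → k + 1 < F.n c' →
      (∀ j < k, F.s c j = F.s c' j) → 16 ^ (k + 1) ∣ b → 16 ^ (k + 1) ∣ b' → 0 < b → b < F.N c →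
      0 < b' → b' < F.N c' → Pat c b = Pat c' b' := by
    intro c c' b b' hc hc' hs hb hb' hb0 hbN hb0' hbN'
    have g1 := hjN c b hc hb hbN
    have g2 := hj0 b hb hb0
    have g3 := hjN c' b' hc' hb' hbN'
    have g4 := hj0 b' hb' hb0'
    ext x
    simp only [Pat, Finset.mem_filter, Finset.mem_univ, true_and]
    have hx := x.2
    have hkey := hJUNC F k c c' b b' ((x : ℤ) - m) (by omega) (by omega) hs hb hb' hb0 hbN hb0' hbN'
      (by rw [← hmz]; omega) (by rw [← hmz]; omega)
    have e1 : ((b : ℤ) + ((x : ℤ) - m)).toNat = b - m + x := by omega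
    have e2 : ((b' : ℤ) + ((x : ℤ) - m)).toNat = b' - m + x := by omega
    rw [e1, e2] at hkey
    have hd := hloc c c' _ _ (by omega) (by omega) (by omega) (by omega) hkey
    have d1 := cut_disp F g c (b - m + x)
    have d2 := cut_disp F g c' (b' - m + x)
    rw [hd] at d1
    constructor <;> intro h <;> omega
  have hHloc : F.Loc H := by
    obtain ⟨kS, hkS⟩ := hSloc
    refine ⟨max kS (k + 1), ?_⟩
    intro c c' w w' hc hc' hw hw' hkey
    have hmem := hLOCMONO F Prop kS (max kS (k + 1)) _ (le_max_left _ _) hkS c c' w w' hc hc' hw hw'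
      hkey
    simp only [eq_iff_iff] at hmem
    simp only [H]
    by_cases h : (c, w) ∈ S
    · rw [if_pos h, if_pos (hmem.mp h)]
      have h' := hmem.mp h
      have hs : ∀ j < k, F.s c j = F.s c' j := fun j hj => hkey.1 j (by
        have := le_max_right kS (k + 1)
        omega)
      rw [hPat c c' (w + m) (w' + m) h.1 h'.1 hs h.2.1 h'.2.1 (by omega) h.2.2 (by omega) h'.2.2]
    · rw [if_neg h, if_neg (fun h' => h (hmem.mpr h'))]
  have hSmod : ∀ q ∈ S, q.2 % 16 = 0 := by
    rintro ⟨c, p⟩ ⟨_, h1, _⟩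
    have h2 : 16 ∣ p + m := dvd_trans (dvd_pow_self 16 (by omega)) h1
    have h3 : 16 ∣ p := (Nat.dvd_add_left hm16).mp h2
    exact Nat.mod_eq_zero_of_dvd h3
  have hSval : F.Valid (2 * m) S := by
    constructor
    · rintro c p ⟨h0, h1, h2⟩
      have := hjN c (p + m) h0 h1 h2
      omega
    · rintro c p q ⟨h0, h1, h2⟩ ⟨_, h3, h4⟩ hpq
      have h3' : 16 ^ (k + 1) ∣ q + m := h3
      have := hjd (p + m) (q + m) h1 h3' (by omega)
      omega
  have hHalt : ∀ c p, (c, p) ∈ S → H c p ∈ alternatingGroup (Fin (2 * m)) := by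
    intro c p h
    simp only [H, if_pos h]
    exact hkap1 _
  obtain ⟨γ, hγ, hγ1, hγ2⟩ := hAPPF F (2 * m) S H 0 hSloc hHloc hSmod hSval hHalt
  refine ⟨γ, hγ, k + 1, ?_⟩
  intro c hc w hw
  -- sides of junctions are preserved
  have hside : ∀ b : ℕ, 16 ^ (k + 1) ∣ b → 0 < b → b < F.N c → (F.ev (g * γ) c w < b ↔ w < b) := by
    intro b hb hb0 hbN
    have g1 := hjN c b hc hb hbN
    have g2 := hj0 b hb hb0
    rw [F.ev_mul]
    by_cases hwin : b - m ≤ w ∧ w < b + m
    · have hp : (c, b - m) ∈ S := by
        refine ⟨hc, ?_, ?_⟩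
        · have : b - m + m = b := by omega
          simp only [this]; exact hb
        · have : b - m + m = b := by omega
          simp only [this]; exact hbN
      have h1 := hγ1 c (b - m) hp ⟨w - (b - m), by omega⟩
      simp only at h1
      rw [show b - m + (w - (b - m)) = w by omega] at h1
      rw [h1]
      simp only [H, if_pos hp]
      rw [show b - m + m = b by omega]
      have h2 := hkap2 (Pat c b) (hcard c b hc hb hb0 hbN) ⟨w - (b - m), by omega⟩
      have h3 : (kap (Pat c b) ⟨w - (b - m), by omega⟩ ∈ Pat c b) ↔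
          F.ev g c (b - m + (kap (Pat c b) ⟨w - (b - m), by omega⟩ : Fin (2 * m))) < b := by
        simp only [Pat, Finset.mem_filter, Finset.mem_univ, true_and]
      rw [← h3, h2]
      simp only
      omega
    · have hw' : (w < b - m ∧ F.ev γ c w < b - m) ∨ (b + m ≤ w ∧ b + m ≤ F.ev γ c w) := by
        by_cases hex : ∃ p, (c, p) ∈ S ∧ p ≤ w ∧ w < p + 2 * m
        · obtain ⟨p, hp, hpw, hwp⟩ := hex
          have h1 := hγ1 c p hp ⟨w - p, by omega⟩
          simp only at h1
          rw [show p + (w - p) = w by omega] at h1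
          have h2 := (H c p ⟨w - p, by omega⟩).2
          have hpm : 16 ^ (k + 1) ∣ p + m := hp.2.1
          have hne : p + m ≠ b := by
            intro h
            apply hwin
            omega
          rcases lt_or_gt_of_ne hne with hlt | hgt
          · have := hjd (p + m) b hpm hb hlt
            left
            omega
          · have := hjd b (p + m) hb hpm hgt
            right
            omega
        · have h1 := hγ2 c w (fun p hp hh => hex ⟨p, hp, hh⟩)
          rw [h1]
          omega
      have hvN : F.ev γ c w < F.N c := F.ev_lt γ c w hw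
      have h4 := cut_disp F g c (F.ev γ c w)
      have h5 := abs_le.mp (hR c (F.ev γ c w) hvN)
      rcases hw' with ⟨a1, a2⟩ | ⟨a1, a2⟩
      · constructor
        · intro _; omega
        · intro _; omega
      · constructor
        · intro h; omega
        · intro h; omega
  have hv : F.ev (g * γ) c w < F.N c := F.ev_lt _ c w hw
  have hpow : 0 < 16 ^ (k + 1) := Nat.pow_pos (by norm_num)
  set v := F.ev (g * γ) c w with hvdef
  set q := w / 16 ^ (k + 1) with hq
  have hq1 : 16 ^ (k + 1) * q ≤ w := Nat.mul_div_le w _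
  have hq2 : w < 16 ^ (k + 1) * (q + 1) := Nat.lt_mul_div_succ w hpow
  refine (Nat.div_eq_iff hpow).mpr ?_
  have hlow : 16 ^ (k + 1) * q ≤ v := by
    rcases Nat.eq_zero_or_pos q with h0 | h0
    · rw [h0, Nat.mul_zero]; exact Nat.zero_le _
    · by_contra hlt
      push Not at hlt
      have := (hside (16 ^ (k + 1) * q) (Dvd.intro _ rfl) (Nat.mul_pos hpow h0) (by omega)).mp hlt
      omega
  have hup : v < 16 ^ (k + 1) * (q + 1) := by
    by_cases hN : 16 ^ (k + 1) * (q + 1) < F.N c
    · exact (hside _ (Dvd.intro _ rfl) (Nat.mul_pos hpow (Nat.succ_pos q)) hN).mpr hq2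
    · omega
  have e : 16 ^ (k + 1) * (q + 1) = 16 ^ (k + 1) * q + 16 ^ (k + 1) := by ring
  rw [Nat.mul_comm q]
  omega

end OutRF
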