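import Pool.Agent.Lib_MP_0c5939_al.OutDef

/-!
# MP_0c5939_al: definitions

`Fam` = a family of finite components `c`; component `c` is the interval `[0, N c)` with
`N c = 16 ^ n c * M c`, carrying a hierarchical labelling `typ c k w` (type in {0,1,2} of the
level-`k` block, i.e. block of length `16 ^ k`, containing `w`).
-/

namespace OutRF
open Equiv

/-- the substitution words (palindromic, begin and end with the letter `0`, and `0` does not
occur elsewhere). -/
def W (s : Bool × Bool) (t a : ℕ) : ℕ :=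
  if min a (15 - a) = 0 then 0
  else if min a (15 - a) = 1 then (if t = 1 then 2 else 1)
  else if min a (15 - a) = 2 then (if t = 2 then 2 else 1)
  else if min a (15 - a) = 3 then (if s.1 then 2 else 1)
  else if min a (15 - a) = 4 then (if s.2 then 2 else 1)
  else 1

structure Fam where
  C : Type
  n : C → ℕ
  s : C → ℕ → Bool × Bool
  M : C → ℕ
  n_pos : ∀ c, 1 ≤ n c
  M_pos : ∀ c, 1 ≤ M c
  fin : ∀ k, {c | n c ≤ k}.Finite
  inj : ∀ c c', n c = n c' → (∀ j < n c, s c j = s c' j) → c = c'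

namespace Fam
variable (F : Fam)

/-- length of the component -/
def N (c : F.C) : ℕ := 16 ^ F.n c * F.M c

def typAux (c : F.C) (w : ℕ) : ℕ → ℕ → ℕ
  | 0, _ => 1
  | m + 1, k => W (F.s c k) (typAux c w m (k + 1)) (w / 16 ^ k % 16)

/-- type of the level-`k` block containing `w` -/
def typ (c : F.C) (k w : ℕ) : ℕ := F.typAux c w (F.n c - k) k

/-- the big product group -/
abbrev P := (c : F.C) → Perm (Fin (F.N c))

/-- evaluation of a group element at a natural number -/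
def ev (g : F.P) (c : F.C) (w : ℕ) : ℕ := if h : w < F.N c then (g c ⟨w, h⟩ : ℕ) else w

def disp (g : F.P) (c : F.C) (w : ℕ) : ℤ := (F.ev g c w : ℤ) - w

/-- equality of level-`k` keys -/
def KeyEq (k : ℕ) (c c' : F.C) (w w' : ℕ) : Prop :=
  (∀ j < k, F.s c j = F.s c' j) ∧ w % 16 ^ k = w' % 16 ^ k ∧ F.typ c k w = F.typ c' k w' ∧
  (w < 16 ^ k ↔ w' < 16 ^ k) ∧ (F.N c ≤ w + 16 ^ k ↔ F.N c' ≤ w' + 16 ^ k)

/-- `f` is local of level `k` -/
def LocAt {V : Type} (k : ℕ) (f : F.C → ℕ → V) : Prop :=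
  ∀ c c' w w', k < F.n c → k < F.n c' → w < F.N c → w' < F.N c' → F.KeyEq k c c' w w' →
    f c w = f c' w'

def Loc {V : Type} (f : F.C → ℕ → V) : Prop := ∃ k, F.LocAt k f

def inA (g : F.P) : Prop := (∀ c, Perm.sign (g c) = 1) ∧ F.Loc (F.disp g)

/-- the group attached to the family -/
def A : Subgroup F.P := Subgroup.closure {g | F.inA g}

/-! ### uniform application of a permutation of `Fin L` to windows -/

/-- windows `[p, p + L)`, `(c, p) ∈ S`, are inside the components and disjoint -/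
def Valid (L : ℕ) (S : Set (F.C × ℕ)) : Prop :=
  (∀ c p, (c, p) ∈ S → p + L ≤ F.N c) ∧
  (∀ c p q, (c, p) ∈ S → (c, q) ∈ S → p < q → p + L ≤ q)

def IsApp (L : ℕ) (S : Set (F.C × ℕ)) (h : Perm (Fin L)) (g : F.P) : Prop :=
  (∀ c p, (c, p) ∈ S → ∀ r : Fin L, F.ev g c (p + r) = p + (h r : ℕ)) ∧
  (∀ c w, (∀ p, (c, p) ∈ S → ¬ (p ≤ w ∧ w < p + L)) → F.ev g c w = w)

open Classical in
noncomputable def app (L : ℕ) (S : Set (F.C × ℕ)) (h : Perm (Fin L)) : F.P :=
  if H : ∃ g, F.IsApp L S h g then H.choose else 1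

/-- starting points of level-1 blocks -/
def blk : Set (F.C × ℕ) := {q | 16 ∣ q.2 ∧ q.2 < F.N q.1}

/-- positions of the 3-windows at offset `x` of the blocks in `θ` -/
def pos (θ : Set (F.C × ℕ)) (x : ℕ) : Set (F.C × ℕ) :=
  {q | ∃ p, (q.1, p) ∈ θ ∧ q.2 = p + x ∧ p + x + 3 ≤ F.N q.1}

noncomputable def T (θ : Set (F.C × ℕ)) (x : ℕ) : F.P := F.app 3 (F.pos θ x) (finRotate 3)

/-- the basic level-1 classes -/
def base (σ : Bool × Bool) (t : Fin 3) (f l : Bool) : Set (F.C × ℕ) :=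
  {q | 16 ∣ q.2 ∧ q.2 < F.N q.1 ∧ F.s q.1 0 = σ ∧ F.typ q.1 1 q.2 = (t : ℕ) ∧
    decide (q.2 = 0) = f ∧ decide (q.2 + 16 = F.N q.1) = l}

def gens : Set F.P :=
  {g | ∃ (σ : Bool × Bool) (t : Fin 3) (f l : Bool) (x : Fin 16), g = F.T (F.base σ t f l) x}

def Gam : Subgroup F.P := Subgroup.closure F.gens

/-- product of the transpositions `(p, p+1)`, `p ∈ θ` -/
noncomputable def X (θ : Set (F.C × ℕ)) : F.P := F.app 2 θ (swap 0 1)

/-- shift of a set of positions -/
def sh (m : ℕ) (θ : Set (F.C × ℕ)) : Set (F.C × ℕ) := {q | ∃ p, (q.1, p) ∈ θ ∧ q.2 = p + m}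

/-- sets of level-1 block starts generated from the base sets by Boolean operations and
shifts by one block -/
inductive Bgen : Set (F.C × ℕ) → Prop
  | base (σ : Bool × Bool) (t : Fin 3) (f l : Bool) : Bgen (F.base σ t f l)
  | inter {a b : Set (F.C × ℕ)} : Bgen a → Bgen b → Bgen (a ∩ b)
  | diff {a b : Set (F.C × ℕ)} : Bgen a → Bgen b → Bgen (a \ b)
  | union {a b : Set (F.C × ℕ)} : Bgen a → Bgen b → Bgen (a ∪ b)
  | shf {a : Set (F.C × ℕ)} : Bgen a → Bgen {q | ∃ p, (q.1, p) ∈ a ∧ q.2 = p + 16 ∧ p + 16 < F.N q.1}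
  | shb {a : Set (F.C × ℕ)} : Bgen a → Bgen {q | (q.1, q.2 + 16) ∈ a}

/-! ### permutations of the whole space normalising the group -/

/-- the disjoint union of the components -/
abbrev Om := (c : F.C) × Fin (F.N c)

def act (g : F.P) : Perm F.Om := Perm.sigmaCongrRightHom _ g

/-- `π` normalises the group and respects components -/
def NZ (π : Perm F.Om) : Prop :=
  (∀ g, F.inA g → ∃ g', F.inA g' ∧ F.act g' = π * F.act g * π⁻¹) ∧
  (∀ g, F.inA g → ∃ g', F.inA g' ∧ F.act g' = π⁻¹ * F.act g * π) ∧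
  (∀ x y : F.Om, x.1 = y.1 ↔ (π x).1 = (π y).1)

theorem N_pos (c : F.C) : 0 < F.N c :=
  Nat.mul_pos (Nat.pow_pos (by norm_num)) (F.M_pos c)

/-- component to which `π` maps `c` -/
def cm (π : Perm F.Om) (c : F.C) : F.C := (π ⟨c, ⟨0, F.N_pos c⟩⟩).1

/-- position of the image -/
def fn (π : Perm F.Om) (c : F.C) (w : ℕ) : ℕ := if h : w < F.N c then ((π ⟨c, ⟨w, h⟩⟩).2 : ℕ) else w

/-- orientation -/
def ori (π : Perm F.Om) (c : F.C) : Prop := 2 * F.fn π c 0 < F.N c

end Fam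

/-! ### the two concrete families -/

theorem eq_of_testBit_lt {n d d' : ℕ} (hd : d < 2 ^ n) (hd' : d' < 2 ^ n)
    (h : ∀ j < n, d.testBit j = d'.testBit j) : d = d' := by
  apply Nat.eq_of_testBit_eq
  intro j
  by_cases hj : j < n
  · exact h j hj
  · rw [Nat.testBit_lt_two_pow (lt_of_lt_of_le hd (Nat.pow_le_pow_right (by norm_num) (not_lt.1 hj))),
      Nat.testBit_lt_two_pow (lt_of_lt_of_le hd' (Nat.pow_le_pow_right (by norm_num) (not_lt.1 hj)))]

/-- components `(n, d, i)` with `i < n`, `d < 2 ^ n` and `i`-th bit of `d` equal to `b` -/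
def famB (b : Bool) : Fam where
  C := {c : ℕ × ℕ × ℕ // c.2.2 < c.1 ∧ c.2.1 < 2 ^ c.1 ∧ c.2.1.testBit c.2.2 = b}
  n c := c.1.1
  s c j := (c.1.2.1.testBit j, decide (j = c.1.2.2))
  M c := 2 * c.1.2.1 + 1
  n_pos c := by have := c.2.1; omega
  M_pos c := by omega
  fin k := by
    apply Set.Finite.of_injOn (f := fun c => c.1)
      (t := (Finset.range (k + 1) ×ˢ (Finset.range (2 ^ k) ×ˢ Finset.range (k + 1)) : Finset (ℕ × ℕ × ℕ)))
    · intro c hc
      have h1 := c.2.1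
      have h2 := c.2.2.1
      have hc' : c.1.1 ≤ k := hc
      have h3 : (2 : ℕ) ^ c.1.1 ≤ 2 ^ k := Nat.pow_le_pow_right (by norm_num) hc'
      simp only [Finset.coe_product, Set.mem_prod, Finset.mem_coe, Finset.mem_range]
      refine ⟨by omega, by omega, by omega⟩
    · intro a _ b _ h
      exact Subtype.ext h
    · exact Finset.finite_toSet _
  inj c c' h1 h2 := by
    have h1' : c.1.1 = c'.1.1 := h1
    have hd : c.1.2.1 = c'.1.2.1 := by
      apply eq_of_testBit_lt c.2.2.1 (by rw [h1']; exact c'.2.2.1)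
      intro j hj
      exact congrArg Prod.fst (h2 j hj)
    have hi : c.1.2.2 = c'.1.2.2 := by
      have := congrArg Prod.snd (h2 c.1.2.2 c.2.1)
      simpa using this
    apply Subtype.ext
    exact Prod.ext h1' (Prod.ext hd hi)

/-- the total product over all triples `(n, d, i)` -/
abbrev Q := (n d : ℕ) → ℕ → Perm (Fin (16 ^ n * (2 * d + 1)))

def restr (b : Bool) (q : Q) : (famB b).P := fun c => q c.1.1 c.1.2.1 c.1.2.2

def inG (q : Q) : Prop :=
  (∀ n d i, ¬ (i < n ∧ d < 2 ^ n) → q n d i = 1) ∧ ∀ b, (famB b).inA (restr b q)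

/-- copy of `A₀ × A₁` inside `Q` -/
def G : Subgroup Q := Subgroup.closure {q | inG q}


end OutRF
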