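import Pool.Agent.Lib_MP_0c5939_al.Stmts

namespace OutRF
open Equiv

theorem gens_finite (F : Fam) : F.gens.Finite := by
  have : F.gens ⊆ Set.range (fun q : (Bool × Bool) × Fin 3 × Bool × Bool × Fin 16 =>
      F.T (F.base q.1 q.2.1 q.2.2.1 q.2.2.2.1) q.2.2.2.2) := by
    rintro g ⟨σ, t, f, l, x, rfl⟩
    exact ⟨(σ, t, f, l, x), rfl⟩
  exact (Set.finite_range _).subset this

theorem valid_two (F : Fam) (θ : Set (F.C × ℕ)) (hθ : θ ⊆ F.blk) : F.Valid 2 θ := by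
  constructor
  · intro c p h
    have h1 := hθ h
    have h2 : 16 ∣ p := h1.1
    have h3 : p < F.N c := h1.2
    have h4 := F.sixteen_dvd_N c
    omega
  · intro c p q h h' hpq
    have h2 : 16 ∣ p := (hθ h).1
    have h3 : 16 ∣ q := (hθ h').1
    omega

theorem A_eq_Gam (hAMEM : AMEM_stmt) (hSIGN : SIGN_stmt) (hGAMA : GAMA_stmt) (hCUT : CUT_stmt)
    (hMIX : MIX_stmt) (hXEVEN : XEVEN_stmt) (F : Fam) : F.A = F.Gam := by
  apply le_antisymm
  · unfold Fam.A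
    rw [Subgroup.closure_le]
    intro g hg
    have hg : F.inA g := hg
    obtain ⟨γ, hγ, K, hK⟩ := hCUT F g hg
    have hgγ : g * γ ∈ F.A := mul_mem ((hAMEM F g).2 hg) ((hAMEM F γ).2 (hGAMA F γ hγ))
    obtain ⟨γ', hγ', θ, hθ, hloc, he⟩ := hMIX F (g * γ) ((hAMEM F _).1 hgγ) ⟨K, hK⟩
    have hXeq : F.X θ = γ'⁻¹ * (g * γ) := by rw [he]; group
    have hX : F.X θ ∈ F.A := by
      rw [hXeq]
      exact mul_mem (inv_mem ((hAMEM F γ').2 (hGAMA F γ' hγ'))) hgγ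
    have hev : ∀ c, Even (Set.ncard {p | (c, p) ∈ θ}) := by
      intro c
      have h1 : Perm.sign (F.X θ c) = 1 := ((hAMEM F _).1 hX).1 c
      have h2 := hSIGN F 2 θ (swap 0 1) (valid_two F θ hθ) c
      unfold Fam.X at h1
      rw [h1, Perm.sign_swap (by decide)] at h2
      by_contra hodd
      rw [Nat.not_even_iff_odd] at hodd
      rw [hodd.neg_one_pow] at h2
      exact absurd h2 (by decide)
    have h3 := hXEVEN F θ hθ hloc hev
    have h4 : g = γ' * F.X θ * γ⁻¹ := by rw [hXeq]; group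
    rw [h4]
    exact mul_mem (mul_mem hγ' h3) (inv_mem hγ)
  · intro g hg
    exact (hAMEM F g).2 (hGAMA F g hg)

theorem FGA (hAMEM : AMEM_stmt) (hSIGN : SIGN_stmt) (hGAMA : GAMA_stmt) (hCUT : CUT_stmt)
    (hMIX : MIX_stmt) (hXEVEN : XEVEN_stmt) : FGA_stmt := by
  intro F
  rw [A_eq_Gam hAMEM hSIGN hGAMA hCUT hMIX hXEVEN F]
  rw [Group.fg_iff_subgroup_fg]
  exact ⟨(gens_finite F).toFinset, by simp [Fam.Gam]⟩

end OutRF
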