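import Pool.Agent.Lib_MP_0c5939_al.Stmts2

/-!
# MP_0c5939_al, piece FinDet: detecting components and signs in finite quotients

Proof:
For k let Om_k = {x : Om | n x.1 <= k}: finite (F.fin k, N c finite). Theta alpha preserves Om_k in both directions (N (cm) =
N by NZN, so n equal by FAMN). rho_k : MulAut A ->* Perm Om_k (Equiv.Perm.subtypePerm; hom). By hypothesis for every
k there is g in A with rho_k (conj g) = rho_k alpha: so Theta alpha = act g on Om_k (using Theta (conj g) = act g). Hence for every c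
(k = n c): Theta alpha <c,x> = <c, g c x>. So Theta alpha preserves components: define gamma c := g c for a chosen g = g_c;
Theta alpha = act gamma; sign (gamma c) = sign (g c) = 1 as g in A (AMEM).
-/

namespace OutRF
open Equiv

theorem findet_finite (F : Fam) (k : ℕ) : Finite {x : F.Om // F.n x.1 ≤ k} := by
  have hf : Finite {c : F.C // F.n c ≤ k} := (F.fin k).to_subtype
  have : Finite ((c : {c : F.C // F.n c ≤ k}) × Fin (F.N c.1)) := inferInstance
  refine Finite.of_injective
    (fun x : {x : F.Om // F.n x.1 ≤ k} =>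
      (⟨⟨x.1.1, x.2⟩, x.1.2⟩ : (c : {c : F.C // F.n c ≤ k}) × Fin (F.N c.1))) ?_
  rintro ⟨⟨c, w⟩, h⟩ ⟨⟨c', w'⟩, h'⟩ heq
  simp only [Sigma.mk.injEq, Subtype.mk.injEq] at heq
  obtain ⟨h1, h2⟩ := heq
  subst h1
  simp only [heq_eq_eq] at h2
  subst h2
  rfl

theorem FINDET (hNZN : NZN_stmt) (hFAMN : FAMN_stmt) (hAMEM : AMEM_stmt) : FINDET_stmt := by
  intro b Θ hΘ hconj α hα
  have hn : ∀ (β : MulAut (famB b).A) (x : (famB b).Om),
      (famB b).n ((Θ β) x).1 = (famB b).n x.1 := by
    intro β x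
    obtain ⟨c, w, hw⟩ := x
    have h := hNZN (famB b) (Θ β) (hΘ β)
    have h2 := h.2.1 c w hw
    rw [h2]
    exact (hFAMN b b _ _ (h.1 c)).1
  let ρ : (k : ℕ) → MulAut (famB b).A →* Perm {x : (famB b).Om // (famB b).n x.1 ≤ k} := fun k =>
    { toFun := fun β => (Θ β).subtypePerm (fun x => by rw [hn β x])
      map_one' := by
        refine Equiv.ext fun x => Subtype.ext ?_
        have h : Θ 1 x.1 = x.1 := by rw [map_one]; rfl
        exact h
      map_mul' := by
        intro β β'
        refine Equiv.ext fun x => Subtype.ext ?_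
        have h : Θ (β * β') x.1 = Θ β (Θ β' x.1) := by rw [map_mul]; rfl
        exact h }
  have key : ∀ c : (famB b).C, ∃ g : (famB b).A, ∀ x : Fin ((famB b).N c),
      Θ α ⟨c, x⟩ = ⟨c, (g : (famB b).P) c x⟩ := by
    intro c
    have hfin := findet_finite (famB b) ((famB b).n c)
    obtain ⟨g, hg⟩ := hα (Perm {x : (famB b).Om // (famB b).n x.1 ≤ (famB b).n c}) inferInstance
      inferInstance (ρ ((famB b).n c))
    refine ⟨g, fun x => ?_⟩
    have h1 := congrArg (fun e => ((e ⟨⟨c, x⟩, le_refl _⟩ : {x : (famB b).Om //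
      (famB b).n x.1 ≤ (famB b).n c}) : (famB b).Om)) hg
    have h2 : Θ (MulAut.conj g) ⟨c, x⟩ = Θ α ⟨c, x⟩ := h1
    rw [← h2, hconj g]
    rfl
  choose g hg using key
  refine ⟨fun c => (g c : (famB b).P) c, ?_, ?_⟩
  · ext x
    · rw [hg x.1 x.2]
      rfl
    · rw [hg x.1 x.2]
      rfl
  · intro c
    exact ((hAMEM (famB b) (g c : (famB b).P)).1 (g c).2).1 c

end OutRF
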