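import Pool.Agent.Lib_MP_0c5939_al.Stmts

/-!
# MP_0c5939_al, piece FinP: finitely supported even elements are in Gam

Proof:
For a component c and u : F.P with u c even and trivial elsewhere: S = {(c,0)} is local (LOCFINITE from
the constant False, level n c), Valid (N c) S, residue 0, so app (N c) S (u c) in Gam by APPG and it equals u
(F.ev_ext / IsApp.unique). g is the product of its components over the finite set {c | n c <= K} (F.fin K):
Finset induction (u agrees with g on the finset, 1 elsewhere).
-/

namespace OutRF
open Equiv

open Classical in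
theorem FinP_single (hAPP : APP_stmt) (hAPPG : APPG_stmt) (hLOCFINITE : LOCFINITE_stmt)
    (hLOCBASIC : LOCBASIC_stmt) (F : Fam) (c : F.C) (u : Perm (Fin (F.N c)))
    (hu : Perm.sign u = 1) : (Pi.mulSingle c u : F.P) ∈ F.Gam := by
  set S : Set (F.C × ℕ) := {(c, 0)} with hS
  have memS : ∀ c' p, (c', p) ∈ S ↔ c' = c ∧ p = 0 := by
    intro c' p
    rw [hS, Set.mem_singleton_iff, Prod.mk.injEq]
  have hloc : F.Loc (fun c w => (c, w) ∈ S) := by
    apply hLOCFINITE F Prop (fun _ _ => False) (fun c w => (c, w) ∈ S) (F.n c) _
      ((hLOCBASIC F).2.2.2.2.2 False)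
    intro c' w h1 _
    apply propext
    constructor
    · intro h; exact h.elim
    · intro h
      have := ((memS c' w).1 h).1
      rw [this] at h1
      exact absurd h1 (lt_irrefl _)
  have hval : F.Valid (F.N c) S := by
    constructor
    · intro c' p hp
      obtain ⟨h1, h2⟩ := (memS c' p).1 hp
      rw [h1, h2]; omega
    · intro c' p q hp hq hpq
      have := ((memS c' p).1 hp).2
      have := ((memS c' q).1 hq).2
      omega
  have hres : ∀ q ∈ S, q.2 % 16 = 0 := by
    intro q hq
    have : q.2 = 0 := ((memS q.1 q.2).1 hq).2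
    rw [this]
  have halt : u ∈ alternatingGroup (Fin (F.N c)) := Perm.mem_alternatingGroup.2 hu
  have hmem := hAPPG F (F.N c) S u 0 hloc hres hval halt
  have happ := hAPP F (F.N c) S u hval
  have hself : F.IsApp (F.N c) S u (Pi.mulSingle c u : F.P) := by
    constructor
    · intro c' p hp r
      obtain ⟨h1, h2⟩ := (memS c' p).1 hp
      subst h1
      subst h2
      rw [F.ev_of_lt _ _ _ (by rw [zero_add]; exact r.2)]
      rw [Pi.mulSingle_eq_same]
      simp
    · intro c' w hw
      by_cases hc : c' = c
      · subst hc
        have := hw 0 ((memS _ _).2 ⟨rfl, rfl⟩)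
        apply F.ev_of_ge
        intro h
        exact this ⟨Nat.zero_le _, by omega⟩
      · by_cases hlt : w < F.N c'
        · rw [F.ev_of_lt _ _ _ hlt, Pi.mulSingle_eq_of_ne hc]
          rfl
        · exact F.ev_of_ge _ _ _ hlt
  have := Fam.IsApp.unique happ hself
  rwa [this] at hmem

open Classical in
theorem FINP (hAPP : APP_stmt) (hAPPG : APPG_stmt) (hLOCFINITE : LOCFINITE_stmt) (hLOCBASIC : LOCBASIC_stmt) : FINP_stmt := by
  intro F g K hsign hK
  have key : ∀ s : Finset F.C, (fun c => if c ∈ s then g c else 1 : F.P) ∈ F.Gam := by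
    intro s
    induction s using Finset.induction_on with
    | empty =>
      have : (fun c => if c ∈ (∅ : Finset F.C) then g c else 1 : F.P) = 1 := by
        funext c; simp
      rw [this]
      exact F.Gam.one_mem
    | insert a s ha ih =>
      have : (fun c => if c ∈ insert a s then g c else 1 : F.P) =
          (Pi.mulSingle a (g a) : F.P) * (fun c => if c ∈ s then g c else 1 : F.P) := by
        funext c
        by_cases hc : c = a
        · subst hc
          simp [ha]
        · simp [hc, Pi.mulSingle_eq_of_ne hc]
      rw [this]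
      exact F.Gam.mul_mem (FinP_single hAPP hAPPG hLOCFINITE hLOCBASIC F a (g a) (hsign a)) ih
  have h1 := key (F.fin K).toFinset
  have h2 : (fun c => if c ∈ (F.fin K).toFinset then g c else 1 : F.P) = g := by
    funext c
    by_cases hc : F.n c ≤ K
    · have : c ∈ (F.fin K).toFinset := by simpa using hc
      simp [this]
    · have : c ∉ (F.fin K).toFinset := by simpa using hc
      rw [if_neg this, hK c (not_le.1 hc)]
  rwa [h2] at h1

end OutRF
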