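import Pool.Agent.Lib_MP_0c5939_al.Stmts2

/-!
# MP_0c5939_al, piece GFlip: flips normalise G

Proof:
q' = flipQ i0 m q. Invalid -> rev * 1 * rev = 1 (revPerm is an involution). Signs: sign (rev u rev) = sign u.
Locality for b: restr b q LocAt k; K = max k (max m (i0+1)). For KeyEq K c c1 w w1 (K < n, n1): i = i0 iff i1 = i0 (star
symbol at level i0 < K). If i = i0 = i1: disp of rev g rev at w is -(disp g at N - 1 - w) (Fin.rev: value N - 1 - w);
KFLIP gives KeyEq K at the flipped points, so equal. Otherwise the same as for q.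
-/

namespace OutRF
open Equiv

/-- evaluation of `q` at the triple `(n, d, i)` -/
def gflipEv (q : Q) (n d i w : ℕ) : ℕ :=
  if h : w < 16 ^ n * (2 * d + 1) then (q n d i ⟨w, h⟩ : ℕ) else w

theorem gflipEv_congr (q q' : Q) (n d i i' w : ℕ) (h : q n d i = q' n d i') :
    gflipEv q n d i w = gflipEv q' n d i' w := by
  unfold gflipEv
  rw [h]

theorem gflip_rev_mul_self (n : ℕ) : (Fin.revPerm : Perm (Fin n)) * Fin.revPerm = 1 := by
  ext x
  simp

theorem gflipEv_rev (q q' : Q) (n d i w : ℕ) (hw : w < 16 ^ n * (2 * d + 1))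
    (h : q' n d i = Fin.revPerm * q n d i * Fin.revPerm) :
    gflipEv q' n d i w = 16 ^ n * (2 * d + 1) - 1 - gflipEv q n d i (16 ^ n * (2 * d + 1) - 1 - w) := by
  have hw' : 16 ^ n * (2 * d + 1) - 1 - w < 16 ^ n * (2 * d + 1) := by omega
  unfold gflipEv
  rw [dif_pos hw, dif_pos hw', h, Perm.mul_apply, Perm.mul_apply, Fin.revPerm_apply, Fin.revPerm_apply,
    Fin.val_rev]
  have : (Fin.rev ⟨w, hw⟩ : Fin (16 ^ n * (2 * d + 1))) = ⟨16 ^ n * (2 * d + 1) - 1 - w, hw'⟩ := by
    ext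
    rw [Fin.val_rev]
    simp only
    omega
  rw [this]
  omega

theorem gflipEv_lt (q : Q) (n d i w : ℕ) (hw : w < 16 ^ n * (2 * d + 1)) :
    gflipEv q n d i w < 16 ^ n * (2 * d + 1) := by
  unfold gflipEv
  rw [dif_pos hw]
  exact (q n d i ⟨w, hw⟩).2

theorem GFLIP (hKFLIP : KFLIP_stmt) (hLOCMONO : LOCMONO_stmt) : GFLIP_stmt := by
  intro i₀ m q hq
  refine ⟨?_, ?_⟩
  · intro n d i hi
    unfold flipQ
    rw [hq.1 n d i hi]
    split_ifs with hm
    · rw [mul_one]
      exact gflip_rev_mul_self _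
    · rfl
  · intro b
    obtain ⟨k, hk⟩ := (hq.2 b).2
    obtain ⟨K, hK⟩ : ∃ K, K = max k (max m (i₀ + 1)) := ⟨_, rfl⟩
    have hKm : m ≤ K := by rw [hK]; exact le_trans (le_max_left _ _) (le_max_right _ _)
    have hKi : i₀ + 1 ≤ K := by rw [hK]; exact le_trans (le_max_right _ _) (le_max_right _ _)
    have hloc : (famB b).LocAt K ((famB b).disp (restr b q)) :=
      hLOCMONO _ _ k K _ (by rw [hK]; exact le_max_left _ _) hk
    refine ⟨?_, K, ?_⟩
    · intro c
      have h1 : Perm.sign (q c.1.1 c.1.2.1 c.1.2.2) = 1 := (hq.2 b).1 c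
      change Perm.sign (flipQ i₀ m q c.1.1 c.1.2.1 c.1.2.2) = 1
      unfold flipQ
      split_ifs with hm
      · rw [map_mul, map_mul, h1, mul_one, ← map_mul, gflip_rev_mul_self, map_one]
      · exact h1
    · intro c c1 w w1 hn hn1 hw hw1 hkey
      have hflip := hKFLIP _ K c c1 w w1 hn hn1 hw hw1 hkey
      have hl1 := hloc c c1 w w1 hn hn1 hw hw1 hkey
      have hNw : (famB b).N c - 1 - w < (famB b).N c := by omega
      have hNw1 : (famB b).N c1 - 1 - w1 < (famB b).N c1 := by omega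
      have hl2 := hloc c c1 _ _ hn hn1 hNw hNw1 hflip
      obtain ⟨⟨n, d, i⟩, hc1, hc2, hc3⟩ := c
      obtain ⟨⟨n1, d1, i1⟩, hd1, hd2, hd3⟩ := c1
      simp only at hc1 hc2 hc3 hd1 hd2 hd3
      change K < n at hn
      change K < n1 at hn1
      change w < 16 ^ n * (2 * d + 1) at hw
      change w1 < 16 ^ n1 * (2 * d1 + 1) at hw1
      change (gflipEv q n d i w : ℤ) - w = (gflipEv q n1 d1 i1 w1 : ℤ) - w1 at hl1
      change (gflipEv q n d i (16 ^ n * (2 * d + 1) - 1 - w) : ℤ) - (16 ^ n * (2 * d + 1) - 1 - w : ℕ) =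
        (gflipEv q n1 d1 i1 (16 ^ n1 * (2 * d1 + 1) - 1 - w1) : ℤ) -
          (16 ^ n1 * (2 * d1 + 1) - 1 - w1 : ℕ) at hl2
      change (gflipEv (flipQ i₀ m q) n d i w : ℤ) - w = (gflipEv (flipQ i₀ m q) n1 d1 i1 w1 : ℤ) - w1
      have hs : i = i₀ ↔ i1 = i₀ := by
        have h1 := hkey.1 i₀ (by omega)
        change (d.testBit i₀, decide (i₀ = i)) = (d1.testBit i₀, decide (i₀ = i1)) at h1
        rw [Prod.mk.injEq] at h1
        have h2 := decide_eq_decide.1 h1.2
        constructor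
        · intro h3; exact (h2.1 h3.symm).symm
        · intro h3; exact (h2.2 h3.symm).symm
      by_cases hi : i = i₀
      · have hi1 := hs.1 hi
        have e1 : flipQ i₀ m q n d i = Fin.revPerm * q n d i * Fin.revPerm := by
          unfold flipQ
          rw [if_pos ⟨hi, by omega⟩]
        have e2 : flipQ i₀ m q n1 d1 i1 = Fin.revPerm * q n1 d1 i1 * Fin.revPerm := by
          unfold flipQ
          rw [if_pos ⟨hi1, by omega⟩]
        rw [gflipEv_rev q _ n d i w hw e1, gflipEv_rev q _ n1 d1 i1 w1 hw1 e2]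
        have b1 := gflipEv_lt q n d i (16 ^ n * (2 * d + 1) - 1 - w) (by omega)
        have b2 := gflipEv_lt q n1 d1 i1 (16 ^ n1 * (2 * d1 + 1) - 1 - w1) (by omega)
        omega
      · have hi1 : ¬ i1 = i₀ := fun h => hi (hs.2 h)
        rw [gflipEv_congr (flipQ i₀ m q) q n d i i w (by unfold flipQ; rw [if_neg (fun h => hi h.1)]),
          gflipEv_congr (flipQ i₀ m q) q n1 d1 i1 i1 w1 (by unfold flipQ; rw [if_neg (fun h => hi1 h.1)])]
        exact hl1

end OutRF
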