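import Pool.Agent.Lib_MP_0c5939_al.Stmts2

namespace OutRF
open Equiv

theorem GMEM (hAMEM : AMEM_stmt) : GMEM_stmt := by
  intro q
  constructor
  · intro h
    unfold G at h
    induction h using Subgroup.closure_induction with
    | mem x hx => exact hx
    | one =>
      refine ⟨fun _ _ _ _ => rfl, fun b => ?_⟩
      exact (hAMEM (famB b) _).1 (one_mem _)
    | mul x y _ _ hx hy =>
      refine ⟨fun n d i hv => ?_, fun b => ?_⟩
      · rw [Pi.mul_apply, Pi.mul_apply, Pi.mul_apply, hx.1 n d i hv, hy.1 n d i hv, one_mul]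
      · have h1 := (hAMEM (famB b) _).2 (hx.2 b)
        have h2 := (hAMEM (famB b) _).2 (hy.2 b)
        exact (hAMEM (famB b) _).1 (mul_mem h1 h2)
    | inv x _ hx =>
      refine ⟨fun n d i hv => ?_, fun b => ?_⟩
      · rw [Pi.inv_apply, Pi.inv_apply, Pi.inv_apply, hx.1 n d i hv, inv_one]
      · have h1 := (hAMEM (famB b) _).2 (hx.2 b)
        exact (hAMEM (famB b) _).1 (inv_mem h1)
  · intro h
    exact Subgroup.subset_closure h

/-- combine elements of the two families -/
def comb (g₀ : (famB false).P) (g₁ : (famB true).P) : Q := fun n d i =>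
  if h : i < n ∧ d < 2 ^ n then
    if hb : d.testBit i = true then g₁ ⟨(n, d, i), h.1, h.2, hb⟩
    else g₀ ⟨(n, d, i), h.1, h.2, by simpa using hb⟩
  else 1

theorem restr_false_comb (g₀ : (famB false).P) (g₁ : (famB true).P) :
    restr false (comb g₀ g₁) = g₀ := by
  funext c
  obtain ⟨⟨n, d, i⟩, h1, h2, h3⟩ := c
  show comb g₀ g₁ n d i = _
  unfold comb
  rw [dif_pos ⟨h1, h2⟩, dif_neg (by simpa using h3)]

theorem restr_true_comb (g₀ : (famB false).P) (g₁ : (famB true).P) :
    restr true (comb g₀ g₁) = g₁ := by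
  funext c
  obtain ⟨⟨n, d, i⟩, h1, h2, h3⟩ := c
  show comb g₀ g₁ n d i = _
  unfold comb
  rw [dif_pos ⟨h1, h2⟩, dif_pos h3]

theorem comb_restr (q : Q) (hq : ∀ n d i, ¬ (i < n ∧ d < 2 ^ n) → q n d i = 1) :
    comb (restr false q) (restr true q) = q := by
  funext n d i
  unfold comb
  split_ifs with h hb
  · rfl
  · rfl
  · exact (hq n d i h).symm

theorem comb_mul (g₀ h₀ : (famB false).P) (g₁ h₁ : (famB true).P) :
    comb (g₀ * h₀) (g₁ * h₁) = comb g₀ g₁ * comb h₀ h₁ := by
  funext n d i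
  show comb (g₀ * h₀) (g₁ * h₁) n d i = comb g₀ g₁ n d i * comb h₀ h₁ n d i
  unfold comb
  split_ifs with h hb
  · rfl
  · rfl
  · rw [one_mul]

theorem comb_inG (hAMEM : AMEM_stmt) (g₀ : (famB false).P) (g₁ : (famB true).P)
    (h₀ : g₀ ∈ (famB false).A) (h₁ : g₁ ∈ (famB true).A) : inG (comb g₀ g₁) := by
  refine ⟨fun n d i hv => ?_, fun b => ?_⟩
  · unfold comb
    rw [dif_neg hv]
  · cases b with
    | false =>
      rw [restr_false_comb]
      exact (hAMEM _ _).1 h₀
    | true =>
      rw [restr_true_comb]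
      exact (hAMEM _ _).1 h₁

theorem GISO (hAMEM : AMEM_stmt) (hGMEM : GMEM_stmt) : GISO_stmt := by
  refine ⟨{ toFun := fun p => ⟨comb p.1 p.2, (hGMEM _).2 (comb_inG hAMEM _ _ p.1.2 p.2.2)⟩
            invFun := fun q => (⟨restr false q.1, (hAMEM _ _).2 (((hGMEM _).1 q.2).2 false)⟩,
              ⟨restr true q.1, (hAMEM _ _).2 (((hGMEM _).1 q.2).2 true)⟩)
            left_inv := ?_
            right_inv := ?_
            map_mul' := ?_ }⟩
  · intro p
    apply Prod.ext
    · exact Subtype.ext (restr_false_comb _ _)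
    · exact Subtype.ext (restr_true_comb _ _)
  · intro q
    exact Subtype.ext (comb_restr q.1 ((hGMEM _).1 q.2).1)
  · intro p p'
    exact Subtype.ext (comb_mul _ _ _ _)

end OutRF
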