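import Pool.Agent.Lib_MP_0c5939_al.Stmts2

/-!
# MP_0c5939_al, piece GNonTriv: the flips of copies 0 and 1 differ modulo G

Proof:
R = bound of disp (restr false g) (LOCBDD). Choose n >= 1 with 16^n > R + 1, N = 16^n = 16^n * (2*0+1), component
(n, 0, 0) in (famB false).C (testBit 0 0 = false). By contradiction: for all q with inG q: flipQ 0 0 q = flipQ 1 0
(g q g^-1). Evaluate at (n,0,0): rev * q n 0 0 * rev = (g q g^-1) n 0 0 (the flip of copy 1 does nothing at i = 0).
For u even in Perm (Fin N) take q = u at (n,0,0), 1 elsewhere: inG q (signs; displacement trivial for large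
levels: LOCFINITE; both b). So rev u rev = g' u g'^-1 with g' = g n 0 0, i.e. g'^-1 * rev commutes with all even u
(rev^-1 = rev), so g' = rev by CENTALT (N >= 4). But rev moves 0 to N - 1 > R: contradiction.
-/

namespace OutRF
open Equiv

/-- the element of `Q` with the single nontrivial entry `u` at `(n, 0, 0)` -/
def sgQ (n : ℕ) (u : Perm (Fin (16 ^ n * (2 * 0 + 1)))) : Q :=
  Function.update (1 : Q) n
    (Function.update (fun _ => fun _ => 1) 0 (Function.update (fun _ => 1) 0 u))

theorem sgQ_self (n : ℕ) (u : Perm (Fin (16 ^ n * (2 * 0 + 1)))) : sgQ n u n 0 0 = u := by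
  unfold sgQ
  rw [Function.update_self, Function.update_self, Function.update_self]

theorem sgQ_ne (n : ℕ) (u : Perm (Fin (16 ^ n * (2 * 0 + 1)))) (n' d i : ℕ)
    (h : ¬ (n' = n ∧ d = 0 ∧ i = 0)) : sgQ n u n' d i = 1 := by
  unfold sgQ
  by_cases h1 : n' = n
  · subst h1
    rw [Function.update_self]
    by_cases h2 : d = 0
    · subst h2
      rw [Function.update_self]
      have h3 : i ≠ 0 := fun h3 => h ⟨rfl, rfl, h3⟩
      rw [Function.update_of_ne h3]
    · rw [Function.update_of_ne h2]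
  · rw [Function.update_of_ne h1]
    rfl

theorem sgQ_sign (n : ℕ) (u : Perm (Fin (16 ^ n * (2 * 0 + 1)))) (hu : Perm.sign u = 1)
    (n' d i : ℕ) : Perm.sign (sgQ n u n' d i) = 1 := by
  by_cases h : n' = n ∧ d = 0 ∧ i = 0
  · obtain ⟨rfl, rfl, rfl⟩ := h
    rw [sgQ_self]
    exact hu
  · rw [sgQ_ne n u n' d i h]
    exact Perm.sign_one

theorem GNONTRIV (hLOCBDD : LOCBDD_stmt) (hCENTALT : CENTALT_stmt) (hLOCFINITE : LOCFINITE_stmt) (hLOCBASIC : LOCBASIC_stmt) : GNONTRIV_stmt := by
  intro g hg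
  obtain ⟨R, hR⟩ := hLOCBDD (famB false) _ (hg.2 false).2
  by_contra hcon
  push Not at hcon
  obtain ⟨n, hn⟩ : ∃ n, n = R + 1 := ⟨_, rfl⟩
  have hnR : R + 1 < 16 ^ n := by
    rw [hn]
    exact Nat.lt_pow_self (by norm_num)
  have hn0 : 0 < n := by omega
  set c0 : (famB false).C := ⟨(n, 0, 0), hn0, Nat.pow_pos (by norm_num), Nat.zero_testBit 0⟩
    with hc0
  have hN : (famB false).N c0 = 16 ^ n * (2 * 0 + 1) := rfl
  have h16 : 16 ≤ 16 ^ n := by
    calc 16 = 16 ^ 1 := by norm_num
      _ ≤ 16 ^ n := Nat.pow_le_pow_right (by norm_num) hn0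
  -- the entry of `g`
  have hrev : (Fin.revPerm : Perm (Fin (16 ^ n * (2 * 0 + 1)))) * Fin.revPerm = 1 := by
    ext x
    simp
  have key : g n 0 0 = Fin.revPerm := by
    have h1 : (g n 0 0)⁻¹ * Fin.revPerm = 1 := by
      apply hCENTALT _ _ (by omega)
      intro u hu
      have hu' : Perm.sign u = 1 := Perm.mem_alternatingGroup.mp hu
      have hq : inG (sgQ n u) := by
        refine ⟨fun n' d i h => ?_, fun b => ⟨fun c => ?_, ?_⟩⟩
        · apply sgQ_ne
          rintro ⟨rfl, rfl, rfl⟩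
          exact h ⟨hn0, Nat.pow_pos (by norm_num)⟩
        · exact sgQ_sign n u hu' _ _ _
        · refine hLOCFINITE (famB b) ℤ (fun _ _ => (0 : ℤ)) _ n ?_ ⟨0, ?_⟩
          · intro c w hc hw
            have hc' : n < c.1.1 := hc
            have h2 : restr b (sgQ n u) c = 1 := by
              apply sgQ_ne
              rintro ⟨h3, _⟩
              omega
            unfold Fam.disp
            rw [Fam.ev_of_lt _ _ _ _ hw, h2]
            simp
          · intro c c' w w' _ _ _ _ _
            rfl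
      have h3 := congrFun (congrFun (congrFun (hcon _ hq) n) 0) 0
      unfold flipQ at h3
      rw [if_pos ⟨rfl, hn0⟩, if_neg (by simp)] at h3
      have h4 : (g * sgQ n u * g⁻¹) n 0 0 = g n 0 0 * sgQ n u n 0 0 * (g n 0 0)⁻¹ := rfl
      rw [h4, sgQ_self] at h3
      have h5 : Fin.revPerm * u = g n 0 0 * u * (g n 0 0)⁻¹ * Fin.revPerm := by
        rw [← h3, mul_assoc (Fin.revPerm * u), hrev, mul_one]
      rw [mul_assoc, h5]
      group
    have h2 : Fin.revPerm = g n 0 0 := by
      rw [← mul_right_inj (g n 0 0)⁻¹, h1, inv_mul_cancel]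
    exact h2.symm
  have h0 : 0 < (famB false).N c0 := Fam.N_pos _ _
  have h1 := hR c0 0 h0
  unfold Fam.disp at h1
  rw [Fam.ev_of_lt _ _ _ _ h0] at h1
  have h2 : restr false g c0 = Fin.revPerm := key
  rw [h2] at h1
  have h3 : (((Fin.revPerm : Perm (Fin ((famB false).N c0))) ⟨0, h0⟩ : Fin _) : ℕ)
      = (famB false).N c0 - 1 := by
    simp [Fin.revPerm_apply, Fin.val_rev]
  rw [h3, hN] at h1
  have h4 := le_trans (le_abs_self _) h1
  omega

end OutRF
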