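import Pool.Agent.Lib_MP_0c5939_al.Stmts2

/-!
# MP_0c5939_al, piece GPerm: permuting the copies normalises G

Proof:
h fixes all i >= m, so h^-1 too and h^-1 maps [0,m) to itself. Invalid (n,d,i) -> 1: for n > m: i >= n gives h^-1 i =
i; i < n gives h^-1 i < n, so the invalid case is d >= 2^n: fine. Let q' = permQ m h q. For b: signs: clear (each
coordinate of q' is a coordinate of q at a valid or invalid triple; invalid ones are 1; for a valid triple
(n,d,j) take b' = testBit d j and the sign statement of (famB b').inA). Locality: let LocAt k_b' for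
restr b' q, b' = false, true; K = max k0 k1 m (LOCMONO). Claim restr b q' is LocAt K. c = (n,d,i), c1 = (n1,d1,i1) in
(famB b).C, K < n, n1, KeyEq K c c1 w w1 (in famB b). From symbols: testBit d j = testBit d1 j, (j = i iff j = i1) for
j < K. If i < m: i1 = i; j0 = h^-1 i < m <= K; b' = testBit d j0 = testBit d1 j0; c' = (n,d,j0), c1' = (n1,d1,j0) in
(famB b').C. KeyEq K c' c1' w w1 in famB b': symbols: ok; residues, flags: same lengths N; types: typ c' K w = typ c K w
by TYPX (symbols at levels j >= K: (testBit d j, false) for both as i, j0 < K), same for c1. So the displacements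
of restr b' q agree and these are the displacements of restr b q' at c, c1 (n, n1 > m). If i >= m then i1 >= m
(if i1 < m <= K then i = i1), h^-1 i = i, h^-1 i1 = i1: use restr b q directly (LOCMONO).
-/

namespace OutRF
open Equiv

/-- evaluation of `q` at the triple `(n, d, i)` -/
def gpermEv (q : Q) (n d i w : ℕ) : ℕ :=
  if h : w < 16 ^ n * (2 * d + 1) then (q n d i ⟨w, h⟩ : ℕ) else w

theorem gperm_disp (b : Bool) (q : Q) (c : (famB b).C) (w : ℕ) :
    (famB b).disp (restr b q) c w = (gpermEv q c.1.1 c.1.2.1 c.1.2.2 w : ℤ) - w := rfl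

theorem gpermEv_congr (q q' : Q) (n d i i' w : ℕ) (h : q n d i = q' n d i') :
    gpermEv q n d i w = gpermEv q' n d i' w := by
  unfold gpermEv
  rw [h]

theorem gperm_sign (q : Q) (hq : inG q) (n d i : ℕ) : Perm.sign (q n d i) = 1 := by
  by_cases h : i < n ∧ d < 2 ^ n
  · exact (hq.2 (d.testBit i)).1 ⟨(n, d, i), h.1, h.2, rfl⟩
  · rw [hq.1 n d i h]
    exact map_one _

theorem GPERM (hTYPX : TYPX_stmt) (hLOCMONO : LOCMONO_stmt) : GPERM_stmt := by
  intro m h hfix q hq
  have hfix' : ∀ i, m ≤ i → h⁻¹ i = i := by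
    intro i hi
    rw [Perm.inv_eq_iff_eq]
    exact (hfix i hi).symm
  have hlt : ∀ i, i < m → h⁻¹ i < m := by
    intro i hi
    by_contra hc
    have h1 := hfix _ (not_lt.1 hc)
    have h2 : h (h⁻¹ i) = i := Equiv.apply_symm_apply h i
    rw [h2] at h1
    omega
  obtain ⟨k0, hk0⟩ := (hq.2 false).2
  obtain ⟨k1, hk1⟩ := (hq.2 true).2
  obtain ⟨K, hK⟩ : ∃ K, K = max (max k0 k1) m := ⟨_, rfl⟩
  have hKm : m ≤ K := by rw [hK]; exact le_max_right _ _
  have hloc : ∀ b, (famB b).LocAt K ((famB b).disp (restr b q)) := by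
    intro b
    cases b with
    | false => exact hLOCMONO _ _ k0 K _ (by rw [hK]; exact le_trans (le_max_left _ _) (le_max_left _ _)) hk0
    | true => exact hLOCMONO _ _ k1 K _ (by rw [hK]; exact le_trans (le_max_right _ _) (le_max_left _ _)) hk1
  refine ⟨?_, ?_⟩
  · intro n d i hi
    unfold permQ
    split_ifs with hm
    · apply hq.1
      intro hc
      apply hi
      refine ⟨?_, hc.2⟩
      by_cases him : i < m
      · omega
      · rw [hfix' i (not_lt.1 him)] at hc
        exact hc.1
    · exact hq.1 n d i hi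
  · intro b
    refine ⟨?_, K, ?_⟩
    · intro c
      change Perm.sign (permQ m h q c.1.1 c.1.2.1 c.1.2.2) = 1
      unfold permQ
      split_ifs with hm
      · exact gperm_sign q hq _ _ _
      · exact gperm_sign q hq _ _ _
    · intro c c1 w w1 hn hn1 hw hw1 hkey
      rw [gperm_disp, gperm_disp]
      obtain ⟨⟨n, d, i⟩, hc1, hc2, hc3⟩ := c
      obtain ⟨⟨n1, d1, i1⟩, hd1, hd2, hd3⟩ := c1
      simp only at hc1 hc2 hc3 hd1 hd2 hd3
      change K < n at hn
      change K < n1 at hn1
      change w < 16 ^ n * (2 * d + 1) at hw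
      change w1 < 16 ^ n1 * (2 * d1 + 1) at hw1
      obtain ⟨hs, hr, ht, hf, hl⟩ := hkey
      have hs' : ∀ j < K, d.testBit j = d1.testBit j ∧ (j = i ↔ j = i1) := by
        intro j hj
        have h1 := hs j hj
        change (d.testBit j, decide (j = i)) = (d1.testBit j, decide (j = i1)) at h1
        rw [Prod.mk.injEq] at h1
        exact ⟨h1.1, decide_eq_decide.1 h1.2⟩
      have e1 : gpermEv (permQ m h q) n d i w = gpermEv q n d (h⁻¹ i) w := by
        apply gpermEv_congr
        unfold permQ
        rw [if_pos (by omega)]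
      have e2 : gpermEv (permQ m h q) n1 d1 i1 w1 = gpermEv q n1 d1 (h⁻¹ i1) w1 := by
        apply gpermEv_congr
        unfold permQ
        rw [if_pos (by omega)]
      change (gpermEv (permQ m h q) n d i w : ℤ) - w = (gpermEv (permQ m h q) n1 d1 i1 w1 : ℤ) - w1
      rw [e1, e2]
      by_cases him : i < m
      · have hi1 : i = i1 := (hs' i (by omega)).2.1 rfl
        subst hi1
        have hj0 := hlt i him
        have hb : d1.testBit (h⁻¹ i) = d.testBit (h⁻¹ i) := (hs' _ (by omega)).1.symm
        have key := hloc (d.testBit (h⁻¹ i)) ⟨(n, d, h⁻¹ i), by simp only; omega, hc2, rfl⟩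
          ⟨(n1, d1, h⁻¹ i), by simp only; omega, hd2, hb⟩ w w1 hn hn1 hw hw1
        apply key
        refine ⟨?_, hr, ?_, hf, hl⟩
        · intro j hj
          change (d.testBit j, decide (j = h⁻¹ i)) = (d1.testBit j, decide (j = h⁻¹ i))
          rw [(hs' j hj).1]
        · have t1 := hTYPX (famB (d.testBit (h⁻¹ i))) (famB b)
            ⟨(n, d, h⁻¹ i), by simp only; omega, hc2, rfl⟩ ⟨(n, d, i), hc1, hc2, hc3⟩ K w rfl (by
              intro j hj _
              change (d.testBit j, decide (j = h⁻¹ i)) = (d.testBit j, decide (j = i))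
              rw [decide_eq_false (by omega), decide_eq_false (by omega)])
          have t2 := hTYPX (famB (d.testBit (h⁻¹ i))) (famB b)
            ⟨(n1, d1, h⁻¹ i), by simp only; omega, hd2, hb⟩ ⟨(n1, d1, i), hd1, hd2, hd3⟩ K w1 rfl (by
              intro j hj _
              change (d1.testBit j, decide (j = h⁻¹ i)) = (d1.testBit j, decide (j = i))
              rw [decide_eq_false (by omega), decide_eq_false (by omega)])
          rw [t1, t2]
          exact ht
      · have him1 : ¬ i1 < m := by
          intro hc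
          have := (hs' i1 (by omega)).2.2 rfl
          omega
        rw [hfix' i (not_lt.1 him), hfix' i1 (not_lt.1 him1)]
        exact hloc b ⟨(n, d, i), hc1, hc2, hc3⟩ ⟨(n1, d1, i1), hd1, hd2, hd3⟩ w w1 hn hn1 hw hw1
          ⟨hs, hr, ht, hf, hl⟩

end OutRF
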