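import Pool.Agent.Lib_MP_0c5939_al.Stmts

/-!
# MP_0c5939_al, piece GamA: Gam is contained in A

Proof:
By AMEM it is enough that F.gens is contained in A (Subgroup.closure_le), i.e. inA (T (base ..) x). T = app 3
(pos theta x) (finRotate 3): Valid (16 | p), sign: finRotate 3 is even (decide / sign_finRotate) so all signs are
1 by SIGN; disp local by APPLOC: pos theta x is local because base is local (LOCBASIC: w % 16, s c 0, typ c 1,
min w 1, min (N - w) 17, ..., LOCCOMB) and pos theta x = shift by x cut with p+x+3 <= N (LOCSH with v = -x).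
-/

namespace OutRF
open Equiv

private theorem gamA_base (hLOCBASIC : LOCBASIC_stmt) (hLOCCOMB : LOCCOMB_stmt) (F : Fam)
    (σ : Bool × Bool) (t : Fin 3) (f l : Bool) :
    F.Loc (fun c w => (c, w) ∈ F.base σ t f l) := by
  obtain ⟨b1, b2, b3, b4, b5, -⟩ := hLOCBASIC F
  have h1 := hLOCCOMB F _ _ _ _ _ (fun (a : ℕ) (b : Bool × Bool) => (a, b)) (b1 1) (b4 0)
  have h2 := hLOCCOMB F _ _ _ _ _ (fun (a : ℕ × (Bool × Bool)) (b : ℕ) => (a, b)) h1 (b5 1)
  have h3 := hLOCCOMB F _ _ _ _ _ (fun (a : (ℕ × (Bool × Bool)) × ℕ) (b : ℕ) => (a, b)) h2 (b2 1)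
  have h4 := hLOCCOMB F _ _ _ _ _ (fun (a : ((ℕ × (Bool × Bool)) × ℕ) × ℕ) (b : ℕ) =>
    (a.1.1.1 = 0 ∧ a.1.1.2 = σ ∧ a.1.2 = (t : ℕ) ∧ decide (a.2 = 0) = f ∧ decide (b = 16) = l))
    h3 (b3 17)
  obtain ⟨k, hk⟩ := h4
  refine ⟨k, ?_⟩
  intro c c' w w' hc hc' hw hw' hkey
  have h5 := hk c c' w w' hc hc' hw hw' hkey
  simp only at h5
  have key : ∀ (c : F.C) (w : ℕ), w < F.N c → ((c, w) ∈ F.base σ t f l) =
      (w % 16 ^ 1 = 0 ∧ F.s c 0 = σ ∧ F.typ c 1 w = (t : ℕ) ∧ decide (min w 1 = 0) = f ∧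
        decide (min (F.N c - w) 17 = 16) = l) := by
    intro c w hw
    have e1 : decide (min w 1 = 0) = decide (w = 0) := by
      apply decide_eq_decide.2
      omega
    have e2 : decide (min (F.N c - w) 17 = 16) = decide (w + 16 = F.N c) := by
      apply decide_eq_decide.2
      omega
    rw [e1, e2]
    apply propext
    unfold Fam.base
    simp only [Set.mem_setOf_eq]
    constructor
    · rintro ⟨h1, _, h3, h4, h5, h6⟩
      exact ⟨by omega, h3, h4, h5, h6⟩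
    · rintro ⟨h1, h3, h4, h5, h6⟩
      exact ⟨by omega, hw, h3, h4, h5, h6⟩
  change ((c, w) ∈ F.base σ t f l) = ((c', w') ∈ F.base σ t f l)
  rw [key c w hw, key c' w' hw']
  exact h5

theorem GAMA (hAMEM : AMEM_stmt) (hAPP : APP_stmt) (hAPPLOC : APPLOC_stmt) (hSIGN : SIGN_stmt) (hLOCBASIC : LOCBASIC_stmt) (hLOCCOMB : LOCCOMB_stmt) (hLOCSH : LOCSH_stmt) : GAMA_stmt := by
  intro F g hg
  rw [← hAMEM]
  revert hg
  suffices h : F.Gam ≤ F.A from fun hg => h hg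
  unfold Fam.Gam
  rw [Subgroup.closure_le]
  rintro _ ⟨σ, t, f, l, x, rfl⟩
  change F.T (F.base σ t f l) x ∈ F.A
  rw [hAMEM]
  have hV : F.Valid 3 (F.pos (F.base σ t f l) x) := by
    constructor
    · rintro c p ⟨p', h1, h2, h3⟩
      simp only at h1 h2 h3
      omega
    · rintro c p q ⟨p', h1, h2, _⟩ ⟨q', h1', h2', _⟩ hpq
      simp only at h1 h2 h1' h2'
      have d1 : 16 ∣ p' := h1.1
      have d2 : 16 ∣ q' := h1'.1
      omega
  have hLoc : F.Loc (fun c w => (c, w) ∈ F.pos (F.base σ t f l) x) := by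
    have h1 := hLOCSH F _ (-(x : ℤ)) (gamA_base hLOCBASIC hLOCCOMB F σ t f l)
    have h2 := (hLOCBASIC F).2.2.1 17
    have h3 := hLOCCOMB F _ _ _ _ _ (fun (a : Prop) (b : ℕ) => (a ∧ 3 ≤ b)) h1 h2
    obtain ⟨k, hk⟩ := h3
    refine ⟨k, ?_⟩
    intro c c' w w' hc hc' hw hw' hkey
    have h5 := hk c c' w w' hc hc' hw hw' hkey
    simp only at h5
    have key : ∀ (c : F.C) (w : ℕ), w < F.N c → ((c, w) ∈ F.pos (F.base σ t f l) x) =
        ((0 ≤ (w : ℤ) + -(x : ℤ) ∧ (w : ℤ) + -(x : ℤ) < F.N c ∧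
          (c, ((w : ℤ) + -(x : ℤ)).toNat) ∈ F.base σ t f l) ∧ 3 ≤ min (F.N c - w) 17) := by
      intro c w hw
      apply propext
      constructor
      · rintro ⟨p, h1, h2, h3⟩
        simp only at h1 h2 h3
        have e : ((w : ℤ) + -(x : ℤ)).toNat = p := by omega
        rw [e]
        exact ⟨⟨by omega, by omega, h1⟩, by omega⟩
      · rintro ⟨⟨h1, h2, h3⟩, h4⟩
        refine ⟨((w : ℤ) + -(x : ℤ)).toNat, h3, ?_, ?_⟩
        · simp only; omega
        · simp only; omega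
    change ((c, w) ∈ F.pos (F.base σ t f l) x) = ((c', w') ∈ F.pos (F.base σ t f l) x)
    rw [key c w hw, key c' w' hw']
    exact h5
  refine ⟨?_, ?_⟩
  · intro c
    unfold Fam.T
    rw [hSIGN F 3 _ _ hV c, sign_finRotate]
    simp
  · unfold Fam.T
    exact hAPPLOC F 3 _ _ hV hLoc

end OutRF
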