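import Pool.Agent.Lib_MP_0c5939_al.Stmts2

/-!
# MP_0c5939_al, piece Ind: automorphisms are induced by point bijections

Proof:
Apply IND1 to alpha and alpha^-1 (alpha.symm). For c let (c', e) from alpha, and (c'', e') from alpha.symm at c'.
Take g = mulSingle c h, h a 3-cycle: alpha g is supported on c' and isTC (TCPRES), so even at c', so
IND1 for alpha.symm at c' applies to alpha g: g = alpha.symm (alpha g) is supported on c'', hence c'' = c. e' injective:
Fin (N c') -> Fin (N c), e injective: Fin (N c) -> Fin (N c'), so N c = N c' and e is bijective. So c -> c' is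
an involution-type pair: sigma c = c', sigma^-1 from alpha.symm: both compositions are the identity: Perm.
General g in A: for h even on c, with k = mulSingle c h: alpha(g) alpha(k) alpha(g)^-1 = alpha (g k g^-1), g k g^-1 =
mulSingle c (g_c h g_c^-1), even. At the component sigma c: u := (e g_c e^-1)^-1 * alpha(g)_(sigma c) commutes with
e h e^-1 for all even h, i.e. with all even permutations (sign is invariant under Equiv conjugation:
Equiv.Perm.sign_permCongr), so u = 1 by CENTALT.
-/

namespace OutRF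
open Equiv

theorem ind_aux (hTCPRES : TCPRES_stmt) (X : Box) (α : X.A ≃* X.A) (c c' c'' : X.C)
    (h1 : ∀ g : X.A, (∀ d, d ≠ c → (g : X.PP) d = 1) →
      (g : X.PP) c ∈ alternatingGroup (Fin (X.N c)) → ∀ d, d ≠ c' → ((α g : X.A) : X.PP) d = 1)
    (h2 : ∀ g : X.A, (∀ d, d ≠ c' → (g : X.PP) d = 1) →
      (g : X.PP) c' ∈ alternatingGroup (Fin (X.N c')) →
      ∀ d, d ≠ c'' → ((α.symm g : X.A) : X.PP) d = 1) : c'' = c := by
  classical
  have hN := X.hN c
  set z0 : Fin (X.N c) := ⟨0, by omega⟩ with hz0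
  set z1 : Fin (X.N c) := ⟨1, by omega⟩ with hz1
  set z2 : Fin (X.N c) := ⟨2, by omega⟩ with hz2
  have h01 : z0 ≠ z1 := by
    intro h; have := congrArg Fin.val h; simp [hz0, hz1] at this
  have h02 : z0 ≠ z2 := by
    intro h; have := congrArg Fin.val h; simp [hz0, hz2] at this
  have h12 : z1 ≠ z2 := by
    intro h; have := congrArg Fin.val h; simp [hz1, hz2] at this
  have htc : (swap z0 z1 * swap z0 z2).IsThreeCycle :=
    Perm.isThreeCycle_swap_mul_swap_same h01 h02 h12
  have hm : (Pi.mulSingle c (swap z0 z1 * swap z0 z2) : X.PP) ∈ X.A := by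
    apply X.hA _ c
    · intro d hd
      exact Pi.mulSingle_eq_of_ne (M := fun c => Perm (Fin (X.N c))) hd _
    · rw [Pi.mulSingle_eq_same]
      exact htc.mem_alternatingGroup
  let g : X.A := ⟨_, hm⟩
  have hgc : (g : X.PP) c = swap z0 z1 * swap z0 z2 :=
    Pi.mulSingle_eq_same (M := fun c => Perm (Fin (X.N c))) c _
  have hgd : ∀ d, d ≠ c → (g : X.PP) d = 1 := fun d hd =>
    Pi.mulSingle_eq_of_ne (M := fun c => Perm (Fin (X.N c))) hd _
  have hg := h1 g hgd (by rw [hgc]; exact htc.mem_alternatingGroup)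
  have hT : X.isTC ((α g : X.A) : X.PP) := hTCPRES X α g ⟨c, by rw [hgc]; exact htc, hgd⟩
  obtain ⟨d, hd, hd'⟩ := hT
  have hdc : d = c' := by
    by_contra hne
    rw [hg d hne] at hd
    have := hd.orderOf
    rw [orderOf_one] at this
    omega
  subst hdc
  have h3 := h2 (α g) hd' hd.mem_alternatingGroup
  rw [MulEquiv.symm_apply_apply] at h3
  by_contra hne
  have h4 := h3 c (fun h => hne h.symm)
  rw [hgc] at h4
  have := htc.orderOf
  rw [h4, orderOf_one] at this
  omega

theorem IND (hTCPRES : TCPRES_stmt) (hIND1 : IND1_stmt) (hCENTALT : CENTALT_stmt) : IND_stmt := by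
  classical
  intro X α
  choose c1 e1 he1inj he1 using hIND1 X α
  choose c2 e2 he2inj he2 using hIND1 X α.symm
  have hl : ∀ c, c2 (c1 c) = c := fun c =>
    ind_aux hTCPRES X α c (c1 c) (c2 (c1 c)) (fun g h1 h2 => (he1 c g h1 h2).1)
      (fun g h1 h2 => (he2 (c1 c) g h1 h2).1)
  have hr : ∀ c, c1 (c2 c) = c := fun c =>
    ind_aux hTCPRES X α.symm c (c2 c) (c1 (c2 c)) (fun g h1 h2 => (he2 c g h1 h2).1)
      (fun g h1 h2 => (he1 (c2 c) g h1 h2).1)
  let σ : Perm X.C := ⟨c1, c2, hl, hr⟩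
  have hle1 : ∀ c, X.N c ≤ X.N (c1 c) := fun c => by
    have := Fintype.card_le_of_injective (e1 c) (he1inj c)
    simpa using this
  have hle2 : ∀ c, X.N (c1 c) ≤ X.N c := fun c => by
    have := Fintype.card_le_of_injective (e2 (c1 c)) (he2inj (c1 c))
    rw [Fintype.card_fin, Fintype.card_fin, hl c] at this
    exact this
  have hbij : ∀ c, Function.Bijective (e1 c) := fun c => by
    rw [Fintype.bijective_iff_injective_and_card]
    refine ⟨he1inj c, ?_⟩
    rw [Fintype.card_fin, Fintype.card_fin]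
    exact le_antisymm (hle1 c) (hle2 c)
  refine ⟨σ, fun c => Equiv.ofBijective (e1 c) (hbij c), ?_⟩
  intro g c x
  show ((α g : X.A) : X.PP) (c1 c) (e1 c x) = e1 c ((g : X.PP) c x)
  let E : Fin (X.N c) ≃ Fin (X.N (c1 c)) := Equiv.ofBijective (e1 c) (hbij c)
  have hE : ∀ y, E y = e1 c y := fun y => rfl
  set v : Perm (Fin (X.N (c1 c))) := ((α g : X.A) : X.PP) (c1 c) with hv
  let u : Perm (Fin (X.N c)) := (E.trans v).trans E.symm
  have hu : ∀ y, e1 c (u y) = v (e1 c y) := by
    intro y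
    rw [← hE, ← hE]
    show E (E.symm (v (E y))) = v (E y)
    rw [Equiv.apply_symm_apply]
  have hw : ((g : X.PP) c)⁻¹ * u = 1 := by
    apply hCENTALT (X.N c) _ (by have := X.hN c; omega)
    intro h hh
    have hm : (Pi.mulSingle c h : X.PP) ∈ X.A := by
      apply X.hA _ c
      · intro d hd
        exact Pi.mulSingle_eq_of_ne (M := fun c => Perm (Fin (X.N c))) hd _
      · rw [Pi.mulSingle_eq_same]
        exact hh
    let k : X.A := ⟨_, hm⟩
    have hkc : (k : X.PP) c = h :=
      Pi.mulSingle_eq_same (M := fun c => Perm (Fin (X.N c))) c _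
    have hkd : ∀ d, d ≠ c → (k : X.PP) d = 1 := fun d hd =>
      Pi.mulSingle_eq_of_ne (M := fun c => Perm (Fin (X.N c))) hd _
    have hg1 : ∀ d, d ≠ c → ((g * k * g⁻¹ : X.A) : X.PP) d = 1 := by
      intro d hd
      show (g : X.PP) d * (k : X.PP) d * ((g : X.PP) d)⁻¹ = 1
      rw [hkd d hd, mul_one, mul_inv_cancel]
    have hg2 : ((g * k * g⁻¹ : X.A) : X.PP) c = (g : X.PP) c * h * ((g : X.PP) c)⁻¹ := by
      show (g : X.PP) c * (k : X.PP) c * ((g : X.PP) c)⁻¹ = _
      rw [hkc]
    have hg3 : ((g * k * g⁻¹ : X.A) : X.PP) c ∈ alternatingGroup (Fin (X.N c)) := by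
      rw [hg2]
      exact (inferInstance : (alternatingGroup (Fin (X.N c))).Normal).conj_mem h hh _
    have h1 := (he1 c k hkd (by rw [hkc]; exact hh)).2.1
    have h2 := (he1 c _ hg1 hg3).2.1
    have h3 : α (g * k * g⁻¹) * α g = α g * α k := by
      rw [← map_mul, ← map_mul]
      congr 1
      group
    have h4 := congrArg (fun f : X.A => (f : X.PP) (c1 c)) h3
    have h5 : ((α (g * k * g⁻¹) : X.A) : X.PP) (c1 c) * v = v * ((α k : X.A) : X.PP) (c1 c) := h4
    have h6 : u * h = (g : X.PP) c * h * ((g : X.PP) c)⁻¹ * u := by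
      ext y
      have h7 := congrArg (fun f : Perm (Fin (X.N (c1 c))) => f (e1 c y)) h5
      simp only [Perm.mul_apply] at h7
      rw [h1 y, hkc, ← hu, ← hu, h2, hg2] at h7
      have h8 := he1inj c h7
      rw [Perm.mul_apply, ← h8]
      rfl
    calc ((g : X.PP) c)⁻¹ * u * h = ((g : X.PP) c)⁻¹ * (u * h) := by rw [mul_assoc]
      _ = ((g : X.PP) c)⁻¹ * ((g : X.PP) c * h * ((g : X.PP) c)⁻¹ * u) := by rw [h6]
      _ = h * (((g : X.PP) c)⁻¹ * u) := by group
  have hug : u = (g : X.PP) c := by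
    have := congrArg (fun f => (g : X.PP) c * f) hw
    simpa using this
  rw [← hu, hug]

end OutRF
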