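import Pool.Agent.Lib_MP_0c5939_al.Stmts2

/-!
# MP_0c5939_al, piece Ind1: image of one alternating group

Proof:
J = {x : Fin (N c) // x != 0 and x != 1} (N c >= 9, so at least three elements). g_j = mulSingle c (swap 0 1 * swap 1 j)
in A. alpha g_j isTC by TCPRES, in component c_j. For i != j, g_i g_j != 1, (g_i g_j)^2 = 1 ((0 1 i)(0 1 j) is a
double transposition), so also for alpha g_i, alpha g_j. If c_i != c_j then at c_i the square of the product is
(alpha g_i c_i)^2 != 1: contradiction. So all c_j = c'. STAR for u j = (alpha g_j) c': a, b, e0. Define e 0 = a,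
e 1 = b, e j = e0 j: injective. The set of h in Perm (Fin (N c)) such that h even and the conclusion holds
for g = mulSingle c h is closed under multiplication and inverses (a subgroup), contains swap 0 1 * swap 1 j, so
contains alternatingGroup by ALTSTAR. (Define the subgroup S of all h such that there is a proof
that mulSingle c h is in A and the three conclusions hold for it.) For general g as in the statement
g = mulSingle c (g c).
-/

namespace OutRF
open Equiv

theorem ind1_prod {β : Type} [DecidableEq β] {a b i j : β} (hai : a ≠ i) (hbi : b ≠ i) :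
    swap a b * swap b i * (swap a b * swap b j) = swap a i * swap b j := by
  rw [← mul_assoc]
  congr 1
  have := Equiv.swap_mul_swap_mul_swap (x := i) (y := b) (z := a) hbi.symm hai.symm
  rw [Equiv.swap_comm a b, Equiv.swap_comm b i, this]

theorem ind1_sq {β : Type} [DecidableEq β] {a b i j : β} (hab : a ≠ b) (hai : a ≠ i)
    (haj : a ≠ j) (hbi : b ≠ i) (hbj : b ≠ j) (hij : i ≠ j) :
    (swap a b * swap b i * (swap a b * swap b j)) ^ 2 = 1 := by
  rw [ind1_prod hai hbi]
  have hd : Perm.Disjoint (swap a i) (swap b j) := by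
    apply Perm.disjoint_swap_swap
    simp only [List.nodup_cons, List.mem_cons, List.not_mem_nil, not_or, or_false,
      not_false_eq_true, List.nodup_nil, and_true]
    exact ⟨⟨hai, hab, haj⟩, ⟨hbi.symm, hij⟩, hbj⟩
  have hc := hd.commute
  rw [hc.mul_pow, pow_two, pow_two, swap_mul_self, swap_mul_self, one_mul]

theorem ind1_ne {β : Type} [DecidableEq β] {a b i j : β} (hab : a ≠ b) (hai : a ≠ i)
    (haj : a ≠ j) (hbi : b ≠ i) :
    (swap a b * swap b i * (swap a b * swap b j)) ≠ 1 := by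
  rw [ind1_prod hai hbi]
  intro h
  have := congrArg (fun f => f a) h
  simp only [Perm.mul_apply, Perm.one_apply] at this
  rw [swap_apply_of_ne_of_ne hab haj, swap_apply_left] at this
  exact hai this.symm

theorem IND1 (hTCPRES : TCPRES_stmt) (hSTAR : STAR_stmt) (hALTSTAR : ALTSTAR_stmt) : IND1_stmt := by
  classical
  intro X α c
  have hN := X.hN c
  set z0 : Fin (X.N c) := ⟨0, by omega⟩ with hz0
  set z1 : Fin (X.N c) := ⟨1, by omega⟩ with hz1
  have h01 : z0 ≠ z1 := by
    intro h
    have := congrArg Fin.val h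
    simp [hz0, hz1] at this
  have hmem : ∀ h : Perm (Fin (X.N c)), h ∈ alternatingGroup (Fin (X.N c)) →
      (Pi.mulSingle c h : X.PP) ∈ X.A := by
    intro h hh
    apply X.hA _ c
    · intro c' hc'
      exact Pi.mulSingle_eq_of_ne (M := fun c => Perm (Fin (X.N c))) hc' h
    · rw [Pi.mulSingle_eq_same]
      exact hh
  let J := {x : Fin (X.N c) // x ≠ z0 ∧ x ≠ z1}
  have htc : ∀ j : J, (swap z0 z1 * swap z1 j.1).IsThreeCycle := by
    intro j
    rw [swap_comm z0 z1]
    exact Perm.isThreeCycle_swap_mul_swap_same h01.symm j.2.2.symm j.2.1.symm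
  let G : J → X.A := fun j => ⟨Pi.mulSingle c (swap z0 z1 * swap z1 j.1),
    hmem _ (htc j).mem_alternatingGroup⟩
  have hTC : ∀ j : J, X.isTC ((α (G j) : X.A) : X.PP) := by
    intro j
    apply hTCPRES X α (G j)
    refine ⟨c, ?_, ?_⟩
    · show ((Pi.mulSingle c (swap z0 z1 * swap z1 j.1) : X.PP) c).IsThreeCycle
      rw [Pi.mulSingle_eq_same]
      exact htc j
    · intro c' hc'
      exact Pi.mulSingle_eq_of_ne hc' _
  choose cj hcj1 hcj2 using hTC
  have hGmul : ∀ i j : J, ((G i * G j : X.A) : X.PP) =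
      Pi.mulSingle c (swap z0 z1 * swap z1 i.1 * (swap z0 z1 * swap z1 j.1)) := by
    intro i j
    rw [Pi.mulSingle_mul]
    rfl
  have hGne : ∀ i j : J, i ≠ j → G i * G j ≠ 1 := by
    intro i j hij h
    have h1 := hGmul i j
    rw [h] at h1
    have h2 := congrFun h1 c
    rw [Pi.mulSingle_eq_same] at h2
    exact ind1_ne (j := j.1) h01 i.2.1.symm j.2.1.symm i.2.2.symm h2.symm
  have hGsq : ∀ i j : J, i ≠ j → (G i * G j) ^ 2 = 1 := by
    intro i j hij
    apply Subtype.ext
    rw [Subgroup.coe_pow, hGmul i j, ← Pi.mulSingle_pow,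
      ind1_sq h01 i.2.1.symm j.2.1.symm i.2.2.symm j.2.2.symm
        (fun h => hij (Subtype.ext h)), Pi.mulSingle_one]
    rfl
  have hαsq : ∀ i j : J, i ≠ j → ∀ d, (((α (G i) : X.A) : X.PP) d * ((α (G j) : X.A) : X.PP) d) ^ 2 = 1 := by
    intro i j hij d
    have h1 : (α (G i) * α (G j)) ^ 2 = 1 := by
      rw [← map_mul, ← map_pow, hGsq i j hij, map_one]
    have h2 := congrArg (fun g : X.A => (g : X.PP) d) h1
    exact h2
  have hcc : ∀ i j : J, cj i = cj j := by
    intro i j
    by_cases hij : i = j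
    · rw [hij]
    · by_contra hne
      have h1 := hαsq i j hij (cj i)
      rw [hcj2 j (cj i) hne, mul_one] at h1
      have h2 := orderOf_dvd_of_pow_eq_one h1
      rw [(hcj1 i).orderOf] at h2
      omega
  have j2 : J := ⟨⟨2, by omega⟩, by
    constructor <;> intro h <;> have := congrArg Fin.val h <;> simp [hz0, hz1] at this⟩
  obtain ⟨c', hc'⟩ : ∃ c', ∀ j, cj j = c' := ⟨cj j2, fun j => hcc j j2⟩
  have hu1 : ∀ j : J, (((α (G j) : X.A) : X.PP) c').IsThreeCycle := by
    intro j
    rw [← hc' j]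
    exact hcj1 j
  have hu2 : ∀ j : J, ∀ d, d ≠ c' → ((α (G j) : X.A) : X.PP) d = 1 := by
    intro j d hd
    exact hcj2 j d (by rw [hc' j]; exact hd)
  obtain ⟨a, b, e0, hab, he0, he0inj, hu⟩ := hSTAR (X.N c') J (fun j => ((α (G j) : X.A) : X.PP) c')
    (by
      refine ⟨⟨⟨2, by omega⟩, ?_⟩, ⟨⟨3, by omega⟩, ?_⟩, ⟨⟨4, by omega⟩, ?_⟩, ?_, ?_, ?_⟩
      · constructor <;> intro h <;> have := congrArg Fin.val h <;> simp [hz0, hz1] at this
      · constructor <;> intro h <;> have := congrArg Fin.val h <;> simp [hz0, hz1] at this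
      · constructor <;> intro h <;> have := congrArg Fin.val h <;> simp [hz0, hz1] at this
      · intro h; have := congrArg (fun x : J => x.1.val) h; simp at this
      · intro h; have := congrArg (fun x : J => x.1.val) h; simp at this
      · intro h; have := congrArg (fun x : J => x.1.val) h; simp at this)
    hu1 (by
      intro i j hij
      refine ⟨?_, hαsq i j hij c'⟩
      intro h
      apply hGne i j hij
      apply α.injective
      rw [map_mul, map_one]
      apply Subtype.ext
      funext d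
      show ((α (G i) : X.A) : X.PP) d * ((α (G j) : X.A) : X.PP) d = 1
      by_cases hd : d = c'
      · rw [hd]; exact h
      · rw [hu2 i d hd, hu2 j d hd, one_mul])
  let e : Fin (X.N c) → Fin (X.N c') := fun x =>
    if h : x ≠ z0 ∧ x ≠ z1 then e0 ⟨x, h⟩ else if x = z0 then a else b
  have ez0 : e z0 = a := by
    show (if h : z0 ≠ z0 ∧ z0 ≠ z1 then e0 ⟨z0, h⟩ else if z0 = z0 then a else b) = a
    rw [dif_neg (fun h => h.1 rfl), if_pos rfl]
  have ez1 : e z1 = b := by
    show (if h : z1 ≠ z0 ∧ z1 ≠ z1 then e0 ⟨z1, h⟩ else if z1 = z0 then a else b) = b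
    rw [dif_neg (fun h => h.2 rfl), if_neg h01.symm]
  have ej : ∀ j : J, e j.1 = e0 j := by
    intro j
    show (if h : j.1 ≠ z0 ∧ j.1 ≠ z1 then e0 ⟨j.1, h⟩ else if j.1 = z0 then a else b) = e0 j
    rw [dif_pos j.2]
  have einj : Function.Injective e := by
    intro x y hxy
    by_cases hx : x ≠ z0 ∧ x ≠ z1
    · rw [ej ⟨x, hx⟩] at hxy
      by_cases hy : y ≠ z0 ∧ y ≠ z1
      · rw [ej ⟨y, hy⟩] at hxy
        exact congrArg Subtype.val (he0inj hxy)
      · have hy' : y = z0 ∨ y = z1 := by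
          by_contra hh
          push Not at hh
          exact hy hh
        rcases hy' with rfl | rfl
        · rw [ez0] at hxy; exact absurd hxy (he0 _).1
        · rw [ez1] at hxy; exact absurd hxy (he0 _).2
    · have hx' : x = z0 ∨ x = z1 := by
        by_contra hh
        push Not at hh
        exact hx hh
      by_cases hy : y ≠ z0 ∧ y ≠ z1
      · rw [ej ⟨y, hy⟩] at hxy
        rcases hx' with rfl | rfl
        · rw [ez0] at hxy; exact absurd hxy.symm (he0 _).1
        · rw [ez1] at hxy; exact absurd hxy.symm (he0 _).2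
      · have hy' : y = z0 ∨ y = z1 := by
          by_contra hh
          push Not at hh
          exact hy hh
        rcases hx' with rfl | rfl <;> rcases hy' with rfl | rfl
        · rfl
        · rw [ez0, ez1] at hxy; exact absurd hxy hab
        · rw [ez0, ez1] at hxy; exact absurd hxy.symm hab
        · rfl
  let S : Subgroup (Perm (Fin (X.N c))) :=
    { carrier := {h | ∃ hm : (Pi.mulSingle c h : X.PP) ∈ X.A,
        (∀ d, d ≠ c' → ((α ⟨_, hm⟩ : X.A) : X.PP) d = 1) ∧
        (∀ x, ((α ⟨_, hm⟩ : X.A) : X.PP) c' (e x) = e (h x)) ∧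
        (∀ y, y ∉ Set.range e → ((α ⟨_, hm⟩ : X.A) : X.PP) c' y = y)}
      mul_mem' := by
        rintro h k ⟨hm, h1, h2, h3⟩ ⟨km, k1, k2, k3⟩
        have hkm : (Pi.mulSingle c (h * k) : X.PP) ∈ X.A := by
          rw [Pi.mulSingle_mul]; exact X.A.mul_mem hm km
        have heq : α ⟨_, hkm⟩ = α ⟨_, hm⟩ * α ⟨_, km⟩ := by
          rw [← map_mul]
          congr 1
          apply Subtype.ext
          exact Pi.mulSingle_mul (f := fun c => Perm (Fin (X.N c))) c h k
        refine ⟨hkm, ?_, ?_, ?_⟩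
        · intro d hd
          rw [heq]
          show ((α ⟨_, hm⟩ : X.A) : X.PP) d * ((α ⟨_, km⟩ : X.A) : X.PP) d = 1
          rw [h1 d hd, k1 d hd, one_mul]
        · intro x
          rw [heq]
          show ((α ⟨_, hm⟩ : X.A) : X.PP) c' (((α ⟨_, km⟩ : X.A) : X.PP) c' (e x)) = e (h (k x))
          rw [k2, h2]
        · intro y hy
          rw [heq]
          show ((α ⟨_, hm⟩ : X.A) : X.PP) c' (((α ⟨_, km⟩ : X.A) : X.PP) c' y) = y
          rw [k3 y hy, h3 y hy]
      one_mem' := by
        have hm : (Pi.mulSingle c (1 : Perm (Fin (X.N c))) : X.PP) ∈ X.A := by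
          rw [Pi.mulSingle_one]; exact X.A.one_mem
        have heq : α ⟨_, hm⟩ = 1 := by
          rw [← map_one α]
          congr 1
          apply Subtype.ext
          exact Pi.mulSingle_one c
        refine ⟨hm, ?_, ?_, ?_⟩
        · intro d hd; rw [heq]; rfl
        · intro x; rw [heq]; rfl
        · intro y hy; rw [heq]; rfl
      inv_mem' := by
        rintro h ⟨hm, h1, h2, h3⟩
        have him : (Pi.mulSingle c h⁻¹ : X.PP) ∈ X.A := by
          rw [Pi.mulSingle_inv]; exact X.A.inv_mem hm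
        have heq : α ⟨_, him⟩ = (α ⟨_, hm⟩)⁻¹ := by
          rw [← map_inv]
          congr 1
          apply Subtype.ext
          exact Pi.mulSingle_inv (f := fun c => Perm (Fin (X.N c))) c h
        refine ⟨him, ?_, ?_, ?_⟩
        · intro d hd
          rw [heq]
          show (((α ⟨_, hm⟩ : X.A) : X.PP) d)⁻¹ = 1
          rw [h1 d hd, inv_one]
        · intro x
          rw [heq]
          show (((α ⟨_, hm⟩ : X.A) : X.PP) c')⁻¹ (e x) = e (h⁻¹ x)
          rw [Perm.inv_eq_iff_eq, h2]; simp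
        · intro y hy
          rw [heq]
          show (((α ⟨_, hm⟩ : X.A) : X.PP) c')⁻¹ y = y
          rw [Perm.inv_eq_iff_eq, h3 y hy] }
  have hS : alternatingGroup (Fin (X.N c)) ≤ S := by
    apply hALTSTAR (X.N c) z0 z1 S h01
    intro j hj0 hj1
    have hjm := hmem _ (htc ⟨j, hj0, hj1⟩).mem_alternatingGroup
    have huj := hu ⟨j, hj0, hj1⟩
    have hGj : α ⟨_, hjm⟩ = α (G ⟨j, hj0, hj1⟩) := rfl
    refine ⟨hjm, ?_, ?_, ?_⟩
    · intro d hd
      rw [hGj]
      exact hu2 _ d hd
    · intro x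
      rw [hGj]
      show ((α (G ⟨j, hj0, hj1⟩) : X.A) : X.PP) c' (e x) = e ((swap z0 z1 * swap z1 j) x)
      rw [show ((α (G ⟨j, hj0, hj1⟩) : X.A) : X.PP) c' = swap a b * swap b (e0 ⟨j, hj0, hj1⟩) from huj]
      rw [Perm.mul_apply, Perm.mul_apply, einj.map_swap, einj.map_swap, ez0, ez1,
        ej ⟨j, hj0, hj1⟩]
    · intro y hy
      rw [hGj, show ((α (G ⟨j, hj0, hj1⟩) : X.A) : X.PP) c' = swap a b * swap b (e0 ⟨j, hj0, hj1⟩) from huj]
      have hya : y ≠ a := by
        rintro rfl; exact hy ⟨z0, ez0⟩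
      have hyb : y ≠ b := by
        rintro rfl; exact hy ⟨z1, ez1⟩
      have hye : y ≠ e0 ⟨j, hj0, hj1⟩ := by
        rintro rfl; exact hy ⟨j, ej ⟨j, hj0, hj1⟩⟩
      rw [Perm.mul_apply, swap_apply_of_ne_of_ne hyb hye, swap_apply_of_ne_of_ne hya hyb]
  refine ⟨c', e, einj, ?_⟩
  intro g hg1 hg2
  obtain ⟨hm, h1, h2, h3⟩ := hS hg2
  have hgeq : g = ⟨Pi.mulSingle c ((g : X.PP) c), hm⟩ := by
    apply Subtype.ext
    funext d
    show (g : X.PP) d = (Pi.mulSingle c ((g : X.PP) c) : X.PP) d
    by_cases hd : d = c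
    · subst hd; rw [Pi.mulSingle_eq_same]
    · rw [Pi.mulSingle_eq_of_ne hd, hg1 d hd]
  have hαg : α g = α ⟨Pi.mulSingle c ((g : X.PP) c), hm⟩ := congrArg α hgeq
  refine ⟨?_, ?_, ?_⟩
  · intro d hd
    rw [hαg]; exact h1 d hd
  · intro x
    rw [hαg]; exact h2 x
  · intro y hy
    rw [hαg]; exact h3 y hy

end OutRF
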