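import Pool.Agent.Lib_MP_0c5939_al.Stmts

/-!
# MP_0c5939_al, piece KFin: finitely many keys; local functions are bounded

Proof:
KFIN: Y = (Fin k -> Bool x Bool) x Fin (16^k) x Fin 3 x Bool x Bool, kappa c w = (fun j => s c j,
w % 16^k, typ c k w (F.typ_le), decide (w < 16^k), decide (N c <= w + 16^k)).
LOCBDD: f is LocAt k. Choose Y, kappa from KFIN. The set of values {f c w | k < n c, w < N c} is finite: it
is the image of a subset of the finite type Y (f c w depends only on kappa c w there: choose for every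
y in Y a representative if there is one). The set {f c w | n c <= k, w < N c} is finite because
F.fin k is finite and w < N c. A finite set of integers is bounded.
-/

namespace OutRF
open Equiv

theorem KFIN : KFIN_stmt := by
  intro F k
  refine ⟨(Fin k → Bool × Bool) × Fin (16 ^ k) × Fin 3 × Bool × Bool, inferInstance,
    fun c w => (fun j => F.s c j, ⟨w % 16 ^ k, Nat.mod_lt _ (Nat.pow_pos (by norm_num))⟩,
      ⟨F.typ c k w, Nat.lt_succ_of_le (F.typ_le c k w)⟩, decide (w < 16 ^ k),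
      decide (F.N c ≤ w + 16 ^ k)), ?_⟩
  intro c c' w w' h
  simp only [Prod.mk.injEq, Fin.mk.injEq, decide_eq_decide] at h
  exact ⟨fun j hj => congrFun h.1 ⟨j, hj⟩, h.2.1, h.2.2.1, h.2.2.2.1, h.2.2.2.2⟩

theorem LOCBDD (hKFIN : KFIN_stmt) : LOCBDD_stmt := by
  classical
  rintro F f ⟨k, hf⟩
  obtain ⟨Y, hY, κ, hκ⟩ := hKFIN F k
  let g : Y → ℤ := fun y =>
    if h : ∃ p : F.C × ℕ, k < F.n p.1 ∧ p.2 < F.N p.1 ∧ κ p.1 p.2 = y then
      f h.choose.1 h.choose.2 else 0
  have h1 : (Set.range g).Finite := Set.finite_range g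
  have h2 : (⋃ c ∈ {c | F.n c ≤ k}, (fun w => f c w) '' {w | w < F.N c}).Finite :=
    (F.fin k).biUnion fun c _ => (Set.finite_lt_nat _).image _
  obtain ⟨R, hR⟩ := ((h1.union h2).image Int.natAbs).bddAbove
  refine ⟨R, fun c w hw => ?_⟩
  rw [Int.abs_eq_natAbs]
  have h3 : (f c w).natAbs ≤ R := by
    apply hR
    refine ⟨f c w, ?_, rfl⟩
    by_cases hc : k < F.n c
    · left
      have hex : ∃ p : F.C × ℕ, k < F.n p.1 ∧ p.2 < F.N p.1 ∧ κ p.1 p.2 = κ c w :=
        ⟨(c, w), hc, hw, rfl⟩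
      refine ⟨κ c w, ?_⟩
      have h4 := hex.choose_spec
      change (if h : ∃ p : F.C × ℕ, k < F.n p.1 ∧ p.2 < F.N p.1 ∧ κ p.1 p.2 = κ c w then
        f h.choose.1 h.choose.2 else 0) = f c w
      rw [dif_pos hex]
      exact hf _ _ _ _ h4.1 hc h4.2.1 hw (hκ _ _ _ _ h4.2.2)
    · right
      simp only [Set.mem_iUnion]
      exact ⟨c, not_lt.mp hc, w, hw, rfl⟩
  exact_mod_cast h3

end OutRF
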