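import Pool.Agent.Lib_MP_0c5939_al.Stmts

/-!
# MP_0c5939_al, piece KShift: key shift lemma

Proof:
Let K = 16^(k+1), B = 16^k, K = 16 B. Write w = K a + r, w' = K a' + r (same r < K by the residues),
N c = K m, N c' = K m' (F.pow_dvd_N with k+1 <= n). So a < m, a' < m'.
First flag at level k+1: w < K iff a = 0, so (a = 0 iff a' = 0). Last flag: N c <= w + K iff a = m-1, so
(a = m-1 iff a' = m'-1).
Case 0 <= r + v < K: w + v = K a + (r+v), w' + v = K a' + (r+v): same residue, in range; typ at level k: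
  typ_lt, symbols s c k = s c' k, digit ((w+v)/B % 16) = ((r+v)/B) for both, and the types at level k+1
  of w+v and w agree by F.typ_block (same quotient by K); flags at level k: w+v < B iff a = 0 and r+v < B;
  N c <= w+v+B iff a = m-1 and r+v+B >= K.
Case r + v >= K (then r + v < K + B since |v| <= B and r < K): w+v < N c forces a < m-1, so a' < m'-1, in
  range for w'. w+v = K (a+1) + (r+v-K) with r+v-K < B: digit 0, so typ = W _ _ 0 = 0 (W_zero) for both.
  First flag at level k: false for both (a+1 >= 1, so w+v >= K > B). Last flag: N c <= w+v+B iff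
  K m <= K(a+1) + (r+v-K) + B, impossible since r+v-K+B < 2B <= K and a+1 <= m-1. Same for w'.
Case r + v < 0 (then r+v >= -B): 0 <= w+v forces a >= 1, so a' >= 1. w+v = K(a-1) + (K+r+v) with
  K - B <= K+r+v < K: digit 15, typ = W _ _ 15 = 0. First flag: w+v >= K-B = 15 B >= B, false for both.
  Last flag: N c <= w+v+B would need K m <= K a + (r+v) + B <= K a + B - 1 < K (a+1) <= K m: false.
Residues mod B agree in all cases (B divides K).  The natural numbers are ((w:Int)+v).toNat.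
-/

namespace OutRF
open Equiv

/-- first flag -/
theorem KShift_flag1 {B K b y : ℕ} (hBK : K = 16 * B) : K * b + y < B ↔ b = 0 ∧ y < B := by
  constructor
  · intro h
    have hb : b = 0 := by
      by_contra hb
      have h1 : K * 1 ≤ K * b := Nat.mul_le_mul_left K (by omega)
      omega
    subst hb
    exact ⟨rfl, by simpa using h⟩
  · rintro ⟨rfl, h⟩
    simpa using h

/-- last flag -/
theorem KShift_flag2 {B K b m y : ℕ} (hBK : K = 16 * B) (hB : 0 < B) (hb : b < m) (hy : y < K) :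
    K * m ≤ K * b + y + B ↔ b + 1 = m ∧ K ≤ y + B := by
  constructor
  · intro h
    have hm : b + 1 = m := by
      by_contra hm
      have h1 : K * (b + 2) ≤ K * m := Nat.mul_le_mul_left K (by omega)
      rw [Nat.mul_add] at h1
      omega
    subst hm
    rw [Nat.mul_add] at h
    exact ⟨rfl, by omega⟩
  · rintro ⟨rfl, h⟩
    rw [Nat.mul_add]
    omega

/-- type at level `k` in terms of the offset in the level-`(k+1)` block -/
theorem KShift_typ (F : Fam) {c : F.C} {k b y : ℕ} (hk : k < F.n c) (hy : y < 16 ^ (k + 1)) :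
    F.typ c k (16 ^ (k + 1) * b + y) =
      W (F.s c k) (F.typ c (k + 1) (16 ^ (k + 1) * b + y)) (y / 16 ^ k) := by
  rw [F.typ_lt c k _ hk]
  congr 1
  have h1 : 16 ^ (k + 1) * b + y = y + 16 ^ k * (16 * b) := by ring
  rw [h1, Nat.add_mul_div_left _ _ (Nat.pow_pos (by norm_num)), Nat.add_mul_mod_self_left]
  apply Nat.mod_eq_of_lt
  rw [Nat.div_lt_iff_lt_mul (Nat.pow_pos (by norm_num))]
  rw [pow_succ] at hy
  omega

/-- keys of two positions with the same offset -/
theorem KShift_core (F : Fam) {c c' : F.C} {k b b' y m m' : ℕ} (hk : k < F.n c) (hk' : k < F.n c')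
    (hs : ∀ j < k + 1, F.s c j = F.s c' j) (hy : y < 16 ^ (k + 1))
    (hm : F.N c = 16 ^ (k + 1) * m) (hm' : F.N c' = 16 ^ (k + 1) * m') (hb : b < m) (hb' : b' < m')
    (ht : y / 16 ^ k = 0 ∨ y / 16 ^ k = 15 ∨
      F.typ c (k + 1) (16 ^ (k + 1) * b + y) = F.typ c' (k + 1) (16 ^ (k + 1) * b' + y))
    (hf : y < 16 ^ k → (b = 0 ↔ b' = 0))
    (hl : 16 ^ (k + 1) ≤ y + 16 ^ k → (b + 1 = m ↔ b' + 1 = m')) :
    F.KeyEq k c c' (16 ^ (k + 1) * b + y) (16 ^ (k + 1) * b' + y) := by
  have hB : 0 < 16 ^ k := Nat.pow_pos (by norm_num)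
  have hBK : 16 ^ (k + 1) = 16 * 16 ^ k := by rw [pow_succ]; ring
  refine ⟨fun j hj => hs j (by omega), ?_, ?_, ?_, ?_⟩
  · have h1 : ∀ b : ℕ, 16 ^ (k + 1) * b + y = y + 16 ^ k * (16 * b) := fun b => by ring
    rw [h1, h1, Nat.add_mul_mod_self_left, Nat.add_mul_mod_self_left]
  · rw [KShift_typ F hk hy, KShift_typ F hk' hy, hs k (by omega)]
    rcases ht with h | h | h
    · rw [h, W_zero, W_zero]
    · rw [h, W_fifteen, W_fifteen]
    · rw [h]
  · rw [KShift_flag1 hBK, KShift_flag1 hBK]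
    constructor
    · rintro ⟨h1, h2⟩
      exact ⟨(hf h2).1 h1, h2⟩
    · rintro ⟨h1, h2⟩
      exact ⟨(hf h2).2 h1, h2⟩
  · rw [hm, hm', KShift_flag2 hBK hB hb hy, KShift_flag2 hBK hB hb' hy]
    constructor
    · rintro ⟨h1, h2⟩
      exact ⟨(hl h2).1 h1, h2⟩
    · rintro ⟨h1, h2⟩
      exact ⟨(hl h2).2 h1, h2⟩

theorem KSHIFT : KSHIFT_stmt := by
  intro F k c c' w w' v hk hk' hw hw' hkey hv h0 h1
  obtain ⟨hs, hr, ht, hf, hl⟩ := hkey
  obtain ⟨m, hm⟩ := F.pow_dvd_N c (k + 1) hk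
  obtain ⟨m', hm'⟩ := F.pow_dvd_N c' (k + 1) hk'
  have hB : 0 < 16 ^ k := Nat.pow_pos (by norm_num)
  have hBK : 16 ^ (k + 1) = 16 * 16 ^ k := by rw [pow_succ]; ring
  have hvB : ((16 ^ k : ℕ) : ℤ) = (16 : ℤ) ^ k := by push_cast; rfl
  rw [← hvB, abs_le] at hv
  obtain ⟨hv1, hv2⟩ := hv
  -- decomposition
  obtain ⟨a, r, hwa, hrK⟩ : ∃ a r, w = 16 ^ (k + 1) * a + r ∧ r < 16 ^ (k + 1) :=
    ⟨w / 16 ^ (k + 1), w % 16 ^ (k + 1), (Nat.div_add_mod _ _).symm, Nat.mod_lt _ (by omega)⟩
  obtain ⟨a', hwa'⟩ : ∃ a', w' = 16 ^ (k + 1) * a' + r := by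
    refine ⟨w' / 16 ^ (k + 1), ?_⟩
    have h2 : r = w % 16 ^ (k + 1) := by
      rw [hwa, Nat.mul_add_mod_self_left, Nat.mod_eq_of_lt hrK]
    rw [h2, hr]
    exact (Nat.div_add_mod _ _).symm
  have ham : a < m := by
    by_contra h
    have h2 : 16 ^ (k + 1) * m ≤ 16 ^ (k + 1) * a := Nat.mul_le_mul_left _ (not_lt.1 h)
    omega
  have ham' : a' < m' := by
    by_contra h
    have h2 : 16 ^ (k + 1) * m' ≤ 16 ^ (k + 1) * a' := Nat.mul_le_mul_left _ (not_lt.1 h)
    omega
  have key0 : ∀ b : ℕ, 16 ^ (k + 1) * b + r < 16 ^ (k + 1) ↔ b = 0 := by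
    intro b
    constructor
    · intro h
      by_contra hb
      have h2 : 16 ^ (k + 1) * 1 ≤ 16 ^ (k + 1) * b := Nat.mul_le_mul_left _ (by omega)
      omega
    · rintro rfl
      simpa using hrK
  have keyL : ∀ b n : ℕ, b < n → (16 ^ (k + 1) * n ≤ 16 ^ (k + 1) * b + r + 16 ^ (k + 1) ↔
      b + 1 = n) := by
    intro b n hbn
    constructor
    · intro h
      by_contra hb
      have h2 : 16 ^ (k + 1) * (b + 2) ≤ 16 ^ (k + 1) * n := Nat.mul_le_mul_left _ (by omega)
      rw [Nat.mul_add] at h2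
      omega
    · rintro rfl
      rw [Nat.mul_add]
      omega
  rw [hwa, hwa', key0, key0] at hf
  rw [hwa, hwa', hm, hm', keyL a m ham, keyL a' m' ham'] at hl
  -- three cases
  by_cases hc1 : (r : ℤ) + v < 0
  · -- previous block
    have ha1 : 1 ≤ a := by
      by_contra h
      have h2 : a = 0 := by omega
      subst h2
      rw [hwa] at h0
      push_cast at h0
      omega
    have ha1' : 1 ≤ a' := by
      rcases Nat.eq_zero_or_pos a' with h | h
      · have := hf.2 h
        omega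
      · exact h
    obtain ⟨b, rfl⟩ : ∃ b, a = b + 1 := ⟨a - 1, by omega⟩
    obtain ⟨b', rfl⟩ : ∃ b', a' = b' + 1 := ⟨a' - 1, by omega⟩
    obtain ⟨y, hy⟩ : ∃ y : ℕ, (y : ℤ) = (16 ^ (k + 1) : ℕ) + (r : ℤ) + v :=
      ⟨((16 ^ (k + 1) : ℕ) + (r : ℤ) + v).toNat, Int.toNat_of_nonneg (by omega)⟩
    have hyK : y < 16 ^ (k + 1) := by omega
    have hyK2 : 15 * 16 ^ k ≤ y := by omega
    have hx : ((w : ℤ) + v) = ((16 ^ (k + 1) * b + y : ℕ) : ℤ) := by
      rw [hwa]
      push_cast at hy ⊢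
      rw [hy]
      ring
    have hx' : ((w' : ℤ) + v) = ((16 ^ (k + 1) * b' + y : ℕ) : ℤ) := by
      rw [hwa']
      push_cast at hy ⊢
      rw [hy]
      ring
    have h3 : 16 ^ (k + 1) * (b' + 1) ≤ 16 ^ (k + 1) * m' := Nat.mul_le_mul_left _ (by omega)
    rw [Nat.mul_add] at h3
    rw [hx, hx', Int.toNat_natCast, Int.toNat_natCast]
    refine ⟨Int.natCast_nonneg _, ?_, ?_⟩
    · rw [hm']
      exact_mod_cast (by omega : 16 ^ (k + 1) * b' + y < 16 ^ (k + 1) * m')
    · refine KShift_core F hk hk' hs hyK hm hm' (by omega) (by omega) (Or.inr (Or.inl ?_)) ?_ ?_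
      · rw [Nat.div_eq_iff (by omega)]
        omega
      · intro h
        omega
      · intro _
        omega
  · by_cases hc2 : (r : ℤ) + v < (16 ^ (k + 1) : ℕ)
    · -- same block
      obtain ⟨y, hy⟩ : ∃ y : ℕ, (y : ℤ) = (r : ℤ) + v :=
        ⟨((r : ℤ) + v).toNat, Int.toNat_of_nonneg (by omega)⟩
      have hyK : y < 16 ^ (k + 1) := by omega
      have hx : ((w : ℤ) + v) = ((16 ^ (k + 1) * a + y : ℕ) : ℤ) := by
        rw [hwa]
        push_cast
        rw [hy]
        ring
      have hx' : ((w' : ℤ) + v) = ((16 ^ (k + 1) * a' + y : ℕ) : ℤ) := by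
        rw [hwa']
        push_cast
        rw [hy]
        ring
      have h3 : 16 ^ (k + 1) * (a' + 1) ≤ 16 ^ (k + 1) * m' := Nat.mul_le_mul_left _ (by omega)
      rw [Nat.mul_add] at h3
      rw [hx, hx', Int.toNat_natCast, Int.toNat_natCast]
      refine ⟨Int.natCast_nonneg _, ?_, ?_⟩
      · rw [hm']
        exact_mod_cast (by omega : 16 ^ (k + 1) * a' + y < 16 ^ (k + 1) * m')
      · refine KShift_core F hk hk' hs hyK hm hm' ham ham' (Or.inr (Or.inr ?_)) ?_ ?_
        · have e1 : F.typ c (k + 1) (16 ^ (k + 1) * a + y) = F.typ c (k + 1) w := by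
            apply F.typ_block
            rw [hwa, Nat.mul_add_div (by omega), Nat.mul_add_div (by omega),
              Nat.div_eq_of_lt hyK, Nat.div_eq_of_lt hrK]
          have e2 : F.typ c' (k + 1) (16 ^ (k + 1) * a' + y) = F.typ c' (k + 1) w' := by
            apply F.typ_block
            rw [hwa', Nat.mul_add_div (by omega), Nat.mul_add_div (by omega),
              Nat.div_eq_of_lt hyK, Nat.div_eq_of_lt hrK]
          rw [e1, e2, ht]
        · intro _
          exact hf
        · intro _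
          exact hl
    · -- next block
      have ham2 : a + 1 < m := by
        by_contra h
        have h2 : m = a + 1 := by omega
        subst h2
        rw [hwa, hm] at h1
        rw [Nat.mul_add] at h1
        push_cast at h1 hc2
        omega
      have ham2' : a' + 1 < m' := by
        rcases Nat.lt_or_ge (a' + 1) m' with h | h
        · exact h
        · have := hl.2 (by omega)
          omega
      obtain ⟨y, hy⟩ : ∃ y : ℕ, (y : ℤ) = (r : ℤ) + v - (16 ^ (k + 1) : ℕ) :=
        ⟨((r : ℤ) + v - (16 ^ (k + 1) : ℕ)).toNat, Int.toNat_of_nonneg (by omega)⟩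
      have hyK : y < 16 ^ (k + 1) := by omega
      have hyB : y < 16 ^ k := by omega
      have hx : ((w : ℤ) + v) = ((16 ^ (k + 1) * (a + 1) + y : ℕ) : ℤ) := by
        rw [hwa]
        push_cast at hy ⊢
        rw [hy]
        ring
      have hx' : ((w' : ℤ) + v) = ((16 ^ (k + 1) * (a' + 1) + y : ℕ) : ℤ) := by
        rw [hwa']
        push_cast at hy ⊢
        rw [hy]
        ring
      have h3 : 16 ^ (k + 1) * (a' + 1 + 1) ≤ 16 ^ (k + 1) * m' := Nat.mul_le_mul_left _ (by omega)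
      rw [Nat.mul_add _ (a' + 1) 1] at h3
      rw [hx, hx', Int.toNat_natCast, Int.toNat_natCast]
      refine ⟨Int.natCast_nonneg _, ?_, ?_⟩
      · rw [hm']
        exact_mod_cast (by omega : 16 ^ (k + 1) * (a' + 1) + y < 16 ^ (k + 1) * m')
      · refine KShift_core F hk hk' hs hyK hm hm' ham2 ham2' (Or.inl ?_) ?_ ?_
        · exact Nat.div_eq_of_lt hyB
        · intro _
          omega
        · intro h
          omega

end OutRF
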