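import Pool.Agent.Lib_MP_0c5939_al.Stmts
import Pool.Agent.Lib_MP_0c5939_al.KShift

/-!
# MP_0c5939_al, piece KFlip: keys are flip invariant

Proof:
First prove F.typ c k (N c - 1 - w) = F.typ c k w for w < N c, all k (induction on n c - k as in
F.typ_block): for k < n c use F.typ_lt; 16^(k+1) divides N c, so (N c - 1 - w) / 16^k % 16 =
15 - (w / 16^k % 16) (write N c = 16^(k+1) * m, w = 16^k * (16 a + x) + r), then W_sym.
Then: residues: (N c - 1 - w) % 16^k = 16^k - 1 - w % 16^k (16^k divides N c). first flag of the flipped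
point is the last flag of the original: N c - 1 - w < 16^k iff N c <= w + 16^k; and conversely
N c <= (N c - 1 - w) + 16^k iff w + 1 <= 16^k iff w < 16^k.
-/

namespace OutRF
open Equiv

/-- types are flip invariant -/
theorem KFLIP_typ (F : Fam) (c : F.C) (k w : ℕ) (hw : w < F.N c) :
    F.typ c k (F.N c - 1 - w) = F.typ c k w := by
  obtain ⟨n, hn⟩ : ∃ n, F.n c - k = n := ⟨_, rfl⟩
  induction n generalizing k with
  | zero => rw [F.typ_top c k _ (by omega), F.typ_top c k _ (by omega)]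
  | succ n ih =>
    have hk : k < F.n c := by omega
    have ih' := ih (k + 1) (by omega)
    obtain ⟨m, hm⟩ := F.pow_dvd_N c (k + 1) hk
    have hB : 0 < 16 ^ k := Nat.pow_pos (by norm_num)
    have hBK : 16 ^ (k + 1) = 16 * 16 ^ k := by rw [pow_succ]; ring
    obtain ⟨a, y, hwa, hyK⟩ : ∃ a y, w = 16 ^ (k + 1) * a + y ∧ y < 16 ^ (k + 1) :=
      ⟨w / 16 ^ (k + 1), w % 16 ^ (k + 1), (Nat.div_add_mod _ _).symm, Nat.mod_lt _ (by omega)⟩
    have ham : a < m := by
      by_contra h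
      have h3 : 16 ^ (k + 1) * m ≤ 16 ^ (k + 1) * a := Nat.mul_le_mul_left _ (not_lt.1 h)
      omega
    obtain ⟨e, rfl⟩ : ∃ e, m = a + 1 + e := ⟨m - a - 1, by omega⟩
    have h4 : F.N c - 1 - w = 16 ^ (k + 1) * e + (16 ^ (k + 1) - 1 - y) := by
      rw [Nat.mul_add, Nat.mul_add] at hm
      omega
    have hq : y / 16 ^ k ≤ 15 := by
      have : y / 16 ^ k < 16 := by
        rw [Nat.div_lt_iff_lt_mul hB]
        omega
      omega
    have h5 : (16 ^ (k + 1) - 1 - y) / 16 ^ k = 15 - y / 16 ^ k := by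
      have h6 := Nat.div_add_mod y (16 ^ k)
      have h7 := Nat.mod_lt y hB
      obtain ⟨f, hf⟩ : ∃ f, y / 16 ^ k + f = 15 := ⟨15 - y / 16 ^ k, by omega⟩
      have h8 : 15 - y / 16 ^ k = f := by omega
      have h9 : 16 ^ (k + 1) = 16 ^ k * (y / 16 ^ k) + 16 ^ k * f + 16 ^ k := by
        rw [← Nat.mul_add, hf, hBK]
        ring
      rw [h8, Nat.div_eq_iff hB]
      rw [Nat.mul_comm f]
      omega
    rw [h4] at ih' ⊢
    rw [KShift_typ F hk (by omega), ih', h5, hwa, KShift_typ F hk hyK, ← hwa, W_sym _ _ _ hq]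

theorem KFLIP : KFLIP_stmt := by
  intro F k c c' w w' hk hk' hw hw' hkey
  obtain ⟨hs, hr, ht, hf, hl⟩ := hkey
  have hB : 0 < 16 ^ k := Nat.pow_pos (by norm_num)
  have key : ∀ (c : F.C) (w : ℕ), k < F.n c → w < F.N c →
      (F.N c - 1 - w) % 16 ^ k = 16 ^ k - 1 - w % 16 ^ k := by
    intro c w hk hw
    obtain ⟨m, hm⟩ := F.pow_dvd_N c k hk.le
    have h6 := Nat.div_add_mod w (16 ^ k)
    have h7 := Nat.mod_lt w hB
    have ham : w / 16 ^ k < m := by
      rw [Nat.div_lt_iff_lt_mul hB, Nat.mul_comm]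
      omega
    obtain ⟨e, he⟩ : ∃ e, m = w / 16 ^ k + 1 + e := ⟨m - w / 16 ^ k - 1, by omega⟩
    have h4 : F.N c - 1 - w = (16 ^ k - 1 - w % 16 ^ k) + 16 ^ k * e := by
      rw [he, Nat.mul_add, Nat.mul_add] at hm
      omega
    rw [h4, Nat.add_mul_mod_self_left, Nat.mod_eq_of_lt (by omega)]
  refine ⟨hs, ?_, ?_, ?_, ?_⟩
  · rw [key c w hk hw, key c' w' hk' hw', hr]
  · rw [KFLIP_typ F c k w hw, KFLIP_typ F c' k w' hw', ht]
  · constructor
    · intro h
      have := hl.1 (by omega)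
      omega
    · intro h
      have := hl.2 (by omega)
      omega
  · constructor
    · intro h
      have := hf.1 (by omega)
      omega
    · intro h
      have := hf.2 (by omega)
      omega

end OutRF
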