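import Pool.Agent.Lib_MP_0c5939_al.Stmts

/-!
# MP_0c5939_al, piece KMono: level k+1 key determines the level k key

Proof:
KeyEq (k+1) gives: symbols below k+1, w % 16^(k+1) = w' % 16^(k+1), equal types at level k+1,
first and last flags at level k+1. Show the same for k:
* symbols: restrict. * residues mod 16^k: 16^k divides 16^(k+1) (Nat.mod_mod_of_dvd).
* typ k: F.typ_lt (k < n c and k < n c'): typ c k w = W (s c k) (typ c (k+1) w) (w / 16^k % 16);
  s c k = s c' k (j = k < k+1), and w / 16^k % 16 = (w % 16^(k+1)) / 16^k (Nat.mod_mul_right_div_self or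
  similar), so the digits agree.
* first: w < 16^k iff (w < 16^(k+1) and w % 16^(k+1) < 16^k).
* last: N c <= w + 16^k iff (N c <= w + 16^(k+1) and 16^(k+1) - 16^k <= w % 16^(k+1)), because
  16^(k+1) divides N c (F.pow_dvd_N, k+1 <= n c): write N c = 16^(k+1) * m, w = 16^(k+1) * a + r,
  0 <= r < 16^(k+1), w < N c gives a < m, and N c <= w + 16^(k+1) iff a = m - 1.
-/

namespace OutRF
open Equiv

private theorem KMono_last {b N w : ℕ} (hb : 0 < b) (hN : b ∣ N) (hw : w < N) (hl : N ≤ w + b) :
    N + w % b = w + b := by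
  obtain ⟨m, rfl⟩ := hN
  have h1 : b * (w / b) + w % b = w := Nat.div_add_mod w b
  have h2 : w % b < b := Nat.mod_lt w hb
  have h3 : w / b < m := by
    by_contra hc
    have : b * m ≤ b * (w / b) := Nat.mul_le_mul_left b (not_lt.1 hc)
    omega
  have h4 : m < w / b + 2 := by
    by_contra hc
    have h5 : b * (w / b + 2) ≤ b * m := Nat.mul_le_mul_left b (not_lt.1 hc)
    have h6 : b * (w / b + 2) = b * (w / b) + 2 * b := by ring
    omega
  have h5 : m = w / b + 1 := by omega
  have h6 : b * m = b * (w / b) + b := by rw [h5]; ring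
  omega

theorem KMONO : KMONO_stmt := by
  intro F k c c' w w' hk hk' hw hw' h
  obtain ⟨hs, hm, ht, hf, hl⟩ := h
  have ha : 0 < 16 ^ k := Nat.pow_pos (by norm_num)
  have hb : 16 ^ (k + 1) = 16 ^ k * 16 := pow_succ 16 k
  have hb0 : 0 < 16 ^ (k + 1) := Nat.pow_pos (by norm_num)
  have hab : 16 ^ k ≤ 16 ^ (k + 1) := by omega
  refine ⟨fun j hj => hs j (by omega), ?_, ?_, ?_, ?_⟩
  · have hd : 16 ^ k ∣ 16 ^ (k + 1) := pow_dvd_pow 16 (by omega)
    rw [← Nat.mod_mod_of_dvd w hd, ← Nat.mod_mod_of_dvd w' hd, hm]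
  · rw [F.typ_lt c k w hk, F.typ_lt c' k w' hk', hs k (by omega), ht]
    have h1 : w / 16 ^ k % 16 = w' / 16 ^ k % 16 := by
      rw [← Nat.mod_mul_right_div_self, ← Nat.mod_mul_right_div_self, ← hb, hm]
    rw [h1]
  · constructor
    · intro h1
      have h2 : w' < 16 ^ (k + 1) := hf.1 (by omega)
      rw [Nat.mod_eq_of_lt (show w < 16 ^ (k + 1) by omega), Nat.mod_eq_of_lt h2] at hm
      omega
    · intro h1
      have h2 : w < 16 ^ (k + 1) := hf.2 (by omega)
      rw [Nat.mod_eq_of_lt (show w' < 16 ^ (k + 1) by omega), Nat.mod_eq_of_lt h2] at hm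
      omega
  · have hN := F.pow_dvd_N c (k + 1) hk
    have hN' := F.pow_dvd_N c' (k + 1) hk'
    constructor
    · intro h1
      have h2 := hl.1 (by omega)
      have h3 := KMono_last hb0 hN hw (by omega)
      have h4 := KMono_last hb0 hN' hw' h2
      omega
    · intro h1
      have h2 := hl.2 (by omega)
      have h3 := KMono_last hb0 hN hw h2
      have h4 := KMono_last hb0 hN' hw' (by omega)
      omega

end OutRF
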