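import Pool.Agent.Lib_MP_0c5939_al.Stmts
import Pool.Agent.Lib_MP_0c5939_al.KShift

/-!
# MP_0c5939_al, piece KZero: keys at 0 and near junctions

Proof:
KZERO: residues 0 = 0; typ c k 0 = W _ _ (0/16^k % 16) = W _ _ 0 = 0 for both (F.typ_lt, W_zero); first
flag true for both; last flag: N c <= 0 + 16^k is false for both by F.pow_lt_N (k < n c).
JUNC: let B = 16^k, K = 16^(k+1) = 16 B, b = K m >= K, and b + K <= N c (K divides b and N c, b < N c).
Let u = b + r (r in [-B, B)). Residue mod B of u: that of r (B divides b), same for u'. digit u / B % 16: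
if r >= 0 it is 0 (u = B*(16 m) + r), if r < 0 it is 15 (u = B (16 m - 1) + (B + r)). So typ = 0 for both
(W_zero, W_fifteen, F.typ_lt). First flag: u >= K - B = 15 B >= B so false for both. Last flag:
N c <= u + B would give b + K <= b + r + B < b + 2B: false. Symbols: hypothesis.
-/

namespace OutRF
open Equiv

theorem KZERO : KZERO_stmt := by
  intro F k c c' hk hk' hs
  have h1 := F.pow_lt_N c k hk
  have h2 := F.pow_lt_N c' k hk'
  have hB : 0 < 16 ^ k := Nat.pow_pos (by norm_num)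
  refine ⟨hs, rfl, ?_, ?_, ?_⟩
  · rw [F.typ_lt c k 0 hk, F.typ_lt c' k 0 hk', Nat.zero_div, Nat.zero_mod, W_zero, W_zero]
  · exact Iff.rfl
  · constructor
    · intro h; omega
    · intro h; omega

/-- position near an interior junction -/
theorem JUNC_aux (F : Fam) {k : ℕ} {c : F.C} {b : ℕ} {r : ℤ} (hk : k < F.n c)
    (hb : 16 ^ (k + 1) ∣ b) (h0 : 0 < b) (hN : b < F.N c) (h1 : -(16 : ℤ) ^ k ≤ r)
    (h2 : r < (16 : ℤ) ^ k) :
    ((((b : ℤ) + r).toNat % 16 ^ k : ℕ) : ℤ) = r % ((16 ^ k : ℕ) : ℤ) ∧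
      F.typ c k ((b : ℤ) + r).toNat = 0 ∧ ¬ ((b : ℤ) + r).toNat < 16 ^ k ∧
      ¬ F.N c ≤ ((b : ℤ) + r).toNat + 16 ^ k := by
  obtain ⟨m, hm⟩ := F.pow_dvd_N c (k + 1) hk
  obtain ⟨a, ha⟩ := hb
  have hB : 0 < 16 ^ k := Nat.pow_pos (by norm_num)
  have hBK : 16 ^ (k + 1) = 16 * 16 ^ k := by rw [pow_succ]; ring
  have hvB : (16 : ℤ) ^ k = ((16 ^ k : ℕ) : ℤ) := by push_cast; rfl
  rw [hvB] at h1 h2
  have ha0 : 1 ≤ a := by
    rcases Nat.eq_zero_or_pos a with h | h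
    · subst h
      omega
    · exact h
  have ham : a < m := by
    by_contra h
    have h3 : 16 ^ (k + 1) * m ≤ 16 ^ (k + 1) * a := Nat.mul_le_mul_left _ (not_lt.1 h)
    omega
  have e1 : 16 ^ (k + 1) * 1 ≤ 16 ^ (k + 1) * a := Nat.mul_le_mul_left _ ha0
  have e2 : 16 ^ (k + 1) * (a + 1) ≤ 16 ^ (k + 1) * m := Nat.mul_le_mul_left _ ham
  rw [Nat.mul_add] at e2
  refine ⟨?_, ?_, ?_, ?_⟩
  · rw [Int.natCast_mod, Int.toNat_of_nonneg (by omega)]
    have h3 : (b : ℤ) + r = r + ((16 ^ k : ℕ) : ℤ) * (16 * a) := by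
      rw [ha, hBK]
      push_cast
      ring
    rw [h3, Int.add_mul_emod_self_left]
  · by_cases hr : 0 ≤ r
    · obtain ⟨y, rfl⟩ := Int.eq_ofNat_of_zero_le hr
      have h3 : ((b : ℤ) + (y : ℤ)).toNat = 16 ^ (k + 1) * a + y := by omega
      rw [h3, KShift_typ F hk (by omega), Nat.div_eq_of_lt (by omega), W_zero]
    · obtain ⟨a', rfl⟩ : ∃ a', a = a' + 1 := ⟨a - 1, by omega⟩
      obtain ⟨y, hy⟩ : ∃ y : ℕ, (y : ℤ) = ((16 ^ (k + 1) : ℕ) : ℤ) + r :=
        ⟨(((16 ^ (k + 1) : ℕ) : ℤ) + r).toNat, Int.toNat_of_nonneg (by omega)⟩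
      have h3 : ((b : ℤ) + r).toNat = 16 ^ (k + 1) * a' + y := by
        rw [Nat.mul_add] at ha
        omega
      rw [h3, KShift_typ F hk (by omega)]
      have h4 : y / 16 ^ k = 15 := by
        rw [Nat.div_eq_iff (by omega)]
        omega
      rw [h4, W_fifteen]
  · omega
  · omega

theorem JUNC : JUNC_stmt := by
  intro F k c c' b b' r hk hk' hs hb hb' h0 hN h0' hN' h1 h2
  obtain ⟨p1, p2, p3, p4⟩ := JUNC_aux F hk hb h0 hN h1 h2
  obtain ⟨q1, q2, q3, q4⟩ := JUNC_aux F hk' hb' h0' hN' h1 h2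
  refine ⟨hs, ?_, p2.trans q2.symm, ?_, ?_⟩
  · exact_mod_cast p1.trans q1.symm
  · exact ⟨fun h => absurd h p3, fun h => absurd h q3⟩
  · exact ⟨fun h => absurd h p4, fun h => absurd h q4⟩

end OutRF
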