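import Pool.Agent.Lib_MP_0c5939_al.Stmts

/-!
# MP_0c5939_al, piece Lev1: recognition, level 1

Proof:
cls 1 sigma t: for t <= 2 it is the union over f l of base (sigma 0) t f l (n c >= 1 always, F.n_pos; 16^1 =
16); for t >= 3 it is empty by F.typ_le (empty = a \ a). fst 1 = union over sigma t l of base sigma t true l
({q.2 = 0}: 0 < N c by F.N_pos). lst 1 = union over sigma t f of base sigma t f true. Finite unions by
Bgen.union.
-/

namespace OutRF
open Equiv

namespace Lev1

variable (F : Fam)

theorem bgen_empty : F.Bgen ∅ := by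
  have h := Fam.Bgen.diff (Fam.Bgen.base (F := F) (false, false) 0 false false)
    (Fam.Bgen.base (F := F) (false, false) 0 false false)
  rwa [Set.sdiff_self] at h

theorem bgen_biUnion {ι : Type} (s : Finset ι) (B : ι → Set (F.C × ℕ))
    (h : ∀ i ∈ s, F.Bgen (B i)) : F.Bgen (⋃ i ∈ s, B i) := by
  classical
  induction s using Finset.induction_on with
  | empty => simpa using bgen_empty F
  | insert a s _ ih =>
    rw [Finset.set_biUnion_insert]
    exact Fam.Bgen.union (h a (Finset.mem_insert_self a s))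
      (ih fun i hi => h i (Finset.mem_insert_of_mem hi))

theorem bgen_iUnion {ι : Type} [Fintype ι] (B : ι → Set (F.C × ℕ))
    (h : ∀ i, F.Bgen (B i)) : F.Bgen (⋃ i, B i) := by
  have := bgen_biUnion F (Finset.univ : Finset ι) B (fun i _ => h i)
  simpa using this

end Lev1

theorem LEV1 : LEV1_stmt := by
  intro F
  refine ⟨?_, ?_, ?_⟩
  · intro σ t
    by_cases ht : t ≤ 2
    · have h := Lev1.bgen_iUnion F
        (fun i : Bool × Bool => F.base (σ 0) ⟨t, by omega⟩ i.1 i.2)
        (fun i => Fam.Bgen.base _ _ _ _)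
      convert h using 1
      ext q
      simp only [Fam.cls, Fam.base, Set.mem_ofPred_eq, Set.mem_iUnion, pow_one]
      constructor
      · rintro ⟨h1, h2, h3, h4, h5⟩
        exact ⟨(decide (q.2 = 0), decide (q.2 + 16 = F.N q.1)), h1, h2, h4 0 (by omega), h5,
          rfl, rfl⟩
      · rintro ⟨i, h1, h2, h3, h4, _, _⟩
        refine ⟨h1, h2, F.n_pos q.1, ?_, h4⟩
        intro j hj
        obtain rfl : j = 0 := by omega
        exact h3
    · have h : F.cls 1 σ t = ∅ := by
        ext q
        simp only [Fam.cls, Set.mem_ofPred_eq, Set.mem_empty_iff_false, iff_false]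
        rintro ⟨_, _, _, _, h5⟩
        have := F.typ_le q.1 1 q.2
        omega
      rw [h]
      exact Lev1.bgen_empty F
  · have h := Lev1.bgen_iUnion F
      (fun i : (Bool × Bool) × Fin 3 × Bool => F.base i.1 i.2.1 true i.2.2)
      (fun i => Fam.Bgen.base _ _ _ _)
    convert h using 1
    ext q
    simp only [Fam.fst, Fam.base, Set.mem_ofPred_eq, Set.mem_iUnion]
    constructor
    · rintro ⟨h1, _⟩
      have h2 := F.typ_le q.1 1 q.2
      exact ⟨(F.s q.1 0, ⟨F.typ q.1 1 q.2, by omega⟩, decide (q.2 + 16 = F.N q.1)),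
        by rw [h1]; exact dvd_zero _, by rw [h1]; exact F.N_pos q.1, rfl, rfl,
        decide_eq_true h1, rfl⟩
    · rintro ⟨i, _, _, _, _, h5, _⟩
      exact ⟨of_decide_eq_true h5, F.n_pos q.1⟩
  · have h := Lev1.bgen_iUnion F
      (fun i : (Bool × Bool) × Fin 3 × Bool => F.base i.1 i.2.1 i.2.2 true)
      (fun i => Fam.Bgen.base _ _ _ _)
    convert h using 1
    ext q
    simp only [Fam.lst, Fam.base, Set.mem_ofPred_eq, Set.mem_iUnion, pow_one]
    constructor
    · rintro ⟨h1, _, h3⟩
      have h2 := F.typ_le q.1 1 q.2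
      exact ⟨(F.s q.1 0, ⟨F.typ q.1 1 q.2, by omega⟩, decide (q.2 = 0)),
        h1, by omega, rfl, rfl, rfl, decide_eq_true h3⟩
    · rintro ⟨i, h1, _, _, _, _, h6⟩
      exact ⟨h1, F.n_pos q.1, of_decide_eq_true h6⟩

end OutRF
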