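import Pool.Agent.Lib_MP_0c5939_al.Stmts

/-!
# MP_0c5939_al, piece LevStep: recognition, step from level k to level k+1

Proof:
Helper: Bgen is closed under forward shifts by 16 m truncated to the component,
{q | exists p, (q.1,p) in a, q.2 = p + 16 m, p + 16 m < N}, and backward {q | (q.1, q.2 + 16 m) in a}
(induction on m from shf, shb; for the forward one p+16(m-1) < N is automatic), and under finite unions.
16^k = 16 * 16^(k-1) as k >= 1.
Assume Lev k. Z = union over sigma (finitely many: functions on j < k extended by (false,false)) of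
cls k sigma 0 = {q | 16^k | q.2, q.2 < N, k <= n, typ k q.2 = 0}. For n c = k: typ = 1 (F.typ_top), so Z only
contains components with k < n c.
Start = (Z inter fst k) union (Z inter forward shift by 16^k of Z). Claim Start = {q | 16^(k+1) | q.2, q.2 < N, k+1 <= n}.
 (<=) typ k q.2 = W _ _ a with a = q.2/16^k % 16, so a in {0, 15} (W_eq_zero_iff). If a = 15 then q.2 != 0 and
  q.2 - 16^k has digit 14, type != 0, contradiction; so a = 0, 16^(k+1) | q.2.
 (>=) digit 0 so type 0; if q.2 != 0 then q.2 - 16^k has digit 15, type 0.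
 (typ k of multiples: F.typ_lt.)
For q in Start: typ k (q.2 + 16^k) = W (s k) t' 1 = if t' = 1 then 2 else 1 with t' = typ (k+1) q.2 (same
level-(k+1) block: F.typ_block), typ k (q.2 + 2*16^k) = if t' = 2 then 2 else 1, typ k (q.2+3*16^k) = 2 iff
(s c k).1, typ k (q.2 + 4*16^k) = 2 iff (s c k).2 (W_one .. W_four). So for t in {0,1,2} cls (k+1) sigma t = Start inter
{symbols below k are sigma} (union over t' of cls k sigma t') inter the four conditions (backward shift by
j*16^k of the set {typ k = 2} = union over sigma' of cls k sigma' 2, or its complement inside Start),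
according to t = 1, t = 2, (sigma k).1, (sigma k).2. For t >= 3 empty. fst (k+1) = Start inter fst k;
lst (k+1) = Start inter backward shift by 15*16^k of lst k.
-/

namespace OutRF
open Equiv

namespace LevStepAux
variable (F : Fam)

theorem bgen_lt {a : Set (F.C × ℕ)} (ha : F.Bgen a) : ∀ q ∈ a, q.2 < F.N q.1 := by
  induction ha with
  | base σ t f l => intro q hq; exact hq.2.1
  | inter _ _ h1 _ => intro q hq; exact h1 q hq.1
  | diff _ _ h1 _ => intro q hq; exact h1 q hq.1
  | union _ _ h1 h2 =>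
    intro q hq
    rcases hq with hq | hq
    · exact h1 q hq
    · exact h2 q hq
  | shf _ h1 =>
    rintro q ⟨p, _, h2, h3⟩
    rw [h2]; exact h3
  | shb _ h1 =>
    intro q hq
    have := h1 _ hq
    simp only at this
    omega

theorem bgen_shf {a : Set (F.C × ℕ)} (ha : F.Bgen a) (m : ℕ) :
    F.Bgen {q | ∃ p, (q.1, p) ∈ a ∧ q.2 = p + 16 * m ∧ p + 16 * m < F.N q.1} := by
  induction m with
  | zero =>
    convert ha using 1
    ext q
    constructor
    · rintro ⟨p, h1, h2, _⟩
      have : q = (q.1, p) := Prod.ext rfl (by simpa using h2)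
      rw [this]; exact h1
    · intro h
      exact ⟨q.2, h, by simp, by simpa using bgen_lt F ha q h⟩
  | succ m ih =>
    convert Fam.Bgen.shf ih using 1
    ext q
    constructor
    · rintro ⟨p, h1, h2, h3⟩
      exact ⟨p + 16 * m, ⟨p, h1, rfl, by show p + 16 * m < F.N q.1; omega⟩, by omega, by omega⟩
    · rintro ⟨p', ⟨p, h1, h2, h3⟩, h4, h5⟩
      simp only at h1 h2 h3
      exact ⟨p, h1, by omega, by omega⟩

theorem bgen_shb {a : Set (F.C × ℕ)} (ha : F.Bgen a) (m : ℕ) :
    F.Bgen {q | (q.1, q.2 + 16 * m) ∈ a} := by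
  induction m with
  | zero => exact ha
  | succ m ih =>
    convert Fam.Bgen.shb ih using 1
    ext q
    show (q.1, q.2 + 16 * (m + 1)) ∈ a ↔ (q.1, q.2 + 16 + 16 * m) ∈ a
    rw [show q.2 + 16 * (m + 1) = q.2 + 16 + 16 * m by ring]

theorem bgen_empty : F.Bgen (∅ : Set (F.C × ℕ)) := by
  have h := Fam.Bgen.base (F := F) (false, false) 0 true true
  have := Fam.Bgen.diff h h
  rwa [sdiff_self] at this

theorem bgen_iUnion {I : Type} [Finite I] (f : I → Set (F.C × ℕ)) (hf : ∀ i, F.Bgen (f i)) :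
    F.Bgen (⋃ i, f i) := by
  classical
  have := Fintype.ofFinite I
  have h : ∀ s : Finset I, F.Bgen (⋃ i ∈ s, f i) := by
    intro s
    induction s using Finset.induction_on with
    | empty => simpa using bgen_empty F
    | insert a s _ ih =>
      rw [Finset.set_biUnion_insert]
      exact Fam.Bgen.union (hf a) ih
  simpa using h Finset.univ

theorem typ_mul (c : F.C) (k r : ℕ) (h : k < F.n c) :
    F.typ c k (16 ^ k * r) = W (F.s c k) (F.typ c (k + 1) (16 ^ k * r)) (r % 16) := by
  rw [F.typ_lt c k _ h, Nat.mul_div_cancel_left _ (by positivity)]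

end LevStepAux

open LevStepAux in
theorem LEVSTEP : LEVSTEP_stmt := by
  classical
  intro F k hk ⟨hcls, hfst, hlst⟩
  obtain ⟨m, hm⟩ : ∃ m, 16 * m = 16 ^ k := by
    obtain ⟨j, rfl⟩ : ∃ j, k = j + 1 := ⟨k - 1, by omega⟩
    exact ⟨16 ^ j, by rw [pow_succ]; ring⟩
  have hpk : 0 < 16 ^ k := Nat.pow_pos (by norm_num)
  have hpk1 : 16 ^ (k + 1) = 16 ^ k * 16 := pow_succ 16 k
  -- sets of given type
  let Z : ℕ → Set (F.C × ℕ) := fun t => {q | 16 ^ k ∣ q.2 ∧ q.2 < F.N q.1 ∧ k ≤ F.n q.1 ∧
    F.typ q.1 k q.2 = t}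
  have hZ : ∀ t, F.Bgen (Z t) := by
    intro t
    have h1 := bgen_iUnion F (fun σ : Fin k → Bool × Bool =>
      F.cls k (fun j => if h : j < k then σ ⟨j, h⟩ else (false, false)) t) (fun σ => hcls _ _)
    convert h1 using 1
    ext q
    rw [Set.mem_iUnion]
    constructor
    · rintro ⟨h1, h2, h3, h4⟩
      refine ⟨fun j => F.s q.1 j, h1, h2, h3, ?_, h4⟩
      intro j hj
      simp only [dif_pos hj]
    · rintro ⟨σ, h1, h2, h3, _, h4⟩
      exact ⟨h1, h2, h3, h4⟩
  let Y : (ℕ → Bool × Bool) → Set (F.C × ℕ) := fun σ => {q | 16 ^ k ∣ q.2 ∧ q.2 < F.N q.1 ∧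
    k ≤ F.n q.1 ∧ ∀ j < k, F.s q.1 j = σ j}
  have hY : ∀ σ, F.Bgen (Y σ) := by
    intro σ
    have h1 := bgen_iUnion F (fun t : Fin 3 => F.cls k σ t) (fun t => hcls _ _)
    convert h1 using 1
    ext q
    rw [Set.mem_iUnion]
    constructor
    · rintro ⟨h1, h2, h3, h4⟩
      exact ⟨⟨F.typ q.1 k q.2, by have := F.typ_le q.1 k q.2; omega⟩, h1, h2, h3, h4, rfl⟩
    · rintro ⟨t, h1, h2, h3, h4, _⟩
      exact ⟨h1, h2, h3, h4⟩
  let St : Set (F.C × ℕ) := {q | 16 ^ (k + 1) ∣ q.2 ∧ q.2 < F.N q.1 ∧ k + 1 ≤ F.n q.1}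
  have hSt : F.Bgen St := by
    have h1 := Fam.Bgen.union (Fam.Bgen.inter (hZ 0) hfst)
      (Fam.Bgen.inter (hZ 0) (bgen_shf F (hZ 0) m))
    convert h1 using 1
    ext q
    obtain ⟨c, w⟩ := q
    constructor
    · rintro ⟨⟨r, hr⟩, h2, h3⟩
      simp only at hr h2 h3
      have hw0 : (c, w) ∈ Z 0 := by
        refine ⟨⟨16 * r, by simp only; rw [hr, hpk1]; ring⟩, h2, by show k ≤ F.n c; omega, ?_⟩
        show F.typ c k w = 0
        have : w = 16 ^ k * (16 * r) := by rw [hr, hpk1]; ring
        rw [this, typ_mul F c k _ (by omega), Nat.mul_mod_right, W_zero]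
      rcases Nat.eq_zero_or_pos r with rfl | hr0
      · left
        refine ⟨hw0, ?_, by show k ≤ F.n c; omega⟩
        show w = 0
        rw [hr]; simp
      · right
        refine ⟨hw0, w - 16 ^ k, ?_, ?_, ?_⟩
        · have e1 : w - 16 ^ k = 16 ^ k * (16 * r - 1) := by
            rw [hr, hpk1, Nat.mul_sub]
            congr 1
            · ring
            · simp
          refine ⟨⟨16 * r - 1, by simp only; rw [e1]⟩, by show w - 16 ^ k < F.N c; omega,
            by show k ≤ F.n c; omega, ?_⟩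
          show F.typ c k (w - 16 ^ k) = 0
          rw [e1, typ_mul F c k _ (by omega)]
          have : (16 * r - 1) % 16 = 15 := by omega
          rw [this, W_fifteen]
        · show w = w - 16 ^ k + 16 * m
          have : 16 ^ k ≤ w := by
            rw [hr, hpk1]
            nlinarith
          omega
        · show w - 16 ^ k + 16 * m < F.N c
          have : 16 ^ k ≤ w := by
            rw [hr, hpk1]
            nlinarith
          omega
    · intro h
      have hw0 : (c, w) ∈ Z 0 := by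
        rcases h with h | h
        · exact h.1
        · exact h.1
      obtain ⟨⟨r, hr⟩, h2, h3, h4⟩ := hw0
      simp only at hr h2 h3 h4
      have hkn : k < F.n c := by
        by_contra hh
        rw [F.typ_top c k w (not_lt.1 hh)] at h4
        omega
      refine ⟨?_, h2, hkn⟩
      show 16 ^ (k + 1) ∣ w
      rcases h with h | h
      · have : w = 0 := h.2.1
        rw [this]; exact dvd_zero _
      · obtain ⟨_, p, ⟨⟨r', hr'⟩, p2, p3, p4⟩, hp2, hp3⟩ := h
        simp only at hr' p2 p3 p4 hp2 hp3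
        rw [hr, typ_mul F c k _ hkn] at h4
        rw [hr', typ_mul F c k _ hkn] at p4
        have h5 := (W_eq_zero_iff _ _ _ (by omega)).1 h4
        have h6 := (W_eq_zero_iff _ _ _ (by omega)).1 p4
        have hrr : r = r' + 1 := by
          have : 16 ^ k * r = 16 ^ k * (r' + 1) := by
            rw [← hr, hp2, hr', hm]; ring
          exact Nat.eq_of_mul_eq_mul_left hpk this
        have h7 : r % 16 = 0 := by omega
        obtain ⟨r'', hr''⟩ := Nat.dvd_of_mod_eq_zero h7
        exact ⟨r'', by rw [hr, hr'', hpk1]; ring⟩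
  -- reading the letters
  let B : ℕ → Set (F.C × ℕ) := fun j => {q | (q.1, q.2 + 16 * (j * m)) ∈ Z 2}
  have hB : ∀ j, F.Bgen (B j) := fun j => bgen_shb F (hZ 2) (j * m)
  have hN16 : ∀ c w, (c, w) ∈ St → w + 16 ^ (k + 1) ≤ F.N c := by
    rintro c w ⟨h1, h2, h3⟩
    simp only at h1 h2 h3
    have hd := F.pow_dvd_N c (k + 1) h3
    obtain ⟨x, hx⟩ := h1
    obtain ⟨y, hy⟩ := hd
    rw [hx, hy] at h2 ⊢
    have : x < y := lt_of_mul_lt_mul_left h2 (by positivity)
    nlinarith [Nat.pow_pos (n := k + 1) (show 0 < 16 by norm_num)]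
  have hBmem : ∀ j, j < 16 → ∀ c w, (c, w) ∈ St →
      ((c, w) ∈ B j ↔ W (F.s c k) (F.typ c (k + 1) w) j = 2) := by
    intro j hj c w hw
    have h16 := hN16 c w hw
    obtain ⟨⟨r, hr⟩, h2, h3⟩ := hw
    simp only at hr h2 h3
    have e1 : w + 16 * (j * m) = 16 ^ k * (16 * r + j) := by
      rw [hr, hpk1, ← hm]; ring
    have e2 : F.typ c k (w + 16 * (j * m)) = W (F.s c k) (F.typ c (k + 1) w) j := by
      rw [e1, typ_mul F c k _ (by omega)]
      have : (16 * r + j) % 16 = j := by omega
      rw [this]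
      congr 1
      apply F.typ_block
      rw [hr, Nat.mul_div_cancel_left _ (by positivity), hpk1, ← Nat.div_div_eq_div_mul,
        Nat.mul_div_cancel_left _ hpk]
      omega
    constructor
    · rintro ⟨_, _, _, h⟩
      rw [← e2]; exact h
    · intro h
      refine ⟨⟨16 * r + j, by simp only; rw [e1]⟩, ?_, by show k ≤ F.n c; omega, ?_⟩
      · show w + 16 * (j * m) < F.N c
        have : 16 * (j * m) < 16 ^ (k + 1) := by
          rw [hpk1, ← hm]
          have hm0 : 0 < m := by
            rcases Nat.eq_zero_or_pos m with h0 | h0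
            · rw [h0] at hm; omega
            · exact h0
          nlinarith
        omega
      · show F.typ c k (w + 16 * (j * m)) = 2
        rw [e2]; exact h
  let D : ℕ → Prop → Set (F.C × ℕ) := fun j E => if E then St ∩ B j else St \ B j
  have hD : ∀ j E, F.Bgen (D j E) := by
    intro j E
    by_cases hE : E
    · simp only [D, if_pos hE]; exact Fam.Bgen.inter hSt (hB j)
    · simp only [D, if_neg hE]; exact Fam.Bgen.diff hSt (hB j)
  have hDmem : ∀ j, j < 16 → ∀ E c w, (c, w) ∈ St →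
      ((c, w) ∈ D j E ↔ (W (F.s c k) (F.typ c (k + 1) w) j = 2 ↔ E)) := by
    intro j hj E c w hw
    have h1 := hBmem j hj c w hw
    by_cases hE : E
    · simp only [D, if_pos hE, iff_true_right hE]
      constructor
      · intro h; exact h1.1 h.2
      · intro h; exact ⟨hw, h1.2 h⟩
    · simp only [D, if_neg hE, iff_false_right hE]
      constructor
      · intro h hh; exact h.2 (h1.2 hh)
      · intro h; exact ⟨hw, fun hh => h (h1.1 hh)⟩
  refine ⟨?_, ?_, ?_⟩
  · intro σ t
    by_cases ht : t ≤ 2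
    · have h1 := Fam.Bgen.inter (Fam.Bgen.inter hSt (hY σ))
        (Fam.Bgen.inter (Fam.Bgen.inter (hD 1 (t = 1)) (hD 2 (t = 2)))
          (Fam.Bgen.inter (hD 3 ((σ k).1 = true)) (hD 4 ((σ k).2 = true))))
      convert h1 using 1
      ext q
      obtain ⟨c, w⟩ := q
      have key : (c, w) ∈ St → (((c, w) ∈ D 1 (t = 1) ↔ (F.typ c (k + 1) w = 1 ↔ t = 1)) ∧
          ((c, w) ∈ D 2 (t = 2) ↔ (F.typ c (k + 1) w = 2 ↔ t = 2)) ∧
          ((c, w) ∈ D 3 ((σ k).1 = true) ↔ ((F.s c k).1 = true ↔ (σ k).1 = true)) ∧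
          ((c, w) ∈ D 4 ((σ k).2 = true) ↔ ((F.s c k).2 = true ↔ (σ k).2 = true))) := by
        intro hw
        rw [hDmem 1 (by norm_num) _ c w hw, hDmem 2 (by norm_num) _ c w hw,
          hDmem 3 (by norm_num) _ c w hw, hDmem 4 (by norm_num) _ c w hw,
          W_one, W_two, W_three, W_four]
        refine ⟨?_, ?_, ?_, ?_⟩
        · split_ifs with h <;> simp [h]
        · split_ifs with h <;> simp [h]
        · split_ifs with h <;> simp [h]
        · split_ifs with h <;> simp [h]
      constructor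
      · rintro ⟨h1, h2, h3, h4, h5⟩
        have hw : (c, w) ∈ St := ⟨h1, h2, h3⟩
        obtain ⟨k1, k2, k3, k4⟩ := key hw
        simp only at h1 h2 h3 h4 h5
        have hsk : F.s c k = σ k := h4 k (by omega)
        refine ⟨⟨hw, ?_⟩, ⟨k1.2 (by rw [h5]), k2.2 (by rw [h5])⟩, ⟨k3.2 (by rw [hsk]),
          k4.2 (by rw [hsk])⟩⟩
        refine ⟨?_, h2, by show k ≤ F.n c; omega, fun j hj => h4 j (by omega)⟩
        exact Dvd.dvd.trans ⟨16, hpk1⟩ h1
      · rintro ⟨⟨hw, _, _, _, hy⟩, ⟨d1, d2⟩, ⟨d3, d4⟩⟩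
        obtain ⟨k1, k2, k3, k4⟩ := key hw
        have d1' := k1.1 d1
        have d2' := k2.1 d2
        have d3' := k3.1 d3
        have d4' := k4.1 d4
        refine ⟨hw.1, hw.2.1, hw.2.2, ?_, ?_⟩
        · intro j hj
          by_cases hjk : j = k
          · subst hjk
            exact Prod.ext (Bool.eq_iff_iff.2 d3') (Bool.eq_iff_iff.2 d4')
          · exact hy j (by omega)
        · show F.typ c (k + 1) w = t
          have := F.typ_le c (k + 1) w
          omega
    · convert bgen_empty F using 1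
      ext q
      simp only [Set.mem_empty_iff_false, iff_false]
      rintro ⟨_, _, _, _, h5⟩
      have := F.typ_le q.1 (k + 1) q.2
      omega
  · convert Fam.Bgen.inter hSt hfst using 1
    ext q
    obtain ⟨c, w⟩ := q
    constructor
    · rintro ⟨h1, h2⟩
      simp only at h1 h2
      refine ⟨⟨by simp only; rw [h1]; exact dvd_zero _, by show w < F.N c; rw [h1]; exact F.N_pos c,
        h2⟩, h1, by show k ≤ F.n c; omega⟩
    · rintro ⟨⟨_, _, h3⟩, h1, _⟩
      exact ⟨h1, h3⟩
  · convert Fam.Bgen.inter hSt (bgen_shb F hlst (15 * m)) using 1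
    ext q
    obtain ⟨c, w⟩ := q
    constructor
    · rintro ⟨h1, h2, h3⟩
      simp only at h1 h2 h3
      have hp1 : 0 < 16 ^ (k + 1) := Nat.pow_pos (by norm_num)
      refine ⟨⟨h1, by show w < F.N c; omega, h2⟩, ?_, by show k ≤ F.n c; omega, ?_⟩
      · show 16 ^ k ∣ w + 16 * (15 * m)
        apply dvd_add (Dvd.dvd.trans ⟨16, hpk1⟩ h1)
        exact ⟨15, by rw [← hm]; ring⟩
      · show w + 16 * (15 * m) + 16 ^ k = F.N c
        rw [← h3, hpk1, ← hm]; ring
    · rintro ⟨⟨h1, h2, h3⟩, _, _, h4⟩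
      simp only at h1 h2 h3 h4
      refine ⟨h1, h3, ?_⟩
      show w + 16 ^ (k + 1) = F.N c
      rw [← h4, hpk1, ← hm]; ring

end OutRF
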