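import Pool.Agent.Lib_MP_0c5939_al.Stmts2

/-!
# MP_0c5939_al, piece LimHom: limits of eventually multiplicative maps

Proof:
lim a := phi (K a) a : Y -> Y (K a chosen). lim (a b) = lim a o lim b (compare at a large n), lim 1 = id. So
lim a o lim a^-1 = id = lim a^-1 o lim a: Equiv; MonoidHom.
-/

namespace OutRF
open Equiv

theorem LIMHOM : LIMHOM_stmt := by
  intro H Y _ _ φ h1 h2 h3
  choose K hK using h1
  have hmul : ∀ a b, φ (K (a * b)) (a * b) = φ (K a) a ∘ φ (K b) b := by
    intro a b
    obtain ⟨L, hL⟩ := h2 a b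
    have e1 := hK (a * b) (K (a * b) + K a + K b + L) (by omega)
    have e2 := hK a (K (a * b) + K a + K b + L) (by omega)
    have e3 := hK b (K (a * b) + K a + K b + L) (by omega)
    have e4 := hL (K (a * b) + K a + K b + L) (by omega)
    rw [← e1, ← e2, ← e3, e4]
  have hone : φ (K 1) 1 = id := by
    obtain ⟨L, hL⟩ := h3
    have e1 := hK 1 (K 1 + L) (by omega)
    have e2 := hL (K 1 + L) (by omega)
    rw [← e1, e2]
  have hinv : ∀ a, φ (K a) a ∘ φ (K a⁻¹) a⁻¹ = id := by
    intro a
    rw [← hmul, mul_inv_cancel, hone]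
  have hinv' : ∀ a, φ (K a⁻¹) a⁻¹ ∘ φ (K a) a = id := by
    intro a
    rw [← hmul, inv_mul_cancel, hone]
  let ρ : H →* Perm Y :=
    { toFun := fun a =>
        { toFun := φ (K a) a
          invFun := φ (K a⁻¹) a⁻¹
          left_inv := fun y => congrFun (hinv' a) y
          right_inv := fun y => congrFun (hinv a) y }
      map_one' := by
        ext y
        exact congrFun hone y
      map_mul' := by
        intro a b
        ext y
        exact congrFun (hmul a b) y }
  refine ⟨ρ, ?_⟩
  intro a
  refine ⟨K a, ?_⟩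
  intro n hn y
  rw [hK a n hn]
  rfl

end OutRF
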