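import Pool.Agent.Lib_MP_0c5939_al.Stmts2

/-!
# MP_0c5939_al, piece Nzn: basic facts on normalising permutations

Proof:
Third clause of NZ: x.1 = y.1 iff (pi x).1 = (pi y).1. So (pi <c,w>).1 = cm pi c. pi restricts to a bijection from
the fibre over c to the fibre over cm pi c (surjective: if y.1 = cm pi c then (pi (pi^-1 y)).1 = (pi <c,0>).1, so
(pi^-1 y).1 = c). So Fin (N c) ≃ Fin (N (cm pi c)), cardinalities agree. pi <c,w> = <cm pi c, fn pi c w>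
(as sigma elements; use Sigma.ext / cases), pi^-1 of it is <c,w>: gives cm pi^-1 (cm pi c) = c and
fn pi^-1 (cm pi c) (fn pi c w) = w. NZ pi^-1: clauses 1 and 2 are exchanged (inv_inv), clause 3 for
pi^-1 x, pi^-1 y.
-/

namespace OutRF
open Equiv

theorem nzn_ext (F : Fam) (y : F.Om) (d : F.C) (v : ℕ) (h : v < F.N d) (hd : y.1 = d)
    (hv : (y.2 : ℕ) = v) : y = ⟨d, ⟨v, h⟩⟩ := by
  obtain ⟨a, b⟩ := y
  dsimp only at hd
  subst hd
  dsimp only at hv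
  subst hv
  rfl

theorem nzn_inv (F : Fam) (π : Perm F.Om) (h : F.NZ π) : F.NZ π⁻¹ := by
  obtain ⟨h1, h2, h3⟩ := h
  refine ⟨?_, ?_, ?_⟩
  · simpa only [inv_inv] using h2
  · simpa only [inv_inv] using h1
  · intro x y
    have := h3 (π⁻¹ x) (π⁻¹ y)
    have e : ∀ z : F.Om, π (π⁻¹ z) = z := fun z => π.apply_symm_apply z
    rw [e, e] at this
    exact this.symm

theorem nzn_cm (F : Fam) (π : Perm F.Om) (h : F.NZ π) (c : F.C) (w : ℕ) (hw : w < F.N c) :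
    (π ⟨c, ⟨w, hw⟩⟩).1 = F.cm π c := (h.2.2 _ _).1 rfl

theorem nzn_fn (F : Fam) (π : Perm F.Om) (c : F.C) (w : ℕ) (hw : w < F.N c) :
    F.fn π c w = ((π ⟨c, ⟨w, hw⟩⟩).2 : ℕ) := by
  unfold Fam.fn
  rw [dif_pos hw]

theorem nzn_lt (F : Fam) (π : Perm F.Om) (h : F.NZ π) (c : F.C) (w : ℕ) (hw : w < F.N c) :
    F.fn π c w < F.N (F.cm π c) := by
  rw [nzn_fn F π c w hw, ← nzn_cm F π h c w hw]
  exact (π ⟨c, ⟨w, hw⟩⟩).2.2

theorem nzn_eq (F : Fam) (π : Perm F.Om) (h : F.NZ π) (c : F.C) (w : ℕ) (hw : w < F.N c) :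
    π ⟨c, ⟨w, hw⟩⟩ = ⟨F.cm π c, ⟨F.fn π c w, nzn_lt F π h c w hw⟩⟩ :=
  nzn_ext F _ _ _ _ (nzn_cm F π h c w hw) (nzn_fn F π c w hw).symm

theorem nzn_back (F : Fam) (π : Perm F.Om) (h : F.NZ π) (c : F.C) (w : ℕ) (hw : w < F.N c) :
    F.cm π⁻¹ (F.cm π c) = c ∧ F.fn π⁻¹ (F.cm π c) (F.fn π c w) = w := by
  have e := nzn_eq F π h c w hw
  have e2 : π⁻¹ ⟨F.cm π c, ⟨F.fn π c w, nzn_lt F π h c w hw⟩⟩ = ⟨c, ⟨w, hw⟩⟩ := by
    rw [← e]
    exact π.symm_apply_apply _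
  constructor
  · rw [← nzn_cm F π⁻¹ (nzn_inv F π h) (F.cm π c) (F.fn π c w) (nzn_lt F π h c w hw), e2]
  · rw [nzn_fn F π⁻¹ (F.cm π c) (F.fn π c w) (nzn_lt F π h c w hw), e2]

theorem nzn_le (F : Fam) (π : Perm F.Om) (h : F.NZ π) (c : F.C) : F.N c ≤ F.N (F.cm π c) := by
  have := Fintype.card_le_of_injective
    (fun w : Fin (F.N c) => (⟨F.fn π c w, nzn_lt F π h c w w.2⟩ : Fin (F.N (F.cm π c))))
    (fun w w' hww => by
      have e : F.fn π c w = F.fn π c w' := congrArg Fin.val hww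
      have e1 := (nzn_back F π h c w w.2).2
      have e2 := (nzn_back F π h c w' w'.2).2
      rw [e, e2] at e1
      exact Fin.ext e1.symm)
  simpa using this

theorem NZN : NZN_stmt := by
  intro F π h
  refine ⟨fun c => le_antisymm ?_ (nzn_le F π h c), nzn_cm F π h, nzn_lt F π h,
    nzn_back F π h, nzn_inv F π h⟩
  have := nzn_le F π⁻¹ (nzn_inv F π h) (F.cm π c)
  rwa [(nzn_back F π h c 0 (F.N_pos c)).1] at this

end OutRF
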