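import Pool.Agent.Lib_MP_0c5939_al.Stmts2
import Pool.Agent.Lib_MP_0c5939_al.Nzn

/-!
# MP_0c5939_al, piece Lip: normalising permutations are Lipschitz

Proof:
For x < 16 u_x = T blk x is in Gam (UNIV), inA (GAMA); NZ clause 1: g'_x with act g'_x = pi act u_x pi^-1, inA, so its
displacement is bounded by R_x (LOCBDD); C = max. For w + 1 < N c: if w + 3 <= N c let x = w % 16: the window of u_x
at w maps w to w+1 (16 | w - x, w - x < N). Otherwise w = N c - 2; x = 13 (16 | N c): window at N c - 3, offset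
1 -> 2, so u_13 maps w to w+1 as well. So act g'_x (pi <c,w>) = pi <c,w+1>, i.e. ev g'_x (cm pi c) (fn pi c w) =
fn pi c (w+1), so the difference is a displacement of g'_x, bounded by C. (finRotate 3: 0->1->2->0.)
-/

namespace OutRF
open Equiv

theorem lip_valid (F : Fam) (x : ℕ) : F.Valid 3 (F.pos F.blk x) := by
  constructor
  · rintro c p ⟨q, h1, h2, h3⟩
    dsimp only at h2 h3
    omega
  · rintro c p p' ⟨q, ⟨h1, h1'⟩, h2, h3⟩ ⟨q', ⟨h4, h4'⟩, h5, h6⟩ hlt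
    dsimp only at h1 h1' h2 h3 h4 h4' h5 h6
    omega

theorem lip_step (F : Fam) (hAPP : APP_stmt) (c : F.C) (w : ℕ) (hw : w + 1 < F.N c) :
    ∃ x < 16, F.ev (F.T F.blk x) c w = w + 1 := by
  have hd := F.sixteen_dvd_N c
  have hN := F.sixteen_le_N c
  by_cases h : w + 3 ≤ F.N c
  · refine ⟨w % 16, Nat.mod_lt _ (by norm_num), ?_⟩
    have ha := hAPP F 3 (F.pos F.blk (w % 16)) (finRotate 3) (lip_valid F _)
    have := ha.1 c w ⟨w - w % 16, ⟨?_, ?_⟩, ?_, ?_⟩ 0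
    · unfold Fam.T
      simpa using this
    · exact Nat.dvd_sub_mod w
    · dsimp only
      omega
    · dsimp only
      have := Nat.mod_le w 16
      omega
    · dsimp only
      have := Nat.mod_le w 16
      omega
  · refine ⟨13, by norm_num, ?_⟩
    have ha := hAPP F 3 (F.pos F.blk 13) (finRotate 3) (lip_valid F _)
    have := ha.1 c (w - 1) ⟨F.N c - 16, ⟨?_, ?_⟩, ?_, ?_⟩ 1
    · unfold Fam.T
      have e1 : w - 1 + ((1 : Fin 3) : ℕ) = w := by
        have : ((1 : Fin 3) : ℕ) = 1 := rfl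
        omega
      have e2 : ((finRotate 3 1 : Fin 3) : ℕ) = 2 := rfl
      rw [e1, e2] at this
      rw [this]
      omega
    · dsimp only
      exact Nat.dvd_sub hd (dvd_refl 16)
    · dsimp only
      omega
    · dsimp only
      omega
    · dsimp only
      omega

theorem LIP (hNZN : NZN_stmt) (hAPP : APP_stmt) (hUNIV : UNIV_stmt) (hGAMA : GAMA_stmt) (hLOCBDD : LOCBDD_stmt) : LIP_stmt := by
  intro F π hπ
  have hx : ∀ x : Fin 16, ∃ (g' : F.P) (R : ℕ), F.act g' = π * F.act (F.T F.blk x) * π⁻¹ ∧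
      ∀ c w, w < F.N c → |F.disp g' c w| ≤ R := by
    intro x
    obtain ⟨g', h1, h2⟩ := hπ.1 _ (hGAMA F _ (hUNIV F x x.2))
    obtain ⟨R, hR⟩ := hLOCBDD F _ h1.2
    exact ⟨g', R, h2, hR⟩
  choose g' R hg hR using hx
  refine ⟨Finset.univ.sup R, fun c w hw => ?_⟩
  obtain ⟨x, hx, hstep⟩ := lip_step F hAPP c w hw
  have hw' : w < F.N c := by omega
  have e := hg ⟨x, hx⟩
  have e1 : F.act (g' ⟨x, hx⟩) (π ⟨c, ⟨w, hw'⟩⟩) = π ⟨c, ⟨w + 1, hw⟩⟩ := by
    rw [e, Perm.mul_apply, Perm.mul_apply]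
    have e0 : π⁻¹ (π ⟨c, ⟨w, hw'⟩⟩) = ⟨c, ⟨w, hw'⟩⟩ := π.symm_apply_apply _
    rw [e0, Fam.act_apply]
    congr 1
    have : F.T F.blk x c ⟨w, hw'⟩ = ⟨w + 1, hw⟩ := by
      apply Fin.ext
      rw [← F.ev_of_lt _ c w hw']
      exact hstep
    rw [this]
  have a1 := nzn_lt F π hπ c w hw'
  have a2 := nzn_lt F π hπ c (w + 1) hw
  rw [nzn_eq F π hπ c w hw', nzn_eq F π hπ c (w + 1) hw, Fam.act_apply] at e1
  have e2 := eq_of_heq (Sigma.mk.inj_iff.1 e1).2
  have e3 : F.ev (g' ⟨x, hx⟩) (F.cm π c) (F.fn π c w) = F.fn π c (w + 1) := by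
    rw [F.ev_of_lt _ _ _ a1, e2]
  have h1 := hR ⟨x, hx⟩ (F.cm π c) (F.fn π c w) a1
  unfold Fam.disp at h1
  rw [e3] at h1
  refine h1.trans ?_
  exact_mod_cast Finset.le_sup (f := R) (Finset.mem_univ _)

end OutRF
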