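import Pool.Agent.Lib_MP_0c5939_al.Stmts

/-!
# MP_0c5939_al, piece Loc1: monotonicity and combination of local functions

Proof:
LOCMONO: induction on K - k using KMONO. LOCCOMB: take the max of the two levels. LOCFINITE: level
max K k where k is a level of f.
-/

namespace OutRF
open Equiv

theorem LOCMONO (hKMONO : KMONO_stmt) : LOCMONO_stmt := by
  intro F V k K f hkK h
  induction K, hkK using Nat.le_induction with
  | base => exact h
  | succ K hK ih =>
    intro c c' w w' h1 h2 h3 h4 hk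
    exact ih c c' w w' (by omega) (by omega) h3 h4
      (hKMONO F K c c' w w' (by omega) (by omega) h3 h4 hk)

theorem LOCCOMB (hLOCMONO : LOCMONO_stmt) : LOCCOMB_stmt := by
  intro F V₁ V₂ V₃ f g φ ⟨k, hk⟩ ⟨l, hl⟩
  have hk' := hLOCMONO F V₁ k (max k l) f (le_max_left _ _) hk
  have hl' := hLOCMONO F V₂ l (max k l) g (le_max_right _ _) hl
  refine ⟨max k l, ?_⟩
  intro c c' w w' h1 h2 h3 h4 hkey
  show φ (f c w) (g c w) = φ (f c' w') (g c' w')
  rw [hk' c c' w w' h1 h2 h3 h4 hkey, hl' c c' w w' h1 h2 h3 h4 hkey]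

theorem LOCFINITE (hLOCMONO : LOCMONO_stmt) : LOCFINITE_stmt := by
  intro F V f f' K hff ⟨k, hk⟩
  have hk' := hLOCMONO F V k (max K k) f (le_max_right _ _) hk
  refine ⟨max K k, ?_⟩
  intro c c' w w' h1 h2 h3 h4 hkey
  have h1' : K < F.n c := lt_of_le_of_lt (le_max_left _ _) h1
  have h2' : K < F.n c' := lt_of_le_of_lt (le_max_left _ _) h2
  rw [← hff c w h1' h3, ← hff c' w' h2' h4]
  exact hk' c c' w w' h1 h2 h3 h4 hkey

end OutRF
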