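import Pool.Agent.Lib_MP_0c5939_al.Stmts

namespace OutRF
open Equiv

theorem exists_pow_ge (k R : ℕ) : ∃ m, k ≤ m ∧ R ≤ 16 ^ m := by
  refine ⟨max k R, le_max_left _ _, ?_⟩
  calc R ≤ 2 ^ R := Nat.lt_two_pow_self.le
    _ ≤ 16 ^ R := Nat.pow_le_pow_left (by norm_num) _
    _ ≤ 16 ^ (max k R) := Nat.pow_le_pow_right (by norm_num) (le_max_right _ _)

theorem LOCSHIFT (hKSHIFT : KSHIFT_stmt) (hLOCMONO : LOCMONO_stmt) (hLOCBDD : LOCBDD_stmt) : LOCSHIFT_stmt := by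
  intro F V f δ hf hδ hrange
  obtain ⟨kf, hkf⟩ := hf
  obtain ⟨kd, hkd⟩ := hδ
  obtain ⟨R, hR⟩ := hLOCBDD F δ ⟨kd, hkd⟩
  obtain ⟨m, hm1, hm2⟩ := exists_pow_ge (max kf kd) R
  refine ⟨m + 1, ?_⟩
  intro c c' w w' hc hc' hw hw' hkey
  have hd : δ c w = δ c' w' := hLOCMONO F ℤ kd (m + 1) δ (le_trans (le_trans (le_max_right _ _) hm1) (Nat.le_succ m)) hkd
    c c' w w' hc hc' hw hw' hkey
  have hvR : |δ c w| ≤ (16 : ℤ) ^ m := by
    calc |δ c w| ≤ (R : ℤ) := hR c w hw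
      _ ≤ ((16 ^ m : ℕ) : ℤ) := by exact_mod_cast hm2
      _ = (16 : ℤ) ^ m := by push_cast; rfl
  obtain ⟨h1, h2⟩ := hrange c w hw
  obtain ⟨r1, r2, r3⟩ := hKSHIFT F m c c' w w' (δ c w) (by omega) (by omega) hw hw' hkey hvR h1 h2
  show f c ((w : ℤ) + δ c w).toNat = f c' ((w' : ℤ) + δ c' w').toNat
  rw [← hd]
  apply hLOCMONO F V kf m f (le_trans (le_max_left _ _) hm1) hkf c c' _ _ (by omega) (by omega)
  · rw [Int.toNat_lt h1]; exact h2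
  · rw [Int.toNat_lt r1]; exact r2
  · exact r3

theorem LOCSH (hKSHIFT : KSHIFT_stmt) (hLOCMONO : LOCMONO_stmt) : LOCSH_stmt := by
  intro F E v hE
  obtain ⟨k, hk⟩ := hE
  obtain ⟨m, hm1, hm2⟩ := exists_pow_ge k v.natAbs
  have hvR : |v| ≤ (16 : ℤ) ^ m := by
    calc |v| = (v.natAbs : ℤ) := (Int.natCast_natAbs v).symm
      _ ≤ ((16 ^ m : ℕ) : ℤ) := by exact_mod_cast hm2
      _ = (16 : ℤ) ^ m := by push_cast; rfl
  have key : ∀ c c' w w', m + 1 < F.n c → m + 1 < F.n c' → w < F.N c → w' < F.N c' →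
      F.KeyEq (m + 1) c c' w w' →
      (0 ≤ (w : ℤ) + v ∧ (w : ℤ) + v < F.N c ∧ E c ((w : ℤ) + v).toNat) →
      (0 ≤ (w' : ℤ) + v ∧ (w' : ℤ) + v < F.N c' ∧ E c' ((w' : ℤ) + v).toNat) := by
    intro c c' w w' hc hc' hw hw' hkey ⟨h1, h2, h3⟩
    obtain ⟨r1, r2, r3⟩ := hKSHIFT F m c c' w w' v (by omega) (by omega) hw hw' hkey hvR h1 h2
    refine ⟨r1, r2, ?_⟩
    have := hLOCMONO F Prop k m E hm1 hk c c' _ _ (by omega) (by omega)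
      (by rw [Int.toNat_lt h1]; exact h2) (by rw [Int.toNat_lt r1]; exact r2) r3
    rw [← this]
    exact h3
  refine ⟨m + 1, ?_⟩
  intro c c' w w' hc hc' hw hw' hkey
  exact propext ⟨key c c' w w' hc hc' hw hw' hkey, key c' c w' w hc' hc hw' hw hkey.symm⟩

end OutRF
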