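import Pool.Agent.Lib_MP_0c5939_al.Stmts2

/-!
# MP_0c5939_al, piece LocA: normalising, even, orientation preserving implies in A

Proof:
cm (act gamma) c = c, fn (act gamma) c w = ev gamma c w. C', K0 from ORIGOOD; K with K >= K0, K >= the given one, so
|disp gamma c w| <= C' for K < n c. Choose k1 with 16^k1 > 2 C' + 1. For each r: the set {w % 16^k1 = r} is local, PRE:
Loc (fun c w => ev gamma c w % 16^k1 = r). Take k2 >= all their levels (finitely many r), k2 >= k1, k2 >= K. Then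
disp gamma is LocAt k2: for KeyEq k2 c c' w w': ev gamma c w % 16^k1 = ev gamma c' w' % 16^k1 and w % 16^k1 = w' % 16^k1, so
the displacements are congruent mod 16^k1 and both have absolute value <= C': equal.
-/

namespace OutRF
open Equiv

theorem LOCA (hPRE : PRE_stmt) (hORIGOOD : ORIGOOD_stmt) (hLOCMONO : LOCMONO_stmt) (hLOCBASIC : LOCBASIC_stmt) (hLOCCOMB : LOCCOMB_stmt) (hLOCFINITE : LOCFINITE_stmt) : LOCA_stmt := by
  intro F γ hsign hNZ hK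
  obtain ⟨K1, hK1⟩ := hK
  refine ⟨hsign, ?_⟩
  obtain ⟨C', K0, hC⟩ := hORIGOOD F (F.act γ) hNZ
  have hcm : ∀ c, F.cm (F.act γ) c = c := fun c => rfl
  have hfn : ∀ c w, F.fn (F.act γ) c w = F.ev γ c w := fun c w => rfl
  -- choose k1
  set k1 : ℕ := 2 * C' + 1 with hk1
  have hpow : 2 * C' + 1 < 16 ^ k1 := Nat.lt_pow_self (by norm_num)
  -- locality of the residues
  have hloc : ∀ r : ℕ, F.Loc (fun c w => F.ev γ c w % 16 ^ k1 = r) := by
    intro r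
    have h1 : F.Loc (fun (_ : F.C) (w : ℕ) => w % 16 ^ k1 = r) :=
      hLOCCOMB F ℕ Prop Prop (fun _ w => w % 16 ^ k1) (fun _ _ => True) (fun x _ => x = r)
        ((hLOCBASIC F).1 k1) ((hLOCBASIC F).2.2.2.2.2 True)
    have h2 := hPRE F (F.act γ) hNZ _ h1
    exact h2
  choose kr hkr using hloc
  set k2 : ℕ := k1 + K0 + K1 + ∑ r ∈ Finset.range (16 ^ k1), kr r with hk2
  refine ⟨k2, ?_⟩
  intro c c' w w' hc hc' hw hw' hkey
  have hr : F.ev γ c w % 16 ^ k1 < 16 ^ k1 := Nat.mod_lt _ (by positivity)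
  have hkle : kr (F.ev γ c w % 16 ^ k1) ≤ k2 := by
    have : kr (F.ev γ c w % 16 ^ k1) ≤ ∑ r ∈ Finset.range (16 ^ k1), kr r :=
      Finset.single_le_sum (f := kr) (fun _ _ => Nat.zero_le _) (Finset.mem_range.2 hr)
    omega
  have hL := hLOCMONO F Prop _ k2 _ hkle (hkr (F.ev γ c w % 16 ^ k1)) c c' w w' hc hc' hw hw' hkey
  have hev : F.ev γ c' w' % 16 ^ k1 = F.ev γ c w % 16 ^ k1 := by
    have : (F.ev γ c w % 16 ^ k1 = F.ev γ c w % 16 ^ k1) =
      (F.ev γ c' w' % 16 ^ k1 = F.ev γ c w % 16 ^ k1) := hL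
    rw [← this]
  have hmod : w % 16 ^ k1 = w' % 16 ^ k1 := by
    have h1 := hkey.2.1
    have hd : (16 : ℕ) ^ k1 ∣ 16 ^ k2 := pow_dvd_pow 16 (by omega)
    rw [← Nat.mod_mod_of_dvd w hd, ← Nat.mod_mod_of_dvd w' hd, h1]
  have hb1 := (hC c (by omega)).1 (hK1 c (by omega)) w hw
  have hb2 := (hC c' (by omega)).1 (hK1 c' (by omega)) w' hw'
  rw [hfn] at hb1 hb2
  show (F.ev γ c w : ℤ) - w = (F.ev γ c' w' : ℤ) - w'
  have hdvd : ((16 : ℤ) ^ k1) ∣ ((F.ev γ c w : ℤ) - w) - ((F.ev γ c' w' : ℤ) - w') := by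
    have e1 : ((16 ^ k1 : ℕ) : ℤ) ∣ (F.ev γ c w : ℤ) - F.ev γ c' w' :=
      (Nat.modEq_iff_dvd.1 (show F.ev γ c' w' ≡ F.ev γ c w [MOD 16 ^ k1] from hev))
    have e2 : ((16 ^ k1 : ℕ) : ℤ) ∣ (w : ℤ) - w' :=
      (Nat.modEq_iff_dvd.1 (show w' ≡ w [MOD 16 ^ k1] from hmod.symm))
    have e3 := dvd_sub e1 e2
    push_cast at e3
    have : ((F.ev γ c w : ℤ) - w) - ((F.ev γ c' w' : ℤ) - w') =
      ((F.ev γ c w : ℤ) - F.ev γ c' w') - ((w : ℤ) - w') := by ring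
    rw [this]
    exact e3
  have habs : |((F.ev γ c w : ℤ) - w) - ((F.ev γ c' w' : ℤ) - w')| < (16 : ℤ) ^ k1 := by
    have hp : (2 * (C' : ℤ) + 1) < (16 : ℤ) ^ k1 := by exact_mod_cast hpow
    have := abs_sub ((F.ev γ c w : ℤ) - w) ((F.ev γ c' w' : ℤ) - w')
    omega
  have := Int.eq_zero_of_abs_lt_dvd hdvd habs
  omega

end OutRF
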