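import Pool.Agent.Lib_MP_0c5939_al.Stmts

/-!
# MP_0c5939_al, piece LocBasic: basic local functions

Proof:
(1) level k: residue is part of the key. (2) min w R: choose k with R <= 16^k. Level k: if w < 16^k then
w' < 16^k and w = w % 16^k = w' % 16^k = w'; else both >= 16^k >= R so both minima are R. (3) min (N c - w) R:
choose k with R <= 16^k: if N c <= w + 16^k then also N c' <= w' + 16^k; N c is a multiple of 16^k (k < n c,
F.pow_dvd_N) and 0 < N c - w <= 16^k, so N c - w = 16^k - w % 16^k, same for c'; otherwise both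
differences are > 16^k >= R. (4) symbols: level j+1. (5) typ: level j (LocAt j: the type is part of the
key). (6) constant: level 0.
-/

namespace OutRF
open Equiv

theorem locbasic_end {F : Fam} {k : ℕ} {c : F.C} {w : ℕ} (hk : k < F.n c) (hw : w < F.N c)
    (h : F.N c ≤ w + 16 ^ k) : F.N c - w = 16 ^ k - w % 16 ^ k := by
  obtain ⟨m, hm⟩ := F.pow_dvd_N c k hk.le
  have hpos : 0 < 16 ^ k := by positivity
  have h1 := Nat.div_add_mod w (16 ^ k)
  have h2 := Nat.mod_lt w hpos
  set a := w / 16 ^ k with ha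
  set r := w % 16 ^ k with hr
  rw [hm] at hw h ⊢
  have h3 : a < m := by
    by_contra hcon
    have : 16 ^ k * m ≤ 16 ^ k * a := Nat.mul_le_mul_left _ (not_lt.mp hcon)
    omega
  have h4 : m < a + 2 := by
    by_contra hcon
    have : 16 ^ k * (a + 2) ≤ 16 ^ k * m := Nat.mul_le_mul_left _ (not_lt.mp hcon)
    have h5 : 16 ^ k * (a + 2) = 16 ^ k * a + 2 * 16 ^ k := by ring
    omega
  have h5 : m = a + 1 := by omega
  rw [h5]
  have h6 : 16 ^ k * (a + 1) = 16 ^ k * a + 16 ^ k := by ring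
  omega

theorem LOCBASIC (_hKMONO : KMONO_stmt) (_hLOCMONO : LOCMONO_stmt) : LOCBASIC_stmt := by
  intro F
  refine ⟨fun k => ⟨k, ?_⟩, fun R => ⟨R, ?_⟩, fun R => ⟨R, ?_⟩, fun j => ⟨j + 1, ?_⟩,
    fun j => ⟨j, ?_⟩, fun E => ⟨0, ?_⟩⟩
  · intro c c' w w' _ _ _ _ h
    exact h.2.1
  · intro c c' w w' _ _ _ _ h
    have hR : R ≤ 16 ^ R := (Nat.lt_pow_self (by norm_num)).le
    obtain ⟨_, h1, _, h3, _⟩ := h
    show min w R = min w' R
    by_cases hw : w < 16 ^ R
    · have hw' := h3.mp hw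
      rw [Nat.mod_eq_of_lt hw, Nat.mod_eq_of_lt hw'] at h1
      rw [h1]
    · have hw' : ¬ w' < 16 ^ R := fun h => hw (h3.mpr h)
      rw [min_eq_right (by omega), min_eq_right (by omega)]
  · intro c c' w w' hc hc' hw hw' h
    have hR : R ≤ 16 ^ R := (Nat.lt_pow_self (by norm_num)).le
    obtain ⟨_, h1, _, _, h4⟩ := h
    show min (F.N c - w) R = min (F.N c' - w') R
    by_cases hN : F.N c ≤ w + 16 ^ R
    · have hN' := h4.mp hN
      rw [locbasic_end hc hw hN, locbasic_end hc' hw' hN', h1]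
    · have hN' : ¬ F.N c' ≤ w' + 16 ^ R := fun h => hN (h4.mpr h)
      rw [min_eq_right (by omega), min_eq_right (by omega)]
  · intro c c' w w' _ _ _ _ h
    exact h.1 j (Nat.lt_succ_self j)
  · intro c c' w w' _ _ _ _ h
    exact h.2.2.1
  · intro c c' w w' _ _ _ _ _
    rfl

end OutRF
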