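import Pool.Agent.Lib_MP_0c5939_al.Stmts2

/-!
# MP_0c5939_al, piece LocOri: component map and orientation are local

Proof:
LOCCM: PRE gives Loc (fun c w => E (cm pi c)), level K; for c, c' with K < n and equal symbols below K:
KZERO: KeyEq K c c' 0 0, so equal. LOCORI: C', K1 from ORIGOOD. E := fun c w => w <= C' is local (LOCBASIC min w
(C'+1)); PRE: Loc (fun c w => fn pi c w <= C'), level K2. K = max with also 16^K > 2C'+2. For K < n c:
ori pi c iff fn pi c 0 <= C' (ORIGOOD at w = 0: if ori then |fn 0 - 0| <= C'; if not then fn 0 >= N - 1 - C' > C').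
KZERO at level K (LOCMONO).
-/

namespace OutRF
open Equiv

theorem LOCCM (hPRE : PRE_stmt) (hKZERO : KZERO_stmt) (_hLOCMONO : LOCMONO_stmt) : LOCCM_stmt := by
  intro F π hπ E hE
  obtain ⟨K, hK⟩ := hPRE F π hπ (fun c _ => E c) hE
  refine ⟨K, fun c c' hc hc' hs => ?_⟩
  have h := hK c c' 0 0 hc hc' (F.N_pos c) (F.N_pos c') (hKZERO F K c c' hc hc' hs)
  exact iff_of_eq h

theorem LOCORI (hPRE : PRE_stmt) (hKZERO : KZERO_stmt) (hLOCMONO : LOCMONO_stmt) (hLOCBASIC : LOCBASIC_stmt) (hLOCCOMB : LOCCOMB_stmt) (hORIGOOD : ORIGOOD_stmt) : LOCORI_stmt := by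
  intro F π hπ
  obtain ⟨C', K1, hgood⟩ := hORIGOOD F π hπ
  have hE : F.Loc (fun (_ : F.C) (w : ℕ) => w ≤ C') := by
    have h1 : F.Loc (fun (_ : F.C) (w : ℕ) => min w (C' + 1)) := (hLOCBASIC F).2.1 (C' + 1)
    have h2 := hLOCCOMB F ℕ ℕ Prop _ _ (fun a _ => a ≤ C') h1 h1
    obtain ⟨k, hk⟩ := h2
    refine ⟨k, fun c c' w w' hc hc' hw hw' hkey => ?_⟩
    have h3 := hk c c' w w' hc hc' hw hw' hkey
    simp only at h3
    have e1 : ∀ w : ℕ, (min w (C' + 1) ≤ C') = (w ≤ C') := by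
      intro w
      apply propext
      omega
    rw [e1, e1] at h3
    exact h3
  obtain ⟨K2, hK2⟩ := hPRE F π hπ _ hE
  obtain ⟨K3, hK3⟩ : ∃ K3 : ℕ, 2 * C' + 2 < 16 ^ K3 := ⟨2 * C' + 2, Nat.lt_pow_self (by norm_num)⟩
  set K := max K1 (max K2 K3) with hKdef
  have hloc := hLOCMONO F Prop K2 K _ (by omega) hK2
  refine ⟨K, fun c c' hc hc' hs => ?_⟩
  have h := hloc c c' 0 0 hc hc' (F.N_pos c) (F.N_pos c') (hKZERO F K c c' hc hc' hs)
  have key : ∀ c, K < F.n c → (F.ori π c ↔ F.fn π c 0 ≤ C') := by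
    intro c hc
    have hN : 16 ^ K ≤ F.N c := F.pow_le_N c K hc.le
    have hp : 16 ^ K3 ≤ 16 ^ K := Nat.pow_le_pow_right (by norm_num) (by omega)
    constructor
    · intro ho
      have h1 := (hgood c (by omega)).1 ho 0 (F.N_pos c)
      rw [abs_le] at h1
      have := h1.2
      push_cast at this
      omega
    · intro h0
      unfold Fam.ori
      omega
  rw [key c hc, key c' hc']
  exact iff_of_eq h

end OutRF
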