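import Pool.Agent.Lib_MP_0c5939_al.Stmts2

namespace OutRF
open Equiv

theorem MAIN (hFGA : FGA_stmt) (hRFA : RFA_stmt) (hRFOUT : RFOUT_stmt) (hGISO : GISO_stmt)
    (hOUTISO : OUTISO_stmt) (hNOTRFG : NOTRFG_stmt) : MAIN_stmt := by
  refine ⟨(famB false).A, (famB true).A, inferInstance, inferInstance, hFGA _, hFGA _, hRFA _, hRFA _,
    hRFOUT _, hRFOUT _, ?_⟩
  intro h
  obtain ⟨e⟩ := hGISO
  exact hNOTRFG (hOUTISO _ _ e h)

end OutRF
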