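import Pool.Agent.Lib_MP_0c5939_al.Stmts

/-!
# MP_0c5939_al, piece Mix: block preserving elements
-/

namespace OutRF
open Equiv

namespace MixPiece

variable (F : Fam)

/-- level-`K` block starts in the components with `K < n c` -/
def SS (K : ℕ) : Set (F.C × ℕ) := {q | K < F.n q.1 ∧ 16 ^ K ∣ q.2 ∧ q.2 < F.N q.1}

theorem SS_loc (K : ℕ) : F.LocAt K (fun c w => (c, w) ∈ SS F K) := by
  intro c c' w w' hk hk' hw hw' h
  apply propext
  have h2 := h.2.1
  simp only [SS, Set.mem_ofPred_eq]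
  constructor
  · rintro ⟨_, h3, _⟩
    refine ⟨hk', ?_, hw'⟩
    rw [Nat.dvd_iff_mod_eq_zero] at h3 ⊢
    rw [← h2, h3]
  · rintro ⟨_, h3, _⟩
    refine ⟨hk, ?_, hw⟩
    rw [Nat.dvd_iff_mod_eq_zero] at h3 ⊢
    rw [h2, h3]

theorem block_le (K : ℕ) (c : F.C) (p : ℕ) (hK : K ≤ F.n c) (hp : 16 ^ K ∣ p) (hpN : p < F.N c) :
    p + 16 ^ K ≤ F.N c := by
  obtain ⟨M, hM⟩ := F.pow_dvd_N c K hK
  obtain ⟨m, rfl⟩ := hp
  rw [hM] at hpN ⊢
  have h7 : m < M := Nat.lt_of_mul_lt_mul_left hpN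
  have h8 : 16 ^ K * (m + 1) ≤ 16 ^ K * M := Nat.mul_le_mul_left _ h7
  rw [Nat.mul_succ] at h8
  exact h8

theorem mult_step (L p q : ℕ) (hp : L ∣ p) (hq : L ∣ q) (h : p < q) : p + L ≤ q := by
  obtain ⟨m, rfl⟩ := hp
  obtain ⟨m', rfl⟩ := hq
  have h7 : m < m' := Nat.lt_of_mul_lt_mul_left h
  have h8 : L * (m + 1) ≤ L * m' := Nat.mul_le_mul_left _ h7
  rw [Nat.mul_succ] at h8
  exact h8

theorem SS_valid (K : ℕ) : F.Valid (16 ^ K) (SS F K) := by
  constructor
  · rintro c p ⟨h1, h2, h3⟩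
    exact block_le F K c p h1.le h2 h3
  · rintro c p q ⟨_, h2, _⟩ ⟨_, h5, _⟩ hpq
    exact mult_step _ _ _ h2 h5 hpq

/-- the local permutation of a block -/
theorem exists_perm (g : F.P) (K : ℕ)
    (hg : ∀ c, K < F.n c → ∀ w < F.N c, F.ev g c w / 16 ^ K = w / 16 ^ K)
    (c : F.C) (p : ℕ) (h : (c, p) ∈ SS F K) :
    ∃ σ : Perm (Fin (16 ^ K)), ∀ r : Fin (16 ^ K), F.ev g c (p + r) = p + (σ r : ℕ) := by
  obtain ⟨h1, h2, h3⟩ := h
  have hle := block_le F K c p h1.le h2 h3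
  have hB : 0 < 16 ^ K := Nat.pow_pos (by norm_num)
  have hblk : ∀ r : Fin (16 ^ K), p ≤ F.ev g c (p + r) ∧ F.ev g c (p + r) < p + 16 ^ K := by
    intro r
    have hr := r.2
    have h4 := hg c h1 (p + r) (by omega)
    obtain ⟨m, hm⟩ := h2
    simp only at hm
    have h5 : (p + (r : ℕ)) / 16 ^ K = m := by
      rw [hm, Nat.mul_add_div hB, Nat.div_eq_of_lt hr, Nat.add_zero]
    rw [h5] at h4
    have h6 := Nat.div_add_mod (F.ev g c (p + r)) (16 ^ K)
    have h7 := Nat.mod_lt (F.ev g c (p + r)) hB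
    rw [h4] at h6
    omega
  let f : Fin (16 ^ K) → Fin (16 ^ K) := fun r => ⟨F.ev g c (p + r) - p, by
    have := hblk r; omega⟩
  have hf : Function.Injective f := by
    intro a b hab
    have h8 : F.ev g c (p + a) - p = F.ev g c (p + b) - p := congrArg Fin.val hab
    have h9 := hblk a
    have h10 := hblk b
    have h11 : F.ev g c (p + a) = F.ev g c (p + b) := by omega
    have h12 := F.ev_inj g c _ _ h11
    apply Fin.ext
    omega
  refine ⟨Equiv.ofBijective f (Finite.injective_iff_bijective.1 hf), ?_⟩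
  intro r
  have := hblk r
  show F.ev g c (p + r) = p + (F.ev g c (p + r) - p)
  omega

open Classical in
noncomputable def H0 (g : F.P) (K : ℕ) (c : F.C) (p : ℕ) : Perm (Fin (16 ^ K)) :=
  if h : (c, p) ∈ SS F K ∧
      ∃ σ : Perm (Fin (16 ^ K)), ∀ r : Fin (16 ^ K), F.ev g c (p + r) = p + (σ r : ℕ)
  then h.2.choose else 1

theorem H0_spec (g : F.P) (K : ℕ)
    (hg : ∀ c, K < F.n c → ∀ w < F.N c, F.ev g c w / 16 ^ K = w / 16 ^ K)
    (c : F.C) (p : ℕ) (h : (c, p) ∈ SS F K) (r : Fin (16 ^ K)) :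
    F.ev g c (p + r) = p + (H0 F g K c p r : ℕ) := by
  unfold H0
  rw [dif_pos ⟨h, exists_perm F g K hg c p h⟩]
  exact (exists_perm F g K hg c p h).choose_spec r

theorem H0_not (g : F.P) (K : ℕ) (c : F.C) (p : ℕ) (h : (c, p) ∉ SS F K) : H0 F g K c p = 1 := by
  unfold H0
  rw [dif_neg (fun hh => h hh.1)]

theorem keyEq_block (k : ℕ) (c c' : F.C) (q q' r : ℕ) (hk : k < F.n c) (hk' : k < F.n c')
    (hq : 16 ^ k ∣ q) (hq' : 16 ^ k ∣ q') (hr : r < 16 ^ k) (h : F.KeyEq k c c' q q') :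
    F.KeyEq k c c' (q + r) (q' + r) := by
  obtain ⟨h1, h2, h3, h4, h5⟩ := h
  obtain ⟨m, rfl⟩ := hq
  obtain ⟨m', rfl⟩ := hq'
  have hN := F.pow_dvd_N c k hk.le
  have hN' := F.pow_dvd_N c' k hk'.le
  obtain ⟨M, hM⟩ := hN
  obtain ⟨M', hM'⟩ := hN'
  have hB : 0 < 16 ^ k := Nat.pow_pos (by norm_num)
  refine ⟨h1, ?_, ?_, ?_, ?_⟩
  · rw [Nat.mul_add_mod, Nat.mul_add_mod]
  · rw [F.typ_block c k (16 ^ k * m + r) (16 ^ k * m), F.typ_block c' k (16 ^ k * m' + r) (16 ^ k * m')]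
    · exact h3
    · rw [Nat.mul_add_div hB, Nat.div_eq_of_lt hr, Nat.mul_div_cancel_left _ hB, Nat.add_zero]
    · rw [Nat.mul_add_div hB, Nat.div_eq_of_lt hr, Nat.mul_div_cancel_left _ hB, Nat.add_zero]
  · have e : ∀ m : ℕ, (16 ^ k * m + r < 16 ^ k ↔ 16 ^ k * m < 16 ^ k) := by
      intro m
      rcases Nat.eq_zero_or_pos m with rfl | hm
      · simp [hr]
      · have : 16 ^ k ≤ 16 ^ k * m := Nat.le_mul_of_pos_right _ hm
        constructor <;> intro _ <;> omega
    rw [e, e]; exact h4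
  · rw [hM, hM'] at h5 ⊢
    have e : ∀ m M : ℕ, (16 ^ k * M ≤ 16 ^ k * m + r + 16 ^ k ↔ 16 ^ k * M ≤ 16 ^ k * m + 16 ^ k) := by
      intro m M
      constructor
      · intro hh
        by_contra hc
        push Not at hc
        have h6 : 16 ^ k * (m + 1) < 16 ^ k * M := by rw [Nat.mul_succ]; exact hc
        have h7 : m + 1 < M := Nat.lt_of_mul_lt_mul_left h6
        have h8 : 16 ^ k * (m + 2) ≤ 16 ^ k * M := Nat.mul_le_mul_left _ h7
        rw [Nat.mul_succ, Nat.mul_succ] at h8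
        omega
      · intro hh; omega
    rw [e, e]; exact h5

theorem H0_loc (g : F.P) (K : ℕ)
    (hg : ∀ c, K < F.n c → ∀ w < F.N c, F.ev g c w / 16 ^ K = w / 16 ^ K)
    (hl : F.LocAt K (F.disp g)) : F.LocAt K (H0 F g K) := by
  intro c c' w w' hk hk' hw hw' h
  have hS := SS_loc F K c c' w w' hk hk' hw hw' h
  by_cases hc : (c, w) ∈ SS F K
  · have hc' : (c', w') ∈ SS F K := by simp only at hS; rwa [← hS]
    ext r
    have e1 := H0_spec F g K hg c w hc r
    have e2 := H0_spec F g K hg c' w' hc' r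
    have hr := r.2
    have b1 := block_le F K c w hk.le hc.2.1 hw
    have b2 := block_le F K c' w' hk'.le hc'.2.1 hw'
    have h3 := hl c c' (w + r) (w' + r) hk hk' (by omega) (by omega)
      (keyEq_block F K c c' w w' r hk hk' hc.2.1 hc'.2.1 hr h)
    unfold Fam.disp at h3
    rw [e1, e2] at h3
    push_cast at h3
    omega
  · have hc' : (c', w') ∉ SS F K := by simp only at hS; rwa [← hS]
    rw [H0_not F g K c w hc, H0_not F g K c' w' hc']

end MixPiece

open MixPiece in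
theorem MIX (hAPP : APP_stmt) (hLOCMONO : LOCMONO_stmt) (hLOCFINITE : LOCFINITE_stmt) (hLOCCOMB : LOCCOMB_stmt) (hLOCBASIC : LOCBASIC_stmt) (hAPPF : APPF_stmt) (hFINP : FINP_stmt) : MIX_stmt := by
  classical
  intro F g hgA hK0
  obtain ⟨K0, hK0⟩ := hK0
  obtain ⟨hsign, k0, hk0⟩ := hgA
  obtain ⟨K, hK⟩ : ∃ K, K = max (max k0 K0) 1 := ⟨_, rfl⟩
  have hkK : k0 ≤ K := by omega
  have hK0K : K0 ≤ K := by omega
  have hK1 : 1 ≤ K := by omega
  have hl : F.LocAt K (F.disp g) := hLOCMONO F ℤ k0 K _ hkK hk0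
  have hg : ∀ c, K < F.n c → ∀ w < F.N c, F.ev g c w / 16 ^ K = w / 16 ^ K := by
    intro c hc w hw
    have h1 := hK0 c (by omega) w hw
    have h2 : 16 ^ K = 16 ^ K0 * 16 ^ (K - K0) := by rw [← pow_add]; congr 1; omega
    rw [h2, ← Nat.div_div_eq_div_mul, ← Nat.div_div_eq_div_mul, h1]
  have hL16 : 16 ∣ 16 ^ K := dvd_pow_self 16 (by omega)
  have hLge : 16 ≤ 16 ^ K := Nat.le_of_dvd (Nat.pow_pos (by norm_num)) hL16
  have hLpos : 0 < 16 ^ K := by omega
  let z0 : Fin (16 ^ K) := ⟨0, by omega⟩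
  let z1 : Fin (16 ^ K) := ⟨1, by omega⟩
  have hz : z0 ≠ z1 := by
    intro h
    have := congrArg Fin.val h
    simp [z0, z1] at this
  let H : F.C → ℕ → Perm (Fin (16 ^ K)) := fun c p =>
    if Perm.sign (H0 F g K c p) = 1 then H0 F g K c p else H0 F g K c p * swap z0 z1
  have hHloc : F.Loc H := by
    refine ⟨K, ?_⟩
    intro c c' w w' hk hk' hw hw' h
    have := H0_loc F g K hg hl c c' w w' hk hk' hw hw' h
    simp only [H, this]
  have hHalt : ∀ c p, (c, p) ∈ SS F K → H c p ∈ alternatingGroup (Fin (16 ^ K)) := by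
    intro c p _
    rw [Equiv.Perm.mem_alternatingGroup]
    simp only [H]
    split_ifs with hs
    · exact hs
    · rw [Equiv.Perm.sign_mul, Equiv.Perm.sign_swap hz]
      rcases Int.units_eq_one_or (Perm.sign (H0 F g K c p)) with h | h
      · exact absurd h hs
      · rw [h]; rfl
  obtain ⟨γ1, hγ1, hw1, hw2⟩ := hAPPF F (16 ^ K) (SS F K) H 0 ⟨K, SS_loc F K⟩ hHloc
    (by
      rintro q ⟨_, h2, _⟩
      exact Nat.mod_eq_zero_of_dvd (hL16.trans h2)) (SS_valid F K) hHalt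
  let g2 : F.P := fun c => if F.n c ≤ K then g c else 1
  have hg2 : g2 ∈ F.Gam := by
    apply hFINP F g2 K
    · intro c
      simp only [g2]
      split_ifs
      · exact hsign c
      · exact map_one _
    · intro c hc
      simp only [g2]
      rw [if_neg (by omega)]
  let θ : Set (F.C × ℕ) := {q | q ∈ SS F K ∧ Perm.sign (H0 F g K q.1 q.2) ≠ 1}
  have hθblk : θ ⊆ F.blk := by
    rintro q ⟨⟨_, h2, h3⟩, _⟩
    exact ⟨hL16.trans h2, h3⟩
  have hθloc : F.Loc (fun c w => (c, w) ∈ θ) := by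
    refine ⟨K, ?_⟩
    intro c c' w w' hk hk' hw hw' h
    have e1 := H0_loc F g K hg hl c c' w w' hk hk' hw hw' h
    have e2 := SS_loc F K c c' w w' hk hk' hw hw' h
    simp only at e2
    simp only [θ, Set.mem_ofPred_eq, e1, e2]
  have hθvalid : F.Valid 2 θ := by
    constructor
    · rintro c p ⟨h, _⟩
      have := (SS_valid F K).1 c p h
      omega
    · rintro c p q ⟨h, _⟩ ⟨h', _⟩ hpq
      have := (SS_valid F K).2 c p q h h' hpq
      omega
  have hX : F.IsApp 2 θ (swap 0 1) (F.X θ) := hAPP F 2 θ (swap 0 1) hθvalid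
  refine ⟨γ1 * g2, F.Gam.mul_mem hγ1 hg2, θ, hθblk, hθloc, ?_⟩
  apply F.ev_ext
  intro c w hw
  rw [F.ev_mul, F.ev_mul]
  by_cases hc : F.n c ≤ K
  · have e1 : F.ev (F.X θ) c w = w := by
      apply hX.2
      rintro p ⟨⟨h1, _, _⟩, _⟩
      simp only at h1
      omega
    have e2 : F.ev g2 c w = F.ev g c w := by
      have : g2 c = g c := by simp only [g2]; rw [if_pos hc]
      rw [F.ev_of_lt _ _ _ hw, F.ev_of_lt _ _ _ hw, this]
    have e3 : ∀ v, F.ev γ1 c v = v := by
      intro v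
      apply hw2
      rintro p ⟨h1, _, _⟩
      simp only at h1
      omega
    rw [e1, e2, e3]
  · push Not at hc
    have e2 : ∀ v, F.ev g2 c v = v := by
      intro v
      have : g2 c = 1 := by simp only [g2]; rw [if_neg (by omega)]
      by_cases hv : v < F.N c
      · rw [F.ev_of_lt _ _ _ hv, this]; rfl
      · rw [F.ev_of_ge _ _ _ hv]
    rw [e2]
    obtain ⟨p, hp⟩ : ∃ p, p = 16 ^ K * (w / 16 ^ K) := ⟨_, rfl⟩
    have hpw := Nat.div_add_mod w (16 ^ K)
    have hrlt := Nat.mod_lt w hLpos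
    have hpd : 16 ^ K ∣ p := ⟨_, hp⟩
    rw [← hp] at hpw
    have hS : (c, p) ∈ SS F K := ⟨hc, hpd, by show p < F.N c; omega⟩
    obtain ⟨r, hr⟩ : ∃ r : Fin (16 ^ K), (r : ℕ) = w % 16 ^ K := ⟨⟨_, hrlt⟩, rfl⟩
    have hwr : w = p + (r : ℕ) := by omega
    rw [hwr, H0_spec F g K hg c p hS r]
    by_cases hs : Perm.sign (H0 F g K c p) = 1
    · have e1 : F.ev (F.X θ) c (p + r) = p + r := by
        apply hX.2
        rintro p' ⟨h3, h4⟩ ⟨h5, h6⟩
        simp only at h4
        have hr2 := r.2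
        have hpp : p' = p := by
          by_contra hne
          rcases lt_or_gt_of_ne hne with hlt | hlt
          · have := (SS_valid F K).2 c p' p h3 hS hlt
            omega
          · have := (SS_valid F K).2 c p p' hS h3 hlt
            omega
        rw [hpp] at h4
        exact h4 hs
      rw [e1, hw1 c p hS r]
      simp only [H]
      rw [if_pos hs]
    · have hθ : (c, p) ∈ θ := ⟨hS, hs⟩
      have e1 : F.ev (F.X θ) c (p + r) = p + ((swap z0 z1 : Perm (Fin (16 ^ K))) r : ℕ) := by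
        by_cases hr0 : r = z0
        · have := hX.1 c p hθ 0
          rw [hr0, swap_apply_left]
          simpa [z0, z1] using this
        · by_cases hr1 : r = z1
          · have := hX.1 c p hθ 1
            rw [hr1, swap_apply_right]
            simpa [z0, z1] using this
          · rw [swap_apply_of_ne_of_ne hr0 hr1]
            apply hX.2
            rintro p' ⟨h3, h4⟩ ⟨h5, h6⟩
            have hr2 := r.2
            have hpp : p' = p := by
              by_contra hne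
              rcases lt_or_gt_of_ne hne with hlt | hlt
              · have := (SS_valid F K).2 c p' p h3 hS hlt
                omega
              · have := (SS_valid F K).2 c p p' hS h3 hlt
                omega
            have h7 : (r : ℕ) ≠ 0 := fun h => hr0 (Fin.ext h)
            have h8 : (r : ℕ) ≠ 1 := fun h => hr1 (Fin.ext h)
            omega
      rw [e1, hw1 c p hS _]
      simp only [H]
      rw [if_neg hs, Perm.mul_apply, swap_apply_self]

end OutRF
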