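import Pool.Agent.Lib_MP_0c5939_al.Stmts2

namespace OutRF
open Equiv

/-- abstract pigeonhole argument -/
theorem not_rf_of_conj (H : Type) [Group H] (ζ : ℕ → H) (hne : ζ 0 ≠ ζ 1)
    (hconj : ∀ i j, i ≠ j → ∃ φ : H, φ * ζ i * φ⁻¹ = ζ 0 ∧ φ * ζ j * φ⁻¹ = ζ 1) :
    ¬ Group.ResiduallyFinite H := by
  intro hrf
  have h1 : (ζ 0)⁻¹ * ζ 1 ≠ 1 := by
    intro h
    exact hne (inv_mul_eq_one.1 h)
  obtain ⟨L, hL⟩ := Group.residuallyFinite_iff_exists_finiteIndexNormalSubgroup.1 hrf _ h1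
  have hfin : Finite (H ⧸ L.toSubgroup) := Subgroup.finite_quotient_of_finiteIndex
  obtain ⟨i, j, hij, he⟩ := Finite.exists_ne_map_eq_of_infinite
    (fun i : ℕ => (QuotientGroup.mk' L.toSubgroup) (ζ i))
  obtain ⟨φ, hφ0, hφ1⟩ := hconj i j hij
  apply hL
  have h2 : (QuotientGroup.mk' L.toSubgroup) (ζ 0) = (QuotientGroup.mk' L.toSubgroup) (ζ 1) := by
    rw [← hφ0, ← hφ1]
    simp only [map_mul, map_inv]
    have he' : (QuotientGroup.mk' L.toSubgroup) (ζ i) = (QuotientGroup.mk' L.toSubgroup) (ζ j) := he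
    rw [he']
  exact QuotientGroup.eq.1 h2

/-- automorphism of `G` induced by an automorphism of `Q` given by maps -/
def mkAut (φ ψ : Q → Q) (hφ : ∀ q q', φ (q * q') = φ q * φ q') (h1 : ∀ q, ψ (φ q) = q)
    (h2 : ∀ q, φ (ψ q) = q) (g1 : ∀ q, q ∈ G → φ q ∈ G) (g2 : ∀ q, q ∈ G → ψ q ∈ G) :
    MulAut G where
  toFun q := ⟨φ q.1, g1 q.1 q.2⟩
  invFun q := ⟨ψ q.1, g2 q.1 q.2⟩
  left_inv q := Subtype.ext (h1 q.1)
  right_inv q := Subtype.ext (h2 q.1)
  map_mul' q q' := Subtype.ext (hφ q.1 q'.1)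

theorem rev_mul_rev (n : ℕ) : (Fin.revPerm : Perm (Fin n)) * Fin.revPerm = 1 := by
  ext x
  simp

theorem permQ_mul (m : ℕ) (h : Perm ℕ) (q q' : Q) : permQ m h (q * q') = permQ m h q * permQ m h q' := by
  funext n d i
  simp only [permQ, Pi.mul_apply]
  split_ifs <;> rfl

theorem permQ_inv_left (m : ℕ) (h : Perm ℕ) (q : Q) : permQ m h⁻¹ (permQ m h q) = q := by
  funext n d i
  simp only [permQ]
  split_ifs <;> simp

theorem permQ_inv_right (m : ℕ) (h : Perm ℕ) (q : Q) : permQ m h (permQ m h⁻¹ q) = q := by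
  funext n d i
  simp only [permQ]
  split_ifs <;> simp

theorem flipQ_mul (i₀ m : ℕ) (q q' : Q) : flipQ i₀ m (q * q') = flipQ i₀ m q * flipQ i₀ m q' := by
  funext n d i
  simp only [flipQ, Pi.mul_apply]
  split_ifs
  · calc Fin.revPerm * (q n d i * q' n d i) * Fin.revPerm
        = Fin.revPerm * q n d i * 1 * (q' n d i * Fin.revPerm) := by group
      _ = Fin.revPerm * q n d i * (Fin.revPerm * Fin.revPerm) * (q' n d i * Fin.revPerm) := by
          rw [rev_mul_rev]
      _ = _ := by group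
  · rfl

theorem flipQ_flipQ (i₀ m : ℕ) (q : Q) : flipQ i₀ m (flipQ i₀ m q) = q := by
  funext n d i
  simp only [flipQ]
  split_ifs
  · calc Fin.revPerm * (Fin.revPerm * q n d i * Fin.revPerm) * Fin.revPerm
        = (Fin.revPerm * Fin.revPerm) * q n d i * (Fin.revPerm * Fin.revPerm) := by group
      _ = _ := by rw [rev_mul_rev]; simp
  · rfl

theorem NOTRFG (hGMEM : GMEM_stmt) (hGPERM : GPERM_stmt) (hGFLIP : GFLIP_stmt)
    (hGSMALL : GSMALL_stmt) (hGNONTRIV : GNONTRIV_stmt) : NOTRFG_stmt := by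
  let Fl : ℕ → ℕ → MulAut G := fun i m => mkAut (flipQ i m) (flipQ i m) (flipQ_mul i m)
    (flipQ_flipQ i m) (flipQ_flipQ i m)
    (fun q hq => (hGMEM _).2 (hGFLIP i m q ((hGMEM q).1 hq)))
    (fun q hq => (hGMEM _).2 (hGFLIP i m q ((hGMEM q).1 hq)))
  have hFl : ∀ i m (q : G), ((Fl i m q : G) : Q) = flipQ i m q := fun i m q => rfl
  have hsmall : ∀ i m, Fl i 0 = Fl i m * MulAut.conj (⟨flipSmall i m, (hGMEM _).2 (hGSMALL i m)⟩ : G) := by
    intro i m
    apply MulEquiv.ext
    intro q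
    apply Subtype.ext
    rw [hFl]
    have e : (((Fl i m * MulAut.conj (⟨flipSmall i m, (hGMEM _).2 (hGSMALL i m)⟩ : G)) q : G) : Q) =
        flipQ i m (flipSmall i m * (q : Q) * (flipSmall i m)⁻¹) := rfl
    rw [e]
    have hq := ((hGMEM _).1 q.2).1
    funext n d j
    simp only [flipQ, flipSmall, Pi.mul_apply, Pi.inv_apply]
    by_cases hj : j = i
    · subst hj
      by_cases hmn : m < n
      · have h0 : 0 < n := by omega
        have h3 : ¬ n ≤ m := by omega
        simp [hmn, h0, h3]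
      · by_cases hv : j < n ∧ d < 2 ^ n
        · have h0 : 0 < n := by omega
          have h3 : n ≤ m := by omega
          have hrev : (Fin.revPerm : Perm (Fin (16 ^ n * (2 * d + 1))))⁻¹ = Fin.revPerm :=
            inv_eq_of_mul_eq_one_left (rev_mul_rev _)
          simp [hmn, h0, h3, hv, hrev]
        · have h1 := hq n d j hv
          rw [h1]
          simp only [mul_one, mul_inv_cancel, rev_mul_rev, ite_self]
    · simp [hj]
  have hconj : ∀ (m : ℕ) (h : Perm ℕ) (hh : ∀ i, m ≤ i → h i = i) (i : ℕ), ∃ P : MulAut G,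
      ∀ i, P * Fl i m * P⁻¹ = Fl (h i) m := by
    intro m h hh _
    have hh' : ∀ i, m ≤ i → h⁻¹ i = i := by
      intro i hi
      rw [Perm.inv_eq_iff_eq]
      exact (hh i hi).symm
    refine ⟨mkAut (permQ m h) (permQ m h⁻¹) (permQ_mul m h) (permQ_inv_left m h)
      (permQ_inv_right m h)
      (fun q hq => (hGMEM _).2 (hGPERM m h hh q ((hGMEM q).1 hq)))
      (fun q hq => (hGMEM _).2 (hGPERM m h⁻¹ hh' q ((hGMEM q).1 hq))), ?_⟩
    intro i
    apply MulEquiv.ext
    intro q
    apply Subtype.ext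
    rw [hFl]
    have e : (((mkAut (permQ m h) (permQ m h⁻¹) (permQ_mul m h) (permQ_inv_left m h)
      (permQ_inv_right m h)
      (fun q hq => (hGMEM _).2 (hGPERM m h hh q ((hGMEM q).1 hq)))
      (fun q hq => (hGMEM _).2 (hGPERM m h⁻¹ hh' q ((hGMEM q).1 hq))) * Fl i m *
      (mkAut (permQ m h) (permQ m h⁻¹) (permQ_mul m h) (permQ_inv_left m h)
      (permQ_inv_right m h)
      (fun q hq => (hGMEM _).2 (hGPERM m h hh q ((hGMEM q).1 hq)))
      (fun q hq => (hGMEM _).2 (hGPERM m h⁻¹ hh' q ((hGMEM q).1 hq))))⁻¹) q : G) : Q) =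
        permQ m h (flipQ i m (permQ m h⁻¹ (q : Q))) := rfl
    rw [e]
    funext n d j
    by_cases hmn : m < n
    · by_cases hj : j = h i
      · subst hj
        simp [permQ, flipQ, hmn]
      · have hj' : ¬ h⁻¹ j = i := by
          intro h'
          apply hj
          rw [← h']
          simp
        have hj'' : ¬ (Equiv.symm h) j = i := hj'
        simp [permQ, flipQ, hmn, hj, hj'']
    · simp [permQ, flipQ, hmn]
  apply not_rf_of_conj (Out G) (fun i => (QuotientGroup.mk (Fl i 0) : Out G))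
  · intro h
    have h1 := QuotientGroup.eq.1 h.symm
    obtain ⟨g, hg⟩ := h1
    obtain ⟨q, hq, hne⟩ := hGNONTRIV g ((hGMEM _).1 g.2)
    apply hne
    have h2 : Fl 0 0 = Fl 1 0 * MulAut.conj g := by rw [hg]; group
    have h3 := congrArg (fun a : MulAut G => ((a ⟨q, (hGMEM q).2 hq⟩ : G) : Q)) h2
    exact h3
  · intro i j hij
    have hmk : ∀ i m, (QuotientGroup.mk (Fl i 0) : Out G) = QuotientGroup.mk (Fl i m) := by
      intro i m
      rw [hsmall i m]
      symm
      rw [QuotientGroup.eq]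
      refine ⟨⟨flipSmall i m, (hGMEM _).2 (hGSMALL i m)⟩, ?_⟩
      group
    -- a finitary permutation with i -> 0, j -> 1
    let h1 : Perm ℕ := swap i 0
    let h : Perm ℕ := swap (h1 j) 1 * h1
    have hj0 : h1 j ≠ 0 := by
      intro h'
      have : h1 i = 0 := swap_apply_left i 0
      exact hij (h1.injective (this.trans h'.symm))
    have hi0 : h i = 0 := by
      show swap (h1 j) 1 (h1 i) = 0
      rw [show h1 i = 0 from swap_apply_left i 0]
      exact swap_apply_of_ne_of_ne hj0.symm (by norm_num)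
    have hj1 : h j = 1 := by
      show swap (h1 j) 1 (h1 j) = 1
      exact swap_apply_left _ _
    have hfix : ∀ k, i + j + 2 ≤ k → h k = k := by
      intro k hk
      have h2 : h1 k = k := swap_apply_of_ne_of_ne (by omega) (by omega)
      show swap (h1 j) 1 (h1 k) = k
      rw [h2]
      have h3 : h1 j ≤ i + j := by
        by_cases hj : j = 0
        · subst hj
          have : h1 0 = i := swap_apply_right i 0
          omega
        · have : h1 j = j := swap_apply_of_ne_of_ne (fun h' => hij h'.symm) hj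
          omega
      exact swap_apply_of_ne_of_ne (by omega) (by omega)
    obtain ⟨P, hP⟩ := hconj (i + j + 2) h hfix 0
    refine ⟨QuotientGroup.mk P, ?_, ?_⟩
    · have := hP i
      rw [hi0] at this
      show (QuotientGroup.mk P : Out G) * QuotientGroup.mk (Fl i 0) * (QuotientGroup.mk P)⁻¹ =
        QuotientGroup.mk (Fl 0 0)
      rw [hmk i (i + j + 2), hmk 0 (i + j + 2), ← this]
      rfl
    · have := hP j
      rw [hj1] at this
      show (QuotientGroup.mk P : Out G) * QuotientGroup.mk (Fl j 0) * (QuotientGroup.mk P)⁻¹ =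
        QuotientGroup.mk (Fl 1 0)
      rw [hmk j (i + j + 2), hmk 1 (i + j + 2), ← this]
      rfl

end OutRF
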