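import Pool.Agent.Lib_MP_0c5939_al.Stmts2

/-!
# MP_0c5939_al, piece OriAll: trivial orientation on all branches implies trivial for large components

Proof:
K from LOCORI. Claim k = K works. Suppose c = (n,d,i), K < n and not ori. Case i < K: x j := if j < K then testBit d j
else not b; {j | x j = b} is contained in [0,K): finite; x i = testBit d i = b. i* := i. Case i >= K: x j := if j < K
then testBit d j else if j = K then b else not b; finite; i* := K. In both cases let k be the bound from the
hypothesis for x, n' > max k K, n' > i*, d' < 2^n' with testBit d' j = x j for j < n' (existence by induction or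
Nat.ofBits), c' = (n', d', i*) in (famB b).C, onBranch. So ori pi c'. Symbols below K of c' and c agree: testBit d' j =
testBit d j; decide (j = i*) = decide (j = i) for j < K. LOCORI: ori pi c. Contradiction.
-/

namespace OutRF
open Equiv

theorem oriAll_bits (x : ℕ → Bool) : ∀ n : ℕ, ∃ d < 2 ^ n, ∀ j < n, d.testBit j = x j := by
  intro n
  induction n with
  | zero => exact ⟨0, by simp, fun j hj => absurd hj (Nat.not_lt_zero j)⟩
  | succ n ih =>
    obtain ⟨d, hd, h⟩ := ih
    refine ⟨(if x n then 2 ^ n else 0) + d, ?_, ?_⟩
    · rw [pow_succ]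
      split_ifs <;> omega
    · intro j hj
      by_cases hx : x n = true
      · rw [if_pos hx]
        rcases Nat.lt_succ_iff_lt_or_eq.1 hj with h1 | h1
        · rw [Nat.testBit_two_pow_add_gt h1 d]
          exact h j h1
        · subst h1
          rw [Nat.testBit_two_pow_add_eq, Nat.testBit_lt_two_pow hd, hx]
          rfl
      · rw [if_neg hx, Nat.zero_add]
        rcases Nat.lt_succ_iff_lt_or_eq.1 hj with h1 | h1
        · exact h j h1
        · subst h1
          rw [Nat.testBit_lt_two_pow hd]
          simpa using hx

theorem ORIALL (hLOCORI : LOCORI_stmt) : ORIALL_stmt := by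
  intro b π hπ H
  obtain ⟨K, hK⟩ := hLOCORI (famB b) π hπ
  refine ⟨K, ?_⟩
  intro c hc
  have hc0 : K < c.1.1 := hc
  -- the branch and the mark
  obtain ⟨x, i₀, hfin, hxi, hagree, hmark⟩ : ∃ (x : ℕ → Bool) (i₀ : ℕ), {i | x i = b}.Finite ∧
      x i₀ = b ∧ (∀ j < K, x j = c.1.2.1.testBit j) ∧
      (∀ j < K, decide (j = i₀) = decide (j = c.1.2.2)) := by
    by_cases hi : c.1.2.2 < K
    · refine ⟨fun j => if j < K then c.1.2.1.testBit j else !b, c.1.2.2, ?_, ?_, ?_, ?_⟩
      · apply (Set.finite_lt_nat K).subset
        intro j hj
        by_contra hcon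
        have hcon' : ¬ j < K := hcon
        have hj' : (if j < K then c.1.2.1.testBit j else !b) = b := hj
        rw [if_neg hcon'] at hj'
        cases b <;> simp at hj'
      · show (if c.1.2.2 < K then c.1.2.1.testBit c.1.2.2 else !b) = b
        rw [if_pos hi]
        exact c.2.2.2
      · intro j hj
        show (if j < K then c.1.2.1.testBit j else !b) = _
        rw [if_pos hj]
      · intro j _
        rfl
    · refine ⟨fun j => if j < K then c.1.2.1.testBit j else if j = K then b else !b, K,
        ?_, ?_, ?_, ?_⟩
      · apply (Set.finite_lt_nat (K + 1)).subset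
        intro j hj
        by_contra hcon
        have hcon' : ¬ j < K + 1 := hcon
        have hj' : (if j < K then c.1.2.1.testBit j else if j = K then b else !b) = b := hj
        rw [if_neg (by omega), if_neg (by omega)] at hj'
        cases b <;> simp at hj'
      · show (if K < K then c.1.2.1.testBit K else if K = K then b else !b) = b
        rw [if_neg (lt_irrefl K), if_pos rfl]
      · intro j hj
        show (if j < K then c.1.2.1.testBit j else if j = K then b else !b) = _
        rw [if_pos hj]
      · intro j hj
        have h1 : j ≠ K := by omega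
        have h2 : j ≠ c.1.2.2 := by omega
        simp [h1, h2]
  obtain ⟨k, hk⟩ := H x hfin
  -- a component on the branch
  obtain ⟨d', hd', hbits⟩ := oriAll_bits x (max k (max K i₀) + 1)
  have hn1 : k < max k (max K i₀) + 1 := by omega
  have hn2 : K < max k (max K i₀) + 1 := by omega
  have hn3 : i₀ < max k (max K i₀) + 1 := by omega
  have hmem : d'.testBit i₀ = b := by rw [hbits i₀ hn3, hxi]
  let c' : (famB b).C := ⟨(max k (max K i₀) + 1, d', i₀), hn3, hd', hmem⟩
  have hori : (famB b).ori π c' := hk c' hn1 hbits
  have hsym : ∀ j < K, (famB b).s c j = (famB b).s c' j := by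
    intro j hj
    show (c.1.2.1.testBit j, decide (j = c.1.2.2)) = (d'.testBit j, decide (j = i₀))
    rw [hbits j (by omega), hagree j hj, hmark j hj]
  exact (hK c c' hc hn2 hsym).2 hori

end OutRF
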