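import Pool.Agent.Lib_MP_0c5939_al.Stmts2

/-!
# MP_0c5939_al, piece OriHom: the orientation homomorphism at a branch

Proof:
Z = {i | x i = b} finite, Y = Z x Bool (Finite). pre n = a number d < 2^n with testBit d j = x j for j < n
(e.g. Nat.ofBits or sum of 2^j; prove existence by induction). For i in Z, i < n let c_(n,i) = (n, pre n, i) in
(famB b).C. For alpha, n and (i,o) in Y: if i < n: the component cm (Theta alpha) c_(n,i) has the same length (NZN), so
by FAMN it is (n, pre n, i') with i' < n and testBit (pre n) i' = b so i' in Z; phi n alpha (i,o) = (i', o xor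
not ori (Theta alpha) c_(n,i)). If i >= n: phi n alpha (i,o) = (i,o).
(1) eventually constant: for i in Z and large n: i' is determined by the truth values of E_j(cm ..) for j in
Z, E_j c := (c.1.2.2 = j): Loc (fun c _ => E_j c) (LOCBASIC (4): symbol s c j, E_j c iff (s c j).2 = true; LOCCOMB), LOCCM
gives K_j; c_(n,i) and c_(n',i) for n, n' > K have the same symbols below K ((x j, decide (j = i))).
Orientation: LOCORI.
(2) multiplicative: Theta (a b) = Theta a * Theta b; cm (pi pi') c = cm pi (cm pi' c); fn (pi pi') c w = fn pi (cm pi' c)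
(fn pi' c w). For large n ori (pi pi') c iff (ori pi' c iff ori pi (cm pi' c)): by ORIGOOD for pi, pi', pi pi' with
bound C': on comps with n c large (N c > 10 C' + 10): the composition of two maps close to id/flip is close
to the corresponding composition; evaluate at w = 0. (3) phi n 1 = id: cm 1 c = c, fn 1 c 0 = 0 so ori.
LIMHOM gives rho : MulAut A ->* Perm Y. rho (conj g) = 1: Theta (conj g) = act g: cm = c, fn (act g) c 0 = ev g c 0 <= R
(LOCBDD, AMEM), so ori for large n.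
Last claim: alpha with cm (Theta alpha) c = c for all c and rho alpha = 1: eventually phi n alpha = id so ori (Theta alpha) c_(n,i) for
all i in Z, n >= k, i < n (Z finite: maximum). A component c on the branch with n c = n > k is c_(n,i): d = pre n
(eq_of_testBit_lt) and i in Z.
-/

namespace OutRF
open Equiv

theorem oh_pre (x : ℕ → Bool) (n : ℕ) : ∃ d, d < 2 ^ n ∧ ∀ j < n, d.testBit j = x j :=
  ⟨Nat.ofBits (fun j : Fin n => x j), Nat.ofBits_lt_two_pow _,
    fun j hj => by rw [Nat.testBit_ofBits_lt _ j hj]⟩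

theorem oh_N_gt (F : Fam) (c : F.C) : F.n c < F.N c := by
  have h1 := F.pow_le_N c (F.n c) le_rfl
  have h2 : F.n c < 16 ^ F.n c := Nat.lt_pow_self (by norm_num)
  omega

theorem oh_cm_mul (hNZN : NZN_stmt) (F : Fam) {π π' : Perm F.Om} (h : F.NZ π)
    (c : F.C) : F.cm (π * π') c = F.cm π (F.cm π' c) := by
  have h1 := (hNZN F π h).2.1 (F.cm π' c) (π' ⟨c, ⟨0, F.N_pos c⟩⟩).2.1
    (π' ⟨c, ⟨0, F.N_pos c⟩⟩).2.2
  rw [← h1]
  rfl

theorem oh_fn_lt (F : Fam) (π : Perm F.Om) (c : F.C) (w : ℕ) (h : w < F.N c) :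
    F.fn π c w = ((π ⟨c, ⟨w, h⟩⟩).2 : ℕ) := by
  unfold Fam.fn
  rw [dif_pos h]

theorem oh_fn_mul (F : Fam) (π π' : Perm F.Om)
    (c : F.C) : F.fn (π * π') c 0 = F.fn π (F.cm π' c) (F.fn π' c 0) := by
  have e0 : F.fn π' c 0 = ((π' ⟨c, ⟨0, F.N_pos c⟩⟩).2 : ℕ) := by
    unfold Fam.fn
    rw [dif_pos (F.N_pos c)]
  have hlt : F.fn π' c 0 < F.N (F.cm π' c) := by
    rw [e0]
    exact (π' ⟨c, ⟨0, F.N_pos c⟩⟩).2.2
  have e1 : F.fn (π * π') c 0 = (((π * π') ⟨c, ⟨0, F.N_pos c⟩⟩).2 : ℕ) := by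
    unfold Fam.fn
    rw [dif_pos (F.N_pos c)]
  have e2 : F.fn π (F.cm π' c) (F.fn π' c 0) =
      ((π ⟨F.cm π' c, ⟨F.fn π' c 0, hlt⟩⟩).2 : ℕ) := oh_fn_lt F π _ _ hlt
  rw [e1, e2]
  have e3 : (⟨F.cm π' c, ⟨F.fn π' c 0, hlt⟩⟩ : F.Om) = π' ⟨c, ⟨0, F.N_pos c⟩⟩ := by
    refine Sigma.ext rfl ?_
    refine heq_of_eq ?_
    apply Fin.ext
    exact e0
  rw [e3]
  rfl

/-- orientation of a product -/
theorem oh_ori_mul (hNZN : NZN_stmt) (hORIGOOD : ORIGOOD_stmt) (F : Fam) {π π' : Perm F.Om}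
    (h : F.NZ π) (h' : F.NZ π') (hh : F.NZ (π * π')) : ∃ K, ∀ c, K < F.n c →
    (K < F.n (F.cm π' c)) → (F.ori (π * π') c ↔ (F.ori π' c ↔ F.ori π (F.cm π' c))) := by
  obtain ⟨C1, K1, h1⟩ := hORIGOOD F π h
  obtain ⟨C2, K2, h2⟩ := hORIGOOD F π' h'
  obtain ⟨C3, K3, h3⟩ := hORIGOOD F (π * π') hh
  refine ⟨K1 + K2 + K3 + 10 * (C1 + C2 + C3) + 10, ?_⟩
  intro c hc hc'
  have hN := oh_N_gt F c
  have hNN : F.N (F.cm π' c) = F.N c := (hNZN F π' h').1 c
  have hlt : F.fn π' c 0 < F.N (F.cm π' c) := (hNZN F π' h').2.2.1 c 0 (F.N_pos c)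
  have e := oh_fn_mul F π π' c
  have a1 := h1 (F.cm π' c) (by omega)
  have a2 := h2 c (by omega)
  have a3 := h3 c (by omega)
  have hN0 := F.N_pos c
  by_cases o3 : F.ori (π * π') c
  · have b3 := abs_le.mp (a3.1 o3 0 hN0)
    by_cases o2 : F.ori π' c
    · have b2 := abs_le.mp (a2.1 o2 0 hN0)
      by_cases o1 : F.ori π (F.cm π' c)
      · exact ⟨fun _ => ⟨fun _ => o1, fun _ => o2⟩, fun _ => o3⟩
      · have b1 := abs_le.mp (a1.2 o1 _ hlt)
        exfalso
        rw [← e] at b1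
        omega
    · have b2 := abs_le.mp (a2.2 o2 0 hN0)
      by_cases o1 : F.ori π (F.cm π' c)
      · have b1 := abs_le.mp (a1.1 o1 _ hlt)
        exfalso
        rw [← e] at b1
        omega
      · exact ⟨fun _ => ⟨fun hx => absurd hx o2, fun hx => absurd hx o1⟩, fun _ => o3⟩
  · have b3 := abs_le.mp (a3.2 o3 0 hN0)
    by_cases o2 : F.ori π' c
    · have b2 := abs_le.mp (a2.1 o2 0 hN0)
      by_cases o1 : F.ori π (F.cm π' c)
      · have b1 := abs_le.mp (a1.1 o1 _ hlt)
        exfalso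
        rw [← e] at b1
        omega
      · exact ⟨fun hx => absurd hx o3, fun hx => absurd (hx.mp o2) o1⟩
    · have b2 := abs_le.mp (a2.2 o2 0 hN0)
      by_cases o1 : F.ori π (F.cm π' c)
      · exact ⟨fun hx => absurd hx o3, fun hx => absurd (hx.mpr o1) o2⟩
      · have b1 := abs_le.mp (a1.2 o1 _ hlt)
        exfalso
        rw [← e] at b1
        omega

/-- the component on the branch -/
def ohc (b : Bool) (x : ℕ → Bool) (pre : ℕ → ℕ) (hpre : ∀ n, pre n < 2 ^ n)
    (hx : ∀ n, ∀ j < n, (pre n).testBit j = x j) (n i : ℕ) (h : i < n ∧ x i = b) : (famB b).C :=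
  ⟨(n, pre n, i), h.1, hpre n, by
    change (pre n).testBit i = b
    rw [hx n i h.1, h.2]⟩

open Classical in
/-- index part -/
noncomputable def ohi (b : Bool) (x : ℕ → Bool) (pre : ℕ → ℕ) (hpre : ∀ n, pre n < 2 ^ n)
    (hx : ∀ n, ∀ j < n, (pre n).testBit j = x j) (n : ℕ) (π : Perm (famB b).Om) (i : ℕ) : ℕ :=
  if h : i < n ∧ x i = b then ((famB b).cm π (ohc b x pre hpre hx n i h)).1.2.2 else i

open Classical in
/-- orientation part -/
noncomputable def oho (b : Bool) (x : ℕ → Bool) (pre : ℕ → ℕ) (hpre : ∀ n, pre n < 2 ^ n)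
    (hx : ∀ n, ∀ j < n, (pre n).testBit j = x j) (n : ℕ) (π : Perm (famB b).Om) (i : ℕ) : Bool :=
  if h : i < n ∧ x i = b then decide (¬ (famB b).ori π (ohc b x pre hpre hx n i h)) else false

section
variable (b : Bool) (x : ℕ → Bool) (pre : ℕ → ℕ) (hpre : ∀ n, pre n < 2 ^ n)
    (hx : ∀ n, ∀ j < n, (pre n).testBit j = x j)

theorem oh_cm (hNZN : NZN_stmt) (hFAMN : FAMN_stmt) {π : Perm (famB b).Om} (hπ : (famB b).NZ π)
    (n i : ℕ) (h : i < n ∧ x i = b) :
    ∃ h' : ohi b x pre hpre hx n π i < n ∧ x (ohi b x pre hpre hx n π i) = b,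
      (famB b).cm π (ohc b x pre hpre hx n i h) =
        ohc b x pre hpre hx n (ohi b x pre hpre hx n π i) h' := by
  set c := ohc b x pre hpre hx n i h with hc
  have h1 : (famB b).N ((famB b).cm π c) = (famB b).N c := (hNZN (famB b) π hπ).1 c
  obtain ⟨h2, h3⟩ := hFAMN b b _ _ h1
  have h4 : ((famB b).cm π c).1.1 = n := h2
  have h5 : ((famB b).cm π c).1.2.1 = pre n := h3
  have h6 := ((famB b).cm π c).2
  have e : ohi b x pre hpre hx n π i = ((famB b).cm π c).1.2.2 := by
    unfold ohi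
    rw [dif_pos h]
  rw [e]
  have h7 : ((famB b).cm π c).1.2.2 < n := by
    have := h6.1
    omega
  have h8 : x ((famB b).cm π c).1.2.2 = b := by
    rw [← hx n _ h7, ← h5]
    exact h6.2.2
  refine ⟨⟨h7, h8⟩, ?_⟩
  apply Subtype.ext
  exact Prod.ext h4 (Prod.ext h5 rfl)

theorem oh_mem (hNZN : NZN_stmt) (hFAMN : FAMN_stmt) {π : Perm (famB b).Om} (hπ : (famB b).NZ π)
    (n i : ℕ) (h : x i = b) : x (ohi b x pre hpre hx n π i) = b := by
  by_cases hi : i < n
  · obtain ⟨h', _⟩ := oh_cm b x pre hpre hx hNZN hFAMN hπ n i ⟨hi, h⟩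
    exact h'.2
  · have : ohi b x pre hpre hx n π i = i := by
      unfold ohi
      rw [dif_neg (fun hh => hi hh.1)]
    rw [this]; exact h

theorem oh_sym (n i : ℕ) (h : i < n ∧ x i = b) (j : ℕ) (hj : j < n) :
    (famB b).s (ohc b x pre hpre hx n i h) j = (x j, decide (j = i)) := by
  change ((pre n).testBit j, decide (j = i)) = _
  rw [hx n j hj]

end

theorem ORIHOM (hNZN : NZN_stmt) (hFAMN : FAMN_stmt) (hLOCBDD : LOCBDD_stmt) (hLOCBASIC : LOCBASIC_stmt) (hLOCCOMB : LOCCOMB_stmt) (hAMEM : AMEM_stmt) (hORIGOOD : ORIGOOD_stmt) (hLOCCM : LOCCM_stmt) (hLOCORI : LOCORI_stmt) (hLIMHOM : LIMHOM_stmt) : ORIHOM_stmt := by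
  classical
  intro b x hZ Θ hNZ hconj
  choose pre hpre hx using oh_pre x
  have : Finite {i // x i = b} := hZ
  let Y := {i // x i = b} × Bool
  have : Finite Y := inferInstanceAs (Finite ({i // x i = b} × Bool))
  let φ : ℕ → MulAut (famB b).A → Y → Y := fun n α y =>
    (⟨ohi b x pre hpre hx n (Θ α) y.1.1, oh_mem b x pre hpre hx hNZN hFAMN (hNZ α) n y.1.1 y.1.2⟩,
      xor y.2 (oho b x pre hpre hx n (Θ α) y.1.1))
  -- a bound for the indices
  obtain ⟨I, hI⟩ : ∃ I, ∀ i : {i // x i = b}, (i : ℕ) < I := by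
    obtain ⟨I, hI⟩ := hZ.bddAbove
    exact ⟨I + 1, fun i => Nat.lt_succ_of_le (hI i.2)⟩
  -- (1) eventually constant
  have hev : ∀ α, ∃ K, ∀ n ≥ K, φ n α = φ K α := by
    intro α
    have hE : ∀ j : {i // x i = b}, ∃ K, ∀ c c', K < (famB b).n c → K < (famB b).n c' →
        (∀ t < K, (famB b).s c t = (famB b).s c' t) →
        (((famB b).cm (Θ α) c).1.2.2 = (j : ℕ) ↔ ((famB b).cm (Θ α) c').1.2.2 = (j : ℕ)) := by
      intro j
      refine hLOCCM (famB b) (Θ α) (hNZ α) (fun c => c.1.2.2 = (j : ℕ)) ⟨(j : ℕ) + 1, ?_⟩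
      intro c c' w w' _ _ _ _ hkey
      have h1 := hkey.1 (j : ℕ) (Nat.lt_succ_self _)
      have h2 : decide ((j : ℕ) = c.1.2.2) = decide ((j : ℕ) = c'.1.2.2) := congrArg Prod.snd h1
      rw [decide_eq_decide] at h2
      exact propext ⟨fun h => (h2.mp h.symm).symm, fun h => (h2.mpr h.symm).symm⟩
    choose KE hKE using hE
    obtain ⟨KO, hKO⟩ := hLOCORI (famB b) (Θ α) (hNZ α)
    obtain ⟨KM, hKM⟩ : ∃ KM, ∀ j, KE j ≤ KM := by
      obtain ⟨M, hM⟩ := (Set.finite_range KE).bddAbove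
      exact ⟨M, fun j => hM ⟨j, rfl⟩⟩
    refine ⟨KM + KO + I + 1, ?_⟩
    intro n hn
    funext y
    obtain ⟨⟨i, hi⟩, o⟩ := y
    have hiI := hI ⟨i, hi⟩
    simp only at hiI
    have hin : i < n ∧ x i = b := ⟨by omega, hi⟩
    have hiK : i < KM + KO + I + 1 ∧ x i = b := ⟨by omega, hi⟩
    have hsym : ∀ K ≤ KM + KO, ∀ t < K, (famB b).s (ohc b x pre hpre hx n i hin) t =
        (famB b).s (ohc b x pre hpre hx (KM + KO + I + 1) i hiK) t := by
      intro K hK t ht
      rw [oh_sym b x pre hpre hx n i hin t (by omega),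
        oh_sym b x pre hpre hx (KM + KO + I + 1) i hiK t (by omega)]
    have hn1 : (famB b).n (ohc b x pre hpre hx n i hin) = n := rfl
    have hn2 : (famB b).n (ohc b x pre hpre hx (KM + KO + I + 1) i hiK) = KM + KO + I + 1 := rfl
    have hidx : ohi b x pre hpre hx n (Θ α) i = ohi b x pre hpre hx (KM + KO + I + 1) (Θ α) i := by
      have hj := oh_mem b x pre hpre hx hNZN hFAMN (hNZ α) n i hi
      have h1 := hKE ⟨ohi b x pre hpre hx n (Θ α) i, hj⟩ (ohc b x pre hpre hx n i hin)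
        (ohc b x pre hpre hx (KM + KO + I + 1) i hiK)
        (by have := hKM ⟨ohi b x pre hpre hx n (Θ α) i, hj⟩; rw [hn1]; omega)
        (by have := hKM ⟨ohi b x pre hpre hx n (Θ α) i, hj⟩; rw [hn2]; omega)
        (hsym _ (by have := hKM ⟨ohi b x pre hpre hx n (Θ α) i, hj⟩; omega))
      have h2 : ohi b x pre hpre hx n (Θ α) i =
          ((famB b).cm (Θ α) (ohc b x pre hpre hx n i hin)).1.2.2 := by
        unfold ohi
        rw [dif_pos hin]
      have h3 : ohi b x pre hpre hx (KM + KO + I + 1) (Θ α) i =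
          ((famB b).cm (Θ α) (ohc b x pre hpre hx (KM + KO + I + 1) i hiK)).1.2.2 := by
        unfold ohi
        rw [dif_pos hiK]
      rw [h3]
      exact (h1.mp h2.symm).symm
    have hori : oho b x pre hpre hx n (Θ α) i = oho b x pre hpre hx (KM + KO + I + 1) (Θ α) i := by
      unfold oho
      rw [dif_pos hin, dif_pos hiK]
      have h1 := hKO (ohc b x pre hpre hx n i hin)
        (ohc b x pre hpre hx (KM + KO + I + 1) i hiK) (by rw [hn1]; omega) (by rw [hn2]; omega)
        (hsym _ (by omega))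
      rw [decide_eq_decide]
      exact not_congr h1
    simp only [φ, hidx, hori]
  -- (2) multiplicative
  have hmul : ∀ a a', ∃ K, ∀ n ≥ K, φ n (a * a') = φ n a ∘ φ n a' := by
    intro a a'
    have hΘ : Θ (a * a') = Θ a * Θ a' := map_mul Θ a a'
    obtain ⟨K, hK⟩ := oh_ori_mul hNZN hORIGOOD (famB b) (hNZ a) (hNZ a') (by
      rw [← hΘ]; exact hNZ _)
    refine ⟨K + I + 1, ?_⟩
    intro n hn
    funext y
    obtain ⟨⟨i, hi⟩, o⟩ := y
    have hiI := hI ⟨i, hi⟩
    simp only at hiI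
    have hin : i < n ∧ x i = b := ⟨by omega, hi⟩
    obtain ⟨h', hcm⟩ := oh_cm b x pre hpre hx hNZN hFAMN (hNZ a') n i hin
    have hcmm := oh_cm_mul hNZN (famB b) (π' := Θ a') (hNZ a) (ohc b x pre hpre hx n i hin)
    have hoo := hK (ohc b x pre hpre hx n i hin) (by
      change K < n
      omega) (by
      rw [hcm]
      change K < n
      omega)
    rw [hcm] at hcmm hoo
    have h1 : ohi b x pre hpre hx n (Θ (a * a')) i =
        ohi b x pre hpre hx n (Θ a) (ohi b x pre hpre hx n (Θ a') i) := by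
      have e1 : ohi b x pre hpre hx n (Θ (a * a')) i =
          ((famB b).cm (Θ (a * a')) (ohc b x pre hpre hx n i hin)).1.2.2 := by
        rw [ohi, dif_pos hin]
      have e2 : ohi b x pre hpre hx n (Θ a) (ohi b x pre hpre hx n (Θ a') i) =
          ((famB b).cm (Θ a) (ohc b x pre hpre hx n (ohi b x pre hpre hx n (Θ a') i) h')).1.2.2 := by
        rw [ohi, dif_pos h']
      rw [e1, e2, hΘ, hcmm]
    have h2 : oho b x pre hpre hx n (Θ (a * a')) i =
        xor (oho b x pre hpre hx n (Θ a') i)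
          (oho b x pre hpre hx n (Θ a) (ohi b x pre hpre hx n (Θ a') i)) := by
      have e1 : oho b x pre hpre hx n (Θ (a * a')) i =
          decide (¬ (famB b).ori (Θ (a * a')) (ohc b x pre hpre hx n i hin)) := by
        rw [oho, dif_pos hin]
      have e2 : oho b x pre hpre hx n (Θ a') i =
          decide (¬ (famB b).ori (Θ a') (ohc b x pre hpre hx n i hin)) := by
        rw [oho, dif_pos hin]
      have e3 : oho b x pre hpre hx n (Θ a) (ohi b x pre hpre hx n (Θ a') i) =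
          decide (¬ (famB b).ori (Θ a) (ohc b x pre hpre hx n (ohi b x pre hpre hx n (Θ a') i) h')) := by
        rw [oho, dif_pos h']
      rw [e1, e2, e3, hΘ]
      by_cases q1 : (famB b).ori (Θ a') (ohc b x pre hpre hx n i hin) <;>
      by_cases q2 : (famB b).ori (Θ a) (ohc b x pre hpre hx n (ohi b x pre hpre hx n (Θ a') i) h') <;>
      simp [hoo, q1, q2]
    simp only [φ, Function.comp_apply]
    refine Prod.ext (Subtype.ext h1) ?_
    simp only
    rw [h2, Bool.xor_assoc]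
  -- (3) the identity
  have hone : ∀ (α : MulAut (famB b).A) (n : ℕ), (∀ i, (h : i < n ∧ x i = b) →
      (famB b).cm (Θ α) (ohc b x pre hpre hx n i h) = ohc b x pre hpre hx n i h ∧
      (famB b).ori (Θ α) (ohc b x pre hpre hx n i h)) → φ n α = id := by
    intro α n h
    funext y
    obtain ⟨⟨i, hi⟩, o⟩ := y
    by_cases hin : i < n ∧ x i = b
    · obtain ⟨h1, h2⟩ := h i hin
      have e1 : ohi b x pre hpre hx n (Θ α) i = i := by
        rw [ohi, dif_pos hin, h1]
        rfl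
      have e2 : oho b x pre hpre hx n (Θ α) i = false := by
        rw [oho, dif_pos hin, decide_eq_false_iff_not, not_not]
        exact h2
      simp only [φ, id]
      refine Prod.ext (Subtype.ext e1) ?_
      simp only
      rw [e2, Bool.xor_false]
    · have e1 : ohi b x pre hpre hx n (Θ α) i = i := by
        rw [ohi, dif_neg hin]
      have e2 : oho b x pre hpre hx n (Θ α) i = false := by
        rw [oho, dif_neg hin]
      simp only [φ, id]
      refine Prod.ext (Subtype.ext e1) ?_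
      simp only
      rw [e2, Bool.xor_false]
  have h1 : ∃ K, ∀ n ≥ K, φ n 1 = id := by
    refine ⟨0, fun n _ => hone 1 n fun i h => ?_⟩
    rw [map_one]
    refine ⟨rfl, ?_⟩
    have : (famB b).fn 1 (ohc b x pre hpre hx n i h) 0 = 0 := by
      unfold Fam.fn
      rw [dif_pos ((famB b).N_pos _)]
      rfl
    unfold Fam.ori
    rw [this]
    exact (famB b).N_pos _
  obtain ⟨ρ, hρ⟩ := hLIMHOM (MulAut (famB b).A) Y φ hev hmul h1
  refine ⟨Perm Y, inferInstance, inferInstance, ρ, ?_, ?_⟩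
  · intro g
    have hg : (famB b).inA (g : (famB b).P) := (hAMEM (famB b) _).mp g.2
    obtain ⟨R, hR⟩ := hLOCBDD (famB b) ((famB b).disp g) hg.2
    obtain ⟨K, hK⟩ := hρ (MulAut.conj g)
    have h2 := hone (MulAut.conj g) (K + 2 * R + 1) (by
      intro i h
      rw [hconj g]
      refine ⟨rfl, ?_⟩
      set c := ohc b x pre hpre hx (K + 2 * R + 1) i h with hc
      have e1 : (famB b).fn ((famB b).act (g : (famB b).P)) c 0 = (famB b).ev (g : (famB b).P) c 0 := by
        unfold Fam.fn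
        rw [dif_pos ((famB b).N_pos c), (famB b).ev_of_lt _ c 0 ((famB b).N_pos c)]
        rfl
      have h3 := abs_le.mp (hR c 0 ((famB b).N_pos c))
      have h4 := oh_N_gt (famB b) c
      have h5 : (famB b).n c = K + 2 * R + 1 := rfl
      unfold Fam.ori
      rw [e1]
      unfold Fam.disp at h3
      omega)
    ext y : 1
    have h3 := hK (K + 2 * R + 1) (by omega) y
    rw [h2] at h3
    exact h3.symm
  · intro α hcm hα
    obtain ⟨K, hK⟩ := hρ α
    refine ⟨K, ?_⟩
    intro c hc hbr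
    have hi := c.2.1
    have hd : c.1.2.1 = pre c.1.1 := by
      refine eq_of_testBit_lt c.2.2.1 (hpre _) fun j hj => ?_
      rw [hbr j hj, hx _ j hj]
    have hxi : x c.1.2.2 = b := by
      rw [← hbr _ hi]
      exact c.2.2.2
    have hcc : c = ohc b x pre hpre hx c.1.1 c.1.2.2 ⟨hi, hxi⟩ := by
      apply Subtype.ext
      exact Prod.ext rfl (Prod.ext hd rfl)
    have hcK : K ≤ c.1.1 := by
      have : K < c.1.1 := hc
      omega
    have h2 := hK c.1.1 hcK (⟨c.1.2.2, hxi⟩, false)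
    rw [hα] at h2
    have h3 : xor false (oho b x pre hpre hx c.1.1 (Θ α) c.1.2.2) = false := congrArg Prod.snd h2
    rw [Bool.false_xor, oho, dif_pos ⟨hi, hxi⟩, decide_eq_false_iff_not, not_not] at h3
    rw [hcc]
    exact h3

end OutRF
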