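import Mathlib

/-!
# The outer automorphism group
-/

namespace OutRF

/-- The group of inner automorphisms of `H`, i.e. the range of the conjugation homomorphism
`MulAut.conj : H →* MulAut H`, is normal in the automorphism group. -/
instance innNormal (H : Type) [Group H] : (MulAut.conj (G := H)).range.Normal := by
  constructor
  rintro _ ⟨g, rfl⟩ a
  exact ⟨a g, by ext x; simp⟩

/-- The outer automorphism group `Out H = Aut H / Inn H`. -/
abbrev Out (H : Type) [Group H] := MulAut H ⧸ (MulAut.conj (G := H)).range

end OutRF
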