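import Pool.Agent.Lib_MP_0c5939_al.Stmts2

/-!
# MP_0c5939_al, piece OutIso: Out is invariant under isomorphism

Proof:
e : H ≃* K gives MulAut.congr e : MulAut H ≃* MulAut K mapping conj h to conj (e h), so
QuotientGroup.congr gives Out H ≃* Out K. Group.ResiduallyFinite transfers along a MulEquiv (comap of finite
index subgroups; residuallyFinite_iff_exists_finiteIndex).
-/

namespace OutRF
open Equiv

theorem rf_of_mulEquiv {H K : Type} [Group H] [Group K] (e : H ≃* K)
    (h : Group.ResiduallyFinite H) : Group.ResiduallyFinite K := by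
  rw [Group.residuallyFinite_iff_exists_finiteIndex] at h ⊢
  intro g hg
  obtain ⟨L, hL, hgL⟩ := h (e.symm g) (fun h1 => hg (by
    rw [← e.apply_symm_apply g, h1, map_one]))
  refine ⟨L.comap e.symm.toMonoidHom, ?_, hgL⟩
  rw [Subgroup.finiteIndex_iff]
  rw [Subgroup.index_comap_of_surjective L (f := e.symm.toMonoidHom) e.symm.surjective]
  exact hL.index_ne_zero

theorem OUTISO : OUTISO_stmt := by
  intro H K _ _ e h
  have hmap : ((MulAut.conj (G := H)).range).map (MulAut.congr e).toMonoidHom =
      (MulAut.conj (G := K)).range := by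
    ext x
    constructor
    · rintro ⟨_, ⟨a, rfl⟩, rfl⟩
      refine ⟨e a, ?_⟩
      ext y
      simp [MulAut.conj_apply, MulAut.congr]
    · rintro ⟨b, rfl⟩
      refine ⟨MulAut.conj (e.symm b), ⟨e.symm b, rfl⟩, ?_⟩
      ext y
      simp [MulAut.conj_apply, MulAut.congr]
  exact rf_of_mulEquiv (QuotientGroup.congr _ _ (MulAut.congr e) hmap) h

end OutRF
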