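import Pool.Agent.Lib_MP_0c5939_al.Stmts

/-!
# MP_0c5939_al, piece PermHalf: an even permutation moving one half to a given set

Proof:
Fin (2m), S with card m. Choose an equivalence between {x | x < m} and S and between the complements
(cards equal), giving kappa0 with kappa0 x in S iff x < m (e.g. Equiv.extendSubtype or
Fintype.card_eq + Equiv.sumCompl). If kappa0 is even take it; otherwise kappa0 * swap 0 1 (m >= 2, so 0 and 1
are both < m).
-/

namespace OutRF
open Equiv

theorem PERMHALF : PERMHALF_stmt := by
  classical
  intro m S hm hS
  have hcard : Fintype.card {x : Fin (2 * m) // (x : ℕ) < m} = Fintype.card {x : Fin (2 * m) // x ∈ S} := by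
    have h1 : Fintype.card {x : Fin (2 * m) // x ∈ S} = m := by
      rw [Fintype.card_coe, hS]
    rw [h1]
    have h2 : Fintype.card (Fin m) = Fintype.card {x : Fin (2 * m) // (x : ℕ) < m} :=
      Fintype.card_congr
        { toFun := fun i => ⟨⟨i, by omega⟩, i.2⟩
          invFun := fun x => ⟨x.1, x.2⟩
          left_inv := fun i => rfl
          right_inv := fun x => rfl }
    rw [← h2, Fintype.card_fin]
  obtain ⟨e⟩ := Fintype.card_eq.1 hcard
  have hκ : ∀ x, e.extendSubtype x ∈ S ↔ (x : ℕ) < m := by
    intro x
    constructor
    · intro hx
      by_contra hcon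
      exact e.extendSubtype_not_mem x hcon hx
    · intro hx
      exact e.extendSubtype_mem x hx
  rcases Int.units_eq_one_or (Perm.sign e.extendSubtype) with hs | hs
  · exact ⟨e.extendSubtype, Perm.mem_alternatingGroup.2 hs, hκ⟩
  · have h01 : (⟨0, by omega⟩ : Fin (2 * m)) ≠ ⟨1, by omega⟩ := by simp [Fin.ext_iff]
    refine ⟨e.extendSubtype * swap ⟨0, by omega⟩ ⟨1, by omega⟩, ?_, fun x => ?_⟩
    · rw [Perm.mem_alternatingGroup, Perm.sign_mul, hs, Perm.sign_swap h01]
      decide
    · rw [Perm.mul_apply, hκ]
      by_cases h0 : x = ⟨0, by omega⟩
      · subst h0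
        rw [swap_apply_left]
        constructor
        · intro _
          change 0 < m
          omega
        · intro _
          change 1 < m
          omega
      · by_cases h1 : x = ⟨1, by omega⟩
        · subst h1
          rw [swap_apply_right]
          constructor
          · intro _
            change 1 < m
            omega
          · intro _
            change 0 < m
            omega
        · rw [swap_apply_of_ne_of_ne h0 h1]

end OutRF
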