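import Pool.Agent.Lib_MP_0c5939_al.Stmts2

/-!
# MP_0c5939_al, piece Pre: preimages of local sets are local

Proof:
For w < N c (only these matter, LocAt quantifies over w < N c): E (cm) (fn) iff exists x < 16,
(E .. and fn % 16 = x) iff exists x < 16, both ev g_x (cm) (fn) != fn and ev g'_x (cm)(fn) != fn (SUPP, fn < N(cm) by
NZN). By NZ clause 2 there is g1 with inA g1, act g1 = pi^-1 * act g_x * pi; then ev g_x (cm pi c) (fn pi c w) != fn iff
act g_x (pi <c,w>) != pi <c,w> iff act g1 <c,w> != <c,w> iff ev g1 c w != w iff disp g1 c w != 0: local (as a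
function of (c,w), LOCCOMB). Combine the 16 values of x with LOCCOMB (finite or / induction).
-/

namespace OutRF
open Equiv

theorem act_fix_iff (F : Fam) (g : F.P) (y : F.Om) :
    F.act g y = y ↔ F.ev g y.1 (y.2 : ℕ) = (y.2 : ℕ) := by
  obtain ⟨c, x⟩ := y
  rw [F.act_apply, F.ev_of_lt g c x x.2]
  constructor
  · intro h
    have h1 : g c x = x := by
      have := (Sigma.mk.inj_iff.1 h).2
      exact eq_of_heq this
    show ((g c ⟨(x : ℕ), x.2⟩ : Fin _) : ℕ) = x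
    rw [Fin.eta, h1]
  · intro h
    have h1 : g c x = x := by
      apply Fin.ext
      exact h
    rw [h1]

theorem conj_ev_iff (F : Fam) (π : Perm F.Om) (hcm : ∀ c w (h : w < F.N c), (π ⟨c, ⟨w, h⟩⟩).1 = F.cm π c)
    (g g₁ : F.P) (h1 : F.act g₁ = π⁻¹ * F.act g * π) (c : F.C) (w : ℕ) (hw : w < F.N c) :
    F.ev g (F.cm π c) (F.fn π c w) ≠ F.fn π c w ↔ F.disp g₁ c w ≠ 0 := by
  apply not_congr
  have e1 : (π ⟨c, ⟨w, hw⟩⟩).1 = F.cm π c := hcm c w hw
  have e2 : ((π ⟨c, ⟨w, hw⟩⟩).2 : ℕ) = F.fn π c w := by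
    unfold Fam.fn
    rw [dif_pos hw]
  rw [← e2, ← e1, ← act_fix_iff]
  have e3 : F.act g₁ ⟨c, ⟨w, hw⟩⟩ = ⟨c, ⟨w, hw⟩⟩ ↔ F.act g (π ⟨c, ⟨w, hw⟩⟩) = π ⟨c, ⟨w, hw⟩⟩ := by
    rw [h1]
    simp only [Perm.mul_apply]
    rw [Perm.inv_eq_iff_eq]
  rw [← e3, act_fix_iff]
  unfold Fam.disp
  constructor
  · intro h
    have : F.ev g₁ c w = w := h
    rw [this]; simp
  · intro h
    show F.ev g₁ c w = w
    omega

theorem PRE (hNZN : NZN_stmt) (hSUPP : SUPP_stmt) (hLOCCOMB : LOCCOMB_stmt) (hLOCBASIC : LOCBASIC_stmt) : PRE_stmt := by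
  intro F π hπ E hE
  obtain ⟨_, hcm, hfn, _, _⟩ := hNZN F π hπ
  have key : ∀ x : ℕ, ∃ D : F.C → ℕ → Prop, F.Loc D ∧ (x < 16 → ∀ c w, w < F.N c →
      (D c w ↔ (E (F.cm π c) (F.fn π c w) ∧ F.fn π c w % 16 = x))) := by
    intro x
    by_cases hx : x < 16
    · obtain ⟨g, g', hg, hg', H⟩ := hSUPP F E x hx hE
      obtain ⟨g1, hg1, e1⟩ := hπ.2.1 g hg
      obtain ⟨g2, hg2, e2⟩ := hπ.2.1 g' hg'
      refine ⟨fun c w => F.disp g1 c w ≠ 0 ∧ F.disp g2 c w ≠ 0, ?_, ?_⟩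
      · exact hLOCCOMB F ℤ ℤ Prop (F.disp g1) (F.disp g2) (fun a b => a ≠ 0 ∧ b ≠ 0) hg1.2 hg2.2
      · intro _ c w hw
        rw [H (F.cm π c) (F.fn π c w) (hfn c w hw),
          conj_ev_iff F π hcm g g1 e1 c w hw, conj_ev_iff F π hcm g' g2 e2 c w hw]
    · exact ⟨fun _ _ => True, (hLOCBASIC F).2.2.2.2.2 True, fun h => absurd h hx⟩
  choose D hD1 hD2 using key
  have hU : ∀ n : ℕ, F.Loc (fun c w => ∃ x < n, D x c w) := by
    intro n
    induction n with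
    | zero =>
      have := (hLOCBASIC F).2.2.2.2.2 False
      obtain ⟨k, hk⟩ := this
      refine ⟨k, ?_⟩
      intro c c' w w' _ _ _ _ _
      simp
    | succ n ih =>
      have h1 := hLOCCOMB F Prop Prop Prop _ (D n) (fun a b => a ∨ b) ih (hD1 n)
      have : (fun (c : F.C) (w : ℕ) => ∃ x < n + 1, D x c w) =
          (fun c w => (∃ x < n, D x c w) ∨ D n c w) := by
        funext c w
        apply propext
        constructor
        · rintro ⟨x, hx, h⟩
          rcases Nat.lt_succ_iff_lt_or_eq.1 hx with h2 | h2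
          · exact Or.inl ⟨x, h2, h⟩
          · subst h2; exact Or.inr h
        · rintro (⟨x, hx, h⟩ | h)
          · exact ⟨x, by omega, h⟩
          · exact ⟨n, by omega, h⟩
      rw [this]
      exact h1
  obtain ⟨k, hk⟩ := hU 16
  refine ⟨k, ?_⟩
  have heq : ∀ c w, w < F.N c → (E (F.cm π c) (F.fn π c w)) = (∃ x < 16, D x c w) := by
    intro c w hw
    apply propext
    constructor
    · intro h
      exact ⟨F.fn π c w % 16, Nat.mod_lt _ (by norm_num),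
        (hD2 _ (Nat.mod_lt _ (by norm_num)) c w hw).2 ⟨h, rfl⟩⟩
    · rintro ⟨x, hx, h⟩
      exact ((hD2 x hx c w hw).1 h).1
  intro c c' w w' hc hc' hw hw' hkey
  show E (F.cm π c) (F.fn π c w) = E (F.cm π c') (F.fn π c' w')
  rw [heq c w hw, heq c' w' hw']
  exact hk c c' w w' hc hc' hw hw' hkey

end OutRF
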