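import Pool.Agent.Lib_MP_0c5939_al.Stmts

/-!
# MP_0c5939_al, piece Prop1: propagation of the offset

Proof:
PROP: theta in blk, T theta 0 in Gam. T theta 0 = app 5 Z (c3 5 0), Z = {(c,p) in theta} (p+5 <= N because
16 | p, 16 | N, p < N; F.sixteen_dvd_N), residues 0. CONJ5 (c3 5 0 != 1, even) gives app 5 Z (c3 5 1) =
T theta 1 in Gam. Step x -> x+2 (x+2 < 16): COMM with theta' = blk (UNIV) and c' = c3 5 2 gives
app 5 {p+x | p in theta, p+x+5 <= N} (c3 5 2) = T theta (x+2) (theta inter blk = theta; positions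
pos theta (x+2) = {p+x+2 | p+x+2+3 <= N}). Induction gives all x < 16.
(app 3 (P+j) (finRotate 3) = app 5 P (c3 5 j) by IsApp.unique.)
RBASE: base is contained in blk, and T (base ..) x in gens (x : Fin 16).
-/

namespace OutRF
open Equiv

theorem prop1_c3_in : ∀ (j i : Fin 3) , ((c3 5 j (by omega)) ⟨(j : ℕ) + i, by omega⟩ : ℕ) =
    (j : ℕ) + (finRotate 3 i : ℕ) := by decide

theorem prop1_c3_out : ∀ (j : Fin 3) (r : Fin 5), ¬ ((j : ℕ) ≤ r ∧ (r : ℕ) < j + 3) →
    ((c3 5 j (by omega)) r : ℕ) = r := by decide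

/-- a 3-cycle in a 5-window is a uniform application with windows of length 3 -/
theorem Fam.prop1_app35 (F : Fam) (hAPP : APP_stmt) (Z P : Set (F.C × ℕ)) (j : ℕ) (hj : j + 2 < 5)
    (hZ : F.Valid 5 Z) (hP : ∀ c p, (c, p) ∈ P ↔ ∃ q, (c, q) ∈ Z ∧ p = q + j) :
    F.app 3 P (finRotate 3) = F.app 5 Z (c3 5 j hj) := by
  have hP3 : F.Valid 3 P := by
    constructor
    · intro c p hp
      obtain ⟨q, hq, rfl⟩ := (hP c p).1 hp
      have := hZ.1 c q hq
      omega
    · intro c p p' hp hp' hlt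
      obtain ⟨q, hq, rfl⟩ := (hP c p).1 hp
      obtain ⟨q', hq', rfl⟩ := (hP c p').1 hp'
      have := hZ.2 c q q' hq hq' (by omega)
      omega
  have h1 := hAPP F 3 P (finRotate 3) hP3
  have h2 := hAPP F 5 Z (c3 5 j hj) hZ
  refine (h2.unique (⟨?_, ?_⟩ : F.IsApp 5 Z (c3 5 j hj) (F.app 3 P (finRotate 3)))).symm
  · intro c q hq r
    by_cases hr : j ≤ (r : ℕ) ∧ (r : ℕ) < j + 3
    · have h3 := h1.1 c (q + j) ((hP c (q + j)).2 ⟨q, hq, rfl⟩) ⟨(r : ℕ) - j, by omega⟩
      simp only [show q + j + ((r : ℕ) - j) = q + r by omega] at h3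
      rw [h3]
      have h4 := prop1_c3_in ⟨j, by omega⟩ ⟨(r : ℕ) - j, by omega⟩
      simp only [show j + ((r : ℕ) - j) = r by omega, Fin.eta] at h4
      rw [h4]
      omega
    · have h3 : F.ev (F.app 3 P (finRotate 3)) c (q + r) = q + r := by
        apply h1.2
        intro p hp hw
        obtain ⟨q', hq', rfl⟩ := (hP c p).1 hp
        rcases lt_trichotomy q q' with h | h | h
        · have := hZ.2 c q q' hq hq' h
          have := r.2
          omega
        · subst h
          exact hr (by omega)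
        · have := hZ.2 c q' q hq' hq h
          omega
      rw [h3]
      have h4 := prop1_c3_out ⟨j, by omega⟩ r hr
      simp only at h4
      rw [h4]
  · intro c w hw
    apply h1.2
    intro p hp hpw
    obtain ⟨q', hq', rfl⟩ := (hP c p).1 hp
    exact hw q' hq' (by omega)

theorem prop1_c3_mem_alt (j : ℕ) (hj : j + 2 < 5) : c3 5 j hj ∈ alternatingGroup (Fin 5) := by
  have hj' : j = 0 ∨ j = 1 ∨ j = 2 := by omega
  rw [Perm.mem_alternatingGroup]
  rcases hj' with rfl | rfl | rfl <;> decide +revert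

theorem prop1_c3_ne_one (j : ℕ) (hj : j + 2 < 5) : c3 5 j hj ≠ 1 := by
  have hj' : j = 0 ∨ j = 1 ∨ j = 2 := by omega
  rcases hj' with rfl | rfl | rfl <;> decide +revert

theorem PROP (hAPP : APP_stmt) (hUNIV : UNIV_stmt) (hCONJ5 : CONJ5_stmt) (hCOMM : COMM_stmt) : PROP_stmt := by
  intro F θ hθ h0
  refine ⟨hθ, ?_⟩
  have hroom : ∀ c p, (c, p) ∈ θ → 16 ∣ p ∧ p + 16 ≤ F.N c := by
    intro c p hp
    have h1 := hθ hp
    have h2 := F.sixteen_dvd_N c
    have h3 : 16 ∣ p := h1.1
    have h4 : p < F.N c := h1.2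
    exact ⟨h3, by omega⟩
  have hV : F.Valid 5 θ := by
    constructor
    · intro c p hp
      have := hroom c p hp
      omega
    · intro c p q hp hq hlt
      have := hroom c p hp
      have := hroom c q hq
      omega
  have hpos : ∀ j (hj : j + 2 < 5), F.T θ j = F.app 5 θ (c3 5 j hj) := by
    intro j hj
    apply F.prop1_app35 hAPP θ (F.pos θ j) j hj hV
    intro c p
    constructor
    · rintro ⟨q, hq, e1, _⟩
      exact ⟨q, hq, e1⟩
    · rintro ⟨q, hq, e1⟩
      have := hroom c q hq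
      exact ⟨q, hq, e1, by simp only; omega⟩
  have h1 : F.T θ 1 ∈ F.Gam := by
    rw [hpos 1 (by omega)]
    rw [hpos 0 (by omega)] at h0
    refine hCONJ5 F θ 0 ?_ _ (prop1_c3_mem_alt 0 (by omega)) (prop1_c3_ne_one 0 (by omega)) h0 _
      (prop1_c3_mem_alt 1 (by omega))
    intro q hq
    have := hroom q.1 q.2 hq
    omega
  have step : ∀ x, x + 2 < 16 → F.T θ x ∈ F.Gam → F.T θ (x + 2) ∈ F.Gam := by
    intro x hx hT
    have h2 := hCOMM F θ F.blk x hθ (Set.Subset.refl _) hx hT (hUNIV F (x + 2) hx) (c3 5 2 (by omega))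
      (prop1_c3_mem_alt 2 (by omega))
    rw [← F.prop1_app35 hAPP _ (F.pos θ (x + 2)) 2 (by omega)] at h2
    · exact h2
    · constructor
      · rintro c p ⟨q, hq, e1, e2⟩
        simp only at e1 e2
        omega
      · rintro c p p' ⟨q, hq, e1, e2⟩ ⟨q', hq', e3, e4⟩ hlt
        have a := hroom c q hq.1
        have b := hroom c q' hq'.1
        simp only at e1 e2 e3 e4
        omega
    · intro c p
      constructor
      · rintro ⟨q, hq, e1, e2⟩
        simp only at e1 e2 hq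
        exact ⟨q + x, ⟨q, ⟨hq, hθ hq⟩, rfl, by simp only; omega⟩, by omega⟩
      · rintro ⟨q, ⟨q', hq', e1, e2⟩, e3⟩
        simp only at e1 e2 hq'
        exact ⟨q', hq'.1, by simp only; omega, by simp only; omega⟩
  intro x
  induction x using Nat.strong_induction_on with
  | _ x ih =>
    intro hx
    match x, ih, hx with
    | 0, _, _ => exact h0
    | 1, _, _ => exact h1
    | x + 2, ih, hx => exact step x hx (ih x (by omega) (by omega))

theorem RBASE : RBASE_stmt := by
  intro F σ t f l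
  refine ⟨fun q hq => ⟨hq.1, hq.2.1⟩, ?_⟩
  intro x hx
  apply Subgroup.subset_closure
  exact ⟨σ, t, f, l, ⟨x, hx⟩, rfl⟩

end OutRF
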