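import Pool.Agent.Lib_MP_0c5939_al.AppLem

/-!
# MP_0c5939_al, piece RInt: Boolean closure of Rm

Proof:
RINT: COMM (x = 0, theta, theta') with c' = c3 5 0: app 5 {p | p in theta inter theta', p+5 <= N} (c3 5 0) =
T (theta inter theta') 0 (p+5 <= N automatic as 16 | p, 16 | N c, p < N c). Then PROP.
RDIFF: T theta 0 = T (theta \ theta') 0 * T (theta inter theta') 0 (disjoint windows, IsApp.unique), so
T (theta \ theta') 0 in Gam; PROP. RUNION: T (theta union theta') 0 = T (theta \ theta') 0 * T theta' 0.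
-/

namespace OutRF
open Equiv

theorem RINT (hAPP : APP_stmt) (hCOMM : COMM_stmt) (hPROP : PROP_stmt) : RINT_stmt := by
  intro F θ θ' h h'
  have hsub : θ ∩ θ' ⊆ F.blk := fun q hq => h.1 hq.1
  apply hPROP F _ hsub
  have h1 := hCOMM F θ θ' 0 h.1 h'.1 (by norm_num) (h.2 0 (by norm_num)) (h'.2 2 (by norm_num))
    (c3 5 0 (by norm_num)) (c3_mem_alt 5 0 (by norm_num))
  rw [Fam.T_eq_app5 hAPP hsub (j := 0) (by norm_num) ?_ ?_]
  · exact h1
  · intro c p hp _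
    have h2 := Fam.blk_add (hsub hp)
    refine ⟨Nat.zero_le _, p, hp, ?_, ?_⟩
    · simp
    · simp only
      omega
  · rintro c z ⟨p, hp, h2, h3⟩
    simp only at hp h2 h3
    exact ⟨by omega, p, hp, h2.symm⟩

theorem RDIFF (hAPP : APP_stmt) (hRINT : RINT_stmt) (hPROP : PROP_stmt) : RDIFF_stmt := by
  intro F θ θ' h h'
  have hsub : θ \ θ' ⊆ F.blk := fun q hq => h.1 hq.1
  have hsub2 : θ ∩ θ' ⊆ F.blk := fun q hq => h.1 hq.1
  apply hPROP F _ hsub
  have hI := (hRINT F θ θ' h h').2 0 (by norm_num)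
  have hU := Fam.T_union hAPP hsub hsub2 (Set.disjoint_left.2 fun q h1 h2 => h1.2 h2.2) 0
  rw [Set.sdiff_union_inter] at hU
  have h1 : F.T (θ \ θ') 0 = F.T θ 0 * (F.T (θ ∩ θ') 0)⁻¹ := by rw [hU, mul_inv_cancel_right]
  rw [h1]
  exact mul_mem (h.2 0 (by norm_num)) (inv_mem hI)

theorem RUNION (hAPP : APP_stmt) (hRDIFF : RDIFF_stmt) (hPROP : PROP_stmt) : RUNION_stmt := by
  intro F θ θ' h h'
  have hsub : θ ∪ θ' ⊆ F.blk := Set.union_subset h.1 h'.1
  have hsub2 : θ \ θ' ⊆ F.blk := fun q hq => h.1 hq.1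
  apply hPROP F _ hsub
  have hU := Fam.T_union hAPP hsub2 h'.1 (Set.disjoint_left.2 fun q h1 h2 => h1.2 h2) 0
  rw [Set.sdiff_union_self] at hU
  rw [hU]
  exact mul_mem ((hRDIFF F θ θ' h h').2 0 (by norm_num)) (h'.2 0 (by norm_num))

end OutRF
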