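import Pool.Agent.Lib_MP_0c5939_al.AppLem

/-!
# MP_0c5939_al, piece RShift: shift closure of Rm

Proof:
RSHF: T theta 15 in Gam. pos theta 15 = {p+15 | p in theta, p+18 <= N} = {p+15 | p in theta, p+16 < N}
(16 | N, 16 | p; then p+32 <= N). With Z = {(c,p+15) | (c,p) in theta, p+16 < N c} (residue 15, p+15+5 <= N)
T theta 15 = app 5 Z (c3 5 0); by CONJ5 app 5 Z (c3 5 1) in Gam, and this is T theta_s 0 where theta_s = the shifted
set {p+16}. PROP.
RSHB: let Fst = union over sigma t l of base sigma t true l = {(c,0)}: Rm Fst by RBASE, RUNION (finite union;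
T of empty set = 1 or use diff). Rm (theta \ Fst) by RDIFF. T (theta \ Fst) 0 = app 5 Z (c3 5 1) with
Z = {(c,p+15) | (c,p+16) in theta} (residue 15, p + 20 <= N since p+16 < N), so app 5 Z (c3 5 0) in Gam, i.e.
T theta_b 15 in Gam with theta_b = {q | (q.1, q.2+16) in theta} (all p in theta_b satisfy p + 32 <= N).
Descent: for x in {13, 11, .., 1}: T theta_b (x+2) = app 5 {p+x} (c3 5 2) (p + x + 5 <= p+18 <= N), so
CONJ5 gives app 5 {p+x} (c3 5 0) = T theta_b x. Finally T theta_b 1 = app 5 {p} (c3 5 1) gives T theta_b 0. PROP.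
theta_b contained in blk: 16 | q.2 + 16 so 16 | q.2.
-/

namespace OutRF
open Equiv

theorem RSHF (hAPP : APP_stmt) (hCONJ5 : CONJ5_stmt) (hPROP : PROP_stmt) : RSHF_stmt := by
  intro F θ h
  have hN : ∀ c p, (c, p) ∈ θ → p + 16 < F.N c → 16 ∣ p ∧ p + 32 ≤ F.N c := by
    intro c p hp h1
    have h2 := (h.1 hp).1
    have h3 := F.sixteen_dvd_N c
    simp only at h2
    exact ⟨h2, by omega⟩
  have hsub : {q : F.C × ℕ | ∃ p, (q.1, p) ∈ θ ∧ q.2 = p + 16 ∧ p + 16 < F.N q.1} ⊆ F.blk := by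
    rintro ⟨c, w⟩ ⟨p, h1, h2, h3⟩
    simp only at h1 h2 h3
    have h4 := hN c p h1 h3
    refine ⟨?_, ?_⟩
    · simp only
      omega
    · simp only
      omega
  apply hPROP F _ hsub
  let Z : Set (F.C × ℕ) := {q | ∃ p, (q.1, p) ∈ θ ∧ q.2 = p + 15 ∧ p + 16 < F.N q.1}
  have hZ : ∀ q ∈ Z, q.2 % 16 = 15 ∧ q.2 + 5 ≤ F.N q.1 := by
    rintro ⟨c, w⟩ ⟨p, h1, h2, h3⟩
    simp only at h1 h2 h3
    have h4 := hN c p h1 h3
    simp only
    omega
  have e1 : F.T θ 15 = F.app 5 Z (c3 5 0 (by norm_num)) := by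
    apply Fam.T_eq_app5 hAPP h.1
    · intro c p hp h3
      refine ⟨by omega, p, hp, by simp, ?_⟩
      simp only
      omega
    · intro c z hz
      refine ⟨(hZ _ hz).2, ?_⟩
      obtain ⟨p, h1, h2, h3⟩ := hz
      exact ⟨p, h1, h2.symm⟩
  have e2 : F.T {q : F.C × ℕ | ∃ p, (q.1, p) ∈ θ ∧ q.2 = p + 16 ∧ p + 16 < F.N q.1} 0 =
      F.app 5 Z (c3 5 1 (by norm_num)) := by
    apply Fam.T_eq_app5 hAPP hsub
    · rintro c p ⟨p', h1, h2, h3⟩ _
      simp only at h1 h2 h3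
      refine ⟨by omega, p', h1, ?_, h3⟩
      simp only
      omega
    · intro c z hz
      refine ⟨(hZ _ hz).2, ?_⟩
      obtain ⟨p, h1, h2, h3⟩ := hz
      simp only at h1 h2 h3
      refine ⟨p + 16, ⟨p, h1, rfl, h3⟩, by omega⟩
  rw [e2]
  refine hCONJ5 F Z 15 hZ (c3 5 0 (by norm_num)) (c3_mem_alt _ _ _) (c3_ne_one _ _) ?_ _
    (c3_mem_alt _ _ _)
  rw [← e1]
  exact h.2 15 (by norm_num)

theorem rm_diff_fst (hRBASE : RBASE_stmt) (hRDIFF : RDIFF_stmt) (F : Fam) (θ : Set (F.C × ℕ))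
    (h : F.Rm θ) : F.Rm {q | q ∈ θ ∧ q.2 ≠ 0} := by
  have hfin : ∀ s : Finset ((Bool × Bool) × Fin 3 × Bool),
      F.Rm {q | q ∈ θ ∧ ∀ i ∈ s, q ∉ F.base i.1 i.2.1 true i.2.2} := by
    intro s
    induction s using Finset.induction_on with
    | empty => simpa using h
    | insert i s _ ih =>
      have h1 := hRDIFF F _ _ ih (hRBASE F i.1 i.2.1 true i.2.2)
      have h2 : ({q | q ∈ θ ∧ ∀ i ∈ s, q ∉ F.base i.1 i.2.1 true i.2.2} \
          F.base i.1 i.2.1 true i.2.2 : Set (F.C × ℕ)) =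
          {q | q ∈ θ ∧ ∀ j ∈ insert i s, q ∉ F.base j.1 j.2.1 true j.2.2} := by
        ext q
        simp only [Set.mem_diff, Set.mem_setOf_eq, Finset.mem_insert, forall_eq_or_imp]
        tauto
      rw [h2] at h1
      exact h1
  have h3 := hfin Finset.univ
  have h4 : ({q | q ∈ θ ∧ ∀ i ∈ (Finset.univ : Finset ((Bool × Bool) × Fin 3 × Bool)),
      q ∉ F.base i.1 i.2.1 true i.2.2} : Set (F.C × ℕ)) = {q | q ∈ θ ∧ q.2 ≠ 0} := by
    ext q
    simp only [Finset.mem_univ, true_implies, Set.mem_setOf_eq]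
    constructor
    · rintro ⟨h5, h6⟩
      refine ⟨h5, fun h7 => ?_⟩
      have h8 := h.1 h5
      refine h6 ⟨F.s q.1 0, ⟨F.typ q.1 1 q.2, by have := F.typ_le q.1 1 q.2; omega⟩,
        decide (q.2 + 16 = F.N q.1)⟩ ⟨h8.1, h8.2, rfl, rfl, ?_, rfl⟩
      simp [h7]
    · rintro ⟨h5, h6⟩
      refine ⟨h5, ?_⟩
      rintro i ⟨_, _, _, _, h7, _⟩
      simp only [decide_eq_true_eq] at h7
      exact h6 h7
  rw [h4] at h3
  exact h3

theorem RSHB (hAPP : APP_stmt) (hCONJ5 : CONJ5_stmt) (hPROP : PROP_stmt) (hRBASE : RBASE_stmt) (hRUNION : RUNION_stmt) (hRDIFF : RDIFF_stmt) : RSHB_stmt := by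
  intro F θ h
  have h0 := rm_diff_fst hRBASE hRDIFF F θ h
  have hN : ∀ c p, (c, p + 16) ∈ θ → 16 ∣ p ∧ p + 32 ≤ F.N c := by
    intro c p hp
    have h1 := (h.1 hp).1
    have h2 := (h.1 hp).2
    have h3 := F.sixteen_dvd_N c
    simp only at h1 h2
    constructor
    · omega
    · omega
  have hsub : {q : F.C × ℕ | (q.1, q.2 + 16) ∈ θ} ⊆ F.blk := by
    rintro ⟨c, w⟩ h1
    have h4 := hN c w h1
    refine ⟨h4.1, ?_⟩
    simp only
    omega
  apply hPROP F _ hsub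
  -- offset 15
  let Z : Set (F.C × ℕ) := {q | ∃ p, (q.1, p + 16) ∈ θ ∧ q.2 = p + 15}
  have hZ : ∀ q ∈ Z, q.2 % 16 = 15 ∧ q.2 + 5 ≤ F.N q.1 := by
    rintro ⟨c, w⟩ ⟨p, h1, h2⟩
    simp only at h1 h2
    have h4 := hN c p h1
    simp only
    omega
  have e1 : F.T {q | q ∈ θ ∧ q.2 ≠ 0} 0 = F.app 5 Z (c3 5 1 (by norm_num)) := by
    apply Fam.T_eq_app5 hAPP h0.1
    · rintro c p ⟨h1, h2⟩ _
      simp only at h1 h2
      have h3 := (h.1 h1).1
      simp only at h3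
      refine ⟨by omega, p - 16, ?_, ?_⟩
      · simp only
        rw [show p - 16 + 16 = p by omega]
        exact h1
      · simp only
        omega
    · intro c z hz
      refine ⟨(hZ _ hz).2, ?_⟩
      obtain ⟨p, h1, h2⟩ := hz
      simp only at h1 h2
      refine ⟨p + 16, ⟨h1, by simp⟩, by omega⟩
  have e2 : F.T {q : F.C × ℕ | (q.1, q.2 + 16) ∈ θ} 15 = F.app 5 Z (c3 5 0 (by norm_num)) := by
    apply Fam.T_eq_app5 hAPP hsub
    · intro c p hp _
      exact ⟨by omega, p, hp, by simp⟩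
    · intro c z hz
      refine ⟨(hZ _ hz).2, ?_⟩
      obtain ⟨p, h1, h2⟩ := hz
      simp only at h1 h2
      exact ⟨p, h1, h2.symm⟩
  have h15 : F.T {q : F.C × ℕ | (q.1, q.2 + 16) ∈ θ} 15 ∈ F.Gam := by
    rw [e2]
    refine hCONJ5 F Z 15 hZ (c3 5 1 (by norm_num)) (c3_mem_alt _ _ _) (c3_ne_one _ _) ?_ _
      (c3_mem_alt _ _ _)
    rw [← e1]
    exact h0.2 0 (by norm_num)
  -- descent
  have step : ∀ x y j : ℕ, x ≤ y → y = x + j → (hj : j + 2 < 5) → x < 14 →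
      F.T {q : F.C × ℕ | (q.1, q.2 + 16) ∈ θ} y ∈ F.Gam →
      F.T {q : F.C × ℕ | (q.1, q.2 + 16) ∈ θ} x ∈ F.Gam := by
    intro x y j hxy hy hj hx hT
    let Y : Set (F.C × ℕ) := {q | ∃ p, (q.1, p + 16) ∈ θ ∧ q.2 = p + x}
    have hY : ∀ q ∈ Y, q.2 % 16 = x ∧ q.2 + 5 ≤ F.N q.1 := by
      rintro ⟨c, w⟩ ⟨p, h1, h2⟩
      simp only at h1 h2
      have h4 := hN c p h1
      simp only
      omega
    have d1 : F.T {q : F.C × ℕ | (q.1, q.2 + 16) ∈ θ} y = F.app 5 Y (c3 5 j hj) := by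
      apply Fam.T_eq_app5 hAPP hsub
      · intro c p hp _
        refine ⟨by omega, p, hp, ?_⟩
        simp only
        omega
      · intro c z hz
        refine ⟨(hY _ hz).2, ?_⟩
        obtain ⟨p, h1, h2⟩ := hz
        simp only at h1 h2
        exact ⟨p, h1, by omega⟩
    have d2 : F.T {q : F.C × ℕ | (q.1, q.2 + 16) ∈ θ} x = F.app 5 Y (c3 5 0 (by norm_num)) := by
      apply Fam.T_eq_app5 hAPP hsub
      · intro c p hp _
        exact ⟨by omega, p, hp, by simp⟩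
      · intro c z hz
        refine ⟨(hY _ hz).2, ?_⟩
        obtain ⟨p, h1, h2⟩ := hz
        simp only at h1 h2
        exact ⟨p, h1, by omega⟩
    rw [d2]
    refine hCONJ5 F Y x hY (c3 5 j hj) (c3_mem_alt _ _ _) (c3_ne_one _ _) ?_ _
      (c3_mem_alt _ _ _)
    rw [← d1]
    exact hT
  have h13 := step 13 15 2 (by norm_num) rfl (by norm_num) (by norm_num) h15
  have h11 := step 11 13 2 (by norm_num) rfl (by norm_num) (by norm_num) h13
  have h9 := step 9 11 2 (by norm_num) rfl (by norm_num) (by norm_num) h11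
  have h7 := step 7 9 2 (by norm_num) rfl (by norm_num) (by norm_num) h9
  have h5 := step 5 7 2 (by norm_num) rfl (by norm_num) (by norm_num) h7
  have h3 := step 3 5 2 (by norm_num) rfl (by norm_num) (by norm_num) h5
  have h1 := step 1 3 2 (by norm_num) rfl (by norm_num) (by norm_num) h3
  exact step 0 1 1 (by norm_num) rfl (by norm_num) (by norm_num) h1

end OutRF
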