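import Pool.Agent.Lib_MP_0c5939_al.Stmts

/-!
# MP_0c5939_al, piece Rec: every local set of block starts is generated
-/

namespace OutRF
open Equiv

namespace RecPiece

variable {F : Fam}

theorem bgen_blk {a : Set (F.C × ℕ)} (h : F.Bgen a) : a ⊆ F.blk := by
  induction h with
  | base σ t f l =>
    rintro q ⟨h1, h2, _⟩
    exact ⟨h1, h2⟩
  | inter _ _ ih1 _ =>
    intro q hq
    exact ih1 hq.1
  | diff _ _ ih1 _ =>
    intro q hq
    exact ih1 hq.1
  | union _ _ ih1 ih2 =>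
    intro q hq
    rcases hq with hq | hq
    · exact ih1 hq
    · exact ih2 hq
  | shf _ ih =>
    rintro q ⟨p, h1, h2, h3⟩
    have := (ih h1).1
    simp only at this
    exact ⟨by rw [h2]; exact Dvd.dvd.add this (dvd_refl 16), by rw [h2]; exact h3⟩
  | shb _ ih =>
    intro q hq
    have h1 := (ih hq).1
    have h2 := (ih hq).2
    simp only at h1 h2
    exact ⟨by omega, by omega⟩

theorem bgen_empty : F.Bgen (∅ : Set (F.C × ℕ)) := by
  have h := Fam.Bgen.diff (F := F) (Fam.Bgen.base (false, false) 0 false false)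
    (Fam.Bgen.base (false, false) 0 false false)
  rwa [Set.sdiff_self] at h

theorem bgen_iUnion {ι : Type} (s : Set ι) (hs : s.Finite) (f : ι → Set (F.C × ℕ))
    (h : ∀ i ∈ s, F.Bgen (f i)) : F.Bgen (⋃ i ∈ s, f i) := by
  induction s, hs using Set.Finite.induction_on with
  | empty => simpa using bgen_empty
  | @insert a s _ _ ih =>
    rw [Set.biUnion_insert]
    exact Fam.Bgen.union (h a (Set.mem_insert _ _)) (ih (fun i hi => h i (Set.mem_insert_of_mem _ hi)))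

theorem bgen_shift {a : Set (F.C × ℕ)} (h : F.Bgen a) (m : ℕ) :
    F.Bgen {q | ∃ p, (q.1, p) ∈ a ∧ q.2 = p + 16 * m ∧ q.2 < F.N q.1} := by
  induction m with
  | zero =>
    have : {q : F.C × ℕ | ∃ p, (q.1, p) ∈ a ∧ q.2 = p + 16 * 0 ∧ q.2 < F.N q.1} = a := by
      ext q
      constructor
      · rintro ⟨p, h1, h2, _⟩
        have : p = q.2 := by omega
        rw [this] at h1
        exact h1
      · intro hq
        exact ⟨q.2, hq, by omega, (bgen_blk h hq).2⟩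
    rw [this]; exact h
  | succ m ih =>
    have h1 := Fam.Bgen.shf ih
    have : {q : F.C × ℕ | ∃ p, (q.1, p) ∈ {q : F.C × ℕ | ∃ p, (q.1, p) ∈ a ∧ q.2 = p + 16 * m ∧
        q.2 < F.N q.1} ∧ q.2 = p + 16 ∧ p + 16 < F.N q.1} =
        {q | ∃ p, (q.1, p) ∈ a ∧ q.2 = p + 16 * (m + 1) ∧ q.2 < F.N q.1} := by
      ext q
      constructor
      · rintro ⟨p, ⟨p', h2, h3, h4⟩, h5, h6⟩
        simp only at h2 h3 h4
        exact ⟨p', h2, by omega, by omega⟩
      · rintro ⟨p', h2, h3, h4⟩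
        refine ⟨p' + 16 * m, ⟨p', h2, rfl, ?_⟩, by omega, by omega⟩
        show p' + 16 * m < F.N q.1
        omega
    rw [this] at h1
    exact h1

/-- extension of symbols -/
def ext (k : ℕ) (σ : Fin k → Bool × Bool) (j : ℕ) : Bool × Bool :=
  if h : j < k then σ ⟨j, h⟩ else (false, false)

theorem ext_eq (k : ℕ) (σ : Fin k → Bool × Bool) (u : ℕ → Bool × Bool)
    (h : ∀ j : Fin k, u j = σ j) : ∀ j < k, u j = ext k σ j := by
  intro j hj
  unfold ext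
  rw [dif_pos hj]
  exact h ⟨j, hj⟩

theorem ext_eq' (k : ℕ) (σ : Fin k → Bool × Bool) (u : ℕ → Bool × Bool)
    (h : ∀ j < k, u j = ext k σ j) : ∀ j : Fin k, u j = σ j := by
  intro j
  have := h j j.2
  unfold ext at this
  rw [dif_pos j.2] at this
  exact this

theorem bgen_all (k : ℕ) (h : F.Lev k) : F.Bgen {q : F.C × ℕ | 16 ^ k ∣ q.2 ∧ q.2 < F.N q.1 ∧ k ≤ F.n q.1} := by
  have h1 : F.Bgen (⋃ i ∈ (Set.univ : Set ((Fin k → Bool × Bool) × Fin 3)),
      F.cls k (ext k i.1) (i.2 : ℕ)) :=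
    bgen_iUnion _ Set.finite_univ _ (fun i _ => h.1 _ _)
  have h2 : (⋃ i ∈ (Set.univ : Set ((Fin k → Bool × Bool) × Fin 3)),
      F.cls k (ext k i.1) (i.2 : ℕ)) = {q : F.C × ℕ | 16 ^ k ∣ q.2 ∧ q.2 < F.N q.1 ∧ k ≤ F.n q.1} := by
    ext q
    simp only [Set.mem_iUnion, Set.mem_univ, exists_true_left, Fam.cls, Set.mem_ofPred_eq]
    constructor
    · rintro ⟨i, h1, h2, h3, _⟩
      exact ⟨h1, h2, h3⟩
    · rintro ⟨h1, h2, h3⟩
      refine ⟨⟨fun j => F.s q.1 j, ⟨F.typ q.1 k q.2, by have := F.typ_le q.1 k q.2; omega⟩⟩,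
        h1, h2, h3, ?_, rfl⟩
      exact ext_eq k _ (F.s q.1) (fun _ => rfl)
  rw [h2] at h1
  exact h1

theorem bgen_all' (k : ℕ) (hk : 1 ≤ k) (h : F.Lev (k + 1)) :
    F.Bgen {q : F.C × ℕ | 16 ^ k ∣ q.2 ∧ q.2 < F.N q.1 ∧ k < F.n q.1} := by
  have hA := bgen_all (k + 1) h
  have h1 : F.Bgen (⋃ i ∈ (Set.univ : Set (Fin 16)),
      {q : F.C × ℕ | ∃ p, (q.1, p) ∈ {q : F.C × ℕ | 16 ^ (k + 1) ∣ q.2 ∧ q.2 < F.N q.1 ∧ k + 1 ≤ F.n q.1} ∧
        q.2 = p + 16 * ((i : ℕ) * 16 ^ (k - 1)) ∧ q.2 < F.N q.1}) :=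
    bgen_iUnion _ Set.finite_univ _ (fun i _ => bgen_shift hA _)
  have hpow : ∀ a : ℕ, 16 * (a * 16 ^ (k - 1)) = a * 16 ^ k := by
    intro a
    obtain ⟨j, rfl⟩ : ∃ j, k = j + 1 := ⟨k - 1, by omega⟩
    simp only [Nat.add_sub_cancel]
    ring
  have hB : 0 < 16 ^ k := Nat.pow_pos (by norm_num)
  have h2 : (⋃ i ∈ (Set.univ : Set (Fin 16)),
      {q : F.C × ℕ | ∃ p, (q.1, p) ∈ {q : F.C × ℕ | 16 ^ (k + 1) ∣ q.2 ∧ q.2 < F.N q.1 ∧ k + 1 ≤ F.n q.1} ∧
        q.2 = p + 16 * ((i : ℕ) * 16 ^ (k - 1)) ∧ q.2 < F.N q.1}) =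
      {q : F.C × ℕ | 16 ^ k ∣ q.2 ∧ q.2 < F.N q.1 ∧ k < F.n q.1} := by
    ext q
    simp only [Set.mem_iUnion, Set.mem_univ, exists_true_left, Set.mem_ofPred_eq, hpow]
    constructor
    · rintro ⟨i, p, ⟨h1, h2, h3⟩, h4, h5⟩
      refine ⟨?_, h5, h3⟩
      rw [h4]
      apply Dvd.dvd.add
      · exact dvd_trans (pow_dvd_pow 16 (Nat.le_succ k)) h1
      · exact Dvd.intro_left _ rfl
    · rintro ⟨h1, h2, h3⟩
      obtain ⟨m, hm⟩ := h1
      refine ⟨⟨m % 16, Nat.mod_lt _ (by norm_num)⟩, 16 ^ (k + 1) * (m / 16), ⟨Dvd.intro _ rfl, ?_, h3⟩, ?_, h2⟩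
      · have e : 16 ^ (k + 1) * (m / 16) = 16 ^ k * (16 * (m / 16)) := by rw [pow_succ]; ring
        have e2 : 16 ^ k * (16 * (m / 16)) ≤ 16 ^ k * m :=
          Nat.mul_le_mul_left _ (Nat.mul_div_le m 16)
        rw [hm] at h2
        omega
      · have e : 16 ^ (k + 1) * (m / 16) = 16 ^ k * (16 * (m / 16)) := by rw [pow_succ]; ring
        have e3 := Nat.div_add_mod m 16
        simp only
        rw [hm, e]
        calc 16 ^ k * m = 16 ^ k * (16 * (m / 16) + m % 16) := by rw [e3]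
          _ = 16 ^ k * (16 * (m / 16)) + m % 16 * 16 ^ k := by ring
  rw [h2] at h1
  exact h1

/-- the set of block starts with a given key -/
def D (F : Fam) (k : ℕ) (σ : Fin k → Bool × Bool) (r t : ℕ) (f l : Bool) : Set (F.C × ℕ) :=
  {q | 16 ∣ q.2 ∧ q.2 < F.N q.1 ∧ k < F.n q.1 ∧ (∀ j : Fin k, F.s q.1 j = σ j) ∧
    q.2 % 16 ^ k = r ∧ F.typ q.1 k q.2 = t ∧ (q.2 < 16 ^ k ↔ f = true) ∧
    (F.N q.1 ≤ q.2 + 16 ^ k ↔ l = true)}

theorem bgen_cond {a b : Set (F.C × ℕ)} (ha : F.Bgen a) (hb : F.Bgen b) (f : Bool) :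
    F.Bgen {q | q ∈ a ∧ (q ∈ b ↔ f = true)} := by
  cases f
  · have : {q : F.C × ℕ | q ∈ a ∧ (q ∈ b ↔ false = true)} = a \ b := by
      ext q; simp
    rw [this]; exact Fam.Bgen.diff ha hb
  · have : {q : F.C × ℕ | q ∈ a ∧ (q ∈ b ↔ true = true)} = a ∩ b := by
      ext q; simp
    rw [this]; exact Fam.Bgen.inter ha hb

theorem bgen_D (k : ℕ) (hk : 1 ≤ k) (h : F.Lev k) (h' : F.Lev (k + 1)) (σ : Fin k → Bool × Bool)
    (r t : ℕ) (hr : r < 16 ^ k) (f l : Bool) : F.Bgen (D F k σ r t f l) := by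
  have h16 : 16 ∣ 16 ^ k := dvd_pow_self 16 (by omega)
  have hB : 0 < 16 ^ k := Nat.pow_pos (by norm_num)
  by_cases hr16 : 16 ∣ r
  · obtain ⟨m, hm⟩ := hr16
    have hE := bgen_cond (bgen_cond (Fam.Bgen.inter (bgen_all' k hk h') (h.1 (ext k σ) t)) h.2.1 f) h.2.2 l
    have hS := bgen_shift hE m
    have : D F k σ r t f l = {q : F.C × ℕ | ∃ p, (q.1, p) ∈ {q : F.C × ℕ | q ∈ {q : F.C × ℕ | q ∈
        {q : F.C × ℕ | 16 ^ k ∣ q.2 ∧ q.2 < F.N q.1 ∧ k < F.n q.1} ∩ F.cls k (ext k σ) t ∧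
        (q ∈ F.fst k ↔ f = true)} ∧ (q ∈ F.lst k ↔ l = true)} ∧ q.2 = p + 16 * m ∧ q.2 < F.N q.1} := by
      ext ⟨c, w⟩
      simp only [D, Fam.cls, Fam.fst, Fam.lst, Set.mem_ofPred_eq, Set.mem_inter_iff]
      have key : ∀ p, 16 ^ k ∣ p → p < F.N c → k < F.n c → w = p + r → w < F.N c →
          ((w < 16 ^ k ↔ p = 0) ∧ (F.N c ≤ w + 16 ^ k ↔ p + 16 ^ k = F.N c) ∧
            F.typ c k w = F.typ c k p ∧ w % 16 ^ k = r) := by
        intro p hp hpN hkn hw hwN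
        obtain ⟨M, hM⟩ := F.pow_dvd_N c k hkn.le
        obtain ⟨u, rfl⟩ := hp
        refine ⟨?_, ?_, ?_, ?_⟩
        · constructor
          · intro h1
            rcases Nat.eq_zero_or_pos u with rfl | hu
            · simp
            · have : 16 ^ k ≤ 16 ^ k * u := Nat.le_mul_of_pos_right _ hu
              omega
          · intro h1; omega
        · rw [hM] at hpN ⊢
          have h7 : u < M := Nat.lt_of_mul_lt_mul_left hpN
          constructor
          · intro h1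
            by_contra hc
            have h8 : 16 ^ k * (u + 1) ≤ 16 ^ k * M := Nat.mul_le_mul_left _ h7
            rw [Nat.mul_succ] at h8
            have h9 : 16 ^ k * (u + 1) < 16 ^ k * M := by rw [Nat.mul_succ]; omega
            have h10 : u + 1 < M := Nat.lt_of_mul_lt_mul_left h9
            have h11 : 16 ^ k * (u + 2) ≤ 16 ^ k * M := Nat.mul_le_mul_left _ h10
            rw [Nat.mul_succ, Nat.mul_succ] at h11
            omega
          · intro h1; omega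
        · apply F.typ_block
          rw [hw, Nat.mul_add_div hB, Nat.div_eq_of_lt hr, Nat.mul_div_cancel_left _ hB, Nat.add_zero]
        · rw [hw, Nat.mul_add_mod, Nat.mod_eq_of_lt hr]
      constructor
      · rintro ⟨h1, h2, h3, h4, h5, h6, h7, h8⟩
        have hdm := Nat.div_add_mod w (16 ^ k)
        rw [h5] at hdm
        have hwp : w = 16 ^ k * (w / 16 ^ k) + r := hdm.symm
        obtain ⟨k1, k2, k3, k4⟩ := key (16 ^ k * (w / 16 ^ k)) (Dvd.intro _ rfl) (by omega) h3 hwp h2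
        refine ⟨16 ^ k * (w / 16 ^ k), ⟨⟨⟨⟨Dvd.intro _ rfl, by omega, h3⟩, Dvd.intro _ rfl, by omega,
          h3.le, ext_eq k σ (F.s c) h4, ?_⟩, ?_⟩, ?_⟩, by omega, h2⟩
        · rw [← k3]; exact h6
        · rw [← h7, k1]
          constructor
          · intro h9; exact h9.1
          · intro h9; exact ⟨h9, h3.le⟩
        · rw [← h8, k2]
          constructor
          · intro h9; exact h9.2.2
          · intro h9; exact ⟨Dvd.intro _ rfl, h3.le, h9⟩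
      · rintro ⟨p, ⟨⟨⟨⟨g1, g2, g3⟩, _, _, _, g4, g5⟩, g6⟩, g7⟩, g8, g9⟩
        have hwp : w = p + r := by rw [g8, hm]
        obtain ⟨k1, k2, k3, k4⟩ := key p g1 g2 g3 hwp g9
        refine ⟨?_, g9, g3, ext_eq' k σ (F.s c) g4, k4, by rw [k3]; exact g5, ?_, ?_⟩
        · rw [g8]
          exact Dvd.dvd.add (h16.trans g1) (Dvd.intro _ rfl)
        · rw [k1, ← g6]
          constructor
          · intro h9; exact ⟨h9, g3.le⟩
          · intro h9; exact h9.1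
        · rw [k2, ← g7]
          constructor
          · intro h9; exact ⟨g1, g3.le, h9⟩
          · intro h9; exact h9.2.2
    rw [this]; exact hS
  · have : D F k σ r t f l = ∅ := by
      ext q
      simp only [D, Set.mem_ofPred_eq, Set.mem_empty_iff_false, iff_false]
      rintro ⟨h1, _, _, _, h5, _⟩
      apply hr16
      rw [← h5]
      exact (Nat.dvd_mod_iff h16).2 h1
    rw [this]; exact bgen_empty

end RecPiece

open RecPiece in
theorem REC (hLEV1 : LEV1_stmt) (hLEVSTEP : LEVSTEP_stmt) (hSING : SING_stmt) (hLOCMONO : LOCMONO_stmt) : REC_stmt := by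
  classical
  intro F θ hθ hloc
  obtain ⟨k0, hk0⟩ := hloc
  obtain ⟨k, hk⟩ : ∃ k, k = max k0 1 := ⟨_, rfl⟩
  have hk1 : 1 ≤ k := by omega
  have hl : F.LocAt k (fun c w => (c, w) ∈ θ) := hLOCMONO F Prop k0 k _ (by omega) hk0
  have hLev : ∀ j, 1 ≤ j → F.Lev j := by
    intro j hj
    induction j, hj using Nat.le_induction with
    | base => exact hLEV1 F
    | succ j hj ih => exact hLEVSTEP F j hj ih
  have h1 : F.Bgen {q | q ∈ θ ∧ F.n q.1 ≤ k} := by
    have hfin : ({q | q ∈ θ ∧ F.n q.1 ≤ k} : Set (F.C × ℕ)).Finite := by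
      have : ({q | q ∈ θ ∧ F.n q.1 ≤ k} : Set (F.C × ℕ)) ⊆
          ⋃ c ∈ {c | F.n c ≤ k}, (fun w => (c, w)) '' (Set.Iio (F.N c)) := by
        rintro ⟨c, w⟩ ⟨g1, g2⟩
        simp only [Set.mem_iUnion]
        exact ⟨c, g2, w, (hθ g1).2, rfl⟩
      exact Set.Finite.subset (Set.Finite.biUnion (F.fin k)
        (fun c _ => (Set.finite_Iio _).image _)) this
    have := bgen_iUnion (F := F) {q | q ∈ θ ∧ F.n q.1 ≤ k} hfin (fun q => {q}) (by
      rintro ⟨c, w⟩ ⟨g1, _⟩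
      exact hSING F c w (hθ g1).1 (hθ g1).2)
    rwa [Set.biUnion_of_singleton] at this
  have h2 : F.Bgen {q | q ∈ θ ∧ k < F.n q.1} := by
    let Key := (Fin k → Bool × Bool) × Fin (16 ^ k) × Fin 3 × Bool × Bool
    let dd : Key → Set (F.C × ℕ) := fun x => D F k x.1 x.2.1 x.2.2.1 x.2.2.2.1 x.2.2.2.2
    have h3 : F.Bgen (⋃ x ∈ {x : Key | ∃ q, q ∈ θ ∧ q ∈ dd x}, dd x) :=
      bgen_iUnion _ (Set.toFinite _) _ (fun x _ =>
        bgen_D k hk1 (hLev k hk1) (hLev (k + 1) (by omega)) _ _ _ x.2.1.2 _ _)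
    have h4 : (⋃ x ∈ {x : Key | ∃ q, q ∈ θ ∧ q ∈ dd x}, dd x) = {q | q ∈ θ ∧ k < F.n q.1} := by
      ext ⟨c, w⟩
      simp only [Set.mem_iUnion, Set.mem_ofPred_eq]
      constructor
      · rintro ⟨x, ⟨⟨c', w'⟩, hq', hd'⟩, hd⟩
        obtain ⟨a1, a2, a3, a4, a5, a6, a7, a8⟩ := hd
        obtain ⟨b1, b2, b3, b4, b5, b6, b7, b8⟩ := hd'
        simp only at a1 a2 a3 a4 a5 a6 a7 a8 b1 b2 b3 b4 b5 b6 b7 b8
        refine ⟨?_, a3⟩
        have hh := hl c' c w' w b3 a3 b2 a2 ⟨fun j hj => ?_, ?_, ?_, ?_, ?_⟩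
        · simp only at hh
          rw [← hh]; exact hq'
        · rw [b4 ⟨j, hj⟩, a4 ⟨j, hj⟩]
        · rw [a5, b5]
        · rw [a6, b6]
        · rw [a7, b7]
        · rw [a8, b8]
      · rintro ⟨g1, g2⟩
        have hb := hθ g1
        have hself : ((c, w) : F.C × ℕ) ∈ dd ⟨fun j => F.s c j,
            ⟨w % 16 ^ k, Nat.mod_lt _ (Nat.pow_pos (by norm_num))⟩,
            ⟨F.typ c k w, by have := F.typ_le c k w; omega⟩,
            decide (w < 16 ^ k), decide (F.N c ≤ w + 16 ^ k)⟩ := by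
          refine ⟨hb.1, hb.2, g2, fun _ => rfl, rfl, rfl, ?_, ?_⟩
          · simp
          · simp
        exact ⟨_, ⟨(c, w), g1, hself⟩, hself⟩
    rw [h4] at h3
    exact h3
  have h5 : θ = {q | q ∈ θ ∧ F.n q.1 ≤ k} ∪ {q | q ∈ θ ∧ k < F.n q.1} := by
    ext q
    simp only [Set.mem_union, Set.mem_ofPred_eq]
    constructor
    · intro hq
      rcases Nat.lt_or_ge k (F.n q.1) with h | h
      · exact Or.inr ⟨hq, h⟩
      · exact Or.inl ⟨hq, h⟩
    · rintro (⟨hq, _⟩ | ⟨hq, _⟩) <;> exact hq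
  rw [h5]
  exact Fam.Bgen.union h1 h2

end OutRF
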