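import Pool.Agent.Lib_MP_0c5939_al.Stmts2

/-!
# MP_0c5939_al, piece RevSign: sign of the flip; small flips are in G

Proof:
REVSIGN: Fin.revPerm on Fin n, 4 | n, is a product of n/2 (even) disjoint transpositions: sign 1. (Induction:
n -> n+2: revPerm on Fin (n+2) = (extension of revPerm of Fin n to the middle) * swap 0 last; or count
inversions; or use cycleType of an involution without fixed points: replicate (n/2) 2,
Equiv.Perm.sign_of_cycleType; or sign_of_pow_two_eq_one if available.) GSMALL: invalid -> 1 by definition; signs: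
4 | 16^n (2d+1) as n > i >= 0; displacement of restr b is 0 for m < n c: LOCFINITE from the constant 0.
-/

namespace OutRF
open Equiv

theorem REVSIGN : REVSIGN_stmt := by
  intro n hn
  have h1 : (Fin.revPerm : Perm (Fin n)) ^ 2 = 1 := by
    ext x
    simp [pow_two]
  rw [Perm.sign_of_pow_two_eq_one h1]
  have h2 : Fintype.card (Function.fixedPoints (Fin.revPerm : Perm (Fin n))) = 0 := by
    rw [Fintype.card_eq_zero_iff]
    constructor
    rintro ⟨x, hx⟩
    have h3 : Fin.rev x = x := hx
    have h4 := congrArg Fin.val h3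
    rw [Fin.val_rev] at h4
    have h5 := x.2
    obtain ⟨m, rfl⟩ := hn
    omega
  rw [h2, Fintype.card_fin]
  obtain ⟨m, rfl⟩ := hn
  have h3 : (4 * m - 0) / 2 = 2 * m := by omega
  rw [h3, pow_mul]
  simp

theorem GSMALL (hREVSIGN : REVSIGN_stmt) (hLOCFINITE : LOCFINITE_stmt) (hLOCBASIC : LOCBASIC_stmt) : GSMALL_stmt := by
  intro i₀ m
  refine ⟨?_, ?_⟩
  · intro n d i h
    unfold flipSmall
    rw [if_neg]
    rintro ⟨_, _, h3, h4⟩
    exact h ⟨h3, h4⟩
  · intro b
    refine ⟨?_, ?_⟩
    · intro c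
      change Perm.sign (flipSmall i₀ m c.1.1 c.1.2.1 c.1.2.2) = 1
      unfold flipSmall
      split_ifs with h
      · apply hREVSIGN
        obtain ⟨k, hk⟩ : ∃ k, c.1.1 = k + 1 := ⟨c.1.1 - 1, by omega⟩
        rw [hk, pow_succ]
        exact ⟨16 ^ k * 4 * (2 * c.1.2.1 + 1), by ring⟩
      · exact map_one _
    · apply hLOCFINITE (famB b) ℤ (fun _ _ => (0 : ℤ)) _ m
      · intro c w hc hw
        have h1 : restr b (flipSmall i₀ m) c = 1 := by
          change flipSmall i₀ m c.1.1 c.1.2.1 c.1.2.2 = 1
          unfold flipSmall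
          rw [if_neg]
          rintro ⟨_, h2, _, _⟩
          have hc' : m < c.1.1 := hc
          omega
        unfold Fam.disp
        rw [Fam.ev_of_lt _ _ _ _ hw, h1]
        simp
      · exact ⟨0, fun _ _ _ _ _ _ _ _ _ => rfl⟩

end OutRF
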