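import Pool.Agent.Lib_MP_0c5939_al.Stmts2

/-!
# MP_0c5939_al, piece RfCrit: criterion for residual finiteness of a quotient

Proof:
Group.residuallyFinite_iff_exists_finiteIndex. Let x = mk a != 1: a not in M. rho : H ->* K finite, rho a not in
rho(M). Let L = (M.map rho).comap rho: finite index (contains ker rho), contains M, a not in L. The subgroup
L.map (QuotientGroup.mk' M) has finite index and does not contain mk a (as M <= L).
-/

namespace OutRF
open Equiv

theorem RFCRIT : RFCRIT_stmt := by
  intro H _ M _ h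
  rw [Group.residuallyFinite_iff_exists_finiteIndex]
  intro g hg
  obtain ⟨a, rfl⟩ := QuotientGroup.mk_surjective g
  have ha : a ∉ M := by
    intro h1
    exact hg ((QuotientGroup.eq_one_iff a).mpr h1)
  obtain ⟨K, _, _, ρ, hρ⟩ := h a ha
  have hk : ρ.ker.FiniteIndex := Subgroup.finiteIndex_ker ρ
  have hfin : ((M.map ρ).comap ρ).FiniteIndex :=
    Subgroup.finiteIndex_of_le (H := ρ.ker) (fun x hx => by
      have hx' : ρ x = 1 := hx
      show ρ x ∈ M.map ρ
      rw [hx']
      exact one_mem _)
  refine ⟨((M.map ρ).comap ρ).map (QuotientGroup.mk' M), ?_, ?_⟩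
  · rw [Subgroup.finiteIndex_iff]
    have h1 := Subgroup.index_map_dvd ((M.map ρ).comap ρ) (f := QuotientGroup.mk' M)
      (QuotientGroup.mk'_surjective M)
    intro h0
    rw [h0, zero_dvd_iff] at h1
    exact hfin.index_ne_zero h1
  · rintro ⟨b, hb, hba⟩
    have hb' : ρ b ∈ M.map ρ := hb
    obtain ⟨m, hm, hmb⟩ := hb'
    have h2 : (QuotientGroup.mk b : H ⧸ M) = QuotientGroup.mk a := hba
    rw [QuotientGroup.eq] at h2
    have h3 : ρ (m * (b⁻¹ * a)) = ρ a := by
      rw [map_mul, map_mul, hmb, map_inv]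
      group
    exact hρ _ (M.mul_mem hm h2) h3

end OutRF
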