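import Pool.Agent.Lib_MP_0c5939_al.Stmts2

namespace OutRF
open Equiv

theorem RFOUT (hAMEM : AMEM_stmt) (hRFCRIT : RFCRIT_stmt) (hTHETA : THETA_stmt)
    (hFINDET : FINDET_stmt) (hORIHOM : ORIHOM_stmt) (hORIALL : ORIALL_stmt)
    (hLOCA : LOCA_stmt) : RFOUT_stmt := by
  intro b
  obtain ⟨Θ, h1, h2, h3, h4⟩ := hTHETA (famB b)
  apply hRFCRIT (MulAut (famB b).A) (MulAut.conj (G := (famB b).A)).range
  intro α hα
  by_contra hcon
  push Not at hcon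
  apply hα
  have hdet : ∀ (K : Type) (_ : Group K) (_ : Finite K) (ρ : MulAut (famB b).A →* K),
      ∃ g : (famB b).A, ρ (MulAut.conj g) = ρ α := by
    intro K i1 i2 ρ
    obtain ⟨m, ⟨g, hg⟩, hm⟩ := hcon K i1 i2 ρ
    exact ⟨g, by rw [hg]; exact hm⟩
  obtain ⟨γ, hγ, hs⟩ := hFINDET b Θ h1 h4 α hdet
  have hcm : ∀ c, (famB b).cm (Θ α) c = c := by
    intro c
    rw [hγ]
    rfl
  have hori : ∃ k, ∀ c, k < (famB b).n c → (famB b).ori (Θ α) c := by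
    apply hORIALL b (Θ α) (h1 α)
    intro x hx
    obtain ⟨K, i1, i2, ρ, hρ1, hρ2⟩ := hORIHOM b x hx Θ h1 h4
    obtain ⟨g, hg⟩ := hdet K i1 i2 ρ
    exact hρ2 α hcm (by rw [← hg, hρ1])
  have hin : (famB b).inA γ := hLOCA (famB b) γ hs (by rw [← hγ]; exact h1 α) (by rw [← hγ]; exact hori)
  have hmem : γ ∈ (famB b).A := (hAMEM (famB b) γ).2 hin
  exact ⟨⟨γ, hmem⟩, (h3 α γ hmem hγ).symm⟩

end OutRF
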