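import Pool.Agent.Lib_MP_0c5939_al.Stmts

/-!
# MP_0c5939_al, piece Sign: sign of a uniform application

Proof:
If L = 0 then h = 1, app acts trivially, both sides are 1. Let L >= 1; the set D = {p | (c,p) in S} is
finite (p <= N c) . Let u = app L S h c : Perm (Fin (N c)). Induction on finite sets D of positions (valid
windows: p + L <= N, pairwise p < q -> p + L <= q) for a perm u of Fin N which acts as h on the windows and
trivially elsewhere: sign u = sign h ^ card D. Step: D = insert p D', u = u1 * u' where u1 acts on the
window p only and u' on the windows of D'. sign u1 = sign h: u1 is the extension of h along the embedding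
Fin L -> Fin N, r -> p + r: Equiv.Perm.viaFintypeEmbedding_sign (u1 = h.viaFintypeEmbedding e).
Alternative: sign is a product over windows via Equiv.Perm.sign_prodCongr... any proof is fine.
Set.ncard of the set equals the finset card.
-/

namespace OutRF
open Equiv

theorem sign_windows (N L : ℕ) (h : Perm (Fin L)) (D : Finset ℕ) : ∀ (u : Perm (Fin N)),
    (∀ p ∈ D, p + L ≤ N) → (∀ p ∈ D, ∀ q ∈ D, p < q → p + L ≤ q) →
    (∀ p ∈ D, ∀ (r : Fin L) (x : Fin N), (x : ℕ) = p + r → (u x : ℕ) = p + (h r : ℕ)) →
    (∀ x : Fin N, (∀ p ∈ D, ¬ (p ≤ (x : ℕ) ∧ (x : ℕ) < p + L)) → u x = x) →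
    Perm.sign u = (Perm.sign h) ^ D.card := by
  classical
  induction D using Finset.induction_on with
  | empty =>
    intro u _ _ _ h4
    have : u = 1 := by
      ext x
      rw [h4 x (by simp)]
      rfl
    rw [this]
    simp
  | insert p D' hp ih =>
    intro u h1 h2 h3 h4
    have hpN : p + L ≤ N := h1 p (Finset.mem_insert_self _ _)
    let e : Fin L ↪ Fin N := ⟨fun r => ⟨p + r, by have := r.2; omega⟩, by
      intro a b hab
      have := congrArg (fun z : Fin N => (z : ℕ)) hab
      simp only at this
      exact Fin.ext (by omega)⟩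
    have he : ∀ r, ((e r : Fin N) : ℕ) = p + r := fun r => rfl
    let u1 : Perm (Fin N) := h.viaFintypeEmbedding e
    have hu1 : ∀ r, u1 (e r) = e (h r) := fun r => Perm.viaFintypeEmbedding_apply_image h e r
    have hu1' : ∀ x : Fin N, ¬ (p ≤ (x : ℕ) ∧ (x : ℕ) < p + L) → u1⁻¹ x = x := by
      intro x hx
      rw [Perm.inv_eq_iff_eq]
      symm
      apply Perm.viaFintypeEmbedding_apply_notMem_range
      rintro ⟨r, hr⟩
      have h5 := congrArg (fun z : Fin N => (z : ℕ)) hr
      simp only [he] at h5
      have := r.2
      exact hx ⟨by omega, by omega⟩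
    have hsep : ∀ q ∈ D', ∀ x : ℕ, q ≤ x → x < q + L → ¬ (p ≤ x ∧ x < p + L) := by
      intro q hq x hx1 hx2 hx3
      have hne : q ≠ p := fun hh => hp (hh ▸ hq)
      rcases Nat.lt_or_gt_of_ne hne with hlt | hgt
      · have := h2 q (Finset.mem_insert_of_mem hq) p (Finset.mem_insert_self _ _) hlt
        omega
      · have := h2 p (Finset.mem_insert_self _ _) q (Finset.mem_insert_of_mem hq) hgt
        omega
    have hu' := ih (u1⁻¹ * u) (fun q hq => h1 q (Finset.mem_insert_of_mem hq))
      (fun q hq q' hq' => h2 q (Finset.mem_insert_of_mem hq) q' (Finset.mem_insert_of_mem hq'))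
      (by
        intro q hq r x hx
        have h5 := h3 q (Finset.mem_insert_of_mem hq) r x hx
        have h6 : u1⁻¹ (u x) = u x := by
          apply hu1'
          apply hsep q hq
          · rw [h5]; omega
          · rw [h5]
            have := (h r).2
            omega
        rw [Perm.mul_apply, h6, h5])
      (by
        intro x hx
        rw [Perm.mul_apply]
        by_cases hxp : p ≤ (x : ℕ) ∧ (x : ℕ) < p + L
        · have hr : (x : ℕ) - p < L := by omega
          have h5 := h3 p (Finset.mem_insert_self _ _) ⟨(x : ℕ) - p, hr⟩ x (by simp only; omega)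
          have h6 : x = e ⟨(x : ℕ) - p, hr⟩ := by
            apply Fin.ext
            rw [he]
            simp only
            omega
          have h7 : u x = e (h ⟨(x : ℕ) - p, hr⟩) := by
            apply Fin.ext
            rw [h5, he]
          rw [h7, Perm.inv_eq_iff_eq, ← hu1, ← h6]
        · have h5 : u x = x := by
            apply h4
            intro q hq
            rcases Finset.mem_insert.mp hq with rfl | hq
            · exact hxp
            · exact hx q hq
          rw [h5]
          exact hu1' x hxp)
    have h8 : u = u1 * (u1⁻¹ * u) := by group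
    rw [h8, Perm.sign_mul, hu', Perm.viaFintypeEmbedding_sign, Finset.card_insert_of_notMem hp, pow_succ,
      mul_comm]

theorem SIGN (hAPP : APP_stmt) : SIGN_stmt := by
  intro F L S h hV c
  classical
  have hg := hAPP F L S h hV
  have hfin : {p | (c, p) ∈ S}.Finite := by
    apply Set.Finite.subset (Set.finite_Iic (F.N c))
    intro p hp
    have := hV.1 c p hp
    simp only [Set.mem_Iic]
    omega
  rw [Set.ncard_eq_toFinset_card _ hfin]
  apply sign_windows
  · intro p hp
    exact hV.1 c p (by simpa using hp)
  · intro p hp q hq hpq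
    exact hV.2 c p q (by simpa using hp) (by simpa using hq) hpq
  · intro p hp r x hx
    have h1 := hg.1 c p (by simpa using hp) r
    rw [← hx, F.ev_of_lt _ c _ x.2] at h1
    exact h1
  · intro x hx
    have h1 := hg.2 c x (fun p hp => hx p (by simpa using hp))
    rw [F.ev_of_lt _ c _ x.2] at h1
    exact Fin.ext h1

end OutRF
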