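import Pool.Agent.Lib_MP_0c5939_al.Stmts

/-!
# MP_0c5939_al, piece Sing: single points are generated

Proof:
Lev k for all k >= 1 by induction. Let k = n c >= 1. Then {(c,0)} = (fst k \ fst (k+1)) inter cls k (s c) 1,
by F.inj (n equal and the symbols below n equal). Then {(c,p)} is the forward shift by p
(multiple of 16) of {(c,0)}.
-/

namespace OutRF
open Equiv

theorem sing_lev_all (hLEV1 : LEV1_stmt) (hLEVSTEP : LEVSTEP_stmt) (F : Fam) (k : ℕ) (hk : 1 ≤ k) :
    F.Lev k := by
  induction k, hk using Nat.le_induction with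
  | base => exact hLEV1 F
  | succ k hk ih => exact hLEVSTEP F k hk ih

theorem SING (hLEV1 : LEV1_stmt) (hLEVSTEP : LEVSTEP_stmt) : SING_stmt := by
  intro F c p hp hpN
  have h0 : F.Bgen {(c, 0)} := by
    have h1 := sing_lev_all hLEV1 hLEVSTEP F (F.n c) (F.n_pos c)
    have h2 := sing_lev_all hLEV1 hLEVSTEP F (F.n c + 1) (by omega)
    have h3 := Fam.Bgen.inter (Fam.Bgen.diff h1.2.1 h2.2.1) (h1.1 (F.s c) 1)
    have h4 : ({(c, 0)} : Set (F.C × ℕ)) =
        (F.fst (F.n c) \ F.fst (F.n c + 1)) ∩ F.cls (F.n c) (F.s c) 1 := by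
      ext q
      constructor
      · intro hq
        rw [Set.mem_singleton_iff] at hq
        subst hq
        refine ⟨⟨⟨rfl, le_refl _⟩, fun h => ?_⟩, ?_⟩
        · have := h.2
          simp only at this
          omega
        · exact ⟨dvd_zero _, F.N_pos c, le_refl _, fun _ _ => rfl, F.typ_top c _ _ (le_refl _)⟩
      · rintro ⟨⟨⟨h5, h6⟩, h7⟩, ⟨-, -, -, h8, -⟩⟩
        have h9 : F.n q.1 = F.n c := by
          by_contra hne
          exact h7 ⟨h5, by omega⟩
        have h10 : q.1 = c := F.inj q.1 c h9 (fun j hj => h8 j (by omega))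
        rw [Set.mem_singleton_iff]
        exact Prod.ext h10 h5
    rw [h4]
    exact h3
  obtain ⟨m, rfl⟩ := hp
  induction m with
  | zero => exact h0
  | succ m ih =>
    have h1 := Fam.Bgen.shf (ih (by omega))
    have h2 : ({(c, 16 * (m + 1))} : Set (F.C × ℕ)) =
        {q | ∃ p, (q.1, p) ∈ ({(c, 16 * m)} : Set (F.C × ℕ)) ∧ q.2 = p + 16 ∧ p + 16 < F.N q.1} := by
      ext q
      simp only [Set.mem_singleton_iff, Set.mem_ofPred_eq, Prod.mk.injEq]
      constructor
      · intro hq
        subst hq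
        refine ⟨16 * m, ⟨rfl, rfl⟩, by simp only; omega, by simp only; omega⟩
      · rintro ⟨p, ⟨h3, h4⟩, h5, h6⟩
        exact Prod.ext h3 (by simp only; omega)
    rw [h2]
    exact h1

end OutRF
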