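import Pool.Agent.Lib_MP_0c5939_al.Stmts2

/-!
# MP_0c5939_al, piece Small1: small facts

Proof:
FAMN: 16^n (2d+1) = 16^n' (2d'+1): compare the powers of 2 (if n < n' then 2 divides 2d+1 after cancelling
16^n), so n = n' and d = d'. TYPX: induction on n c - k as F.typ_block (F.typ_top, F.typ_lt). RFA: F.A is a subgroup
of F.P; Group.ResiduallyFinite F.P by residuallyFinite_of_forall_exists_finite_monoidHom: if g != 1 then some
g c != 1, use Pi.evalMonoidHom to the finite group Perm (Fin (N c)); then the subgroup instance.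
-/

namespace OutRF
open Equiv

theorem famn_aux {n n' d d' : ℕ} (h : 16 ^ n * (2 * d + 1) = 16 ^ n' * (2 * d' + 1)) :
    ¬ n < n' := by
  intro hlt
  obtain ⟨k, rfl⟩ : ∃ k, n' = n + (k + 1) := ⟨n' - n - 1, by omega⟩
  rw [pow_add, mul_assoc] at h
  have hp : 0 < 16 ^ n := Nat.pow_pos (by norm_num)
  have h2 := Nat.eq_of_mul_eq_mul_left hp h
  rw [pow_succ] at h2
  have h3 : 2 ∣ (2 * d + 1) := by
    rw [h2]
    exact ⟨16 ^ k * 8 * (2 * d' + 1), by ring⟩
  omega

theorem FAMN : FAMN_stmt := by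
  intro b b' c c' h
  have h' : 16 ^ c.1.1 * (2 * c.1.2.1 + 1) = 16 ^ c'.1.1 * (2 * c'.1.2.1 + 1) := h
  have h1 := famn_aux h'
  have h2 := famn_aux h'.symm
  have h3 : c.1.1 = c'.1.1 := by omega
  refine ⟨h3, ?_⟩
  rw [h3] at h'
  have hp : 0 < 16 ^ c'.1.1 := Nat.pow_pos (by norm_num)
  have h4 := Nat.eq_of_mul_eq_mul_left hp h'
  omega

theorem TYPX : TYPX_stmt := by
  intro F F' c c' k w hn hs
  obtain ⟨m, hm⟩ : ∃ m, F.n c - k = m := ⟨_, rfl⟩
  induction m generalizing k with
  | zero => rw [F.typ_top c k w (by omega), F'.typ_top c' k w (by omega)]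
  | succ m ih =>
    rw [F.typ_lt c k w (by omega), F'.typ_lt c' k w (by omega)]
    rw [hs k le_rfl (by omega), ih (k + 1) (fun j hj hj' => hs j (by omega) hj') (by omega)]

theorem RFA : RFA_stmt := by
  intro F
  have hP : Group.ResiduallyFinite F.P := by
    apply Group.residuallyFinite_of_forall_exists_finite_monoidHom
    intro g hg
    have : ∃ c, g c ≠ 1 := by
      by_contra hcon
      push Not at hcon
      exact hg (funext hcon)
    obtain ⟨c, hc⟩ := this
    exact ⟨_, _, inferInstance, Pi.evalMonoidHom _ c, hc⟩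
  infer_instance

end OutRF
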