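import Pool.Agent.Lib_MP_0c5939_al.ZAux

/-!
# MP_0c5939_al, piece Star: 3-cycles whose pairwise products have order 2

Proof:
Lemma 1: two 3-cycles s, s' with s s' != 1, (s s')^2 = 1 share exactly two points and a directed edge: there are
distinct a,b,c,d with s = (a b c), s' = (a b d) (notation: a->b->c->a; (a b c) = swap a b * swap b c).
Case check as in TC1: disjoint supports: order 3; one common point: order 5; same support: s = s' gives order
3 (s^2), s' = s^-1 gives 1; two common points: either same direction (a b c)(a b d) = (a c)(b d) of order 2 or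
opposite (a b c)(b a d): order 3.
Lemma 2: if s = (a b c), s' = (a b d), c != d, and s'' has order-2 products with both s and s' then
s'' = (a b e), e not in {a,b,c,d}.
-/

namespace OutRF
open Equiv

/-- Lemma 1 -/
theorem star1 {α : Type} [DecidableEq α] [Fintype α] {t t' : Perm α} (ht : t.IsThreeCycle)
    (ht' : t'.IsThreeCycle) (h1 : t * t' ≠ 1) (h2 : (t * t') ^ 2 = 1) :
    ∃ x y z w, x ≠ y ∧ x ≠ z ∧ y ≠ z ∧ x ≠ w ∧ y ≠ w ∧ z ≠ w ∧
        t = z3 x y z ∧ t' = z3 x y w := by
  rcases ztc_all ht ht' with h | h | h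
  · exfalso; apply h1
    have : (t * t') ^ 3 = (t * t') ^ 2 * (t * t') := pow_succ _ _
    rw [h2, one_mul, h] at this
    exact this.symm
  · exfalso; apply h1
    have : (t * t') ^ 5 = (t * t') ^ 2 * (t * t') ^ 2 * (t * t') := by
      rw [← pow_add, ← pow_succ]
    rw [h2, one_mul, one_mul, h] at this
    exact this.symm
  · exact h

/-- a 3-cycle with `t x = y`, `x ≠ y` -/
theorem star_edge {α : Type} [DecidableEq α] [Fintype α] {t : Perm α} (ht : t.IsThreeCycle)
    {x y : α} (hxy : x ≠ y) (h : t x = y) :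
    ∃ z, z ≠ x ∧ z ≠ y ∧ t = z3 x y z ∧ t y = z := by
  have h0 : t x ≠ x := by rw [h]; exact hxy.symm
  obtain ⟨a1, a2, a3, a4⟩ := z3_form ht h0
  rw [h] at a2 a3 a4
  exact ⟨t y, a2.symm, a3.symm, a4, rfl⟩

/-- common directed edge -/
theorem star_common {α : Type} [DecidableEq α] [Fintype α] {t t' : Perm α} (ht : t.IsThreeCycle)
    (ht' : t'.IsThreeCycle) (h1 : t * t' ≠ 1) (h2 : (t * t') ^ 2 = 1) :
    ∃ x y, x ≠ y ∧ t x = y ∧ t' x = y ∧ t y ≠ t' y := by
  obtain ⟨x, y, z, w, h3, h4, h5, h6, h7, h8, h9, h10⟩ := star1 ht ht' h1 h2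
  refine ⟨x, y, h3, ?_, ?_, ?_⟩
  · rw [h9]; exact z3_1 h3 h4
  · rw [h10]; exact z3_1 h3 h6
  · rw [h9, h10, z3_2 h4 h5, z3_2 h6 h7]; exact h8

/-- Lemma 2 -/
theorem star2 {α : Type} [DecidableEq α] [Fintype α] {a b c d : α} {t : Perm α}
    (hab : a ≠ b) (hac : a ≠ c) (hbc : b ≠ c) (had : a ≠ d) (hbd : b ≠ d) (hcd : c ≠ d)
    (ht : t.IsThreeCycle) (h1 : t * z3 a b c ≠ 1) (h2 : (t * z3 a b c) ^ 2 = 1)
    (h3 : t * z3 a b d ≠ 1) (h4 : (t * z3 a b d) ^ 2 = 1) : t a = b := by
  obtain ⟨x, y, hxy, e1, e2, -⟩ := star_common ht (z3_isThreeCycle hab hac hbc) h1 h2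
  obtain ⟨x', y', hxy', f1, f2, -⟩ := star_common ht (z3_isThreeCycle hab had hbd) h3 h4
  -- the edge x → y is one of ab, bc, ca
  have hx : x = a ∨ x = b ∨ x = c := by
    by_contra h
    push Not at h
    rw [z3_of h.1 h.2.1 h.2.2] at e2
    exact hxy e2
  have hx' : x' = a ∨ x' = b ∨ x' = d := by
    by_contra h
    push Not at h
    rw [z3_of h.1 h.2.1 h.2.2] at f2
    exact hxy' f2
  have hcube : ∀ x, t (t (t x)) = x := by
    intro x
    have := congrArg (fun p : Perm α => p x) (ztc_cube ht)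
    simpa [pow_succ, Perm.mul_apply] using this
  rcases hx with rfl | rfl | rfl
  · rw [z3_1 hab hac] at e2; rw [e1, e2]
  · rw [z3_2 hac hbc] at e2
    subst e2
    -- t x = c ; x = b
    rcases hx' with rfl | rfl | rfl
    · rw [z3_1 hab had] at f2; rw [f1, f2]
    · rw [z3_2 had hbd] at f2
      exfalso; apply hcd; rw [f2, ← f1, e1]
    · rw [z3_3] at f2
      -- t d = a, t b = c : then t (t d) = t a ; t c = ?
      subst f2
      exfalso
      -- orbit of b : b, c, t c ; orbit of d: d, a ; d is moved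
      have g1 := hcube x
      rw [e1] at g1
      -- t (t c) = b
      have h5 : t x' ≠ x' := by rw [f1]; exact had
      obtain ⟨z, hz1, hz2, hz3, hz4⟩ := star_edge ht hxy e1
      have : x' = x ∨ x' = c ∨ x' = z := by
        by_contra h
        push Not at h
        rw [hz3, z3_of h.1 h.2.1 h.2.2] at h5
        exact h5 rfl
      rcases this with h | h | h
      · exact hbd h.symm
      · exact hcd h.symm
      · have : t x' = x := by rw [h, hz3, z3_3]
        rw [f1] at this
        exact hab this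
  · rw [z3_3] at e2
    subst e2
    -- t c = a
    rcases hx' with rfl | rfl | rfl
    · rw [z3_1 hab had] at f2; rw [f1, f2]
    · rw [z3_2 had hbd] at f2
      subst f2
      -- t b = d, t c = a
      exfalso
      obtain ⟨z, hz1, hz2, hz3, hz4⟩ := star_edge ht hxy e1
      have h5 : t x' ≠ x' := by rw [f1]; exact hbd.symm
      have : x' = x ∨ x' = a ∨ x' = z := by
        by_contra h
        push Not at h
        rw [hz3, z3_of h.1 h.2.1 h.2.2] at h5
        exact h5 rfl
      rcases this with h | h | h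
      · exact hbc h
      · exact hab h.symm
      · have : t x' = x := by rw [h, hz3, z3_3]
        rw [f1] at this
        exact hcd this.symm
    · rw [z3_3] at f2
      exfalso
      apply hcd
      apply t.injective
      rw [e1, f1, f2]

theorem STAR : STAR_stmt := by
  intro n J u ⟨j1, j2, j3, h12, h13, h23⟩ hu hp
  obtain ⟨a, b, c, d, hab, hac, hbc, had, hbd, hcd, e1, e2⟩ :=
    star1 (hu j1) (hu j2) (hp j1 j2 h12).1 (hp j1 j2 h12).2
  -- all map a to b
  have key : ∀ j, u j a = b := by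
    intro j
    by_cases h1 : j = j1
    · rw [h1, e1]; exact z3_1 hab hac
    by_cases h2 : j = j2
    · rw [h2, e2]; exact z3_1 hab had
    have p1 := hp j j1 h1
    have p2 := hp j j2 h2
    rw [e1] at p1
    rw [e2] at p2
    exact star2 hab hac hbc had hbd hcd (hu j) p1.1 p1.2 p2.1 p2.2
  have form : ∀ j, u j = z3 a b (u j b) ∧ u j b ≠ a ∧ u j b ≠ b := by
    intro j
    obtain ⟨z, h1, h2, h3, h4⟩ := star_edge (hu j) hab (key j)
    rw [h4]
    exact ⟨h3, h1, h2⟩
  refine ⟨a, b, fun j => u j b, hab, fun j => (form j).2, ?_, fun j => (form j).1⟩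
  intro i j hij
  by_contra hne
  have h1 : u i = u j := by
    have hij' : u i b = u j b := hij
    rw [(form i).1, (form j).1, hij']
  have h2 := hp i j hne
  rw [← h1] at h2
  have h3 : u i ^ 3 = 1 := ztc_cube (hu i)
  apply h2.1
  have h4 : (u i * u i) ^ 2 = u i ^ 3 * u i := by
    rw [← pow_two, ← pow_mul, ← pow_succ]
  rw [h4, h3, one_mul] at h2
  rw [h2.2, one_mul]

end OutRF
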