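import Pool.Agent.Lib_MP_0c5939_al.Basic

/-!
# MP_0c5939_al: statements of the pieces
Every piece is a theorem `theorem XXX (hyps of the form YYY_stmt) : XXX_stmt`.
-/

namespace OutRF
open Equiv

/-! ## 1. keys -/

def KMONO_stmt : Prop := ∀ (F : Fam) (k : ℕ) (c c' : F.C) (w w' : ℕ), k < F.n c → k < F.n c' →
  w < F.N c → w' < F.N c' → F.KeyEq (k + 1) c c' w w' → F.KeyEq k c c' w w'

def KSHIFT_stmt : Prop := ∀ (F : Fam) (k : ℕ) (c c' : F.C) (w w' : ℕ) (v : ℤ), k < F.n c →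
  k < F.n c' → w < F.N c → w' < F.N c' → F.KeyEq (k + 1) c c' w w' → |v| ≤ (16 : ℤ) ^ k →
  0 ≤ (w : ℤ) + v → (w : ℤ) + v < F.N c →
  0 ≤ (w' : ℤ) + v ∧ (w' : ℤ) + v < F.N c' ∧
    F.KeyEq k c c' ((w : ℤ) + v).toNat ((w' : ℤ) + v).toNat

def KZERO_stmt : Prop := ∀ (F : Fam) (k : ℕ) (c c' : F.C), k < F.n c → k < F.n c' →
  (∀ j < k, F.s c j = F.s c' j) → F.KeyEq k c c' 0 0

def KFLIP_stmt : Prop := ∀ (F : Fam) (k : ℕ) (c c' : F.C) (w w' : ℕ), k < F.n c → k < F.n c' →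
  w < F.N c → w' < F.N c' → F.KeyEq k c c' w w' →
  F.KeyEq k c c' (F.N c - 1 - w) (F.N c' - 1 - w')

def KFIN_stmt : Prop := ∀ (F : Fam) (k : ℕ), ∃ (Y : Type) (_ : Finite Y) (κ : F.C → ℕ → Y),
  ∀ c c' w w', κ c w = κ c' w' → F.KeyEq k c c' w w'

def LOCMONO_stmt : Prop := ∀ (F : Fam) (V : Type) (k K : ℕ) (f : F.C → ℕ → V), k ≤ K →
  F.LocAt k f → F.LocAt K f

/-! ## 2. local functions -/

def LOCBDD_stmt : Prop := ∀ (F : Fam) (f : F.C → ℕ → ℤ), F.Loc f →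
  ∃ R : ℕ, ∀ c w, w < F.N c → |f c w| ≤ R

def LOCCOMB_stmt : Prop := ∀ (F : Fam) (V₁ V₂ V₃ : Type) (f : F.C → ℕ → V₁) (g : F.C → ℕ → V₂)
  (φ : V₁ → V₂ → V₃), F.Loc f → F.Loc g → F.Loc (fun c w => φ (f c w) (g c w))

def LOCFINITE_stmt : Prop := ∀ (F : Fam) (V : Type) (f f' : F.C → ℕ → V) (K : ℕ),
  (∀ c w, K < F.n c → w < F.N c → f c w = f' c w) → F.Loc f → F.Loc f'

def LOCSHIFT_stmt : Prop := ∀ (F : Fam) (V : Type) (f : F.C → ℕ → V) (δ : F.C → ℕ → ℤ),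
  F.Loc f → F.Loc δ → (∀ c w, w < F.N c → 0 ≤ (w : ℤ) + δ c w ∧ (w : ℤ) + δ c w < F.N c) →
  F.Loc (fun c w => f c ((w : ℤ) + δ c w).toNat)

/-- shift of a local set by a constant -/
def LOCSH_stmt : Prop := ∀ (F : Fam) (E : F.C → ℕ → Prop) (v : ℤ), F.Loc E →
  F.Loc (fun c w => 0 ≤ (w : ℤ) + v ∧ (w : ℤ) + v < F.N c ∧ E c ((w : ℤ) + v).toNat)

/-- residues, distance to the left end, to the right end (truncated), symbols and types are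
local -/
def LOCBASIC_stmt : Prop := ∀ (F : Fam),
  (∀ k : ℕ, F.Loc (fun _ w => w % 16 ^ k)) ∧ (∀ R : ℕ, F.Loc (fun _ w => min w R)) ∧
  (∀ R : ℕ, F.Loc (fun c w => min (F.N c - w) R)) ∧ (∀ j : ℕ, F.Loc (fun c _ => F.s c j)) ∧
  (∀ j : ℕ, F.Loc (fun c w => F.typ c j w)) ∧ (∀ E : Prop, F.Loc (fun _ _ => E))

/-! ## 3. the group and uniform application -/

def AMEM_stmt : Prop := ∀ (F : Fam) (g : F.P), g ∈ F.A ↔ F.inA g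

def APP_stmt : Prop := ∀ (F : Fam) (L : ℕ) (S : Set (F.C × ℕ)) (h : Perm (Fin L)),
  F.Valid L S → F.IsApp L S h (F.app L S h)

def APPLOC_stmt : Prop := ∀ (F : Fam) (L : ℕ) (S : Set (F.C × ℕ)) (h : Perm (Fin L)),
  F.Valid L S → F.Loc (fun c w => (c, w) ∈ S) → F.Loc (F.disp (F.app L S h))

def SIGN_stmt : Prop := ∀ (F : Fam) (L : ℕ) (S : Set (F.C × ℕ)) (h : Perm (Fin L)),
  F.Valid L S → ∀ c, Perm.sign (F.app L S h c) = (Perm.sign h) ^ (Set.ncard {p | (c, p) ∈ S})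

/-! ## 4. the finitely generated group: uniform 3-cycles -/

def UNIV_stmt : Prop := ∀ (F : Fam) (x : ℕ), x < 16 → F.T F.blk x ∈ F.Gam

def CONJ5_stmt : Prop := ∀ (F : Fam) (Z : Set (F.C × ℕ)) (y : ℕ),
  (∀ q ∈ Z, q.2 % 16 = y ∧ q.2 + 5 ≤ F.N q.1) →
  ∀ c ∈ alternatingGroup (Fin 5), c ≠ 1 → F.app 5 Z c ∈ F.Gam →
  ∀ c' ∈ alternatingGroup (Fin 5), F.app 5 Z c' ∈ F.Gam

def COMM_stmt : Prop := ∀ (F : Fam) (θ θ' : Set (F.C × ℕ)) (x : ℕ), θ ⊆ F.blk → θ' ⊆ F.blk →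
  x + 2 < 16 → F.T θ x ∈ F.Gam → F.T θ' (x + 2) ∈ F.Gam →
  ∀ c' ∈ alternatingGroup (Fin 5),
    F.app 5 {q | ∃ p, (q.1, p) ∈ θ ∩ θ' ∧ q.2 = p + x ∧ p + x + 5 ≤ F.N q.1} c' ∈ F.Gam

/-- abbreviation: all uniform 3-cycles over `θ` lie in `Gam` -/
def Fam.Rm (F : Fam) (θ : Set (F.C × ℕ)) : Prop := θ ⊆ F.blk ∧ ∀ x < 16, F.T θ x ∈ F.Gam

def PROP_stmt : Prop := ∀ (F : Fam) (θ : Set (F.C × ℕ)), θ ⊆ F.blk → F.T θ 0 ∈ F.Gam → F.Rm θ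

def RBASE_stmt : Prop := ∀ (F : Fam) (σ : Bool × Bool) (t : Fin 3) (f l : Bool),
  F.Rm (F.base σ t f l)

def RINT_stmt : Prop := ∀ (F : Fam) (θ θ' : Set (F.C × ℕ)), F.Rm θ → F.Rm θ' → F.Rm (θ ∩ θ')

def RDIFF_stmt : Prop := ∀ (F : Fam) (θ θ' : Set (F.C × ℕ)), F.Rm θ → F.Rm θ' → F.Rm (θ \ θ')

def RUNION_stmt : Prop := ∀ (F : Fam) (θ θ' : Set (F.C × ℕ)), F.Rm θ → F.Rm θ' → F.Rm (θ ∪ θ')

def RSHF_stmt : Prop := ∀ (F : Fam) (θ : Set (F.C × ℕ)), F.Rm θ →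
  F.Rm {q | ∃ p, (q.1, p) ∈ θ ∧ q.2 = p + 16 ∧ p + 16 < F.N q.1}

def RSHB_stmt : Prop := ∀ (F : Fam) (θ : Set (F.C × ℕ)), F.Rm θ →
  F.Rm {q | (q.1, q.2 + 16) ∈ θ}

/-! ## 5. recognition -/

/-- level-`k` block starts of type `t` with given symbols below level `k` -/
def Fam.cls (F : Fam) (k : ℕ) (σ : ℕ → Bool × Bool) (t : ℕ) : Set (F.C × ℕ) :=
  {q | 16 ^ k ∣ q.2 ∧ q.2 < F.N q.1 ∧ k ≤ F.n q.1 ∧ (∀ j < k, F.s q.1 j = σ j) ∧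
    F.typ q.1 k q.2 = t}

def Fam.fst (F : Fam) (k : ℕ) : Set (F.C × ℕ) := {q | q.2 = 0 ∧ k ≤ F.n q.1}

def Fam.lst (F : Fam) (k : ℕ) : Set (F.C × ℕ) :=
  {q | 16 ^ k ∣ q.2 ∧ k ≤ F.n q.1 ∧ q.2 + 16 ^ k = F.N q.1}

/-- everything at level `k` is generated -/
def Fam.Lev (F : Fam) (k : ℕ) : Prop :=
  (∀ σ t, F.Bgen (F.cls k σ t)) ∧ F.Bgen (F.fst k) ∧ F.Bgen (F.lst k)

def LEV1_stmt : Prop := ∀ (F : Fam), F.Lev 1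

def LEVSTEP_stmt : Prop := ∀ (F : Fam) (k : ℕ), 1 ≤ k → F.Lev k → F.Lev (k + 1)

def SING_stmt : Prop := ∀ (F : Fam) (c : F.C) (p : ℕ), 16 ∣ p → p < F.N c →
  F.Bgen {(c, p)}

def REC_stmt : Prop := ∀ (F : Fam) (θ : Set (F.C × ℕ)), θ ⊆ F.blk →
  F.Loc (fun c w => (c, w) ∈ θ) → F.Bgen θ

def BR_stmt : Prop := ∀ (F : Fam) (θ : Set (F.C × ℕ)), F.Bgen θ → F.Rm θ

/-! ## 6. generation -/

/-- `(x, x+1, x+2)` -/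
def c3 (L x : ℕ) (h : x + 2 < L) : Perm (Fin L) :=
  swap ⟨x, by omega⟩ ⟨x + 1, by omega⟩ * swap ⟨x + 1, by omega⟩ ⟨x + 2, h⟩

def ALTGEN_stmt : Prop := ∀ (L : ℕ) (S : Subgroup (Perm (Fin L))),
  (∀ (x : ℕ) (h : x + 2 < L), c3 L x h ∈ S) → alternatingGroup (Fin L) ≤ S

def APPG_stmt : Prop := ∀ (F : Fam) (L : ℕ) (S : Set (F.C × ℕ)) (h : Perm (Fin L)) (y : ℕ),
  F.Loc (fun c w => (c, w) ∈ S) → (∀ q ∈ S, q.2 % 16 = y) → F.Valid L S →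
  h ∈ alternatingGroup (Fin L) → F.app L S h ∈ F.Gam

/-- application with a local assignment of even permutations -/
def APPF_stmt : Prop := ∀ (F : Fam) (L : ℕ) (S : Set (F.C × ℕ)) (H : F.C → ℕ → Perm (Fin L))
  (y : ℕ), F.Loc (fun c w => (c, w) ∈ S) → F.Loc H → (∀ q ∈ S, q.2 % 16 = y) → F.Valid L S →
  (∀ c p, (c, p) ∈ S → H c p ∈ alternatingGroup (Fin L)) →
  ∃ γ ∈ F.Gam, (∀ c p, (c, p) ∈ S → ∀ r : Fin L, F.ev γ c (p + r) = p + (H c p r : ℕ)) ∧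
    (∀ c w, (∀ p, (c, p) ∈ S → ¬ (p ≤ w ∧ w < p + L)) → F.ev γ c w = w)

def PERMHALF_stmt : Prop := ∀ (m : ℕ) (S : Finset (Fin (2 * m))), 2 ≤ m → S.card = m →
  ∃ κ ∈ alternatingGroup (Fin (2 * m)), ∀ x, κ x ∈ S ↔ (x : ℕ) < m

/-- near an interior junction of level-`(k+1)` blocks the level-`k` key depends only on the
symbols below `k` and the distance to the junction -/
def JUNC_stmt : Prop := ∀ (F : Fam) (k : ℕ) (c c' : F.C) (b b' : ℕ) (r : ℤ), k < F.n c →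
  k < F.n c' → (∀ j < k, F.s c j = F.s c' j) → 16 ^ (k + 1) ∣ b → 16 ^ (k + 1) ∣ b' →
  0 < b → b < F.N c → 0 < b' → b' < F.N c' → -(16 : ℤ) ^ k ≤ r → r < (16 : ℤ) ^ k →
  F.KeyEq k c c' ((b : ℤ) + r).toNat ((b' : ℤ) + r).toNat

def FINP_stmt : Prop := ∀ (F : Fam) (g : F.P) (K : ℕ), (∀ c, Perm.sign (g c) = 1) →
  (∀ c, K < F.n c → g c = 1) → g ∈ F.Gam

def CUT_stmt : Prop := ∀ (F : Fam) (g : F.P), F.inA g → ∃ γ ∈ F.Gam, ∃ K, ∀ c, K < F.n c →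
  ∀ w < F.N c, F.ev (g * γ) c w / 16 ^ K = w / 16 ^ K

def MIX_stmt : Prop := ∀ (F : Fam) (g : F.P), F.inA g →
  (∃ K, ∀ c, K < F.n c → ∀ w < F.N c, F.ev g c w / 16 ^ K = w / 16 ^ K) →
  ∃ γ ∈ F.Gam, ∃ θ, θ ⊆ F.blk ∧ F.Loc (fun c w => (c, w) ∈ θ) ∧ g = γ * F.X θ

def XSYM_stmt : Prop := ∀ (F : Fam) (θ θ' : Set (F.C × ℕ)), θ ⊆ F.blk → θ' ⊆ F.blk →
  F.X (symmDiff θ θ') = F.X θ * F.X θ'

def XSHIFT_stmt : Prop := ∀ (F : Fam) (θ : Set (F.C × ℕ)) (m : ℕ), θ ⊆ F.blk →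
  F.Loc (fun c w => (c, w) ∈ θ) → (∀ c p, (c, p) ∈ θ → p + 16 * m < F.N c) →
  F.X θ * F.X (F.sh (16 * m) θ) ∈ F.Gam

/-- counting: parity of the number of elements of a local set in a level-`(k+1)` block which is
neither first nor last is even, and the first and last blocks only depend on the symbols -/
def COUNT_stmt : Prop := ∀ (F : Fam) (θ : Set (F.C × ℕ)) (k : ℕ),
  F.LocAt k (fun c w => (c, w) ∈ θ) → ∃ l r : (Fin k → Bool × Bool) → ℕ,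
  ∀ c p, k < F.n c → 16 ^ (k + 1) ∣ p → p < F.N c →
    (p ≠ 0 → p + 16 ^ (k + 1) ≠ F.N c →
      Even (Set.ncard {q | (c, q) ∈ θ ∧ p ≤ q ∧ q < p + 16 ^ (k + 1)})) ∧
    (p = 0 → p + 16 ^ (k + 1) ≠ F.N c →
      (Set.ncard {q | (c, q) ∈ θ ∧ p ≤ q ∧ q < p + 16 ^ (k + 1)}) % 2 =
        (l (fun j => F.s c j)) % 2) ∧
    (p ≠ 0 → p + 16 ^ (k + 1) = F.N c →
      (Set.ncard {q | (c, q) ∈ θ ∧ p ≤ q ∧ q < p + 16 ^ (k + 1)}) % 2 =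
        (r (fun j => F.s c j)) % 2) ∧
    (p = 0 → p + 16 ^ (k + 1) = F.N c →
      (Set.ncard {q | (c, q) ∈ θ ∧ p ≤ q ∧ q < p + 16 ^ (k + 1)}) % 2 =
        (l (fun j => F.s c j) + r (fun j => F.s c j)) % 2)

def XEVEN_stmt : Prop := ∀ (F : Fam) (θ : Set (F.C × ℕ)), θ ⊆ F.blk →
  F.Loc (fun c w => (c, w) ∈ θ) → (∀ c, Even (Set.ncard {p | (c, p) ∈ θ})) → F.X θ ∈ F.Gam

def GAMA_stmt : Prop := ∀ (F : Fam) (g : F.P), g ∈ F.Gam → F.inA g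

def FGA_stmt : Prop := ∀ (F : Fam), Group.FG F.A

end OutRF
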