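import Pool.Agent.Lib_MP_0c5939_al.Stmts

/-!
# MP_0c5939_al: statements of the pieces, part 2 (rigidity, residual finiteness)
-/

namespace OutRF
open Equiv

/-! ## 7. automorphisms of groups between the direct sum of alternating groups and the
product of symmetric groups -/

/-- the data: a subgroup of `∏ Perm (Fin (N c))` containing the direct sum of the
alternating groups -/
structure Box where
  C : Type
  N : C → ℕ
  hN : ∀ c, 9 ≤ N c
  A : Subgroup ((c : C) → Perm (Fin (N c)))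
  hA : ∀ (g : (c : C) → Perm (Fin (N c))) (c : C), (∀ c', c' ≠ c → g c' = 1) →
    g c ∈ alternatingGroup (Fin (N c)) → g ∈ A

namespace Box
variable (X : Box)

abbrev PP := (c : X.C) → Perm (Fin (X.N c))

/-- a single 3-cycle in a single component -/
def isTC (g : X.PP) : Prop := ∃ c, (g c).IsThreeCycle ∧ ∀ c', c' ≠ c → g c' = 1

end Box

/-- products of two 3-cycles -/
def TC1_stmt : Prop := ∀ (n : ℕ) (t t' : Perm (Fin n)), t.IsThreeCycle → t'.IsThreeCycle →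
  (t * t') ^ 2 = 1 ∨ (t * t') ^ 3 = 1 ∨ (t * t') ^ 5 = 1

/-- elements of order 3 with at least two 3-cycles -/
def TC2_stmt : Prop := ∀ (n : ℕ) (t : Perm (Fin n)), 9 ≤ n → t ≠ 1 → t ^ 3 = 1 →
  ¬ t.IsThreeCycle → ∃ g ∈ alternatingGroup (Fin n),
    (t * (g * t * g⁻¹)) ^ 2 ≠ 1 ∧ (t * (g * t * g⁻¹)) ^ 3 ≠ 1 ∧ (t * (g * t * g⁻¹)) ^ 5 ≠ 1

/-- a 3-cycle times a conjugate can have order 2 and order 5 -/
def TC3_stmt : Prop := ∀ (n : ℕ) (t : Perm (Fin n)), 9 ≤ n → t.IsThreeCycle →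
  (∃ g ∈ alternatingGroup (Fin n), (t * (g * t * g⁻¹)) ^ 3 ≠ 1 ∧ (t * (g * t * g⁻¹)) ^ 5 ≠ 1) ∧
  (∃ g ∈ alternatingGroup (Fin n), (t * (g * t * g⁻¹)) ^ 2 ≠ 1)

/-- characterisation of single 3-cycles inside the group -/
def TCHAR_stmt : Prop := ∀ (X : Box) (g : X.A), X.isTC (g : X.PP) ↔
  (g ≠ 1 ∧ g ^ 3 = 1 ∧ ∀ k : X.A, (g * (k * g * k⁻¹)) ^ 2 = 1 ∨ (g * (k * g * k⁻¹)) ^ 3 = 1 ∨
    (g * (k * g * k⁻¹)) ^ 5 = 1)

/-- automorphisms preserve single 3-cycles -/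
def TCPRES_stmt : Prop := ∀ (X : Box) (α : X.A ≃* X.A) (g : X.A), X.isTC (g : X.PP) →
  X.isTC ((α g : X.A) : X.PP)

/-- the pattern of 3-cycles `(0 1 j)`: a family of 3-cycles whose pairwise products have
order 2 has a common directed edge -/
def STAR_stmt : Prop := ∀ (n : ℕ) (J : Type) (u : J → Perm (Fin n)),
  (∃ j₁ j₂ j₃ : J, j₁ ≠ j₂ ∧ j₁ ≠ j₃ ∧ j₂ ≠ j₃) → (∀ j, (u j).IsThreeCycle) →
  (∀ i j, i ≠ j → u i * u j ≠ 1 ∧ (u i * u j) ^ 2 = 1) →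
  ∃ (a b : Fin n) (e : J → Fin n), a ≠ b ∧ (∀ j, e j ≠ a ∧ e j ≠ b) ∧ Function.Injective e ∧
    ∀ j, u j = swap a b * swap b (e j)

/-- the 3-cycles `(0 1 j)` generate the alternating group -/
def ALTSTAR_stmt : Prop := ∀ (n : ℕ) (a b : Fin n) (S : Subgroup (Perm (Fin n))), a ≠ b →
  (∀ j, j ≠ a → j ≠ b → swap a b * swap b j ∈ S) → alternatingGroup (Fin n) ≤ S

/-- image of one alternating group -/
def IND1_stmt : Prop := ∀ (X : Box) (α : X.A ≃* X.A) (c : X.C), ∃ (c' : X.C)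
  (e : Fin (X.N c) → Fin (X.N c')), Function.Injective e ∧
  ∀ g : X.A, (∀ d, d ≠ c → (g : X.PP) d = 1) → (g : X.PP) c ∈ alternatingGroup (Fin (X.N c)) →
    (∀ d, d ≠ c' → ((α g : X.A) : X.PP) d = 1) ∧
    (∀ x, ((α g : X.A) : X.PP) c' (e x) = e ((g : X.PP) c x)) ∧
    (∀ y, y ∉ Set.range e → ((α g : X.A) : X.PP) c' y = y)

/-- every automorphism is induced by a bijection of the points -/
def IND_stmt : Prop := ∀ (X : Box) (α : X.A ≃* X.A), ∃ (σ : Perm X.C)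
  (e : (c : X.C) → Fin (X.N c) ≃ Fin (X.N (σ c))),
  ∀ (g : X.A) (c : X.C) (x : Fin (X.N c)),
    ((α g : X.A) : X.PP) (σ c) (e c x) = e c ((g : X.PP) c x)

/-- a permutation commuting with all even permutations is trivial -/
def CENTALT_stmt : Prop := ∀ (n : ℕ) (u : Perm (Fin n)), 4 ≤ n →
  (∀ h ∈ alternatingGroup (Fin n), u * h = h * u) → u = 1

/-- the homomorphism from `Aut` to permutations of the disjoint union -/
def THETA_stmt : Prop := ∀ (F : Fam), ∃ Θ : MulAut F.A →* Perm F.Om,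
  (∀ α, F.NZ (Θ α)) ∧
  (∀ (α : MulAut F.A) (g : F.A), F.act ((α g : F.A) : F.P) = Θ α * F.act (g : F.P) * (Θ α)⁻¹) ∧
  (∀ (α : MulAut F.A) (γ : F.P) (hγ : γ ∈ F.A), Θ α = F.act γ →
    α = MulAut.conj (⟨γ, hγ⟩ : F.A)) ∧
  (∀ g : F.A, Θ (MulAut.conj g) = F.act (g : F.P))

/-! ## 8. geometry of normalising permutations -/

def NZN_stmt : Prop := ∀ (F : Fam) (π : Perm F.Om), F.NZ π →
  (∀ c, F.N (F.cm π c) = F.N c) ∧
  (∀ c w (h : w < F.N c), (π ⟨c, ⟨w, h⟩⟩).1 = F.cm π c) ∧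
  (∀ c w, w < F.N c → F.fn π c w < F.N (F.cm π c)) ∧
  (∀ c w, w < F.N c → F.cm π⁻¹ (F.cm π c) = c ∧ F.fn π⁻¹ (F.cm π c) (F.fn π c w) = w) ∧
  F.NZ π⁻¹

/-- every local set in one residue class is an intersection of two supports -/
def SUPP_stmt : Prop := ∀ (F : Fam) (E : F.C → ℕ → Prop) (x : ℕ), x < 16 → F.Loc E →
  ∃ g g' : F.P, F.inA g ∧ F.inA g' ∧ ∀ c w, w < F.N c →
    ((E c w ∧ w % 16 = x) ↔ (F.ev g c w ≠ w ∧ F.ev g' c w ≠ w))

def PRE_stmt : Prop := ∀ (F : Fam) (π : Perm F.Om), F.NZ π → ∀ E : F.C → ℕ → Prop, F.Loc E →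
  F.Loc (fun c w => E (F.cm π c) (F.fn π c w))

def LIP_stmt : Prop := ∀ (F : Fam) (π : Perm F.Om), F.NZ π → ∃ C : ℕ, ∀ c w, w + 1 < F.N c →
  |(F.fn π c (w + 1) : ℤ) - F.fn π c w| ≤ C

def BILIP_stmt : Prop := ∀ C : ℕ, ∃ C' : ℕ, ∀ (N : ℕ) (f f' : ℕ → ℕ),
  (∀ x < N, f x < N ∧ f' (f x) = x) → (∀ x < N, f' x < N ∧ f (f' x) = x) →
  (∀ x, x + 1 < N → |(f (x + 1) : ℤ) - f x| ≤ C) →
  (∀ x, x + 1 < N → |(f' (x + 1) : ℤ) - f' x| ≤ C) →
  (∀ x < N, |(f x : ℤ) - x| ≤ C') ∨ (∀ x < N, |(f x : ℤ) - ((N : ℤ) - 1 - x)| ≤ C')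

def CLOSE_stmt : Prop := ∀ (F : Fam) (π : Perm F.Om), F.NZ π → ∃ C' : ℕ, ∀ c,
  (∀ w < F.N c, |(F.fn π c w : ℤ) - w| ≤ C') ∨
  (∀ w < F.N c, |(F.fn π c w : ℤ) - ((F.N c : ℤ) - 1 - w)| ≤ C')

def ORIGOOD_stmt : Prop := ∀ (F : Fam) (π : Perm F.Om), F.NZ π → ∃ C' K : ℕ, ∀ c, K < F.n c →
  (F.ori π c → ∀ w < F.N c, |(F.fn π c w : ℤ) - w| ≤ C') ∧
  (¬ F.ori π c → ∀ w < F.N c, |(F.fn π c w : ℤ) - ((F.N c : ℤ) - 1 - w)| ≤ C')

def LOCCM_stmt : Prop := ∀ (F : Fam) (π : Perm F.Om), F.NZ π → ∀ E : F.C → Prop,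
  F.Loc (fun c _ => E c) → ∃ K, ∀ c c', K < F.n c → K < F.n c' →
    (∀ j < K, F.s c j = F.s c' j) → (E (F.cm π c) ↔ E (F.cm π c'))

def LOCORI_stmt : Prop := ∀ (F : Fam) (π : Perm F.Om), F.NZ π → ∃ K, ∀ c c', K < F.n c →
  K < F.n c' → (∀ j < K, F.s c j = F.s c' j) → (F.ori π c ↔ F.ori π c')

def LOCA_stmt : Prop := ∀ (F : Fam) (γ : F.P), (∀ c, Perm.sign (γ c) = 1) → F.NZ (F.act γ) →
  (∃ K, ∀ c, K < F.n c → F.ori (F.act γ) c) → F.inA γ

/-! ## 9. residual finiteness of the outer automorphism groups -/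

def RFA_stmt : Prop := ∀ F : Fam, Group.ResiduallyFinite F.A

/-- the length of a component determines its node -/
def FAMN_stmt : Prop := ∀ (b b' : Bool) (c : (famB b).C) (c' : (famB b').C),
  (famB b).N c = (famB b').N c' → c.1.1 = c'.1.1 ∧ c.1.2.1 = c'.1.2.1

/-- types depend only on the symbols at the levels `≥ k` (across families) -/
def TYPX_stmt : Prop := ∀ (F F' : Fam) (c : F.C) (c' : F'.C) (k w : ℕ), F.n c = F'.n c' →
  (∀ j, k ≤ j → j < F.n c → F.s c j = F'.s c' j) → F.typ c k w = F'.typ c' k w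

def RFCRIT_stmt : Prop := ∀ (H : Type) [Group H] (M : Subgroup H) [M.Normal],
  (∀ a : H, a ∉ M → ∃ (K : Type) (_ : Group K) (_ : Finite K) (ρ : H →* K),
    ∀ m ∈ M, ρ m ≠ ρ a) → Group.ResiduallyFinite (H ⧸ M)

/-- limits of eventually multiplicative, eventually constant families of maps -/
def LIMHOM_stmt : Prop := ∀ (H Y : Type) [Group H] [Finite Y] (φ : ℕ → H → Y → Y),
  (∀ a, ∃ K, ∀ n ≥ K, φ n a = φ K a) → (∀ a b, ∃ K, ∀ n ≥ K, φ n (a * b) = φ n a ∘ φ n b) →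
  (∃ K, ∀ n ≥ K, φ n 1 = id) →
  ∃ ρ : H →* Perm Y, ∀ a, ∃ K, ∀ n ≥ K, ∀ y, φ n a y = ρ a y

/-- components on the branch `x` -/
def onBranch (b : Bool) (x : ℕ → Bool) (c : (famB b).C) : Prop :=
  ∀ j < c.1.1, c.1.2.1.testBit j = x j

/-- the orientation homomorphism at a branch with finitely many `b`'s -/
def ORIHOM_stmt : Prop := ∀ (b : Bool) (x : ℕ → Bool), {i | x i = b}.Finite →
  ∀ Θ : MulAut (famB b).A →* Perm (famB b).Om, (∀ α, (famB b).NZ (Θ α)) →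
  (∀ g : (famB b).A, Θ (MulAut.conj g) = (famB b).act (g : (famB b).P)) →
  ∃ (K : Type) (_ : Group K) (_ : Finite K) (ρ : MulAut (famB b).A →* K),
    (∀ g : (famB b).A, ρ (MulAut.conj g) = 1) ∧
    ∀ α, (∀ c, (famB b).cm (Θ α) c = c) → ρ α = 1 →
      ∃ k, ∀ c, k < (famB b).n c → onBranch b x c → (famB b).ori (Θ α) c

/-- if the orientation is trivial on all branches then it is trivial on all large components -/
def ORIALL_stmt : Prop := ∀ (b : Bool) (π : Perm (famB b).Om), (famB b).NZ π →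
  (∀ x : ℕ → Bool, {i | x i = b}.Finite →
    ∃ k, ∀ c, k < (famB b).n c → onBranch b x c → (famB b).ori π c) →
  ∃ k, ∀ c, k < (famB b).n c → (famB b).ori π c

/-- finite quotients seeing the components with `n c ≤ k` -/
def FINDET_stmt : Prop := ∀ (b : Bool)
  (Θ : MulAut (famB b).A →* Perm (famB b).Om), (∀ α, (famB b).NZ (Θ α)) →
  (∀ g : (famB b).A, Θ (MulAut.conj g) = (famB b).act (g : (famB b).P)) →
  ∀ α, (∀ (K : Type) (_ : Group K) (_ : Finite K) (ρ : MulAut (famB b).A →* K),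
      ∃ g : (famB b).A, ρ (MulAut.conj g) = ρ α) →
    ∃ γ : (famB b).P, Θ α = (famB b).act γ ∧ ∀ c, Perm.sign (γ c) = 1

def RFOUT_stmt : Prop := ∀ b, Group.ResiduallyFinite (Out (famB b).A)

/-! ## 10. the product -/

def GMEM_stmt : Prop := ∀ q : Q, q ∈ G ↔ inG q

def GISO_stmt : Prop := Nonempty (((famB false).A × (famB true).A) ≃* G)

/-- permuting the copies on the levels `> m` -/
def permQ (m : ℕ) (h : Perm ℕ) (q : Q) : Q := fun n d i => if m < n then q n d (h⁻¹ i) else q n d i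

/-- conjugation by the flip of copy `i₀` on the levels `> m` -/
def flipQ (i₀ m : ℕ) (q : Q) : Q := fun n d i =>
  if i = i₀ ∧ m < n then Fin.revPerm * q n d i * Fin.revPerm else q n d i

/-- the flip of copy `i₀` on the levels `n ≤ m` -/
def flipSmall (i₀ m : ℕ) : Q := fun n d i =>
  if i = i₀ ∧ n ≤ m ∧ i < n ∧ d < 2 ^ n then Fin.revPerm else 1

def GPERM_stmt : Prop := ∀ (m : ℕ) (h : Perm ℕ), (∀ i, m ≤ i → h i = i) → ∀ q, inG q →
  inG (permQ m h q)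

def GFLIP_stmt : Prop := ∀ (i₀ m : ℕ) (q : Q), inG q → inG (flipQ i₀ m q)

def REVSIGN_stmt : Prop := ∀ (n : ℕ), 4 ∣ n → Perm.sign (Fin.revPerm : Perm (Fin n)) = 1

def GSMALL_stmt : Prop := ∀ (i₀ m : ℕ), inG (flipSmall i₀ m)

/-- if conjugation by the flips of copies 0 and 1 agree on `G` modulo an element of `G` we get
a contradiction -/
def GNONTRIV_stmt : Prop := ∀ g : Q, inG g →
  ∃ q : Q, inG q ∧ flipQ 0 0 q ≠ flipQ 1 0 (g * q * g⁻¹)

def NOTRFG_stmt : Prop := ¬ Group.ResiduallyFinite (Out G)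

def OUTISO_stmt : Prop := ∀ (H K : Type) [Group H] [Group K], (H ≃* K) →
  Group.ResiduallyFinite (Out H) → Group.ResiduallyFinite (Out K)

/-- the final result -/
def MAIN_stmt : Prop := ∃ (A B : Type) (_ : Group A) (_ : Group B),
  Group.FG A ∧ Group.FG B ∧ Group.ResiduallyFinite A ∧ Group.ResiduallyFinite B ∧
  Group.ResiduallyFinite (Out A) ∧ Group.ResiduallyFinite (Out B) ∧
  ¬ Group.ResiduallyFinite (Out (A × B))

end OutRF
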