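import Pool.Agent.Lib_MP_0c5939_al.Stmts2

/-!
# MP_0c5939_al, piece Supp: local sets as intersections of supports

Proof:
x <= 11: S = {(c,w) | w < N c, E c w, w % 16 = x}, local; windows [w,w+5) are inside the level-1 block so w+5 <= N
(16 | N) and positions differ by >= 16: Valid 5 S. g = app 5 S (c3 5 0) moves w, w+1, w+2; g' = app 5 S h' with
h' = swap 0 3 * swap 3 4 (3-cycle on 0,3,4) moves w, w+3, w+4. A point u moved by both lies in a window of S for
each; the windows for different elements are disjoint, so the same w, and u = w. x >= 12: S' = {(c,p) | E c (p+4),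
(p+4) % 16 = x, p + 4 < N c}, windows [p,p+5), p + 5 <= N; g = app 5 S' (c3 5 2) (moves offsets 2,3,4) and
g' = app 5 S' (swap 0 1 * swap 1 4) (offsets 0,1,4): common offset 4, the point p+4. Positions differ by >= 16.
inA: SIGN with even permutations, APPLOC (S' local by LOCSH with v = 4, LOCBASIC, LOCCOMB).
-/

namespace OutRF
open Equiv

theorem supp_loc_congr (F : Fam) {V : Type} (f f' : F.C → ℕ → V)
    (h : ∀ c w, w < F.N c → f c w = f' c w) (hf : F.Loc f) : F.Loc f' := by
  obtain ⟨k, hk⟩ := hf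
  refine ⟨k, ?_⟩
  intro c c' w w' hc hc' hw hw' hkey
  rw [← h c w hw, ← h c' w' hw']
  exact hk c c' w w' hc hc' hw hw' hkey

theorem supp_aux (hAPP : APP_stmt) (hAPPLOC : APPLOC_stmt) (hSIGN : SIGN_stmt)
    (F : Fam) (S : Set (F.C × ℕ)) (hV : F.Valid 5 S) (hS : F.Loc (fun c w => (c, w) ∈ S))
    (h h' : Perm (Fin 5)) (hs : Perm.sign h = 1) (hs' : Perm.sign h' = 1) (o : Fin 5)
    (ho : ∀ r : Fin 5, (h r ≠ r ∧ h' r ≠ r) ↔ r = o) :
    F.inA (F.app 5 S h) ∧ F.inA (F.app 5 S h') ∧ ∀ c w,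
      ((F.ev (F.app 5 S h) c w ≠ w ∧ F.ev (F.app 5 S h') c w ≠ w) ↔
        ∃ p, (c, p) ∈ S ∧ w = p + (o : ℕ)) := by
  refine ⟨⟨?_, hAPPLOC F 5 S h hV hS⟩, ⟨?_, hAPPLOC F 5 S h' hV hS⟩, ?_⟩
  · intro c
    rw [hSIGN F 5 S h hV c, hs, one_pow]
  · intro c
    rw [hSIGN F 5 S h' hV c, hs', one_pow]
  · intro c w
    have hg := hAPP F 5 S h hV
    have hg' := hAPP F 5 S h' hV
    constructor
    · rintro ⟨h1, h2⟩
      by_cases H : ∃ p, (c, p) ∈ S ∧ p ≤ w ∧ w < p + 5
      · obtain ⟨p, hp, h3, h4⟩ := H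
        have e1 := hg.1 c p hp ⟨w - p, by omega⟩
        have e2 := hg'.1 c p hp ⟨w - p, by omega⟩
        simp only [show p + (w - p) = w by omega] at e1 e2
        refine ⟨p, hp, ?_⟩
        have : (⟨w - p, by omega⟩ : Fin 5) = o := by
          rw [← ho]
          constructor
          · intro h5
            apply h1
            rw [e1, h5]
            simp only
            omega
          · intro h5
            apply h2
            rw [e2, h5]
            simp only
            omega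
        have h6 := congrArg Fin.val this
        simp only at h6
        omega
      · push Not at H
        exfalso
        apply h1
        exact hg.2 c w (fun p hp hh => absurd hh.2 (not_lt.2 (H p hp hh.1)))
    · rintro ⟨p, hp, rfl⟩
      obtain ⟨h1, h2⟩ := (ho o).2 rfl
      rw [hg.1 c p hp o, hg'.1 c p hp o]
      constructor
      · intro h3
        apply h1
        apply Fin.ext
        omega
      · intro h3
        apply h2
        apply Fin.ext
        omega

theorem SUPP (hAPP : APP_stmt) (hAPPLOC : APPLOC_stmt) (hSIGN : SIGN_stmt) (hLOCSH : LOCSH_stmt) (hLOCBASIC : LOCBASIC_stmt) (hLOCCOMB : LOCCOMB_stmt) : SUPP_stmt := by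
  intro F E x hx hE
  have hE4 : F.Loc (fun c w => E c w ∧ w % 16 = x) := by
    have h1 := (hLOCBASIC F).1 1
    have h2 := hLOCCOMB F Prop ℕ Prop E (fun _ w => w % 16 ^ 1) (fun e r => e ∧ r = x) hE h1
    simpa using h2
  by_cases hx11 : x ≤ 11
  · have hV : F.Valid 5 {q | q.2 < F.N q.1 ∧ E q.1 q.2 ∧ q.2 % 16 = x} := by
      constructor
      · rintro c p ⟨h1, _, h3⟩
        obtain ⟨m, hm⟩ := F.sixteen_dvd_N c
        simp only at h1 h3
        rw [hm] at h1 ⊢
        omega
      · rintro c p q ⟨_, _, h3⟩ ⟨_, _, h4⟩ hpq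
        simp only at h3 h4
        omega
    have hS : F.Loc (fun c w => (c, w) ∈ {q : F.C × ℕ | q.2 < F.N q.1 ∧ E q.1 q.2 ∧ q.2 % 16 = x}) := by
      apply supp_loc_congr F _ _ _ hE4
      intro c w hw
      apply propext
      constructor
      · rintro ⟨h1, h2⟩
        exact ⟨hw, h1, h2⟩
      · rintro ⟨_, h1, h2⟩
        exact ⟨h1, h2⟩
    obtain ⟨h1, h2, h3⟩ := supp_aux hAPP hAPPLOC hSIGN F _ hV hS (swap 0 1 * swap 1 2)
      (swap 0 3 * swap 3 4) (by decide) (by decide) 0 (by decide)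
    refine ⟨_, _, h1, h2, ?_⟩
    intro c w hw
    rw [h3 c w]
    constructor
    · rintro ⟨h4, h5⟩
      exact ⟨w, ⟨hw, h4, h5⟩, by simp⟩
    · rintro ⟨p, ⟨_, h5, h6⟩, h7⟩
      simp only [Fin.val_zero, add_zero] at h7
      rw [h7]
      exact ⟨h5, h6⟩
  · have hV : F.Valid 5 {q | q.2 + 4 < F.N q.1 ∧ E q.1 (q.2 + 4) ∧ (q.2 + 4) % 16 = x} := by
      constructor
      · rintro c p ⟨h1, _, _⟩
        simp only at h1
        omega
      · rintro c p q ⟨_, _, h3⟩ ⟨_, _, h4⟩ hpq
        simp only at h3 h4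
        omega
    have hS : F.Loc (fun c w => (c, w) ∈ {q : F.C × ℕ | q.2 + 4 < F.N q.1 ∧ E q.1 (q.2 + 4) ∧ (q.2 + 4) % 16 = x}) := by
      apply supp_loc_congr F _ _ _ (hLOCSH F _ 4 hE4)
      intro c w hw
      apply propext
      have e1 : ((w : ℤ) + 4).toNat = w + 4 := by omega
      constructor
      · rintro ⟨_, h0, h1, h2⟩
        rw [e1] at h1 h2
        exact ⟨by simp only; omega, h1, h2⟩
      · rintro ⟨h0, h1, h2⟩
        simp only at h0
        refine ⟨by omega, by omega, ?_⟩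
        rw [e1]
        exact ⟨h1, h2⟩
    obtain ⟨h1, h2, h3⟩ := supp_aux hAPP hAPPLOC hSIGN F _ hV hS (swap 2 3 * swap 3 4)
      (swap 0 1 * swap 1 4) (by decide) (by decide) 4 (by decide)
    refine ⟨_, _, h1, h2, ?_⟩
    intro c w hw
    rw [h3 c w]
    have e4 : ((4 : Fin 5) : ℕ) = 4 := rfl
    constructor
    · rintro ⟨h4, h5⟩
      have h6 : w - 4 + 4 = w := by omega
      refine ⟨w - 4, ⟨?_, ?_, ?_⟩, ?_⟩
      · simp only
        omega
      · simp only
        rw [h6]
        exact h4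
      · simp only
        rw [h6]
        exact h5
      · rw [e4, h6]
    · rintro ⟨p, ⟨_, h5, h6⟩, h7⟩
      rw [e4] at h7
      rw [h7]
      exact ⟨h5, h6⟩

end OutRF
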