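import Pool.Agent.Lib_MP_0c5939_al.ZAux

/-!
# MP_0c5939_al, piece TC1: product of two 3-cycles
-/

namespace OutRF
open Equiv

theorem TC1 : TC1_stmt := by
  intro n t t' ht ht'
  rcases ztc_all ht ht' with h | h | h
  · exact Or.inr (Or.inl h)
  · exact Or.inr (Or.inr h)
  · obtain ⟨x, y, z, w, h1, h2, h3, h4, h5, h6, h7, h8⟩ := h
    left
    rw [h7, h8]
    exact ztc_edge h1 h2 h3 h4 h5 h6

end OutRF
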