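import Pool.Agent.Lib_MP_0c5939_al.ZAux

/-!
# MP_0c5939_al, piece TC2: elements of order three with two 3-cycles

t != 1, t^3 = 1, not a 3-cycle, n >= 9. All cycles of t have length 1 or 3. Pick a with t a != a: b = t a,
c = t b, t c = a. Since t is not a 3-cycle there is d outside {a,b,c} with t d != d; e = t d, f = t e, t f = d;
a..f distinct.
Case 1: there is x with t x = x. Take g = swap c d * swap f x. Then u = t g t g^-1 restricted to these points
is 0->2->5->3->1->4->6->0, a 7-cycle: u^2, u^3, u^5 do not fix a.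
Case 2: no fixed point. n >= 9 so there is a point x outside {a..f}; y = t x, z = t y, t z = x, all 9 points
distinct. g = swap f x * swap y z; u acts: 0->2->1->0, 3->5->6->4->7->3, 8 fixed.
-/

namespace OutRF
open Equiv

set_option linter.unusedSimpArgs false

theorem tc2_orbit {α : Type} {t : Perm α} (h3 : ∀ x, t (t (t x)) = x) {a : α} (ha : t a ≠ a) :
    a ≠ t a ∧ a ≠ t (t a) ∧ t a ≠ t (t a) := by
  have hab : a ≠ t a := ha.symm
  have hbc : t a ≠ t (t a) := fun h => hab (t.injective h)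
  refine ⟨hab, ?_, hbc⟩
  intro h
  apply ha
  have := h3 a
  rw [← h] at this
  exact this

/-- orbits are disjoint -/
theorem tc2_disj {α : Type} {t : Perm α} (h3 : ∀ x, t (t (t x)) = x) {a d : α}
    (h1 : d ≠ a) (h2 : d ≠ t a) (h4 : d ≠ t (t a)) :
    t d ≠ a ∧ t d ≠ t a ∧ t d ≠ t (t a) ∧ t (t d) ≠ a ∧ t (t d) ≠ t a ∧ t (t d) ≠ t (t a) := by
  refine ⟨?_, ?_, ?_, ?_, ?_, ?_⟩
  · intro h; apply h4; rw [← h, h3]
  · intro h; exact h1 (t.injective h)
  · intro h; exact h2 (t.injective h)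
  · intro h; apply h2; rw [← h, h3]
  · intro h; apply h4; rw [← t.injective h, h3]
  · intro h; exact h1 (t.injective (t.injective h))

theorem tc2_alt {n : ℕ} {a b c d : Fin n} (h1 : a ≠ b) (h2 : c ≠ d) :
    swap a b * swap c d ∈ alternatingGroup (Fin n) := by
  rw [Perm.mem_alternatingGroup, Perm.sign_mul, Perm.sign_swap h1, Perm.sign_swap h2]
  simp

theorem TC2 : TC2_stmt := by
  intro n t hn ht1 ht3 htn
  have h3 : ∀ x, t (t (t x)) = x := by
    intro x
    have := congrArg (fun p : Perm (Fin n) => p x) ht3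
    simpa [pow_succ, Perm.mul_apply] using this
  obtain ⟨a, ha⟩ : ∃ a, t a ≠ a := by
    by_contra h
    push Not at h
    exact ht1 (Equiv.ext h)
  obtain ⟨d, hd1, hd2, hd3, hd⟩ : ∃ d, d ≠ a ∧ d ≠ t a ∧ d ≠ t (t a) ∧ t d ≠ d := by
    by_contra h
    push Not at h
    apply htn
    obtain ⟨o1, o2, o3⟩ := tc2_orbit h3 ha
    have : t = z3 a (t a) (t (t a)) := by
      apply Equiv.ext
      intro x
      by_cases h1 : x = a
      · rw [h1, z3_1 o1 o2]
      by_cases h2 : x = t a
      · rw [h2, z3_2 o2 o3]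
      by_cases h4 : x = t (t a)
      · rw [h4, z3_3, h3]
      rw [z3_of h1 h2 h4, h x h1 h2 h4]
    rw [this]
    exact z3_isThreeCycle o1 o2 o3
  obtain ⟨o1, o2, o3⟩ := tc2_orbit h3 ha
  obtain ⟨p1, p2, p3⟩ := tc2_orbit h3 hd
  obtain ⟨q1, q2, q3, q4, q5, q6⟩ := tc2_disj h3 hd1 hd2 hd3
  have hc := h3 a
  have hf := h3 d
  obtain ⟨b, hb⟩ : ∃ b, b = t a := ⟨_, rfl⟩
  obtain ⟨c, hc'⟩ : ∃ c, c = t b := ⟨_, rfl⟩
  obtain ⟨e, he⟩ : ∃ e, e = t d := ⟨_, rfl⟩
  obtain ⟨f, hf'⟩ : ∃ f, f = t e := ⟨_, rfl⟩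
  rw [← hb, ← hc'] at hc
  rw [← he, ← hf'] at hf
  rw [← hb] at o1
  rw [← hb, ← hc'] at o2 o3
  rw [← he] at p1
  rw [← he, ← hf'] at p2 p3
  rw [← hb] at hd2
  rw [← hb, ← hc'] at hd3
  rw [← he] at q1
  rw [← he, ← hb] at q2
  rw [← he, ← hb, ← hc'] at q3
  rw [← he, ← hf'] at q4
  rw [← he, ← hf', ← hb] at q5
  rw [← he, ← hf', ← hb, ← hc'] at q6
  by_cases hx : ∃ x, t x = x
  · obtain ⟨x, hx⟩ := hx
    have x1 : x ≠ a := fun h => o1 (by rw [h] at hx; rw [hb, hx])
    have x2 : x ≠ b := fun h => o3 (by rw [h] at hx; rw [hc', hx])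
    have x3 : x ≠ c := fun h => o2 (by rw [h] at hx; rw [← hc, hx])
    have x4 : x ≠ d := fun h => p1 (by rw [h] at hx; rw [he, hx])
    have x5 : x ≠ e := fun h => p3 (by rw [h] at hx; rw [hf', hx])
    have x6 : x ≠ f := fun h => p2 (by rw [h] at hx; rw [← hf, hx])
    refine ⟨swap c d * swap f x, tc2_alt hd3.symm x6.symm, ?_⟩
    obtain ⟨u, hu⟩ : ∃ u, u = t * (swap c d * swap f x * t * (swap c d * swap f x)⁻¹) := ⟨_, rfl⟩
    rw [← hu]
    have ua : u a = c := by
      rw [hu]
      simp only [Perm.mul_apply, mul_inv_rev, swap_inv]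
      rw [swap_apply_of_ne_of_ne o2 hd1.symm, swap_apply_of_ne_of_ne q4.symm x1.symm, ← hb,
        swap_apply_of_ne_of_ne q5.symm x2.symm, swap_apply_of_ne_of_ne o3 hd2.symm, ← hc']
    have uc : u c = f := by
      rw [hu]
      simp only [Perm.mul_apply, mul_inv_rev, swap_inv]
      rw [swap_apply_left, swap_apply_of_ne_of_ne p2 x4.symm, ← he,
        swap_apply_of_ne_of_ne p3 x5.symm, swap_apply_of_ne_of_ne q3 p1.symm, ← hf']
    have uf : u f = d := by
      rw [hu]
      simp only [Perm.mul_apply, mul_inv_rev, swap_inv]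
      rw [swap_apply_of_ne_of_ne q6 p2.symm, swap_apply_left, hx, swap_apply_right,
        swap_apply_of_ne_of_ne q6 p2.symm, hf]
    have ud : u d = b := by
      rw [hu]
      simp only [Perm.mul_apply, mul_inv_rev, swap_inv]
      rw [swap_apply_right, swap_apply_of_ne_of_ne q6.symm x3.symm, hc,
        swap_apply_of_ne_of_ne q4.symm x1.symm, swap_apply_of_ne_of_ne o2 hd1.symm, ← hb]
    have ub : u b = e := by
      rw [hu]
      simp only [Perm.mul_apply, mul_inv_rev, swap_inv]
      rw [swap_apply_of_ne_of_ne o3 hd2.symm, swap_apply_of_ne_of_ne q5.symm x2.symm, ← hc',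
        swap_apply_of_ne_of_ne q6.symm x3.symm, swap_apply_left, ← he]
    refine ⟨?_, ?_, ?_⟩
    · intro h
      have := congrArg (fun p : Perm (Fin n) => p a) h
      simp only [pow_succ, pow_zero, one_mul, Perm.mul_apply, ua, uc, Perm.one_apply] at this
      exact q4 this
    · intro h
      have := congrArg (fun p : Perm (Fin n) => p a) h
      simp only [pow_succ, pow_zero, one_mul, Perm.mul_apply, ua, uc, uf, Perm.one_apply] at this
      exact hd1 this
    · intro h
      have := congrArg (fun p : Perm (Fin n) => p a) h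
      simp only [pow_succ, pow_zero, one_mul, Perm.mul_apply, ua, uc, uf, ud, ub,
        Perm.one_apply] at this
      exact q1 this
  · push Not at hx
    obtain ⟨x, hx6⟩ : ∃ x, x ∉ ({a, b, c, d, e, f} : Finset (Fin n)) := by
      by_contra h
      push Not at h
      have h1 : (Finset.univ : Finset (Fin n)) ⊆ {a, b, c, d, e, f} := fun x _ => h x
      have h2 := Finset.card_le_card h1
      rw [Finset.card_univ, Fintype.card_fin] at h2
      have h4 : ({a, b, c, d, e, f} : Finset (Fin n)).card ≤ 6 := Finset.card_le_six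
      omega
    simp only [Finset.mem_insert, Finset.mem_singleton, not_or] at hx6
    obtain ⟨x1, x2, x3, x4, x5, x6⟩ := hx6
    obtain ⟨r1, r2, r3⟩ := tc2_orbit h3 (hx x)
    have s := tc2_disj h3 x1 (by rw [← hb]; exact x2) (by rw [← hb, ← hc']; exact x3)
    have s' := tc2_disj h3 x4 (by rw [← he]; exact x5) (by rw [← he, ← hf']; exact x6)
    rw [← hb, ← hc'] at s
    rw [← he, ← hf'] at s'
    have hz := h3 x
    obtain ⟨y, hy⟩ : ∃ y, y = t x := ⟨_, rfl⟩
    obtain ⟨z, hz'⟩ : ∃ z, z = t y := ⟨_, rfl⟩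
    rw [← hy, ← hz'] at hz s s'
    rw [← hy] at r1
    rw [← hy, ← hz'] at r2 r3
    obtain ⟨s1, s2, s3, s4, s5, s6⟩ := s
    obtain ⟨v1, v2, v3, v4, v5, v6⟩ := s'
    refine ⟨swap f x * swap y z, tc2_alt (Ne.symm x6) r3, ?_⟩
    obtain ⟨u, hu⟩ : ∃ u, u = t * (swap f x * swap y z * t * (swap f x * swap y z)⁻¹) := ⟨_, rfl⟩
    rw [← hu]
    have ua : u a = c := by
      rw [hu]
      simp only [Perm.mul_apply, mul_inv_rev, swap_inv]
      rw [swap_apply_of_ne_of_ne q4.symm (Ne.symm x1), swap_apply_of_ne_of_ne s1.symm s4.symm, ← hb,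
        swap_apply_of_ne_of_ne s2.symm s5.symm, swap_apply_of_ne_of_ne q5.symm (Ne.symm x2), ← hc']
    have uc : u c = b := by
      rw [hu]
      simp only [Perm.mul_apply, mul_inv_rev, swap_inv]
      rw [swap_apply_of_ne_of_ne q6.symm (Ne.symm x3), swap_apply_of_ne_of_ne s3.symm s6.symm, hc,
        swap_apply_of_ne_of_ne s1.symm s4.symm, swap_apply_of_ne_of_ne q4.symm (Ne.symm x1), ← hb]
    have ud : u d = f := by
      rw [hu]
      simp only [Perm.mul_apply, mul_inv_rev, swap_inv]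
      rw [swap_apply_of_ne_of_ne p2 (Ne.symm x4), swap_apply_of_ne_of_ne v1.symm v4.symm, ← he,
        swap_apply_of_ne_of_ne v2.symm v5.symm, swap_apply_of_ne_of_ne p3 (Ne.symm x5), ← hf']
    have uf : u f = x := by
      rw [hu]
      simp only [Perm.mul_apply, mul_inv_rev, swap_inv]
      rw [swap_apply_left, swap_apply_of_ne_of_ne r1 r2, ← hy, swap_apply_left,
        swap_apply_of_ne_of_ne v6 r2.symm, hz]
    have ux : u x = e := by
      rw [hu]
      simp only [Perm.mul_apply, mul_inv_rev, swap_inv]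
      rw [swap_apply_right, swap_apply_of_ne_of_ne v3.symm v6.symm, hf,
        swap_apply_of_ne_of_ne v1.symm v4.symm, swap_apply_of_ne_of_ne p2 (Ne.symm x4), ← he]
    refine ⟨?_, ?_, ?_⟩
    · intro h
      have := congrArg (fun p : Perm (Fin n) => p a) h
      simp only [pow_succ, pow_zero, one_mul, Perm.mul_apply, ua, uc, Perm.one_apply] at this
      exact o1 this.symm
    · intro h
      have := congrArg (fun p : Perm (Fin n) => p d) h
      simp only [pow_succ, pow_zero, one_mul, Perm.mul_apply, ud, uf, ux, Perm.one_apply] at this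
      exact p1 this.symm
    · intro h
      have hba : u b = a := by
        rw [hu]
        simp only [Perm.mul_apply, mul_inv_rev, swap_inv]
        rw [swap_apply_of_ne_of_ne q5.symm (Ne.symm x2), swap_apply_of_ne_of_ne s2.symm s5.symm,
          ← hc', swap_apply_of_ne_of_ne s3.symm s6.symm,
          swap_apply_of_ne_of_ne q6.symm (Ne.symm x3), hc]
      have := congrArg (fun p : Perm (Fin n) => p a) h
      simp only [pow_succ, pow_zero, one_mul, Perm.mul_apply, ua, uc, hba, Perm.one_apply] at this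
      exact o1 this.symm

end OutRF
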