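import Pool.Agent.Lib_MP_0c5939_al.Stmts2

/-!
# MP_0c5939_al, piece TC3: a 3-cycle and a conjugate

Proof:
t = (a b c) (t a = b, t b = c, t c = a), others fixed; n >= 9: choose distinct fixed points d, e, f, x.
First: g = swap c d * swap e f (even): g t g^-1 = (a b d), u = (a b c)(a b d) = (a c)(b d): u a = c, u c = a so
u^3 a = c != a, u^5 a = c != a. Second: g even mapping a,b,c to c,d,e: e.g. g = swap a d * swap b e: g t g^-1 =
(d e c), u = (a b c)(d e c): u a = t a = b, u b = c ... u^2 a = c != a.
(For u^2 != 1 any such choice is fine: just evaluate: g t g^-1 fixes a, b; u a = t a = b, u b = t b = c.)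
-/

namespace OutRF
open Equiv

theorem tc3_points (n : ℕ) (t : Perm (Fin n)) (ht : t.IsThreeCycle) : ∃ a b c : Fin n,
    a ≠ b ∧ a ≠ c ∧ b ≠ c ∧ t a = b ∧ t b = c ∧ t c = a ∧ ∀ x, x ≠ a → x ≠ b → x ≠ c → t x = x := by
  classical
  have hcard : t.support.card = 3 := ht.card_support
  have hne : t.support.Nonempty := by
    rw [← Finset.card_pos, hcard]
    norm_num
  obtain ⟨a, ha⟩ := hne
  have h3 : t ^ 3 = 1 := by
    rw [← ht.orderOf]
    exact pow_orderOf_eq_one t
  have h3a : t (t (t a)) = a := by
    have := congrArg (fun g : Perm (Fin n) => g a) h3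
    simpa [pow_succ, Perm.mul_apply] using this
  have hab : t a ≠ a := Perm.mem_support.mp ha
  have hbc : t (t a) ≠ t a := fun h => hab (t.injective h)
  have hac : t (t a) ≠ a := by
    intro h
    rw [h] at h3a
    exact hab h3a
  have hsub : ({a, t a, t (t a)} : Finset (Fin n)) ⊆ t.support := by
    intro x hx
    simp only [Finset.mem_insert, Finset.mem_singleton] at hx
    rcases hx with rfl | rfl | rfl
    · exact ha
    · exact Perm.apply_mem_support.mpr ha
    · exact Perm.apply_mem_support.mpr (Perm.apply_mem_support.mpr ha)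
  have hc3 : ({a, t a, t (t a)} : Finset (Fin n)).card = 3 := by
    rw [Finset.card_eq_three]
    exact ⟨a, t a, t (t a), hab.symm, hac.symm, hbc.symm, rfl⟩
  have heq := Finset.eq_of_subset_of_card_le hsub (by rw [hcard, hc3])
  refine ⟨a, t a, t (t a), hab.symm, hac.symm, hbc.symm, rfl, rfl, h3a, ?_⟩
  intro x h1 h2 h4
  by_contra hx
  have : x ∈ t.support := Perm.mem_support.mpr hx
  rw [← heq] at this
  simp only [Finset.mem_insert, Finset.mem_singleton] at this
  rcases this with h | h | h
  · exact h1 h
  · exact h2 h
  · exact h4 h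

theorem tc3_conj {n : ℕ} (g t : Perm (Fin n)) (x : Fin n) : (g * t * g⁻¹) (g x) = g (t x) := by
  simp

theorem TC3 : TC3_stmt := by
  intro n t hn ht
  classical
  obtain ⟨a, b, c, hab, hac, hbc, ta, tb, tc, tx⟩ := tc3_points n t ht
  have hcompl : 2 < (({a, b, c} : Finset (Fin n))ᶜ).card := by
    rw [Finset.card_compl, Fintype.card_fin]
    have : ({a, b, c} : Finset (Fin n)).card ≤ 3 := Finset.card_le_three
    omega
  obtain ⟨d, e, f, hd, he, hf, hde, hdf, hef⟩ := Finset.two_lt_card_iff.mp hcompl
  simp only [Finset.mem_compl, Finset.mem_insert, Finset.mem_singleton, not_or] at hd he hf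
  obtain ⟨hda, hdb, hdc⟩ := hd
  obtain ⟨hea, heb, hec⟩ := he
  obtain ⟨hfa, hfb, hfc⟩ := hf
  have td := tx d hda hdb hdc
  have te := tx e hea heb hec
  constructor
  · refine ⟨swap c d * swap e f, ?_, ?_⟩
    · rw [Perm.mem_alternatingGroup, Perm.sign_mul, Perm.sign_swap (Ne.symm hdc), Perm.sign_swap hef]
      norm_num
    · have ga : (swap c d * swap e f) a = a := by
        rw [Perm.mul_apply, swap_apply_of_ne_of_ne (Ne.symm hea) (Ne.symm hfa),
          swap_apply_of_ne_of_ne hac (Ne.symm hda)]
      have gb : (swap c d * swap e f) b = b := by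
        rw [Perm.mul_apply, swap_apply_of_ne_of_ne (Ne.symm heb) (Ne.symm hfb),
          swap_apply_of_ne_of_ne hbc (Ne.symm hdb)]
      have gd : (swap c d * swap e f) d = c := by
        rw [Perm.mul_apply, swap_apply_of_ne_of_ne hde hdf, swap_apply_right]
      generalize swap c d * swap e f = g at ga gb gd ⊢
      have ua : (t * (g * t * g⁻¹)) a = c := by
        rw [Perm.mul_apply]
        have := tc3_conj g t a
        rw [ga, ta, gb] at this
        rw [this, tb]
      have uc : (t * (g * t * g⁻¹)) c = a := by
        rw [Perm.mul_apply]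
        have := tc3_conj g t d
        rw [gd, td, gd] at this
        rw [this, tc]
      generalize t * (g * t * g⁻¹) = u at ua uc ⊢
      constructor
      · intro h
        have := congrArg (fun g : Perm (Fin n) => g a) h
        simp only [pow_succ, pow_zero, one_mul, Perm.mul_apply, ua, uc, Perm.one_apply] at this
        exact hac this.symm
      · intro h
        have := congrArg (fun g : Perm (Fin n) => g a) h
        simp only [pow_succ, pow_zero, one_mul, Perm.mul_apply, ua, uc, Perm.one_apply] at this
        exact hac this.symm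
  · refine ⟨swap a d * swap b e, ?_, ?_⟩
    · rw [Perm.mem_alternatingGroup, Perm.sign_mul, Perm.sign_swap (Ne.symm hda), Perm.sign_swap (Ne.symm heb)]
      norm_num
    · have gd : (swap a d * swap b e) d = a := by
        rw [Perm.mul_apply, swap_apply_of_ne_of_ne hdb hde, swap_apply_right]
      have ge : (swap a d * swap b e) e = b := by
        rw [Perm.mul_apply, swap_apply_right, swap_apply_of_ne_of_ne (Ne.symm hab) (Ne.symm hdb)]
      generalize swap a d * swap b e = g at gd ge ⊢
      have ua : (t * (g * t * g⁻¹)) a = b := by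
        rw [Perm.mul_apply]
        have := tc3_conj g t d
        rw [gd, td, gd] at this
        rw [this, ta]
      have ub : (t * (g * t * g⁻¹)) b = c := by
        rw [Perm.mul_apply]
        have := tc3_conj g t e
        rw [ge, te, ge] at this
        rw [this, tb]
      generalize t * (g * t * g⁻¹) = u at ua ub ⊢
      intro h
      have := congrArg (fun g : Perm (Fin n) => g a) h
      simp only [pow_succ, pow_zero, one_mul, Perm.mul_apply, ua, ub, Perm.one_apply] at this
      exact hac this.symm

end OutRF
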