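import Pool.Agent.Lib_MP_0c5939_al.Stmts2

/-!
# MP_0c5939_al, piece TChar: characterisation of single 3-cycles

Proof:
(->) g = 3-cycle in component c: g != 1, g^3 = 1 (order of a 3-cycle). For k in A, k g k^-1 is a 3-cycle in
component c (IsThreeCycle.conj or cycleType_conj), trivial elsewhere; TC1.
(<-) there is c with g c != 1, (g c)^3 = 1. If g c is not a 3-cycle, TC2 (X.hN) gives h even; k := Pi.mulSingle c h
in A (X.hA); (g * (k g k^-1))^j at c is != 1 for j = 2,3,5: contradiction. So g c is a 3-cycle. If g c' != 1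
for some c' != c, then g c' is also a 3-cycle; let h from TC3 first part for g c and h' from the second
part for g c', k := mulSingle c h * mulSingle c' h': at c the 3rd and 5th powers are nontrivial, at c' the
second power: contradiction. TCPRES: the right hand side of TCHAR is invariant under alpha (k = alpha k').
-/

namespace OutRF
open Equiv

open Classical in
theorem tchar_single_mem (X : Box) (c : X.C) (h : Perm (Fin (X.N c)))
    (hh : h ∈ alternatingGroup (Fin (X.N c))) :
    (Pi.mulSingle c h : X.PP) ∈ X.A := by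
  apply X.hA _ c
  · intro c' hc'
    exact Pi.mulSingle_eq_of_ne (M := fun c => Perm (Fin (X.N c))) hc' h
  · rw [Pi.mulSingle_eq_same]
    exact hh

theorem tchar_eval (X : Box) (g k : X.A) (j : ℕ) (c : X.C) :
    (((g * (k * g * k⁻¹)) ^ j : X.A) : X.PP) c =
      ((g : X.PP) c * ((k : X.PP) c * (g : X.PP) c * ((k : X.PP) c)⁻¹)) ^ j := by
  simp

theorem tchar_conj_three {n : ℕ} (t k : Perm (Fin n)) (ht : t.IsThreeCycle) :
    (k * t * k⁻¹).IsThreeCycle := by
  unfold Perm.IsThreeCycle at *
  rw [Perm.cycleType_conj]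
  exact ht

theorem tchar_cube {n : ℕ} (t : Perm (Fin n)) (ht : t.IsThreeCycle) : t ^ 3 = 1 := by
  rw [← ht.orderOf]
  exact pow_orderOf_eq_one t

theorem tchar_ne_one {n : ℕ} (t : Perm (Fin n)) (ht : t.IsThreeCycle) : t ≠ 1 := by
  intro h
  have := ht.orderOf
  rw [h, orderOf_one] at this
  omega

theorem TCHAR (hTC1 : TC1_stmt) (hTC2 : TC2_stmt) (hTC3 : TC3_stmt) : TCHAR_stmt := by
  classical
  intro X g
  constructor
  · rintro ⟨c, hc, hc'⟩
    refine ⟨?_, ?_, ?_⟩
    · rintro rfl
      exact tchar_ne_one _ hc (by simp)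
    · apply Subtype.ext
      funext d
      by_cases hd : d = c
      · subst hd
        simpa using tchar_cube _ hc
      · have := hc' d hd
        simp [this]
    · intro k
      have key : ∀ j : ℕ, ((g : X.PP) c * ((k : X.PP) c * (g : X.PP) c * ((k : X.PP) c)⁻¹)) ^ j = 1 →
          (g * (k * g * k⁻¹)) ^ j = 1 := by
        intro j hj
        apply Subtype.ext
        funext d
        rw [tchar_eval]
        by_cases hd : d = c
        · subst hd
          rw [hj]
          simp
        · rw [hc' d hd]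
          simp
      rcases hTC1 _ ((g : X.PP) c) ((k : X.PP) c * (g : X.PP) c * ((k : X.PP) c)⁻¹) hc
        (tchar_conj_three _ _ hc) with h | h | h
      · exact Or.inl (key _ h)
      · exact Or.inr (Or.inl (key _ h))
      · exact Or.inr (Or.inr (key _ h))
  · rintro ⟨h1, h3, hk⟩
    have h3' : ∀ c, ((g : X.PP) c) ^ 3 = 1 := by
      intro c
      have := congrFun (congrArg Subtype.val h3) c
      simpa using this
    -- every nontrivial component is a three-cycle
    have hthree : ∀ c, (g : X.PP) c ≠ 1 → ((g : X.PP) c).IsThreeCycle := by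
      intro c hc
      by_contra hnot
      obtain ⟨h, hh, q2, q3, q5⟩ := hTC2 _ ((g : X.PP) c) (X.hN c) hc (h3' c) hnot
      have hk' := hk ⟨Pi.mulSingle c h, tchar_single_mem X c h hh⟩
      have hev : ∀ j : ℕ, (g * (⟨Pi.mulSingle c h, tchar_single_mem X c h hh⟩ * g *
          (⟨Pi.mulSingle c h, tchar_single_mem X c h hh⟩ : X.A)⁻¹)) ^ j = 1 →
          ((g : X.PP) c * (h * (g : X.PP) c * h⁻¹)) ^ j = 1 := by
        intro j hj
        have := congrFun (congrArg Subtype.val hj) c
        rw [tchar_eval] at this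
        simpa using this
      rcases hk' with h | h | h
      · exact q2 (hev _ h)
      · exact q3 (hev _ h)
      · exact q5 (hev _ h)
    obtain ⟨c, hc⟩ : ∃ c, (g : X.PP) c ≠ 1 := by
      by_contra hno
      push Not at hno
      apply h1
      apply Subtype.ext
      funext c
      simpa using hno c
    refine ⟨c, hthree c hc, ?_⟩
    intro c' hcc'
    by_contra hc'
    obtain ⟨⟨h, hh, q3, q5⟩, _⟩ := hTC3 _ ((g : X.PP) c) (X.hN c) (hthree c hc)
    obtain ⟨_, ⟨h', hh', q2⟩⟩ := hTC3 _ ((g : X.PP) c') (X.hN c') (hthree c' hc')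
    have hmem : (Pi.mulSingle c h * Pi.mulSingle c' h' : X.PP) ∈ X.A :=
      X.A.mul_mem (tchar_single_mem X c h hh) (tchar_single_mem X c' h' hh')
    have hk' := hk ⟨_, hmem⟩
    have e1 : (Pi.mulSingle c h * Pi.mulSingle c' h' : X.PP) c = h := by
      rw [Pi.mul_apply, Pi.mulSingle_eq_same, Pi.mulSingle_eq_of_ne (Ne.symm hcc'), mul_one]
    have e2 : (Pi.mulSingle c h * Pi.mulSingle c' h' : X.PP) c' = h' := by
      rw [Pi.mul_apply, Pi.mulSingle_eq_same, Pi.mulSingle_eq_of_ne hcc', one_mul]
    have hevc : ∀ j : ℕ, (g * (⟨_, hmem⟩ * g * (⟨_, hmem⟩ : X.A)⁻¹)) ^ j = 1 →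
        ((g : X.PP) c * (h * (g : X.PP) c * h⁻¹)) ^ j = 1 := by
      intro j hj
      have := congrFun (congrArg Subtype.val hj) c
      rw [tchar_eval] at this
      simp only [e1] at this
      simpa using this
    have hevc' : ∀ j : ℕ, (g * (⟨_, hmem⟩ * g * (⟨_, hmem⟩ : X.A)⁻¹)) ^ j = 1 →
        ((g : X.PP) c' * (h' * (g : X.PP) c' * h'⁻¹)) ^ j = 1 := by
      intro j hj
      have := congrFun (congrArg Subtype.val hj) c'
      rw [tchar_eval] at this
      simp only [e2] at this
      simpa using this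
    rcases hk' with h | h | h
    · exact q2 (hevc' _ h)
    · exact q3 (hevc _ h)
    · exact q5 (hevc _ h)

theorem TCPRES (hTCHAR : TCHAR_stmt) : TCPRES_stmt := by
  intro X α g hg
  rw [hTCHAR] at hg ⊢
  obtain ⟨h1, h3, hk⟩ := hg
  refine ⟨?_, ?_, ?_⟩
  · intro h
    apply h1
    apply α.injective
    rw [h, map_one]
  · rw [← map_pow, h3, map_one]
  · intro k
    have key : ∀ j : ℕ, (g * (α.symm k * g * (α.symm k)⁻¹)) ^ j = 1 →
        (α g * (k * α g * k⁻¹)) ^ j = 1 := by
      intro j hj
      have := congrArg α hj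
      simpa using this
    rcases hk (α.symm k) with h | h | h
    · exact Or.inl (key _ h)
    · exact Or.inr (Or.inl (key _ h))
    · exact Or.inr (Or.inr (key _ h))

end OutRF
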