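import Pool.Agent.Lib_MP_0c5939_al.Stmts2

/-!
# MP_0c5939_al, piece Theta: the homomorphism from Aut A to Perm Om

Proof:
Box for F: C, N (F.sixteen_le_N gives 9 <= N), A = F.A; hA: inA by AMEM: signs are 1, displacement vanishes for
n c > n c0 (LOCFINITE from the constant 0). IND gives for alpha : MulAut F.A (= F.A ≃* F.A) sigma, e; put
pi = Equiv.sigmaCongr sigma e (pi <c,x> = <sigma c, e c x>). Then act (alpha g) * pi = pi * act g.
Uniqueness: if rho commutes with act g for all g in A then rho = 1: if rho x = y != x take a 3-cycle g of the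
component of y moving y and fixing x (N >= 16), in A: rho (g x) = y, g (rho x) = g y != y.
So pi_alpha is unique, alpha -> pi_alpha is multiplicative: MonoidHom.
NZ: first clause: inA g -> g in A (AMEM) -> alpha g in A -> inA; second with alpha^-1; third from
(pi <c,x>).1 = sigma c. Third claim: if Theta alpha = act gamma, gamma in A then act (alpha g) = act (gamma g gamma^-1), act is
injective (F.act_inj). Fourth: uniqueness with pi = act g.
-/

namespace OutRF
open Equiv

private theorem Theta_hA (hLOCFINITE : LOCFINITE_stmt) (F : Fam) (g : F.P) (c : F.C)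
    (h1 : ∀ c', c' ≠ c → g c' = 1) (h2 : g c ∈ alternatingGroup (Fin (F.N c))) : g ∈ F.A := by
  apply Subgroup.subset_closure
  refine ⟨fun c' => ?_, ?_⟩
  · by_cases hc : c' = c
    · subst hc
      exact Equiv.Perm.mem_alternatingGroup.mp h2
    · rw [h1 c' hc]
      exact map_one _
  · refine hLOCFINITE F ℤ (fun _ _ => 0) (F.disp g) (F.n c) ?_ ⟨0, fun _ _ _ _ _ _ _ _ _ => rfl⟩
    intro c' w hc hw
    have hne : c' ≠ c := by
      rintro rfl
      exact lt_irrefl _ hc
    unfold Fam.disp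
    rw [F.ev_of_lt g c' w hw, h1 c' hne]
    simp

private noncomputable def Theta_box (hLOCFINITE : LOCFINITE_stmt) (F : Fam) : Box where
  C := F.C
  N := F.N
  hN c := le_trans (by norm_num) (F.sixteen_le_N c)
  A := F.A
  hA g c h1 h2 := Theta_hA hLOCFINITE F g c h1 h2

/-- the property of the permutation of an automorphism -/
private def ThetaP (F : Fam) (α : MulAut F.A) (π : Perm F.Om) : Prop :=
  ∀ g : F.A, F.act ((α g : F.A) : F.P) = π * F.act (g : F.P) * π⁻¹

private theorem Theta_ex (hLOCFINITE : LOCFINITE_stmt) (hIND : IND_stmt) (F : Fam)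
    (α : MulAut F.A) : ∃ π : Perm F.Om, ThetaP F α π ∧
      ∀ x y : F.Om, x.1 = y.1 ↔ (π x).1 = (π y).1 := by
  obtain ⟨σ, e, h⟩ := hIND (Theta_box hLOCFINITE F) α
  change Perm F.C at σ
  change (c : F.C) → Fin (F.N c) ≃ Fin (F.N (σ c)) at e
  refine ⟨Equiv.sigmaCongr σ e, ?_, ?_⟩
  · intro g
    rw [eq_mul_inv_iff_mul_eq]
    ext1 ⟨c, x⟩
    have h3 := h g c x
    change F.act ((α g : F.A) : F.P) ⟨σ c, e c x⟩ = ⟨σ c, e c ((g : F.P) c x)⟩
    rw [F.act_apply]
    exact congrArg _ h3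
  · rintro ⟨c, x⟩ ⟨c', x'⟩
    change c = c' ↔ σ c = σ c'
    exact σ.injective.eq_iff.symm

private theorem Theta_avoid {n : ℕ} (hn : 16 ≤ n) (s : Finset (Fin n)) (hs : s.card ≤ 3) :
    ∃ a, a ∉ s := by
  by_contra h
  push Not at h
  have h2 : s = Finset.univ := by
    ext a
    simp [h a]
  rw [h2, Finset.card_univ, Fintype.card_fin] at hs
  omega

private theorem Theta_move (hLOCFINITE : LOCFINITE_stmt) (F : Fam) {x y : F.Om} (h : y ≠ x) :
    ∃ g : F.A, F.act (g : F.P) x = x ∧ F.act (g : F.P) y ≠ y := by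
  classical
  obtain ⟨c, j⟩ := y
  obtain ⟨c', i⟩ := x
  have key : ∃ a b : Fin (F.N c), a ≠ j ∧ b ≠ j ∧ a ≠ b ∧
      ∀ hc : c' = c, (hc ▸ i) ≠ a ∧ (hc ▸ i) ≠ b := by
    by_cases hc : c' = c
    · subst hc
      obtain ⟨a, ha⟩ := Theta_avoid (F.sixteen_le_N c') {j, i} (by
        exact le_trans (Finset.card_le_two) (by norm_num))
      obtain ⟨b, hb⟩ := Theta_avoid (F.sixteen_le_N c') {j, i, a} (Finset.card_le_three)
      simp only [Finset.mem_insert, Finset.mem_singleton, not_or] at ha hb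
      exact ⟨a, b, ha.1, hb.1, fun h => hb.2.2 h.symm, fun _ => ⟨fun h => ha.2 h.symm,
        fun h => hb.2.1 h.symm⟩⟩
    · obtain ⟨a, ha⟩ := Theta_avoid (F.sixteen_le_N c) {j} (by simp)
      obtain ⟨b, hb⟩ := Theta_avoid (F.sixteen_le_N c) {j, a} (by
        exact le_trans (Finset.card_le_two) (by norm_num))
      simp only [Finset.mem_insert, Finset.mem_singleton, not_or] at ha hb
      exact ⟨a, b, ha, hb.1, fun h => hb.2 h.symm, fun h => absurd h hc⟩
  obtain ⟨a, b, haj, hbj, hab, hi⟩ := key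
  have hmem : (Pi.mulSingle c (swap j a * swap a b) : F.P) ∈ F.A := by
    refine Theta_hA hLOCFINITE F _ c ?_ ?_
    · intro c'' hc''
      exact Pi.mulSingle_eq_of_ne hc'' _
    · rw [Pi.mulSingle_eq_same, Equiv.Perm.mem_alternatingGroup, map_mul,
        Equiv.Perm.sign_swap haj.symm, Equiv.Perm.sign_swap hab]
      norm_num
  refine ⟨⟨_, hmem⟩, ?_, ?_⟩
  · rw [F.act_apply]
    dsimp only
    by_cases hc : c' = c
    · subst hc
      have h1 := hi rfl
      dsimp only at h1
      have hij : i ≠ j := by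
        rintro rfl
        exact h rfl
      rw [Pi.mulSingle_eq_same, Perm.mul_apply, swap_apply_of_ne_of_ne h1.1 h1.2,
        swap_apply_of_ne_of_ne hij h1.1]
    · rw [Pi.mulSingle_eq_of_ne hc]
      rfl
  · rw [F.act_apply]
    dsimp only
    rw [Pi.mulSingle_eq_same, Perm.mul_apply,
      swap_apply_of_ne_of_ne haj.symm hbj.symm, swap_apply_left]
    intro h2
    rw [Sigma.mk.injEq] at h2
    exact haj (eq_of_heq h2.2)

private theorem Theta_uniq (hLOCFINITE : LOCFINITE_stmt) (F : Fam) {α : MulAut F.A}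
    {π π' : Perm F.Om} (h : ThetaP F α π) (h' : ThetaP F α π') : π = π' := by
  have h1 : ∀ g : F.A, π'⁻¹ * π * F.act (g : F.P) = F.act (g : F.P) * (π'⁻¹ * π) := by
    intro g
    have h2 := (h g).symm.trans (h' g)
    have h3 : π * F.act (g : F.P) = π' * F.act (g : F.P) * π'⁻¹ * π := by
      rw [← h2]
      group
    rw [mul_assoc, h3]
    group
  have h4 : π'⁻¹ * π = 1 := by
    ext1 x
    by_contra hx
    obtain ⟨g, hg1, hg2⟩ := Theta_move hLOCFINITE F (x := x) (y := (π'⁻¹ * π) x) hx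
    have h5 := congrArg (fun τ : Perm F.Om => τ x) (h1 g)
    simp only [Perm.mul_apply] at h5 hg2
    rw [hg1] at h5
    exact hg2 h5.symm
  rw [inv_mul_eq_one] at h4
  exact h4.symm

theorem THETA (hAMEM : AMEM_stmt) (hLOCFINITE : LOCFINITE_stmt) (hLOCBASIC : LOCBASIC_stmt) (hIND : IND_stmt) : THETA_stmt := by
  intro F
  choose θ hθ1 hθ2 using Theta_ex hLOCFINITE hIND F
  refine ⟨MonoidHom.mk' θ ?_, ?_, ?_, ?_, ?_⟩
  · intro α β
    refine Theta_uniq hLOCFINITE F (hθ1 _) ?_
    intro g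
    rw [MulAut.mul_apply, hθ1 α, hθ1 β]
    group
  · intro α
    change F.NZ (θ α)
    refine ⟨?_, ?_, hθ2 α⟩
    · intro g hg
      have hm : g ∈ F.A := (hAMEM F g).mpr hg
      exact ⟨_, (hAMEM F _).mp (α ⟨g, hm⟩).2, hθ1 α ⟨g, hm⟩⟩
    · intro g hg
      have hm : g ∈ F.A := (hAMEM F g).mpr hg
      refine ⟨_, (hAMEM F _).mp (α.symm ⟨g, hm⟩).2, ?_⟩
      have h1 := hθ1 α (α.symm ⟨g, hm⟩)
      rw [MulEquiv.apply_symm_apply] at h1
      change F.act g = _ at h1
      rw [h1]
      group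
  · intro α g
    exact hθ1 α g
  · intro α γ hγ h
    change θ α = _ at h
    ext1 g
    apply Subtype.ext
    apply F.act_inj
    rw [hθ1 α g, h, MulAut.conj_apply]
    rw [← F.act_inv, ← F.act_mul, ← F.act_mul]
    rfl
  · intro g
    refine Theta_uniq hLOCFINITE F (hθ1 _) ?_
    intro h
    rw [MulAut.conj_apply, ← F.act_inv, ← F.act_mul, ← F.act_mul]
    rfl

end OutRF
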