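import Pool.Agent.Lib_MP_0c5939_al.Stmts

/-!
# MP_0c5939_al, piece Univ: universal 3-cycles are in Gam

Proof:
For disjoint theta, theta' contained in blk: T (theta union theta') x = T theta x * T theta' x (x < 16):
all windows [p+x, p+x+3) with 16 | p are pairwise disjoint (positions differ by at least 16), so the
F.Valid hypotheses hold and the equality follows by IsApp.unique (the product satisfies IsApp for the
union) or F.ev_ext. blk is the disjoint union of the 3*4*4... = 48 sets base sigma t f l (sigma : Bool x Bool,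
t : Fin 3, f l : Bool); every T (base ..) x, x < 16, is in gens. Do a Finset induction over the finite
index type (Bool x Bool) x Fin 3 x Bool x Bool, for the union over a finset. typ <= 2 by F.typ_le. T of the
empty set is 1.
-/

namespace OutRF
open Equiv

theorem Fam.univ_valid_pos (F : Fam) (θ : Set (F.C × ℕ)) (x : ℕ) (hθ : θ ⊆ F.blk) :
    F.Valid 3 (F.pos θ x) := by
  constructor
  · rintro c p ⟨p', _, h1, h2⟩
    simp only at h1 h2
    omega
  · rintro c p q ⟨p', hp', h1, h2⟩ ⟨q', hq', h3, h4⟩ hpq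
    have a := (hθ hp').1
    have b := (hθ hq').1
    simp only at a b h1 h2 h3 h4
    omega

theorem Fam.univ_T_union (F : Fam) (hAPP : APP_stmt) (θ θ' : Set (F.C × ℕ)) (x : ℕ) (hθ : θ ⊆ F.blk)
    (hθ' : θ' ⊆ F.blk) (hd : ∀ q, q ∈ θ → q ∈ θ' → False) :
    F.T (θ ∪ θ') x = F.T θ x * F.T θ' x := by
  have h1 : F.IsApp 3 (F.pos θ x) (finRotate 3) (F.T θ x) :=
    hAPP F 3 _ (finRotate 3) (F.univ_valid_pos θ x hθ)
  have h2 : F.IsApp 3 (F.pos θ' x) (finRotate 3) (F.T θ' x) :=
    hAPP F 3 _ (finRotate 3) (F.univ_valid_pos θ' x hθ')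
  have h3 : F.IsApp 3 (F.pos (θ ∪ θ') x) (finRotate 3) (F.T (θ ∪ θ') x) :=
    hAPP F 3 _ (finRotate 3) (F.univ_valid_pos (θ ∪ θ') x (Set.union_subset hθ hθ'))
  refine h3.unique ⟨?_, ?_⟩
  · rintro c p ⟨p', hp', e1, e2⟩ r
    simp only at e1 e2
    rw [F.ev_mul]
    rcases hp' with hp' | hp'
    · have e3 : F.ev (F.T θ' x) c (p + r) = p + r := by
        apply h2.2
        rintro q ⟨q', hq', e4, e5⟩ ⟨e6, e7⟩
        simp only at e4 e5 hq'
        have a := (hθ hp').1
        have b := (hθ' hq').1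
        simp only at a b
        have hr := r.2
        have : q' = p' := by omega
        subst this
        exact hd _ hp' hq'
      rw [e3]
      exact h1.1 c p ⟨p', hp', e1, e2⟩ r
    · rw [h2.1 c p ⟨p', hp', e1, e2⟩ r]
      apply h1.2
      rintro q ⟨q', hq', e4, e5⟩ ⟨e6, e7⟩
      simp only at e4 e5 hq'
      have a := (hθ' hp').1
      have b := (hθ hq').1
      simp only at a b
      have hr := (finRotate 3 r).2
      have : q' = p' := by omega
      subst this
      exact hd _ hq' hp'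
  · intro c w hw
    rw [F.ev_mul]
    rw [h2.2 c w, h1.2 c w]
    · rintro q ⟨q', hq', e4, e5⟩ e6
      exact hw q ⟨q', Or.inl hq', e4, e5⟩ e6
    · rintro q ⟨q', hq', e4, e5⟩ e6
      exact hw q ⟨q', Or.inr hq', e4, e5⟩ e6

theorem Fam.univ_T_empty (F : Fam) (hAPP : APP_stmt) (x : ℕ) : F.T ∅ x = 1 := by
  have h3 : F.IsApp 3 (F.pos ∅ x) (finRotate 3) (F.T ∅ x) :=
    hAPP F 3 _ (finRotate 3) (F.univ_valid_pos ∅ x (Set.empty_subset _))
  refine h3.unique ⟨?_, ?_⟩
  · rintro c p ⟨p', hp', _⟩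
    exact absurd hp' (by simp)
  · intro c w _
    exact F.ev_one c w

/-- the index type of the base sets -/
abbrev UnivBIdx := (Bool × Bool) × Fin 3 × Bool × Bool

def Fam.univBs (F : Fam) (i : UnivBIdx) : Set (F.C × ℕ) := F.base i.1 i.2.1 i.2.2.1 i.2.2.2

theorem Fam.univBs_sub (F : Fam) (i : UnivBIdx) : F.univBs i ⊆ F.blk := fun _ hq => ⟨hq.1, hq.2.1⟩

theorem Fam.univBs_inj (F : Fam) (i j : UnivBIdx) (q : F.C × ℕ) (hi : q ∈ F.univBs i) (hj : q ∈ F.univBs j) :
    i = j := by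
  obtain ⟨σ, t, f, l⟩ := i
  obtain ⟨σ', t', f', l'⟩ := j
  obtain ⟨-, -, a1, a2, a3, a4⟩ := hi
  obtain ⟨-, -, b1, b2, b3, b4⟩ := hj
  simp only at a1 a2 a3 a4 b1 b2 b3 b4
  have h1 : σ = σ' := a1.symm.trans b1
  have h2 : t = t' := Fin.ext (a2.symm.trans b2)
  have h3 : f = f' := a3.symm.trans b3
  have h4 : l = l' := a4.symm.trans b4
  subst h1 h2 h3 h4
  rfl

theorem Fam.univBs_cover (F : Fam) (q : F.C × ℕ) (hq : q ∈ F.blk) : ∃ i, q ∈ F.univBs i := by
  have h := F.typ_le q.1 1 q.2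
  refine ⟨(F.s q.1 0, ⟨F.typ q.1 1 q.2, by omega⟩, decide (q.2 = 0), decide (q.2 + 16 = F.N q.1)),
    hq.1, hq.2, rfl, rfl, rfl, rfl⟩

theorem UNIV (hAPP : APP_stmt) : UNIV_stmt := by
  intro F x hx
  have key : ∀ s : Finset UnivBIdx, F.T {q | ∃ i ∈ s, q ∈ F.univBs i} x ∈ F.Gam := by
    intro s
    induction s using Finset.induction_on with
    | empty =>
      have : {q | ∃ i ∈ (∅ : Finset UnivBIdx), q ∈ F.univBs i} = ∅ := by
        ext q; simp
      rw [this, F.univ_T_empty hAPP x]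
      exact F.Gam.one_mem
    | insert a s has ih =>
      have h1 : {q | ∃ i ∈ insert a s, q ∈ F.univBs i} = F.univBs a ∪ {q | ∃ i ∈ s, q ∈ F.univBs i} := by
        ext q
        simp [Finset.mem_insert, or_and_right, exists_or]
      rw [h1, F.univ_T_union hAPP (F.univBs a) _ x (F.univBs_sub a)]
      · refine F.Gam.mul_mem (Subgroup.subset_closure ?_) ih
        exact ⟨a.1, a.2.1, a.2.2.1, a.2.2.2, ⟨x, hx⟩, rfl⟩
      · rintro q ⟨i, _, hi⟩
        exact F.univBs_sub i hi
      · rintro q h2 ⟨i, hi, h3⟩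
        have := F.univBs_inj a i q h2 h3
        subst this
        exact has hi
  have h2 : {q | ∃ i ∈ (Finset.univ : Finset UnivBIdx), q ∈ F.univBs i} = F.blk := by
    ext q
    constructor
    · rintro ⟨i, _, hi⟩
      exact F.univBs_sub i hi
    · intro hq
      obtain ⟨i, hi⟩ := F.univBs_cover q hq
      exact ⟨i, Finset.mem_univ _, hi⟩
  rw [← h2]
  exact key _

end OutRF
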