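import Pool.Agent.Lib_MP_0c5939_al.Stmts

/-!
# MP_0c5939_al, piece XEven: the parity lemma

Proof:
theta in blk, local, |theta_c| even for all c. k >= 1 with theta LocAt k. D := {psi in blk local | X psi in Gam} is
closed under symmDiff (XSYM).
(1) Split theta = A1 union A2 (components n c <= k / > k). X A1 in Gam by FINP: sign (X A1 c) = (-1)^(ncard) = 1
(SIGN; sign (swap 0 1) = -1), trivial for n c > k. So replace theta by A2 (still LocAt k).
(2) K = 16^(k+1). For y < K, 16 | y: theta^y = {(c,q) in theta | q % K = y}, psi^y = {(c,q) | (c,q+y) in theta^y} (local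
by LOCSH, in blk, 16^(k+1) | q). XSHIFT (psi^y, m = y/16): X psi^y * X theta^y in Gam. theta is the disjoint union of
the theta^y. So X theta in Gam iff X theta1 in Gam where theta1 = iterated symmDiff of the psi^y =
{(c,p) | k < n c, K | p, p < N c, #{q in [p,p+K) | (c,q) in theta} odd} (induction over the finite set of y; for
example prove: for every n <= 16^k: X {(c,q) in theta | q % K < 16 n} * X {(c,p) | K | p, p < N, #{q in
[p, p + 16 n) | (c,q) in theta} odd} in Gam by induction on n).
(3) COUNT: l, r. For K-blocks of c (k < n c; K | N c since k+1 <= n c): middle blocks even, so the total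
|theta_c| = sum over blocks is congruent to l(s c) + r(s c) mod 2 both when there is one block and when there are
>= 2 blocks. It is even, so l(s c) = r(s c) mod 2. Hence theta1 = {(c,p) | k < n c, K | p, p < N c, l(s c) odd,
exactly one of p = 0, p + K = N c}.
(4) Q1 = {(c,p) | k < n c, K | p, p + K < N c, l(s c) odd}: local (LOCBASIC, LOCCOMB, LOCFINITE), in blk;
XSHIFT (Q1, m = 16^k): X Q1 * X (sh K Q1) in Gam; sh K Q1 = {(c,p) | k < n c, K | p, 0 < p < N c, l odd};
symmDiff Q1 (sh K Q1) = theta1, so by XSYM X theta1 in Gam.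
-/

namespace OutRF
open Equiv

/-- subsets of `blk` give valid families of 2-windows -/
theorem xe_valid (F : Fam) {θ : Set (F.C × ℕ)} (hθ : θ ⊆ F.blk) : F.Valid 2 θ := by
  constructor
  · intro c p hp
    have h := hθ hp
    have h1 : 16 ∣ p := h.1
    have h2 : p < F.N c := h.2
    have h3 := F.sixteen_dvd_N c
    obtain ⟨a, ha⟩ := h1
    obtain ⟨b, hb⟩ := h3
    omega
  · intro c p q hp hq hpq
    have h1 : 16 ∣ p := (hθ hp).1
    have h2 : 16 ∣ q := (hθ hq).1
    omega

theorem xe_X_empty (hAPP : APP_stmt) (F : Fam) : F.X ∅ = 1 := by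
  have h := hAPP F 2 ∅ (swap 0 1) (xe_valid F (Set.empty_subset _))
  apply F.ev_ext
  intro c w _
  rw [F.ev_one]
  exact h.2 c w (fun p hp => absurd hp (Set.notMem_empty _))

theorem xe_comm (hXSYM : XSYM_stmt) (F : Fam) {a b : Set (F.C × ℕ)} (ha : a ⊆ F.blk)
    (hb : b ⊆ F.blk) : F.X a * F.X b = F.X b * F.X a := by
  rw [← hXSYM F a b ha hb, ← hXSYM F b a hb ha, symmDiff_comm]

open Classical in
/-- the points of `θ` in the component `c`, as a finset -/
noncomputable def xeS (F : Fam) (θ : Set (F.C × ℕ)) (c : F.C) : Finset ℕ :=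
  (Finset.range (F.N c)).filter (fun q => (c, q) ∈ θ)

theorem xe_ncard (F : Fam) {θ : Set (F.C × ℕ)} (hθ : θ ⊆ F.blk) (c : F.C) (P : ℕ → Prop)
    [DecidablePred P] : Set.ncard {q | (c, q) ∈ θ ∧ P q} = ((xeS F θ c).filter P).card := by
  rw [← Set.ncard_coe_finset]
  congr 1
  ext q
  simp only [Finset.coe_filter, xeS, Finset.mem_filter, Finset.mem_range, Set.mem_ofPred_eq]
  constructor
  · rintro ⟨h1, h2⟩
    exact ⟨⟨(hθ h1).2, h1⟩, h2⟩
  · rintro ⟨⟨_, h1⟩, h2⟩
    exact ⟨h1, h2⟩

theorem xe_ncard' (F : Fam) {θ : Set (F.C × ℕ)} (hθ : θ ⊆ F.blk) (c : F.C) :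
    Set.ncard {q | (c, q) ∈ θ} = (xeS F θ c).card := by
  classical
  have h := xe_ncard F hθ c (fun _ => True)
  simpa using h

theorem XEVEN (hAPP : APP_stmt) (hSIGN : SIGN_stmt) (hFINP : FINP_stmt) (hXSYM : XSYM_stmt) (hXSHIFT : XSHIFT_stmt) (hCOUNT : COUNT_stmt) (hLOCMONO : LOCMONO_stmt) (hLOCFINITE : LOCFINITE_stmt) (hLOCCOMB : LOCCOMB_stmt) (hLOCSH : LOCSH_stmt) (hLOCBASIC : LOCBASIC_stmt) : XEVEN_stmt := by
  classical
  intro F θ hθ hloc heven
  obtain ⟨k, hk⟩ := hloc
  obtain ⟨K, hK⟩ : ∃ K, K = 16 ^ (k + 1) := ⟨_, rfl⟩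
  have hKm : K = 16 * 16 ^ k := by rw [hK, pow_succ]; ring
  have hKpos : 0 < K := by rw [hK]; exact Nat.pow_pos (by norm_num)
  have h16K : 16 ∣ K := by rw [hKm]; exact Dvd.intro _ rfl
  have hKN : ∀ c : F.C, k < F.n c → K ∣ F.N c := by
    intro c hc
    rw [hK]
    exact F.pow_dvd_N c (k + 1) hc
  -- splitting off the short components
  let A1 : Set (F.C × ℕ) := {q | q ∈ θ ∧ F.n q.1 ≤ k}
  let A2 : Set (F.C × ℕ) := {q | q ∈ θ ∧ k < F.n q.1}
  have hA1 : A1 ⊆ F.blk := fun q hq => hθ hq.1
  have hA2 : A2 ⊆ F.blk := fun q hq => hθ hq.1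
  have hsplit : symmDiff A1 A2 = θ := by
    ext q
    simp only [A1, A2, Set.mem_symmDiff, Set.mem_ofPred_eq]
    constructor
    · rintro (h | h)
      · exact h.1.1
      · exact h.1.1
    · intro h
      rcases Nat.lt_or_ge k (F.n q.1) with h1 | h1
      · right
        exact ⟨⟨h, h1⟩, fun h2 => by omega⟩
      · left
        exact ⟨⟨h, h1⟩, fun h2 => by omega⟩
  have hXA1 : F.X A1 ∈ F.Gam := by
    refine hFINP F (F.X A1) k ?_ ?_
    · intro c
      have h1 := hSIGN F 2 A1 (swap 0 1) (xe_valid F hA1) c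
      rw [Fam.X, h1]
      have h2 : Even (Set.ncard {p | (c, p) ∈ A1}) := by
        rcases Nat.lt_or_ge k (F.n c) with h3 | h3
        · have : {p | (c, p) ∈ A1} = ∅ := by
            ext p
            simp only [A1, Set.mem_ofPred_eq, Set.mem_empty_iff_false, iff_false]
            intro h; omega
          rw [this, Set.ncard_empty]
          exact Even.zero
        · have : {p | (c, p) ∈ A1} = {p | (c, p) ∈ θ} := by
            ext p
            simp only [A1, Set.mem_ofPred_eq]
            exact ⟨fun h => h.1, fun h => ⟨h, h3⟩⟩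
          rw [this]
          exact heven c
      have h3 : Perm.sign (swap (0 : Fin 2) 1) = -1 := Perm.sign_swap (by decide)
      rw [h3]
      exact h2.neg_one_pow
    · intro c hc
      have h := hAPP F 2 A1 (swap 0 1) (xe_valid F hA1)
      ext x
      have h1 := h.2 c x.1 (fun p hp => by
        have : F.n c ≤ k := hp.2
        omega)
      have h2 := F.ev_of_lt (F.app 2 A1 (swap 0 1)) c x.1 x.2
      rw [h1] at h2
      exact h2.symm
  -- one residue after the other
  let U : ℕ → Set (F.C × ℕ) := fun n => {q | q ∈ A2 ∧ q.2 % K < 16 * n}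
  let V : ℕ → Set (F.C × ℕ) := fun n => {q | k < F.n q.1 ∧ K ∣ q.2 ∧ q.2 < F.N q.1 ∧
    Odd (Set.ncard {x | (q.1, x) ∈ θ ∧ q.2 ≤ x ∧ x < q.2 + 16 * n})}
  have hUb : ∀ n, U n ⊆ F.blk := fun n q hq => hA2 hq.1
  have hVb : ∀ n, V n ⊆ F.blk := fun n q hq => ⟨dvd_trans h16K hq.2.1, hq.2.2.1⟩
  have hstep : ∀ n, n ≤ 16 ^ k → F.X (U n) * F.X (V n) ∈ F.Gam := by
    intro n
    induction n with
    | zero =>
      intro _
      have e1 : U 0 = ∅ := by
        ext q
        simp [U]
      have e2 : V 0 = ∅ := by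
        ext q
        simp only [V, Set.mem_ofPred_eq, Set.mem_empty_iff_false, iff_false]
        rintro ⟨_, _, _, h⟩
        have : {x | (q.1, x) ∈ θ ∧ q.2 ≤ x ∧ x < q.2 + 16 * 0} = ∅ := by
          ext x
          simp only [Set.mem_ofPred_eq, Set.mem_empty_iff_false, iff_false]
          omega
        rw [this, Set.ncard_empty] at h
        exact absurd h (by decide)
      rw [e1, e2, xe_X_empty hAPP, one_mul]
      exact one_mem _
    | succ n ih =>
      intro hn
      have hn' : 16 * n < K := by rw [hKm]; omega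
      let ψ : Set (F.C × ℕ) := {q | k < F.n q.1 ∧ K ∣ q.2 ∧ q.2 < F.N q.1 ∧ (q.1, q.2 + 16 * n) ∈ θ}
      have hψb : ψ ⊆ F.blk := fun q hq => ⟨dvd_trans h16K hq.2.1, hq.2.2.1⟩
      have hψloc : F.Loc (fun c w => (c, w) ∈ ψ) := by
        have h1 := (hLOCBASIC F).1 (k + 1)
        have h2 := hLOCSH F (fun c w => (c, w) ∈ θ) ((16 * n : ℕ) : ℤ) ⟨k, hk⟩
        have h3 := hLOCCOMB F ℕ Prop Prop _ _ (fun a b => a = 0 ∧ b) h1 h2
        refine hLOCFINITE F Prop _ _ k ?_ h3
        intro c w hc hw
        simp only [ψ, Set.mem_ofPred_eq, eq_iff_iff]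
        constructor
        · rintro ⟨a1, _, a3, a4⟩
          refine ⟨hc, ?_, hw, ?_⟩
          · rw [hK]; exact Nat.dvd_of_mod_eq_zero a1
          · have : ((w : ℤ) + ((16 * n : ℕ) : ℤ)).toNat = w + 16 * n := by omega
            rwa [this] at a4
        · rintro ⟨_, a1, a2, a3⟩
          have hlt : w + 16 * n < F.N c := (hθ a3).2
          refine ⟨?_, by omega, by omega, ?_⟩
          · rw [hK] at a1; exact Nat.mod_eq_zero_of_dvd a1
          · have : ((w : ℤ) + ((16 * n : ℕ) : ℤ)).toNat = w + 16 * n := by omega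
            rw [this]; exact a3
      have hsh := hXSHIFT F ψ n hψb hψloc (fun c p hp => (hθ hp.2.2.2).2)
      have hshb : F.sh (16 * n) ψ ⊆ F.blk := by
        rintro ⟨c, q⟩ ⟨p, hp, hq⟩
        have hq' : q = p + 16 * n := hq
        have h1 := hθ hp.2.2.2
        rw [hq']
        exact h1
      have eU : U (n + 1) = symmDiff (U n) (F.sh (16 * n) ψ) := by
        ext ⟨c, q⟩
        simp only [U, ψ, Fam.sh, A2, Set.mem_symmDiff, Set.mem_ofPred_eq]
        constructor
        · rintro ⟨⟨h1, h2⟩, h3⟩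
          have h4 : 16 ∣ q := (hθ h1).1
          have h5 : 16 ∣ q % K := (Nat.dvd_mod_iff h16K).mpr h4
          by_cases h6 : q % K < 16 * n
          · left
            refine ⟨⟨⟨h1, h2⟩, h6⟩, ?_⟩
            rintro ⟨p, ⟨_, h7, _, _⟩, h8⟩
            obtain ⟨a, ha⟩ := h7
            have : q % K = 16 * n := by
              rw [h8, ha, Nat.mul_add_mod, Nat.mod_eq_of_lt hn']
            omega
          · right
            have h7 : q % K = 16 * n := by omega
            have h8 := Nat.div_add_mod q K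
            refine ⟨⟨K * (q / K), ⟨h2, Dvd.intro _ rfl, ?_, ?_⟩, by omega⟩, fun h => h6 h.2⟩
            · have : q < F.N c := (hθ h1).2
              have := Nat.mul_div_le q K
              omega
            · have : K * (q / K) + 16 * n = q := by omega
              rw [this]; exact h1
        · rintro (⟨⟨⟨h1, h2⟩, h3⟩, _⟩ | ⟨⟨p, ⟨h1, h2, h3, h4⟩, h5⟩, _⟩)
          · exact ⟨⟨h1, h2⟩, by omega⟩
          · obtain ⟨a, ha⟩ := h2
            have : q % K = 16 * n := by
              rw [h5, ha, Nat.mul_add_mod, Nat.mod_eq_of_lt hn']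
            rw [← h5] at h4
            exact ⟨⟨h4, h1⟩, by omega⟩
      have eV : V (n + 1) = symmDiff (V n) ψ := by
        ext ⟨c, p⟩
        have hcard : Set.ncard {x | (c, x) ∈ θ ∧ p ≤ x ∧ x < p + 16 * (n + 1)} =
            Set.ncard {x | (c, x) ∈ θ ∧ p ≤ x ∧ x < p + 16 * n} +
              (if K ∣ p ∧ (c, p + 16 * n) ∈ θ then 1 else 0) ∨ ¬ K ∣ p := by
          by_cases hKp : K ∣ p
          · left
            have h16p : 16 ∣ p := dvd_trans h16K hKp
            rw [xe_ncard F hθ, xe_ncard F hθ]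
            by_cases hin : (c, p + 16 * n) ∈ θ
            · rw [if_pos ⟨hKp, hin⟩]
              have hdec : (xeS F θ c).filter (fun x => p ≤ x ∧ x < p + 16 * (n + 1)) =
                  insert (p + 16 * n) ((xeS F θ c).filter (fun x => p ≤ x ∧ x < p + 16 * n)) := by
                ext x
                simp only [Finset.mem_insert, Finset.mem_filter, xeS, Finset.mem_range]
                constructor
                · rintro ⟨⟨a1, a2⟩, a3, a4⟩
                  have h16 : 16 ∣ x := (hθ a2).1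
                  by_cases h : x < p + 16 * n
                  · exact Or.inr ⟨⟨a1, a2⟩, a3, h⟩
                  · left; omega
                · rintro (rfl | ⟨⟨a1, a2⟩, a3, a4⟩)
                  · exact ⟨⟨(hθ hin).2, hin⟩, by omega, by omega⟩
                  · exact ⟨⟨a1, a2⟩, a3, by omega⟩
              rw [hdec, Finset.card_insert_of_notMem]
              simp only [Finset.mem_filter, not_and, not_lt]
              intro _ _
              exact le_rfl
            · have hdec : (xeS F θ c).filter (fun x => p ≤ x ∧ x < p + 16 * (n + 1)) =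
                  (xeS F θ c).filter (fun x => p ≤ x ∧ x < p + 16 * n) := by
                ext x
                simp only [Finset.mem_filter, xeS, Finset.mem_range]
                constructor
                · rintro ⟨⟨a1, a2⟩, a3, a4⟩
                  have h16 : 16 ∣ x := (hθ a2).1
                  refine ⟨⟨a1, a2⟩, a3, ?_⟩
                  by_contra h
                  have : x = p + 16 * n := by omega
                  rw [this] at a2
                  exact hin a2
                · rintro ⟨⟨a1, a2⟩, a3, a4⟩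
                  exact ⟨⟨a1, a2⟩, a3, by omega⟩
              rw [if_neg (fun h => hin h.2), hdec]
              simp
          · exact Or.inr hKp
        simp only [V, ψ, Set.mem_symmDiff, Set.mem_ofPred_eq]
        rcases hcard with hcard | hKp
        · rw [hcard]
          by_cases hin : K ∣ p ∧ (c, p + 16 * n) ∈ θ
          · rw [if_pos hin, Nat.odd_add_one]
            constructor
            · rintro ⟨a1, a2, a3, a4⟩
              right
              exact ⟨⟨a1, a2, a3, hin.2⟩, fun h => a4 h.2.2.2⟩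
            · rintro (⟨⟨a1, a2, a3, a4⟩, a5⟩ | ⟨⟨a1, a2, a3, a4⟩, a5⟩)
              · exact absurd ⟨a1, a2, a3, hin.2⟩ a5
              · exact ⟨a1, a2, a3, fun h => a5 ⟨a1, a2, a3, h⟩⟩
          · rw [if_neg hin, Nat.add_zero]
            constructor
            · rintro ⟨a1, a2, a3, a4⟩
              left
              exact ⟨⟨a1, a2, a3, a4⟩, fun h => hin ⟨a2, h.2.2.2⟩⟩
            · rintro (⟨h, _⟩ | ⟨⟨a1, a2, a3, a4⟩, _⟩)
              · exact h
              · exact absurd ⟨a2, a4⟩ hin
        · constructor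
          · rintro ⟨_, a2, _⟩
            exact absurd a2 hKp
          · rintro (⟨⟨_, a2, _⟩, _⟩ | ⟨⟨_, a2, _⟩, _⟩)
            · exact absurd a2 hKp
            · exact absurd a2 hKp
      rw [eU, eV, hXSYM F _ _ (hUb n) hshb, hXSYM F _ _ (hVb n) hψb]
      have hcomm : F.X (U n) * F.X (F.sh (16 * n) ψ) * (F.X (V n) * F.X ψ) =
          (F.X (U n) * F.X (V n)) * (F.X ψ * F.X (F.sh (16 * n) ψ)) := by
        have c1 := xe_comm hXSYM F hshb (hVb n)
        have c2 := xe_comm hXSYM F hshb hψb
        calc F.X (U n) * F.X (F.sh (16 * n) ψ) * (F.X (V n) * F.X ψ)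
            = F.X (U n) * (F.X (F.sh (16 * n) ψ) * F.X (V n)) * F.X ψ := by group
          _ = F.X (U n) * (F.X (V n) * F.X (F.sh (16 * n) ψ)) * F.X ψ := by rw [c1]
          _ = F.X (U n) * F.X (V n) * (F.X (F.sh (16 * n) ψ) * F.X ψ) := by group
          _ = (F.X (U n) * F.X (V n)) * (F.X ψ * F.X (F.sh (16 * n) ψ)) := by rw [c2]
      rw [hcomm]
      exact mul_mem (ih (by omega)) hsh
  have hfull := hstep (16 ^ k) le_rfl
  have eUfull : U (16 ^ k) = A2 := by
    ext q
    simp only [U, Set.mem_ofPred_eq]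
    constructor
    · exact fun h => h.1
    · intro h
      refine ⟨h, ?_⟩
      rw [← hKm]
      exact Nat.mod_lt _ hKpos
  rw [eUfull] at hfull
  -- the counting lemma
  obtain ⟨l, r, hlr⟩ := hCOUNT F θ k hk
  rw [← hK] at hlr
  have hpar : ∀ c : F.C, k < F.n c → (l (fun j => F.s c j) + r (fun j => F.s c j)) % 2 = 0 := by
    intro c hc
    obtain ⟨B, hB⟩ := hKN c hc
    have hNpos := F.N_pos c
    have hB0 : 0 < B := by
      rcases Nat.eq_zero_or_pos B with h | h
      · rw [h, Nat.mul_zero] at hB; omega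
      · exact h
    let a : ℕ → ℕ := fun i => Set.ncard {q | (c, q) ∈ θ ∧ K * i ≤ q ∧ q < K * i + K}
    have htot : Set.ncard {q | (c, q) ∈ θ} = ∑ i ∈ Finset.range B, a i := by
      rw [xe_ncard' F hθ, Finset.card_eq_sum_card_fiberwise (f := fun q => q / K)
        (t := Finset.range B)]
      · refine Finset.sum_congr rfl fun i _ => ?_
        simp only [a]
        rw [xe_ncard F hθ]
        congr 1
        ext q
        simp only [Finset.mem_filter]
        refine and_congr_right fun _ => ?_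
        rw [Nat.div_eq_iff hKpos, Nat.mul_comm i K]
        omega
      · intro q hq
        have hq' : q ∈ xeS F θ c := hq
        rw [xeS, Finset.mem_filter, Finset.mem_range, hB] at hq'
        simp only [Finset.coe_range, Set.mem_Iio]
        rw [Nat.div_lt_iff_lt_mul hKpos, Nat.mul_comm]
        exact hq'.1
    have hev := heven c
    rw [htot] at hev
    have hinfo : ∀ i, i < B → _ := fun i (hi : i < B) => hlr c (K * i) hc (Dvd.intro _ rfl)
      (by rw [hB]; exact Nat.mul_lt_mul_of_pos_left hi hKpos)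
    have e0 : ∀ i, K * i + K = F.N c ↔ i + 1 = B := by
      intro i
      rw [hB, ← Nat.mul_succ]
      constructor
      · intro h; exact Nat.eq_of_mul_eq_mul_left hKpos h
      · intro h; rw [← h]
    rcases Nat.lt_or_ge 1 B with hB1 | hB1
    · obtain ⟨B', rfl⟩ : ∃ B', B = B' + 2 := ⟨B - 2, by omega⟩
      rw [Finset.sum_range_succ, Finset.sum_range_succ'] at hev
      have hmid : Even (∑ i ∈ Finset.range B', a (i + 1)) := by
        refine Finset.even_sum _ fun i hi => ?_
        rw [Finset.mem_range] at hi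
        have h1 := (hinfo (i + 1) (by omega)).1
        refine h1 ?_ ?_
        · exact (Nat.mul_pos hKpos (Nat.succ_pos i)).ne'
        · rw [Ne, e0]; omega
      have hfst := (hinfo 0 (by omega)).2.1 (Nat.mul_zero K) (by rw [Ne, e0]; omega)
      have hlst := (hinfo (B' + 1) (by omega)).2.2.1 (Nat.mul_pos hKpos (Nat.succ_pos _)).ne'
        (by rw [e0])
      change (a 0) % 2 = _ at hfst
      change (a (B' + 1)) % 2 = _ at hlst
      rw [Nat.even_iff] at hev hmid
      omega
    · have hB1' : B = 1 := by omega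
      subst hB1'
      rw [Finset.sum_range_one] at hev
      have h := (hinfo 0 (by omega)).2.2.2 (Nat.mul_zero K) (by rw [e0])
      change (a 0) % 2 = _ at h
      rw [Nat.even_iff] at hev
      omega
  -- the remaining set
  let Q1 : Set (F.C × ℕ) := {q | k < F.n q.1 ∧ K ∣ q.2 ∧ q.2 + K < F.N q.1 ∧
    (l (fun j => F.s q.1 j)) % 2 = 1}
  have hQ1b : Q1 ⊆ F.blk := by
    rintro ⟨c, p⟩ ⟨_, h2, h3, _⟩
    exact ⟨dvd_trans h16K h2, lt_of_le_of_lt (Nat.le_add_right p K) h3⟩
  have hQ1loc : F.Loc (fun c w => (c, w) ∈ Q1) := by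
    have h1 := (hLOCBASIC F).1 (k + 1)
    have h2 := (hLOCBASIC F).2.2.1 (K + 1)
    have h3 : F.Loc (fun c (_ : ℕ) => (l (fun j => F.s c j)) % 2) := by
      refine ⟨k, ?_⟩
      intro c c' w w' _ _ _ _ hkey
      have : (fun j : Fin k => F.s c j) = fun j : Fin k => F.s c' j := by
        funext j
        exact hkey.1 j j.2
      simp only [this]
    have h4 := hLOCCOMB F ℕ ℕ Prop _ _ (fun a b => a = 0 ∧ K < b) h1 h2
    have h5 := hLOCCOMB F Prop ℕ Prop _ _ (fun a b => a ∧ b = 1) h4 h3
    refine hLOCFINITE F Prop _ _ k ?_ h5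
    intro c w hc hw
    simp only [Q1, Set.mem_ofPred_eq, eq_iff_iff]
    constructor
    · rintro ⟨⟨a1, a2⟩, a3⟩
      exact ⟨hc, by rw [hK]; exact Nat.dvd_of_mod_eq_zero a1, by omega, a3⟩
    · rintro ⟨_, a1, a2, a3⟩
      rw [hK] at a1
      exact ⟨⟨Nat.mod_eq_zero_of_dvd a1, by omega⟩, a3⟩
  have hXQ := hXSHIFT F Q1 (16 ^ k) hQ1b hQ1loc (fun c p hp => by
    rw [← hKm]; exact hp.2.2.1)
  rw [← hKm] at hXQ
  have hQ2b : F.sh K Q1 ⊆ F.blk := by
    rintro ⟨c, q⟩ ⟨p, hp, hq⟩
    have hq' : q = p + K := hq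
    refine ⟨?_, ?_⟩
    · rw [hq']; exact dvd_add (dvd_trans h16K hp.2.1) h16K
    · rw [hq']; exact hp.2.2.1
  have eVfull : V (16 ^ k) = symmDiff Q1 (F.sh K Q1) := by
    ext ⟨c, p⟩
    simp only [V, Q1, Fam.sh, Set.mem_symmDiff, Set.mem_ofPred_eq]
    rw [← hKm]
    have hshift : (∃ p', (k < F.n c ∧ K ∣ p' ∧ p' + K < F.N c ∧
        (l (fun j => F.s c j)) % 2 = 1) ∧ p = p' + K) ↔ (k < F.n c ∧ K ∣ p ∧ p < F.N c ∧ p ≠ 0 ∧
        (l (fun j => F.s c j)) % 2 = 1) := by
      constructor
      · rintro ⟨p', ⟨a1, a2, a3, a4⟩, rfl⟩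
        exact ⟨a1, (Nat.dvd_add_self_right).mpr a2, a3, by omega, a4⟩
      · rintro ⟨a1, a2, a3, a4, a5⟩
        have h1 : K ≤ p := Nat.le_of_dvd (Nat.pos_of_ne_zero a4) a2
        exact ⟨p - K, ⟨a1, Nat.dvd_sub a2 dvd_rfl, by omega, a5⟩, by omega⟩
    rw [hshift]
    by_cases hc : k < F.n c
    · by_cases hp : K ∣ p
      · by_cases hpN : p < F.N c
        · have hinfo := hlr c p hc hp hpN
          have hpc := hpar c hc
          have hle : p + K ≤ F.N c := by
            obtain ⟨u, hu⟩ := hp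
            obtain ⟨v, hv⟩ := hKN c hc
            rw [hu, hv] at hpN ⊢
            have : u < v := lt_of_mul_lt_mul_left hpN (Nat.zero_le _)
            calc K * u + K = K * (u + 1) := by ring
              _ ≤ K * v := Nat.mul_le_mul le_rfl this
          rw [Nat.odd_iff]
          by_cases h0 : p = 0
          · by_cases h1 : p + K = F.N c
            · have h2 := hinfo.2.2.2 h0 h1
              constructor
              · rintro ⟨_, _, _, h3⟩; omega
              · rintro (⟨⟨_, _, h3, _⟩, _⟩ | ⟨⟨_, _, _, h3, _⟩, _⟩) <;> omega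
            · have h2 := hinfo.2.1 h0 h1
              constructor
              · rintro ⟨_, _, _, h3⟩
                left
                exact ⟨⟨hc, hp, by omega, by omega⟩, fun h => h.2.2.2.1 h0⟩
              · rintro (⟨⟨_, _, _, h3⟩, _⟩ | ⟨⟨_, _, _, h3, _⟩, _⟩)
                · exact ⟨hc, hp, hpN, by omega⟩
                · omega
          · by_cases h1 : p + K = F.N c
            · have h2 := hinfo.2.2.1 h0 h1
              constructor
              · rintro ⟨_, _, _, h3⟩
                right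
                exact ⟨⟨hc, hp, hpN, h0, by omega⟩, fun h => by omega⟩
              · rintro (⟨⟨_, _, h3, _⟩, _⟩ | ⟨⟨_, _, _, _, h3⟩, _⟩)
                · omega
                · exact ⟨hc, hp, hpN, by omega⟩
            · have h2 := hinfo.1 h0 h1
              rw [Nat.even_iff] at h2
              constructor
              · rintro ⟨_, _, _, h3⟩; omega
              · rintro (⟨⟨_, _, _, h3⟩, h4⟩ | ⟨⟨_, _, _, _, h3⟩, h4⟩)
                · exact absurd ⟨hc, hp, hpN, h0, h3⟩ h4
                · exact absurd ⟨hc, hp, by omega, h3⟩ h4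
        · constructor
          · rintro ⟨_, _, h, _⟩; exact absurd h hpN
          · rintro (⟨⟨_, _, h, _⟩, _⟩ | ⟨⟨_, _, h, _⟩, _⟩) <;> omega
      · constructor
        · rintro ⟨_, h, _⟩; exact absurd h hp
        · rintro (⟨⟨_, h, _⟩, _⟩ | ⟨⟨_, h, _⟩, _⟩) <;> exact absurd h hp
    · constructor
      · rintro ⟨h, _⟩; exact absurd h hc
      · rintro (⟨⟨h, _⟩, _⟩ | ⟨⟨h, _⟩, _⟩) <;> exact absurd h hc
  have hXV : F.X (V (16 ^ k)) ∈ F.Gam := by
    rw [eVfull, hXSYM F _ _ hQ1b hQ2b]
    exact hXQ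
  have hXA2 : F.X A2 ∈ F.Gam := by
    have := mul_mem hfull (inv_mem hXV)
    rwa [mul_inv_cancel_right] at this
  rw [← hsplit, hXSYM F _ _ hA1 hA2]
  exact mul_mem hXA1 hXA2

end OutRF
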