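import Pool.Agent.Lib_MP_0c5939_al.Stmts

/-!
# MP_0c5939_al, piece XShift: moving odd blocks

Proof:
X theta * X theta = 1. Case m = 1: theta = theta_0 union theta_1 according to (p / 16) % 2 (local: p % 256 is
local, LOCBASIC, LOCCOMB). For j = 0,1 S = theta_j is F.Valid 18: p + 32 <= N (p + 16 < N, 16 | N), and different
p, q in theta_j differ by >= 32. h = swap 0 1 * swap 16 17 in alternatingGroup (Fin 18). APPG (y = 0):
app 18 theta_j h in Gam, and it equals X theta_j * X (sh 16 theta_j) (IsApp.unique). Now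
X theta * X (sh 16 theta) = (X theta_0 * X (sh 16 theta_0)) * (X theta_1 * X (sh 16 theta_1)): by XSYM all the X commute
and are additive on disjoint sets (sh 16 theta_j are contained in blk). m = 0: X theta * X theta = 1 (XSYM, sh 0 theta =
theta, X of empty = 1). Step m -> m+1: X theta * X (sh (16(m+1)) theta) =
(X theta * X (sh (16 m) theta)) * (X (sh (16 m) theta) * X (sh 16 (sh (16 m) theta))), sh (16 m) theta is local (LOCSH
with v = -16 m), in blk, and satisfies the hypothesis for one more shift.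
-/

namespace OutRF
open Equiv

namespace XShiftAux

theorem isApp_X (hAPP : APP_stmt) (F : Fam) (θ : Set (F.C × ℕ)) (hθ : θ ⊆ F.blk) :
    F.IsApp 2 θ (swap 0 1) (F.X θ) := by
  apply hAPP
  refine ⟨?_, ?_⟩
  · intro c p hp
    have h1 : 16 ∣ p := (hθ hp).1
    have h2 : p < F.N c := (hθ hp).2
    have h3 := F.sixteen_dvd_N c
    omega
  · intro c p q hp hq hpq
    have h1 : 16 ∣ p := (hθ hp).1
    have h2 : 16 ∣ q := (hθ hq).1
    omega

theorem X_in0 (hAPP : APP_stmt) (F : Fam) (θ : Set (F.C × ℕ)) (hθ : θ ⊆ F.blk) (c : F.C) (p : ℕ)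
    (hp : (c, p) ∈ θ) : F.ev (F.X θ) c p = p + 1 := by
  have := (isApp_X hAPP F θ hθ).1 c p hp 0
  simpa using this

theorem X_in1 (hAPP : APP_stmt) (F : Fam) (θ : Set (F.C × ℕ)) (hθ : θ ⊆ F.blk) (c : F.C) (p : ℕ)
    (hp : (c, p) ∈ θ) : F.ev (F.X θ) c (p + 1) = p := by
  have := (isApp_X hAPP F θ hθ).1 c p hp 1
  simpa using this

theorem X_out (hAPP : APP_stmt) (F : Fam) (θ : Set (F.C × ℕ)) (hθ : θ ⊆ F.blk) (c : F.C) (w : ℕ)
    (h : ∀ p, (c, p) ∈ θ → w ≠ p ∧ w ≠ p + 1) : F.ev (F.X θ) c w = w := by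
  apply (isApp_X hAPP F θ hθ).2 c w
  intro p hp hh
  have := h p hp
  omega

theorem X_empty (hAPP : APP_stmt) (F : Fam) : F.X ∅ = 1 := by
  apply F.ev_ext
  intro c w _
  rw [X_out hAPP F ∅ (Set.empty_subset _) c w (fun p hp => absurd hp (by simp)), F.ev_one]

/-- the permutation of `Fin 18` -/
def h18 : Perm (Fin 18) := swap 0 1 * swap 16 17

theorem h18_val : ∀ r : Fin 18, ((h18 r : Fin 18) : ℕ) = if (r : ℕ) = 0 then 1 else if (r : ℕ) = 1 then 0
    else if (r : ℕ) = 16 then 17 else if (r : ℕ) = 17 then 16 else r := by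
  decide

theorem h18_alt : h18 ∈ alternatingGroup (Fin 18) := by
  rw [Perm.mem_alternatingGroup]
  unfold h18
  rw [Perm.sign_mul, Perm.sign_swap (by decide), Perm.sign_swap (by decide)]
  rfl

theorem halfcase (hAPP : APP_stmt) (hAPPG : APPG_stmt) (F : Fam) (θ : Set (F.C × ℕ)) (j : ℕ)
    (hθ : θ ⊆ F.blk) (hl : F.Loc (fun c w => (c, w) ∈ θ)) (hN : ∀ c p, (c, p) ∈ θ → p + 16 < F.N c)
    (hj : ∀ c p, (c, p) ∈ θ → p % 16 ^ 2 / 16 % 2 = j) :
    F.X θ * F.X (F.sh 16 θ) ∈ F.Gam := by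
  have hv : F.Valid 18 θ := by
    refine ⟨?_, ?_⟩
    · intro c p hp
      have h1 : 16 ∣ p := (hθ hp).1
      have h3 := F.sixteen_dvd_N c
      have := hN c p hp
      omega
    · intro c p q hp hq hpq
      have h1 : 16 ∣ p := (hθ hp).1
      have h2 : 16 ∣ q := (hθ hq).1
      have h3 := hj c p hp
      have h4 := hj c q hq
      omega
  have hsh : F.sh 16 θ ⊆ F.blk := by
    rintro ⟨c, w⟩ ⟨p, hp, hw⟩
    have hw' : w = p + 16 := hw
    have h1 : 16 ∣ p := (hθ hp).1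
    have := hN c p hp
    refine ⟨?_, ?_⟩
    · show 16 ∣ w
      omega
    · show w < F.N c
      omega
  have hG : F.app 18 θ h18 ∈ F.Gam := by
    apply hAPPG F 18 θ h18 0 hl _ hv h18_alt
    intro q hq
    have h1 : 16 ∣ q.2 := (hθ hq).1
    omega
  have heq : F.app 18 θ h18 = F.X θ * F.X (F.sh 16 θ) := by
    apply Fam.IsApp.unique (hAPP F 18 θ h18 hv)
    refine ⟨?_, ?_⟩
    · intro c p hp r
      have hp16 : 16 ∣ p := (hθ hp).1
      have hB : (c, p + 16) ∈ F.sh 16 θ := ⟨p, hp, rfl⟩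
      rw [F.ev_mul, h18_val]
      have hr := r.2
      have hA : ∀ q, (c, q) ∈ θ → q = p ∨ q + 32 ≤ p ∨ p + 32 ≤ q := by
        intro q hq
        have h2 : 16 ∣ q := (hθ hq).1
        have h3 := hj c p hp
        have h4 := hj c q hq
        omega
      have hB' : ∀ q, (c, q) ∈ F.sh 16 θ → q = p + 16 ∨ q + 16 ≤ p ∨ p + 48 ≤ q := by
        rintro q ⟨q0, h1, h2⟩
        have h2' : q = q0 + 16 := h2
        have := hA q0 h1
        omega
      by_cases h0 : (r : ℕ) = 0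
      · rw [if_pos h0, h0]
        rw [X_out hAPP F _ hsh c (p + 0) (by intro q hq; have := hB' q hq; omega)]
        exact X_in0 hAPP F θ hθ c p hp
      rw [if_neg h0]
      by_cases h1 : (r : ℕ) = 1
      · rw [if_pos h1, h1]
        rw [X_out hAPP F _ hsh c (p + 1) (by intro q hq; have := hB' q hq; omega)]
        exact X_in1 hAPP F θ hθ c p hp
      rw [if_neg h1]
      by_cases h16 : (r : ℕ) = 16
      · rw [if_pos h16, h16]
        rw [X_in0 hAPP F _ hsh c (p + 16) hB]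
        exact X_out hAPP F θ hθ c (p + 16 + 1) (by intro q hq; have := hA q hq; omega)
      rw [if_neg h16]
      by_cases h17 : (r : ℕ) = 17
      · rw [if_pos h17, h17]
        rw [show p + 17 = (p + 16) + 1 from rfl, X_in1 hAPP F _ hsh c (p + 16) hB]
        exact X_out hAPP F θ hθ c (p + 16) (by intro q hq; have := hA q hq; omega)
      rw [if_neg h17]
      rw [X_out hAPP F _ hsh c (p + r) (by intro q hq; have := hB' q hq; omega)]
      exact X_out hAPP F θ hθ c (p + r) (by intro q hq; have := hA q hq; omega)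
    · intro c w hw
      rw [F.ev_mul]
      rw [X_out hAPP F _ hsh c w ?_]
      · apply X_out hAPP F θ hθ c w
        intro p hp
        have := hw p hp
        omega
      · rintro q ⟨p, hp, hq⟩
        have hq' : q = p + 16 := hq
        have := hw p hp
        omega
  rw [← heq]
  exact hG

theorem stepOne (hAPP : APP_stmt) (hAPPG : APPG_stmt) (hXSYM : XSYM_stmt)
    (hLOCBASIC : LOCBASIC_stmt) (hLOCCOMB : LOCCOMB_stmt) (F : Fam) (θ : Set (F.C × ℕ))
    (hθ : θ ⊆ F.blk) (hl : F.Loc (fun c w => (c, w) ∈ θ)) (hN : ∀ c p, (c, p) ∈ θ → p + 16 < F.N c) :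
    F.X θ * F.X (F.sh 16 θ) ∈ F.Gam := by
  let T : ℕ → Set (F.C × ℕ) := fun j => {q | q ∈ θ ∧ q.2 % 16 ^ 2 / 16 % 2 = j}
  have hT : ∀ j, T j ⊆ θ := fun j q hq => hq.1
  have hTl : ∀ j, F.Loc (fun c w => (c, w) ∈ T j) := fun j =>
    hLOCCOMB F Prop ℕ Prop (fun c w => (c, w) ∈ θ) (fun _ w => w % 16 ^ 2)
      (fun a b => a ∧ b / 16 % 2 = j) hl ((hLOCBASIC F).1 2)
  have hTG : ∀ j, F.X (T j) * F.X (F.sh 16 (T j)) ∈ F.Gam := fun j =>
    halfcase hAPP hAPPG F (T j) j ((hT j).trans hθ) (hTl j) (fun c p hp => hN c p hp.1)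
      (fun c p hp => hp.2)
  have hshb : ∀ A : Set (F.C × ℕ), A ⊆ θ → F.sh 16 A ⊆ F.blk := by
    rintro A hA ⟨c, w⟩ ⟨p, hp, hw⟩
    have hw' : w = p + 16 := hw
    have h1 : 16 ∣ p := (hθ (hA hp)).1
    have := hN c p (hA hp)
    refine ⟨?_, ?_⟩
    · show 16 ∣ w
      omega
    · show w < F.N c
      omega
  have e1 : symmDiff (T 0) (T 1) = θ := by
    ext q
    rw [Set.mem_symmDiff]
    constructor
    · rintro (h | h)
      · exact h.1.1
      · exact h.1.1
    · intro h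
      have : q.2 % 16 ^ 2 / 16 % 2 = 0 ∨ q.2 % 16 ^ 2 / 16 % 2 = 1 := by omega
      rcases this with h2 | h2
      · left
        exact ⟨⟨h, h2⟩, fun h3 => by have := h3.2; omega⟩
      · right
        exact ⟨⟨h, h2⟩, fun h3 => by have := h3.2; omega⟩
  have e2 : symmDiff (F.sh 16 (T 0)) (F.sh 16 (T 1)) = F.sh 16 θ := by
    ext ⟨c, w⟩
    rw [Set.mem_symmDiff]
    constructor
    · rintro (⟨⟨p, hp, hw⟩, _⟩ | ⟨⟨p, hp, hw⟩, _⟩)
      · exact ⟨p, hp.1, hw⟩
      · exact ⟨p, hp.1, hw⟩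
    · rintro ⟨p, hp, hw⟩
      have hw' : w = p + 16 := hw
      have : p % 16 ^ 2 / 16 % 2 = 0 ∨ p % 16 ^ 2 / 16 % 2 = 1 := by omega
      rcases this with h2 | h2
      · left
        refine ⟨⟨p, ⟨hp, h2⟩, hw⟩, ?_⟩
        rintro ⟨p', hp', hw''⟩
        have h3 : w = p' + 16 := hw''
        have h4 : p' % 16 ^ 2 / 16 % 2 = 1 := hp'.2
        have : p' = p := by omega
        subst this
        omega
      · right
        refine ⟨⟨p, ⟨hp, h2⟩, hw⟩, ?_⟩
        rintro ⟨p', hp', hw''⟩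
        have h3 : w = p' + 16 := hw''
        have h4 : p' % 16 ^ 2 / 16 % 2 = 0 := hp'.2
        have : p' = p := by omega
        subst this
        omega
  have b0 := (hT 0).trans hθ
  have b1 := (hT 1).trans hθ
  have s0 := hshb _ (hT 0)
  have s1 := hshb _ (hT 1)
  have c1 : F.X (T 1) * F.X (F.sh 16 (T 0)) = F.X (F.sh 16 (T 0)) * F.X (T 1) := by
    rw [← hXSYM F _ _ b1 s0, ← hXSYM F _ _ s0 b1, symmDiff_comm]
  have e3 : F.X θ * F.X (F.sh 16 θ) =
      (F.X (T 0) * F.X (F.sh 16 (T 0))) * (F.X (T 1) * F.X (F.sh 16 (T 1))) := by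
    rw [← e2, hXSYM F _ _ s0 s1]
    conv_lhs => rw [← e1]
    rw [hXSYM F _ _ b0 b1]
    calc F.X (T 0) * F.X (T 1) * (F.X (F.sh 16 (T 0)) * F.X (F.sh 16 (T 1)))
        = F.X (T 0) * (F.X (T 1) * F.X (F.sh 16 (T 0))) * F.X (F.sh 16 (T 1)) := by
          simp only [mul_assoc]
      _ = (F.X (T 0) * F.X (F.sh 16 (T 0))) * (F.X (T 1) * F.X (F.sh 16 (T 1))) := by
          rw [c1]; simp only [mul_assoc]
  rw [e3]
  exact mul_mem (hTG 0) (hTG 1)

end XShiftAux

open XShiftAux in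
theorem XSHIFT (hAPP : APP_stmt) (hAPPG : APPG_stmt) (hXSYM : XSYM_stmt) (hLOCSH : LOCSH_stmt) (hLOCBASIC : LOCBASIC_stmt) (hLOCCOMB : LOCCOMB_stmt) : XSHIFT_stmt := by
  intro F θ m hθ hl
  have hXX : ∀ A : Set (F.C × ℕ), A ⊆ F.blk → F.X A * F.X A = 1 := by
    intro A hA
    rw [← hXSYM F A A hA hA, symmDiff_self]
    exact X_empty hAPP F
  induction m with
  | zero =>
    intro _
    have : F.sh (16 * 0) θ = θ := by
      ext ⟨c, w⟩
      constructor
      · rintro ⟨p, hp, hw⟩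
        have hw' : w = p := hw
        rw [hw']
        exact hp
      · intro h
        exact ⟨w, h, rfl⟩
    rw [this, hXX θ hθ]
    exact one_mem _
  | succ m ih =>
    intro hN
    have hN' : ∀ c p, (c, p) ∈ θ → p + 16 * m < F.N c := by
      intro c p hp
      have := hN c p hp
      omega
    have h1 := ih hN'
    have hb : F.sh (16 * m) θ ⊆ F.blk := by
      rintro ⟨c, w⟩ ⟨p, hp, hw⟩
      have hw' : w = p + 16 * m := hw
      have h1 : 16 ∣ p := (hθ hp).1
      have := hN' c p hp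
      refine ⟨?_, ?_⟩
      · show 16 ∣ w
        omega
      · show w < F.N c
        omega
    have hl' : F.Loc (fun c w => (c, w) ∈ F.sh (16 * m) θ) := by
      have h2 := hLOCSH F (fun c w => (c, w) ∈ θ) (-(16 * m : ℕ) : ℤ) hl
      have e : (fun (c : F.C) (w : ℕ) => (c, w) ∈ F.sh (16 * m) θ) =
          (fun (c : F.C) (w : ℕ) => 0 ≤ (w : ℤ) + (-(16 * m : ℕ) : ℤ) ∧ (w : ℤ) + (-(16 * m : ℕ) : ℤ) < F.N c ∧
            (c, ((w : ℤ) + (-(16 * m : ℕ) : ℤ)).toNat) ∈ θ) := by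
        funext c w
        apply propext
        constructor
        · rintro ⟨p, hp, hw⟩
          have hw' : w = p + 16 * m := hw
          have h2 : p < F.N c := (hθ hp).2
          have h3 : ((w : ℤ) + (-(16 * m : ℕ) : ℤ)).toNat = p := by omega
          refine ⟨by omega, by omega, ?_⟩
          rw [h3]
          exact hp
        · rintro ⟨h2, h3, h4⟩
          refine ⟨((w : ℤ) + (-(16 * m : ℕ) : ℤ)).toNat, h4, ?_⟩
          show w = ((w : ℤ) + (-(16 * m : ℕ) : ℤ)).toNat + 16 * m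
          omega
      rw [e]
      exact h2
    have h2 := stepOne hAPP hAPPG hXSYM hLOCBASIC hLOCCOMB F (F.sh (16 * m) θ) hb hl' (by
      rintro c w ⟨p, hp, hw⟩
      have hw' : w = p + 16 * m := hw
      have := hN c p hp
      omega)
    have e : F.sh 16 (F.sh (16 * m) θ) = F.sh (16 * (m + 1)) θ := by
      ext ⟨c, w⟩
      constructor
      · rintro ⟨p, ⟨p', hp', hw'⟩, hw⟩
        have hw1 : w = p + 16 := hw
        have hw2 : p = p' + 16 * m := hw'
        refine ⟨p', hp', ?_⟩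
        show w = p' + 16 * (m + 1)
        omega
      · rintro ⟨p, hp, hw⟩
        have hw1 : w = p + 16 * (m + 1) := hw
        refine ⟨p + 16 * m, ⟨p, hp, rfl⟩, ?_⟩
        show w = p + 16 * m + 16
        omega
    rw [e] at h2
    have h3 := mul_mem h1 h2
    have e3 : F.X θ * F.X (F.sh (16 * m) θ) * (F.X (F.sh (16 * m) θ) * F.X (F.sh (16 * (m + 1)) θ)) =
        F.X θ * F.X (F.sh (16 * (m + 1)) θ) := by
      calc F.X θ * F.X (F.sh (16 * m) θ) * (F.X (F.sh (16 * m) θ) * F.X (F.sh (16 * (m + 1)) θ))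
          = F.X θ * (F.X (F.sh (16 * m) θ) * F.X (F.sh (16 * m) θ)) * F.X (F.sh (16 * (m + 1)) θ) := by
            simp only [mul_assoc]
        _ = F.X θ * F.X (F.sh (16 * (m + 1)) θ) := by
            rw [hXX _ hb, mul_one]
    rw [e3] at h3
    exact h3

end OutRF
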