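import Pool.Agent.Lib_MP_0c5939_al.Stmts

/-!
# MP_0c5939_al, piece XSym: X is additive

Proof:
X theta is the product of the transpositions (p, p+1), p in theta (16 | p, p + 2 <= N c as 16 | N c; windows
disjoint, F.Valid 2). X theta * X theta' acts on the window p: swap or identity, composed: for p in both the
square of the swap is 1. So it satisfies IsApp 2 (symmDiff theta theta') (swap 0 1); IsApp.unique. Treat the
points outside all windows of the symmetric difference: either outside both or in a window of both.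
-/

namespace OutRF
open Equiv

theorem XSym_valid (F : Fam) (θ : Set (F.C × ℕ)) (hθ : θ ⊆ F.blk) : F.Valid 2 θ := by
  constructor
  · intro c p hp
    have h1 := hθ hp
    have h2 : 16 ∣ p := h1.1
    have h3 : p < F.N c := h1.2
    have h4 := F.sixteen_dvd_N c
    omega
  · intro c p q hp hq hpq
    have h1 : 16 ∣ p := (hθ hp).1
    have h2 : 16 ∣ q := (hθ hq).1
    omega

theorem XSym_ev (hAPP : APP_stmt) (F : Fam) (θ : Set (F.C × ℕ)) (hθ : θ ⊆ F.blk) (c : F.C) :
    (∀ p, (c, p) ∈ θ → F.ev (F.X θ) c p = p + 1) ∧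
    (∀ p, (c, p) ∈ θ → F.ev (F.X θ) c (p + 1) = p) ∧
    (∀ w, (c, w) ∉ θ → (∀ p, w = p + 1 → (c, p) ∉ θ) → F.ev (F.X θ) c w = w) := by
  have H := hAPP F 2 θ (swap 0 1) (XSym_valid F θ hθ)
  have H1 := H.1
  have H2 := H.2
  refine ⟨?_, ?_, ?_⟩
  · intro p hp
    have := H1 c p hp 0
    simpa [Fam.X] using this
  · intro p hp
    have := H1 c p hp 1
    simpa [Fam.X] using this
  · intro w h1 h2
    apply H2 c w
    intro p hp hh
    have : w = p ∨ w = p + 1 := by omega
    rcases this with h | h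
    · rw [h] at h1; exact h1 hp
    · exact h2 p h hp

theorem XSYM (hAPP : APP_stmt) : XSYM_stmt := by
  intro F θ θ' hθ hθ'
  have hs : symmDiff θ θ' ⊆ F.blk := by
    intro q hq
    rcases hq with hq | hq
    · exact hθ hq.1
    · exact hθ' hq.1
  apply F.ev_ext
  intro c w _
  rw [F.ev_mul]
  obtain ⟨a1, a2, a3⟩ := XSym_ev hAPP F θ hθ c
  obtain ⟨b1, b2, b3⟩ := XSym_ev hAPP F θ' hθ' c
  obtain ⟨s1, s2, s3⟩ := XSym_ev hAPP F (symmDiff θ θ') hs c
  have hd : ∀ p, (c, p) ∈ θ → 16 ∣ p := fun p hp => (hθ hp).1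
  have hd' : ∀ p, (c, p) ∈ θ' → 16 ∣ p := fun p hp => (hθ' hp).1
  have hm : ∀ p, (c, p) ∈ symmDiff θ θ' ↔ ((c, p) ∈ θ ∧ (c, p) ∉ θ') ∨ ((c, p) ∈ θ' ∧ (c, p) ∉ θ) :=
    fun p => Iff.rfl
  by_cases h0 : 16 ∣ w
  · -- w is a possible left end
    have n1 : ∀ p, w = p + 1 → (c, p) ∉ θ := fun p hp hh => by have := hd p hh; omega
    have n2 : ∀ p, w = p + 1 → (c, p) ∉ θ' := fun p hp hh => by have := hd' p hh; omega
    have n3 : ∀ p, w = p + 1 → (c, p) ∉ symmDiff θ θ' := by
      intro p hp hh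
      rcases (hm p).1 hh with h | h
      · exact n1 p hp h.1
      · exact n2 p hp h.1
    have m1 : (c, w + 1) ∉ θ := fun hh => by have := hd _ hh; omega
    by_cases k1 : (c, w) ∈ θ
    · by_cases k2 : (c, w) ∈ θ'
      · rw [b1 w k2, a2 w k1]
        apply s3 w _ n3
        rw [hm]; tauto
      · rw [b3 w k2 n2, a1 w k1]
        apply s1 w
        rw [hm]; tauto
    · by_cases k2 : (c, w) ∈ θ'
      · rw [b1 w k2, a3 (w + 1) m1 (fun p hp hh => k1 (by
          have : p = w := by omega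
          rwa [this] at hh))]
        apply s1 w
        rw [hm]; tauto
      · rw [b3 w k2 n2, a3 w k1 n1]
        apply s3 w _ n3
        rw [hm]; tauto
  · have m1 : (c, w) ∉ θ := fun hh => h0 (hd _ hh)
    have m2 : (c, w) ∉ θ' := fun hh => h0 (hd' _ hh)
    have m3 : (c, w) ∉ symmDiff θ θ' := by rw [hm]; tauto
    by_cases hw : w = 0
    · subst hw; exact absurd (dvd_zero 16) h0
    obtain ⟨p, rfl⟩ : ∃ p, w = p + 1 := ⟨w - 1, by omega⟩
    have inj : ∀ q, p + 1 = q + 1 → q = p := fun q hq => by omega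
    by_cases k1 : (c, p) ∈ θ
    · have hp := hd p k1
      have n1 : ∀ q, p = q + 1 → (c, q) ∉ θ := fun q hq hh => by have := hd q hh; omega
      by_cases k2 : (c, p) ∈ θ'
      · rw [b2 p k2, a1 p k1]
        apply s3 _ m3
        intro q hq hh
        rw [inj q hq] at hh
        rw [hm] at hh; tauto
      · rw [b3 (p + 1) m2 (fun q hq hh => k2 (by rwa [inj q hq] at hh)), a2 p k1]
        apply s2 p
        rw [hm]; tauto
    · by_cases k2 : (c, p) ∈ θ'
      · have hp := hd' p k2
        have n1 : ∀ q, p = q + 1 → (c, q) ∉ θ := fun q hq hh => by have := hd q hh; omega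
        rw [b2 p k2, a3 p k1 n1]
        apply s2 p
        rw [hm]; tauto
      · rw [b3 (p + 1) m2 (fun q hq hh => k2 (by rwa [inj q hq] at hh)),
          a3 (p + 1) m1 (fun q hq hh => k1 (by rwa [inj q hq] at hh))]
        apply s3 _ m3
        intro q hq hh
        rw [inj q hq] at hh
        rw [hm] at hh; tauto

end OutRF
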