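import Pool.Agent.Lib_MP_0c5939_al.Stmts2

namespace OutRF
open Equiv

section C3
variable {α : Type} [DecidableEq α]

/-- the 3-cycle a → b → c → a -/
def z3 (a b c : α) : Perm α := swap a b * swap b c

theorem z3_1 {a b c : α} (hab : a ≠ b) (hac : a ≠ c) : z3 a b c a = b := by
  simp [z3, swap_apply_of_ne_of_ne hab hac]

theorem z3_2 {a b c : α} (hac : a ≠ c) (hbc : b ≠ c) : z3 a b c b = c := by
  simp [z3, swap_apply_of_ne_of_ne hac.symm hbc.symm]

theorem z3_3 {a b c : α} : z3 a b c c = a := by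
  simp [z3]

theorem z3_of {a b c x : α} (h1 : x ≠ a) (h2 : x ≠ b) (h3 : x ≠ c) : z3 a b c x = x := by
  simp [z3, swap_apply_of_ne_of_ne h2 h3, swap_apply_of_ne_of_ne h1 h2]

theorem z3_rot {a b c : α} (hab : a ≠ b) (hac : a ≠ c) (hbc : b ≠ c) : z3 a b c = z3 b c a := by
  ext x
  by_cases h1 : x = a
  · subst h1; rw [z3_1 hab hac, z3_3]
  by_cases h2 : x = b
  · subst h2; rw [z3_2 hac hbc, z3_1 hbc hab.symm]
  by_cases h3 : x = c
  · subst h3; rw [z3_3, z3_2 hab.symm hac.symm]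
  rw [z3_of h1 h2 h3, z3_of h2 h3 h1]

theorem z3_form [Fintype α] {t : Perm α} (ht : t.IsThreeCycle) {a : α} (ha : t a ≠ a) :
    a ≠ t a ∧ a ≠ t (t a) ∧ t a ≠ t (t a) ∧ t = z3 a (t a) (t (t a)) := by
  have h3 : t ^ 3 = 1 := by rw [← ht.orderOf]; exact pow_orderOf_eq_one t
  have h3' : ∀ x, t (t (t x)) = x := by
    intro x
    have := congrArg (fun p : Perm α => p x) h3
    simpa [pow_succ, Perm.mul_apply] using this
  have hab : a ≠ t a := ha.symm
  have hbc : t a ≠ t (t a) := fun h => hab (t.injective h)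
  have hac : a ≠ t (t a) := by
    intro h
    apply ha
    have := h3' a
    rw [← h] at this
    exact this
  refine ⟨hab, hac, hbc, ?_⟩
  have hsupp : t.support = {a, t a, t (t a)} := by
    symm
    apply Finset.eq_of_subset_of_card_le
    · intro x hx
      simp only [Finset.mem_insert, Finset.mem_singleton] at hx
      rw [Perm.mem_support]
      rcases hx with rfl | rfl | rfl
      · exact ha
      · exact fun h => ha (t.injective h)
      · exact fun h => ha (t.injective (t.injective h))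
    · rw [ht.card_support, Finset.card_eq_three.2 ⟨a, t a, t (t a), hab, hac, hbc, rfl⟩]
  ext x
  by_cases h1 : x = a
  · subst h1; rw [z3_1 hab hac]
  by_cases h2 : x = t a
  · subst h2; rw [z3_2 hac hbc]
  by_cases h4 : x = t (t a)
  · subst h4; rw [z3_3, h3']
  rw [z3_of h1 h2 h4]
  have : x ∉ t.support := by rw [hsupp]; simp [h1, h2, h4]
  exact Perm.notMem_support.1 this

theorem z3_exists [Fintype α] {t : Perm α} (ht : t.IsThreeCycle) :
    ∃ a b c, a ≠ b ∧ a ≠ c ∧ b ≠ c ∧ t = z3 a b c := by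
  obtain ⟨a, ha, _⟩ := ht.isCycle
  obtain ⟨h1, h2, h3, h4⟩ := z3_form ht ha
  exact ⟨a, t a, t (t a), h1, h2, h3, h4⟩

theorem z3_isThreeCycle [Fintype α] {a b c : α} (hab : a ≠ b) (hac : a ≠ c) (hbc : b ≠ c) :
    (z3 a b c).IsThreeCycle := by
  unfold z3
  rw [swap_comm a b]
  exact Perm.isThreeCycle_swap_mul_swap_same hab.symm hbc hac

end C3

set_option linter.unusedSimpArgs false

theorem tc1_pt {α : Type} (p : Perm α) (h : ∀ x, p x = x) : p = 1 := by
  ext x; exact h x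

theorem ztc_disj {α : Type} [DecidableEq α] {a b c a' b' c' : α} (hab : a ≠ b) (hac : a ≠ c)
    (hbc : b ≠ c) (hab' : a' ≠ b') (hac' : a' ≠ c') (hbc' : b' ≠ c')
    (h1 : a ≠ a') (h2 : a ≠ b') (h3 : a ≠ c') (h4 : b ≠ a') (h5 : b ≠ b') (h6 : b ≠ c')
    (h7 : c ≠ a') (h8 : c ≠ b') (h9 : c ≠ c') : (z3 a b c * z3 a' b' c') ^ 3 = 1 := by
  apply tc1_pt
  intro x
  by_cases e1 : x = a
  · subst e1
    simp [pow_succ, z3_1, z3_2, z3_3, z3_of, *]
  by_cases e2 : x = b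
  · subst e2
    simp [pow_succ, z3_1, z3_2, z3_3, z3_of, *, Ne.symm]
  by_cases e3 : x = c
  · subst e3
    simp [pow_succ, z3_1, z3_2, z3_3, z3_of, *, Ne.symm]
  by_cases e4 : x = a'
  · subst e4
    simp [pow_succ, z3_1, z3_2, z3_3, z3_of, *, Ne.symm]
  by_cases e5 : x = b'
  · subst e5
    simp [pow_succ, z3_1, z3_2, z3_3, z3_of, *, Ne.symm]
  by_cases e6 : x = c'
  · subst e6
    simp [pow_succ, z3_1, z3_2, z3_3, z3_of, *, Ne.symm]
  simp [pow_succ, z3_of, *]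

/-- (a b c)^2 has order 3 -/
theorem ztc_same {α : Type} [DecidableEq α] {a b c : α} (hab : a ≠ b) (hac : a ≠ c)
    (hbc : b ≠ c) : (z3 a b c * z3 a b c) ^ 3 = 1 := by
  apply tc1_pt
  intro x
  by_cases e1 : x = a
  · subst e1
    simp [pow_succ, z3_1, z3_2, z3_3, z3_of, *, Ne.symm]
  by_cases e2 : x = b
  · subst e2
    simp [pow_succ, z3_1, z3_2, z3_3, z3_of, *, Ne.symm]
  by_cases e3 : x = c
  · subst e3
    simp [pow_succ, z3_1, z3_2, z3_3, z3_of, *, Ne.symm]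
  simp [pow_succ, z3_of, *]

theorem ztc_inv {α : Type} [DecidableEq α] {a b c : α} (hab : a ≠ b) (hac : a ≠ c)
    (hbc : b ≠ c) : z3 a b c * z3 a c b = 1 := by
  apply tc1_pt
  intro x
  by_cases e1 : x = a
  · subst e1
    simp [z3_1, z3_2, z3_3, z3_of, *, Ne.symm]
  by_cases e2 : x = b
  · subst e2
    simp [z3_1, z3_2, z3_3, z3_of, *, Ne.symm]
  by_cases e3 : x = c
  · subst e3
    simp [z3_1, z3_2, z3_3, z3_of, *, Ne.symm]
  simp [z3_of, *]

/-- same direction of the common edge `a → b` -/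
theorem ztc_edge {α : Type} [DecidableEq α] {a b c d : α} (hab : a ≠ b) (hac : a ≠ c)
    (hbc : b ≠ c) (had : a ≠ d) (hbd : b ≠ d) (hcd : c ≠ d) : (z3 a b c * z3 a b d) ^ 2 = 1 := by
  apply tc1_pt
  intro x
  by_cases e1 : x = a
  · subst e1
    simp [pow_succ, z3_1, z3_2, z3_3, z3_of, *, Ne.symm]
  by_cases e2 : x = b
  · subst e2
    simp [pow_succ, z3_1, z3_2, z3_3, z3_of, *, Ne.symm]
  by_cases e3 : x = c
  · subst e3
    simp [pow_succ, z3_1, z3_2, z3_3, z3_of, *, Ne.symm]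
  by_cases e4 : x = d
  · subst e4
    simp [pow_succ, z3_1, z3_2, z3_3, z3_of, *, Ne.symm]
  simp [pow_succ, z3_of, *]

/-- opposite direction of the common edge -/
theorem ztc_opp {α : Type} [DecidableEq α] {a b c d : α} (hab : a ≠ b) (hac : a ≠ c)
    (hbc : b ≠ c) (had : a ≠ d) (hbd : b ≠ d) (hcd : c ≠ d) : (z3 a b c * z3 a d b) ^ 3 = 1 := by
  apply tc1_pt
  intro x
  by_cases e1 : x = a
  · subst e1
    simp [pow_succ, z3_1, z3_2, z3_3, z3_of, *, Ne.symm]
  by_cases e2 : x = b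
  · subst e2
    simp [pow_succ, z3_1, z3_2, z3_3, z3_of, *, Ne.symm]
  by_cases e3 : x = c
  · subst e3
    simp [pow_succ, z3_1, z3_2, z3_3, z3_of, *, Ne.symm]
  by_cases e4 : x = d
  · subst e4
    simp [pow_succ, z3_1, z3_2, z3_3, z3_of, *, Ne.symm]
  simp [pow_succ, z3_of, *]

/-- one common point -/
theorem ztc_one {α : Type} [DecidableEq α] {a b c d e : α} (hab : a ≠ b) (hac : a ≠ c)
    (hbc : b ≠ c) (had : a ≠ d) (hbd : b ≠ d) (hcd : c ≠ d) (hae : a ≠ e) (hbe : b ≠ e)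
    (hce : c ≠ e) (hde : d ≠ e) : (z3 a b c * z3 a d e) ^ 5 = 1 := by
  apply tc1_pt
  intro x
  by_cases e1 : x = a
  · subst e1
    simp [pow_succ, z3_1, z3_2, z3_3, z3_of, *, Ne.symm]
  by_cases e2 : x = b
  · subst e2
    simp [pow_succ, z3_1, z3_2, z3_3, z3_of, *, Ne.symm]
  by_cases e3 : x = c
  · subst e3
    simp [pow_succ, z3_1, z3_2, z3_3, z3_of, *, Ne.symm]
  by_cases e4 : x = d
  · subst e4
    simp [pow_succ, z3_1, z3_2, z3_3, z3_of, *, Ne.symm]
  by_cases e5 : x = e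
  · subst e5
    simp [pow_succ, z3_1, z3_2, z3_3, z3_of, *, Ne.symm]
  simp [pow_succ, z3_of, *]

/-- the cases with a common first point -/
theorem ztc_first {α : Type} [DecidableEq α] {a b c d e : α} (hab : a ≠ b) (hac : a ≠ c)
    (hbc : b ≠ c) (had : a ≠ d) (hae : a ≠ e) (hde : d ≠ e) :
    (z3 a b c * z3 a d e) ^ 3 = 1 ∨ (z3 a b c * z3 a d e) ^ 5 = 1 ∨
      ∃ x y z w, x ≠ y ∧ x ≠ z ∧ y ≠ z ∧ x ≠ w ∧ y ≠ w ∧ z ≠ w ∧
        z3 a b c = z3 x y z ∧ z3 a d e = z3 x y w := by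
  by_cases h1 : d = b
  · subst h1
    by_cases h2 : e = c
    · subst h2
      exact Or.inl (ztc_same hab hac hbc)
    · exact Or.inr (Or.inr ⟨a, d, c, e, hab, hac, hbc, hae, hde, Ne.symm h2, rfl, rfl⟩)
  by_cases h2 : d = c
  · subst h2
    by_cases h3 : e = b
    · subst h3
      exact Or.inl (by rw [ztc_inv hab hac hbc, one_pow])
    · left
      rw [z3_rot hab hac hbc, z3_rot hbc hab.symm hac.symm, z3_rot had hae hde]
      exact ztc_opp hac.symm hbc.symm hab hde hae (Ne.symm h3)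
  by_cases h3 : e = c
  · subst h3
    right; right
    refine ⟨e, a, b, d, hac.symm, hbc.symm, hab, hde.symm, had, Ne.symm h1, ?_, ?_⟩
    · rw [z3_rot hab hac hbc, z3_rot hbc hab.symm hac.symm]
    · rw [z3_rot had hac hde, z3_rot hde had.symm hac.symm]
  by_cases h4 : e = b
  · subst h4
    left
    exact ztc_opp hab hac hbc had (Ne.symm h1) (Ne.symm h2)
  right; left
  exact ztc_one hab hac hbc had (Ne.symm h1) (Ne.symm h2) hae (Ne.symm h4) (Ne.symm h3) hde

theorem ztc_cube {α : Type} [DecidableEq α] [Fintype α] {t : Perm α} (ht : t.IsThreeCycle) :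
    t ^ 3 = 1 := by
  rw [← ht.orderOf]; exact pow_orderOf_eq_one t

/-- all cases -/
theorem ztc_all {α : Type} [DecidableEq α] [Fintype α] {t t' : Perm α} (ht : t.IsThreeCycle)
    (ht' : t'.IsThreeCycle) :
    (t * t') ^ 3 = 1 ∨ (t * t') ^ 5 = 1 ∨
      ∃ x y z w, x ≠ y ∧ x ≠ z ∧ y ≠ z ∧ x ≠ w ∧ y ≠ w ∧ z ≠ w ∧
        t = z3 x y z ∧ t' = z3 x y w := by
  by_cases h : ∃ x, t x ≠ x ∧ t' x ≠ x
  · obtain ⟨x, h1, h2⟩ := h
    obtain ⟨a1, a2, a3, a4⟩ := z3_form ht h1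
    obtain ⟨b1, b2, b3, b4⟩ := z3_form ht' h2
    rcases ztc_first a1 a2 a3 b1 b2 b3 with h | h | h
    · left; rw [a4, b4]; exact h
    · right; left; rw [a4, b4]; exact h
    · right; right
      obtain ⟨x', y, z, w, h1, h2, h3, h4, h5, h6, h7, h8⟩ := h
      exact ⟨x', y, z, w, h1, h2, h3, h4, h5, h6, a4.trans h7, b4.trans h8⟩
  · left
    push Not at h
    have hd : t.Disjoint t' := by
      intro x
      by_cases hx : t x = x
      · exact Or.inl hx
      · exact Or.inr (h x hx)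
    rw [hd.commute.mul_pow, ztc_cube ht, ztc_cube ht', one_mul]

end OutRF
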